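import Pool.Agent.Lib.MP_991c8b_co.Defs

/-!
# C1: circulant rows

crow n a len v = {s(v, v + t) : a < t ≤ a + len}. Key fact: if 1 ≤ t, t' and 2 t < n, 2 t' < n and
s(v, v + t) = s(v', v' + t') then v = v' and t = t'. Proof: either v = v' and v + t = v' + t', then t = t' mod n, so t = t';
or v = v' + t' and v + t = v', so t + t' = 0 mod n, impossible since 0 < t + t' < n. (Values: (v + Fin.ofNat n t).val =
(v.val + t) % n; Fin.ext_iff, omega after splitting the mod.) All claims follow; s(v, v + t) is not a loop as t is not 0 mod n.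
crow_deg: the edges of R at v are among s(v, v + t) and s(v - t, v), 1 ≤ t ≤ D: at most 2 D.
-/

namespace AF

open Finset

theorem C1_val {n : ℕ} [NeZero n] (v : Fin n) (t : ℕ) (ht : t < n) :
    (v + Fin.ofNat n t).val = if v.val + t < n then v.val + t else v.val + t - n := by
  have h1 : (v + Fin.ofNat n t).val = (v.val + t) % n := by
    rw [Fin.val_add]
    show (v.val + t % n) % n = (v.val + t) % n
    rw [Nat.mod_eq_of_lt ht]
  have hv := v.isLt
  rw [h1]
  by_cases h : v.val + t < n
  · rw [if_pos h, Nat.mod_eq_of_lt h]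
  · rw [if_neg h, Nat.mod_eq_sub_mod (by omega), Nat.mod_eq_of_lt (by omega)]

theorem C1_key {n : ℕ} [NeZero n] {v v' : Fin n} {t t' : ℕ} (h1 : 1 ≤ t) (h1' : 1 ≤ t')
    (h2 : 2 * t < n) (h2' : 2 * t' < n)
    (h : s(v, v + Fin.ofNat n t) = s(v', v' + Fin.ofNat n t')) : v = v' ∧ t = t' := by
  have hv := v.isLt
  have hv' := v'.isLt
  rw [Sym2.eq_iff] at h
  rcases h with ⟨h3, h4⟩ | ⟨h3, h4⟩
  · refine ⟨h3, ?_⟩
    subst h3
    have h5 := congrArg Fin.val h4
    rw [C1_val v t (by omega), C1_val v t' (by omega)] at h5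
    split_ifs at h5 <;> omega
  · exfalso
    have h5 := congrArg Fin.val h3
    have h6 := congrArg Fin.val h4
    rw [C1_val v' t' (by omega)] at h5
    rw [C1_val v t (by omega)] at h6
    split_ifs at h5 h6 <;> omega

theorem crow_card {n a len : ℕ} [NeZero n] (v : Fin n) (h : 2 * (a + len) < n) :
    (crow n a len v).card = len := by
  unfold crow
  rw [Finset.card_image_of_injOn]
  · simp
  · intro t ht t' ht' htt
    rw [Finset.mem_coe, Finset.mem_Ioc] at ht ht'
    exact (C1_key (by omega) (by omega) (by omega) (by omega) htt).2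

theorem crow_disj {n a len a' len' : ℕ} [NeZero n] (v v' : Fin n) (h : 2 * (a + len) < n)
    (h' : 2 * (a' + len') < n) (hne : v ≠ v' ∨ a + len ≤ a' ∨ a' + len' ≤ a) :
    Disjoint (crow n a len v) (crow n a' len' v') := by
  rw [Finset.disjoint_left]
  intro e he he'
  unfold crow at he he'
  rw [Finset.mem_image] at he he'
  obtain ⟨t, ht, rfl⟩ := he
  obtain ⟨t', ht', htt⟩ := he'
  rw [Finset.mem_Ioc] at ht ht'
  obtain ⟨h1, h2⟩ := C1_key (by omega) (by omega) (by omega) (by omega) htt
  rcases hne with h3 | h3 | h3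
  · exact h3 h1.symm
  · omega
  · omega

theorem crow_mem {n a len : ℕ} [NeZero n] (v : Fin n) (h : 2 * (a + len) < n)
    (e : Sym2 (Fin n)) (he : e ∈ crow n a len v) : v ∈ e ∧ ¬ e.IsDiag := by
  unfold crow at he
  rw [Finset.mem_image] at he
  obtain ⟨t, ht, rfl⟩ := he
  rw [Finset.mem_Ioc] at ht
  refine ⟨Sym2.mem_mk_left _ _, ?_⟩
  rw [Sym2.mk_isDiag_iff]
  intro hd
  have hv := v.isLt
  have h5 := congrArg Fin.val hd
  rw [C1_val v t (by omega)] at h5
  split_ifs at h5 <;> omega

theorem crow_mono {n a len D : ℕ} [NeZero n] (v : Fin n) (h : a + len ≤ D) :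
    crow n a len v ⊆ crow n 0 D v := by
  unfold crow
  refine Finset.image_subset_image ?_
  intro t ht
  rw [Finset.mem_Ioc] at ht ⊢
  omega

theorem crow_deg {n D : ℕ} [NeZero n] (R : Finset (Sym2 (Fin n)))
    (hR : R ⊆ Finset.univ.biUnion (fun v => crow n 0 D v)) (v : Fin n) : dg R v ≤ 2 * D := by
  have hsub : R.filter (fun e => v ∈ e) ⊆
      (Finset.Ioc 0 D).image (fun t : ℕ => s(v, v + Fin.ofNat n t)) ∪
      (Finset.Ioc 0 D).image (fun t : ℕ => s(v - Fin.ofNat n t, v)) := by
    intro e he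
    rw [Finset.mem_filter] at he
    have h1 := hR he.1
    rw [Finset.mem_biUnion] at h1
    obtain ⟨u, _, hu⟩ := h1
    unfold crow at hu
    rw [Finset.mem_image] at hu
    obtain ⟨t, ht, rfl⟩ := hu
    rw [zero_add] at ht
    rw [Finset.mem_union, Finset.mem_image, Finset.mem_image]
    rcases Sym2.mem_iff.1 he.2 with h2 | h2
    · left
      exact ⟨t, ht, by rw [h2]⟩
    · right
      refine ⟨t, ht, ?_⟩
      have h3 : v - Fin.ofNat n t = u := by rw [h2]; exact add_sub_cancel_right _ _
      rw [h3, h2]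
  unfold dg
  refine (Finset.card_le_card hsub).trans ((Finset.card_union_le _ _).trans ?_)
  have h1 := Finset.card_image_le (s := Finset.Ioc 0 D) (f := fun t : ℕ => s(v, v + Fin.ofNat n t))
  have h2 := Finset.card_image_le (s := Finset.Ioc 0 D) (f := fun t : ℕ => s(v - Fin.ofNat n t, v))
  rw [Nat.card_Ioc] at h1 h2
  omega

end AF
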