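import Mathlib

/-!
# MP_991c8b_co: definitions for the strict biased Avoider-Forcer Hamilton cycle game

Namespace AF. Everything is about finite sets of board elements (type E) or about edge sets
`Finset (Sym2 V)`.
-/

namespace AF

open Finset

/-! ## The game on a general board -/

section Game

variable {E : Type} [DecidableEq E]

/-- Forcer wins the strict (1 : f) game on the board X, Avoider moves first, where Forcer wants the
final set A of Avoider to satisfy T. Positions are (A, F, t), t = true: Avoider to move. -/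
def ForcerWinsOn (f : ℕ) (X : Finset E) (T : Finset E → Prop) : Prop :=
  ∀ S : Set (Finset E × Finset E × Bool),
    (∀ A F : Finset E, ∀ t : Bool, X ⊆ A ∪ F → T A → (A, F, t) ∈ S) →
    (∀ A F : Finset E, (X \ (A ∪ F)).Nonempty →
      (∀ e ∈ X \ (A ∪ F), (insert e A, F, false) ∈ S) → (A, F, true) ∈ S) →
    (∀ A F : Finset E, (X \ (A ∪ F)).Nonempty →
      (∃ B ⊆ X \ (A ∪ F), B.card = min f (X \ (A ∪ F)).card ∧ (A, F ∪ B, true) ∈ S) →
      (A, F, false) ∈ S) →
    ((∅ : Finset E), (∅ : Finset E), true) ∈ S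

/-- A board Y which tolerates K dumps: J d A F is the invariant before a move of Avoider, after d
dumps (a dump: Forcer is forced to claim at most f further elements of Y). -/
structure IsBoard (f K : ℕ) (Y : Finset E) (J : ℕ → Finset E → Finset E → Prop)
    (Good : Finset E → Prop) : Prop where
  init : J 0 ∅ ∅
  move : ∀ d A F e, J d A F → A ⊆ Y → F ⊆ Y → Disjoint A F → e ∈ Y \ (A ∪ F) →
    ∃ B ⊆ Y \ (insert e A ∪ F), B.card = min f (Y \ (insert e A ∪ F)).card ∧
      J d (insert e A) (F ∪ B)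
  dump : ∀ d A F o, d < K → o ≤ f → J d A F → A ⊆ Y → F ⊆ Y → Disjoint A F →
    ∃ B ⊆ Y \ (A ∪ F), B.card = min o (Y \ (A ∪ F)).card ∧ J (d + 1) A (F ∪ B)
  good : ∀ d A F, d ≤ K → J d A F → A ⊆ Y → F ⊆ Y → Disjoint A F → Y ⊆ A ∪ F → Good A

end Game

/-! ## The mixed potential -/

section Mixed

variable {E : Type} [DecidableEq E]

/-- weight of an Avoider element -/
noncomputable def lam (f : ℕ) : ℝ := 1 / (1 + (f : ℝ) / 4)

/-- weight of a Forcer element -/
noncomputable def mu (f : ℕ) : ℝ := 1 / (1 + 1 / (2 * (f : ℝ)))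

/-- the total weight of a family of pairs (P, Q) -/
noncomputable def wt (f : ℕ) (𝓑 : Finset (Finset E × Finset E)) : ℝ :=
  ∑ x ∈ 𝓑, lam f ^ x.1.card * mu f ^ x.2.card

/-- the pairs which are still alive: no P-element is Forcer's, no Q-element is Avoider's -/
def alive (𝓑 : Finset (Finset E × Finset E)) (A F : Finset E) : Finset (Finset E × Finset E) :=
  𝓑.filter (fun x => Disjoint x.1 F ∧ Disjoint x.2 A)

/-- the value of a pair -/
noncomputable def val (f : ℕ) (A F : Finset E) (x : Finset E × Finset E) : ℝ :=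
  lam f ^ (x.1 \ A).card * mu f ^ (x.2 \ F).card

/-- the potential -/
noncomputable def pot (f : ℕ) (𝓑 : Finset (Finset E × Finset E)) (A F : Finset E) : ℝ :=
  ∑ x ∈ alive 𝓑 A F, val f A F x

/-- value of the alive pairs whose first set contains g -/
noncomputable def pp (f : ℕ) (𝓑 : Finset (Finset E × Finset E)) (A F : Finset E) (g : E) : ℝ :=
  ∑ x ∈ (alive 𝓑 A F).filter (fun x => g ∈ x.1), val f A F x

/-- value of the alive pairs whose second set contains g -/
noncomputable def qq (f : ℕ) (𝓑 : Finset (Finset E × Finset E)) (A F : Finset E) (g : E) : ℝ :=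
  ∑ x ∈ (alive 𝓑 A F).filter (fun x => g ∈ x.2), val f A F x

end Mixed

/-! ## Row boards -/

section Rows

variable {V E : Type} [Fintype V] [DecidableEq V] [DecidableEq E]

/-- parameters of a row board: rows O v, bias f, control claims f1 per turn, N1 = bound for the
number of Avoider elements in a row, b = the wanted number, X = bound for the control claims in a
row, K = number of dumps, L = last level -/
structure RP (V E : Type) where
  O : V → Finset E
  f : ℕ
  f1 : ℕ
  N1 : ℕ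
  b : ℕ
  X : ℕ
  K : ℕ
  L : ℕ

def RP.Y (p : RP V E) : Finset E := Finset.univ.biUnion p.O

def RP.H (p : RP V E) : ℕ := p.f1 * p.N1 + p.X

/-- the bounds for the number of active rows at the beginning of the levels -/
def Gl (m f K H : ℕ) : ℕ → ℕ
  | 0 => m
  | l + 1 => ((1 + K) * f + H * Gl m f K H l) / (f + 1)

structure RP.Valid (p : RP V E) : Prop where
  dis : ∀ u v, u ≠ v → Disjoint (p.O u) (p.O v)
  len : ∀ v, (p.O v).card + p.f1 * p.N1 = (p.b + 1) * (p.f + 1)
  hf : 2 * p.f1 ≤ p.f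
  hN : 2 * p.b + 3 ≤ p.N1

/-- the control oracle: C A F x, x v = number of control claims made in the row v -/
structure CtlOK (p : RP V E) (C : Finset E → Finset E → (V → ℕ) → Prop) : Prop where
  init : C ∅ ∅ (fun _ => 0)
  step : ∀ A F x e, C A F x → A ⊆ p.Y → F ⊆ p.Y → Disjoint A F → e ∈ p.Y \ (A ∪ F) →
    (∀ v, (insert e A ∩ p.O v).card < p.N1) →
    ∃ B ⊆ p.Y \ (insert e A ∪ F), B.card ≤ p.f1 ∧
      C (insert e A) (F ∪ B) (fun v => x v + (B ∩ p.O v).card)
  mono : ∀ A F x B, C A F x → B ⊆ p.Y \ (A ∪ F) → C A (F ∪ B) x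
  bound : ∀ A F x v, C A F x → (A ∩ p.O v).card < p.N1 → x v ≤ p.X

/-- state of the bookkeeping: x = control claims, l = level (number of complete collections),
z = dumped elements in the row, col = current collector, Z = its partial collection,
lev = current level, comp = completions at this level, M = number of active rows at its start -/
structure RSt (V : Type) where
  x : V → ℕ
  l : V → ℕ
  z : V → ℕ
  col : Option V
  Z : ℕ
  lev : ℕ
  comp : ℕ
  M : ℕ

/-- the row v is active: it still has free elements -/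
def act (p : RP V E) (A F : Finset E) (v : V) : Prop := (p.O v \ (A ∪ F)).Nonempty

open Classical in
/-- number of active rows -/
noncomputable def nact (p : RP V E) (A F : Finset E) : ℕ :=
  (Finset.univ.filter (fun v => act p A F v)).card

/-- the invariant of a row board, with o pending overflow elements, after d dumps -/
structure ROK (p : RP V E) (C : Finset E → Finset E → (V → ℕ) → Prop) (d o : ℕ)
    (A F : Finset E) (s : RSt V) : Prop where
  hA : A ⊆ p.Y
  hF : F ⊆ p.Y
  hAF : Disjoint A F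
  ctl : C A F s.x
  ub : ∀ v, (F ∩ p.O v).card ≤ p.f * (A ∩ p.O v).card + s.x v + s.z v
  lb : ∀ v, act p A F v → p.f * (A ∩ p.O v).card + s.x v + s.z v ≤
    (F ∩ p.O v).card + p.f1 * (A ∩ p.O v).card
  yb : ∀ v, (A ∩ p.O v).card ≤ 2 * p.b + 2
  zb : ∀ v, s.z v ≤ (s.l v + 1) * (p.f + 1)
  za : ∀ v, act p A F v → s.z v = s.l v * (p.f + 1) + (if s.col = some v then s.Z else 0)
  cola : ∀ c, s.col = some c → act p A F c ∧ (s.lev < p.L → s.l c = s.lev)
  coln : s.col = none → s.Z = 0
  Zb : s.Z ≤ p.f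
  levb : s.lev ≤ p.L
  la : ∀ v, act p A F v → s.lev ≤ s.l v
  l1 : s.lev < p.L → ∀ v, s.l v ≤ s.lev + 1
  l2 : ∀ v, s.l v ≤ s.lev + s.comp
  l3 : (Finset.univ.filter (fun v => s.lev < s.l v)).card ≤ s.comp
  bud : (p.f + 1) * s.comp + s.Z + o + p.H * nact p A F ≤ (1 + d) * p.f + p.H * s.M
  Mb : s.M ≤ Gl (Fintype.card V) p.f p.K p.H s.lev

/-- the invariant of a row board -/
def RJ (p : RP V E) (C : Finset E → Finset E → (V → ℕ) → Prop) (d : ℕ) (A F : Finset E) : Prop :=
  ∃ s : RSt V, ROK p C d 0 A F s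

/-- what a row board guarantees -/
def RGood (p : RP V E) (C : Finset E → Finset E → (V → ℕ) → Prop) (A : Finset E) : Prop :=
  (∃ F x, C A F x ∧ Disjoint A F) ∧ (∀ v, (A ∩ p.O v).card < p.N1) ∧
    ∃ l : V → ℕ, (∀ v, p.b ≤ (A ∩ p.O v).card + l v) ∧
      (Finset.univ.filter (fun v => p.L < l v)).card ≤
        Gl (Fintype.card V) p.f p.K p.H (p.L + 1) ∧
      ∀ v, l v ≤ p.L + Gl (Fintype.card V) p.f p.K p.H (p.L + 1)

end Rows

/-! ## Graphs as edge sets -/

section Graphs

variable {V : Type} [Fintype V] [DecidableEq V]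

/-- neighbours of the vertices of S -/
def nbr (Γ : Finset (Sym2 V)) (S : Finset V) : Finset V :=
  Finset.univ.filter (fun w => ∃ v ∈ S, s(v, w) ∈ Γ)

/-- outer neighbourhood -/
def outn (Γ : Finset (Sym2 V)) (S : Finset V) : Finset V := nbr Γ S \ S

def Expd (Γ : Finset (Sym2 V)) (k : ℕ) : Prop :=
  ∀ S : Finset V, S.Nonempty → S.card ≤ k → 2 * S.card ≤ (outn Γ S).card

def Conn (Γ : Finset (Sym2 V)) : Prop :=
  ∀ S : Finset V, S.Nonempty → S ≠ Finset.univ → (outn Γ S).Nonempty

/-- a path, as a list of vertices -/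
def PathL (Γ : Finset (Sym2 V)) (l : List V) : Prop :=
  l.Nodup ∧ l.IsChain (fun u v => s(u, v) ∈ Γ)

open Classical in
/-- number of vertices of a longest path -/
noncomputable def lng (Γ : Finset (Sym2 V)) : ℕ :=
  Nat.findGreatest (fun m => ∃ l : List V, PathL Γ l ∧ l.length = m) (Fintype.card V)

/-- Hamiltonian cycle, as a list of vertices -/
def HamC (Γ : Finset (Sym2 V)) : Prop :=
  3 ≤ Fintype.card V ∧ ∃ l : List V, ∃ h : l ≠ [], PathL Γ l ∧ l.length = Fintype.card V ∧
    s(l.getLast h, l.head h) ∈ Γ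

open Classical in
/-- the boosters of Γ -/
noncomputable def Boo (Γ : Finset (Sym2 V)) : Finset (Sym2 V) :=
  Finset.univ.filter (fun e => ¬ e.IsDiag ∧ e ∉ Γ ∧
    (HamC (insert e Γ) ∨ lng Γ < lng (insert e Γ)))

def inside (Γ : Finset (Sym2 V)) (X : Finset V) : Finset (Sym2 V) :=
  Γ.filter (fun e => ∀ v ∈ e, v ∈ X)

def touch (Γ : Finset (Sym2 V)) (Z : Finset V) : Finset (Sym2 V) :=
  Γ.filter (fun e => ∃ v ∈ Z, v ∈ e)

def betw (Γ : Finset (Sym2 V)) (A B : Finset V) : Finset (Sym2 V) :=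
  Γ.filter (fun e => ∃ u ∈ A, ∃ v ∈ B, e = s(u, v))

def dg (Γ : Finset (Sym2 V)) (v : V) : ℕ := (Γ.filter (fun e => v ∈ e)).card

end Graphs

/-! ## The main board -/

section MainBoard

/-- edges of the complete graph on Fin n -/
def KE (n : ℕ) : Finset (Sym2 (Fin n)) := (⊤ : SimpleGraph (Fin n)).edgeFinset

noncomputable def Cc (n f : ℕ) : ℝ := (n : ℝ) / (f : ℝ)

/-- degree of the main board, 2^(-17) C -/
noncomputable def dd (n f : ℕ) : ℕ := ⌈Cc n f / 2 ^ 17⌉₊

noncomputable def tt (n f x : ℕ) : ℕ := ⌈Cc n f * x / 2 ^ 22⌉₊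

noncomputable def aa (n : ℕ) : ℕ := ⌈(n : ℝ) / 2 ^ 30⌉₊

noncomputable def jj (n f : ℕ) : ℕ := ⌊Cc n f * aa n / 2 ^ 8⌋₊

noncomputable def mm (n f : ℕ) : ℕ := ⌊Cc n f * n / 2 ^ 14⌋₊

/-- number of exceptional vertices -/
noncomputable def ss (n f : ℕ) : ℕ := ⌊Real.exp (-(3 / 100) * Cc n f) * n⌋₊

variable {n : ℕ}

noncomputable def LSf (f : ℕ) (M : Finset (Sym2 (Fin n))) :
    Finset (Finset (Sym2 (Fin n)) × Finset (Sym2 (Fin n))) :=
  (Finset.univ.filter (fun X : Finset (Fin n) => X.Nonempty ∧ 2 ^ 26 * X.card ≤ n)).biUnion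
    (fun X => ((inside M X).powersetCard (tt n f X.card)).image (fun P => (P, ∅)))

noncomputable def EXf (f : ℕ) (M : Finset (Sym2 (Fin n))) :
    Finset (Finset (Sym2 (Fin n)) × Finset (Sym2 (Fin n))) :=
  ((Finset.univ : Finset (Fin n)).powersetCard (ss n f + 1)).biUnion
    (fun Z => ((touch M Z).powerset.filter (fun P => P.card ≤ dd n f * (ss n f + 1))).image
      (fun P => (P, touch M Z \ P)))

noncomputable def BIf (f : ℕ) (M : Finset (Sym2 (Fin n))) :
    Finset (Finset (Sym2 (Fin n)) × Finset (Sym2 (Fin n))) :=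
  (Finset.univ.filter (fun q : Finset (Fin n) × Finset (Fin n) =>
      q.1.card = aa n ∧ q.2.card = n / 2 ∧ Disjoint q.1 q.2)).biUnion
    (fun q => ((betw M q.1 q.2).powerset.filter (fun P => P.card ≤ jj n f)).image
      (fun P => (P, betw M q.1 q.2 \ P)))

open Classical in
noncomputable def BOf (f r0 : ℕ) (M R : Finset (Sym2 (Fin n))) :
    Finset (Finset (Sym2 (Fin n)) × Finset (Sym2 (Fin n))) :=
  (((M.powerset.filter (fun P => P.card ≤ mm n f)) ×ˢ
      (R.powerset.filter (fun P => P.card ≤ r0))).filter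
    (fun q => Conn (q.1 ∪ q.2) ∧ Expd (q.1 ∪ q.2) (n / 6) ∧ ¬ HamC (q.1 ∪ q.2))).image
      (fun q => (q.1, Boo (q.1 ∪ q.2) ∩ M))

/-- what the main board guarantees: A = the edges of Avoider in the main board -/
structure MGood (n f r0 : ℕ) (R A : Finset (Sym2 (Fin n))) : Prop where
  ls : ∀ X : Finset (Fin n), X.Nonempty → 2 ^ 26 * X.card ≤ n → (inside A X).card < tt n f X.card
  ex : (Finset.univ.filter (fun v => dg A v < dd n f)).card ≤ ss n f
  bi : ∀ A1 B1 : Finset (Fin n), A1.card = aa n → B1.card = n / 2 → Disjoint A1 B1 →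
    jj n f < (betw A A1 B1).card
  bo : ∀ P ⊆ A, P.card ≤ mm n f → ∀ R' ⊆ R, R'.card ≤ r0 → Conn (P ∪ R') →
    Expd (P ∪ R') (n / 6) → ¬ HamC (P ∪ R') → ∃ e ∈ A, e ∈ Boo (P ∪ R')

/-- what the reserve boards guarantee -/
def RX (A R : Finset (Sym2 (Fin n))) (s r0 : ℕ) : Prop :=
  ∀ Ex : Finset (Fin n), Ex.card ≤ s → ∃ R' ⊆ A ∩ R, R'.card ≤ r0 ∧
    ∀ S ⊆ Ex, S.Nonempty → 10 * S.card ≤ (nbr R' S).card

/-- what one reserve board with rows O guarantees -/
structure GoodR (O : Fin n → Finset (Sym2 (Fin n))) (s s' b1 F N1 : ℕ)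
    (A : Finset (Sym2 (Fin n))) : Prop where
  ex : ∀ S : Finset (Fin n), S.Nonempty → S.card ≤ s → (∀ v ∈ S, b1 ≤ (A ∩ O v).card) →
    F * S.card ≤ (Finset.univ.filter (fun w => ∃ v ∈ S, s(v, w) ∈ A ∩ O v)).card
  few : (Finset.univ.filter (fun v => (A ∩ O v).card < b1)).card ≤ s'
  le : ∀ v, (A ∩ O v).card ≤ N1

open Classical in
/-- the bad configurations of a reserve board: S = at most s rows, b1 edges in each of them,
all heads in a set W of F |S| vertices -/
noncomputable def PFam (O : Fin n → Finset (Sym2 (Fin n))) (s b1 F : ℕ) :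
    Finset (Finset (Sym2 (Fin n))) :=
  Finset.univ.filter (fun P => ∃ S W : Finset (Fin n), S.Nonempty ∧ S.card ≤ s ∧
    W.card = F * S.card ∧
    P ⊆ S.biUnion (fun v => (O v).filter (fun e => ∃ w ∈ W, e = s(v, w))) ∧
    ∀ v ∈ S, (P ∩ O v).card = b1)

/-- circulant rows: the edges from v to v + t, t in (a, a + len] -/
def crow (n a len : ℕ) [NeZero n] (v : Fin n) : Finset (Sym2 (Fin n)) :=
  (Finset.Ioc a (a + len)).image (fun t : ℕ => s(v, v + Fin.ofNat n t))

end MainBoard

end AF
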