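import Pool.Agent.Lib.MP_991c8b_co.Defs

/-!
# F1: the four properties of the main board

PROOF. A ⊆ M, and every pair x of the four families with x.1 ⊆ A has an element of x.2 in A.
ls: if tt ≤ |inside A X| choose P ⊆ inside A X with |P| = tt: (P, ∅) ∈ LSf, P ⊆ A, ∅ is disjoint from A: contradiction.
ex: if {v : dg A v < dd} has more than ss elements choose Z in it with |Z| = ss + 1, P = touch A Z ⊆ touch M Z,
|P| ≤ ∑_(v ∈ Z) dg A v ≤ dd (ss + 1) (touch A Z is the union of the edge sets at v ∈ Z), Q = touch M Z \ P is disjoint from A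
(e ∈ touch M Z and e ∈ A give e ∈ touch A Z): contradiction.
bi: if |betw A A1 B1| ≤ jj: P = betw A A1 B1, Q = betw M A1 B1 \ P is disjoint from A: contradiction.
bo: (P, Boo (P ∪ R') ∩ M) ∈ BOf (P ⊆ A ⊆ M), so some e ∈ Boo (P ∪ R') ∩ M is in A.
-/

namespace AF

open Finset

private theorem F1_inside {V : Type} [Fintype V] [DecidableEq V] (Γ : Finset (Sym2 V))
    (X : Finset V) (e : Sym2 V) : e ∈ inside Γ X ↔ e ∈ Γ ∧ ∀ v ∈ e, v ∈ X := by
  unfold inside
  exact mem_filter

private theorem F1_touch {V : Type} [Fintype V] [DecidableEq V] (Γ : Finset (Sym2 V))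
    (Z : Finset V) (e : Sym2 V) : e ∈ touch Γ Z ↔ e ∈ Γ ∧ ∃ v ∈ Z, v ∈ e := by
  unfold touch
  exact mem_filter

private theorem F1_betw {V : Type} [Fintype V] [DecidableEq V] (Γ : Finset (Sym2 V))
    (A B : Finset V) (e : Sym2 V) : e ∈ betw Γ A B ↔ e ∈ Γ ∧ ∃ u ∈ A, ∃ v ∈ B, e = s(u, v) := by
  unfold betw
  exact mem_filter

theorem mgood_of {n : ℕ} (f r0 : ℕ) (M R A : Finset (Sym2 (Fin n))) (hA : A ⊆ M)
    (h : ∀ x ∈ LSf f M ∪ EXf f M ∪ BIf f M ∪ BOf f r0 M R, x.1 ⊆ A → ¬ Disjoint x.2 A) :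
    MGood n f r0 R A := by
  classical
  refine ⟨?_, ?_, ?_, ?_⟩
  · intro X hX hX2
    by_contra hc
    push Not at hc
    obtain ⟨P, hP, hPc⟩ := exists_subset_card_eq hc
    have hPA : P ⊆ A := fun e he => ((F1_inside A X e).mp (hP he)).1
    have hPM : P ⊆ inside M X := by
      intro e he
      have := hP he
      rw [F1_inside] at this ⊢
      exact ⟨hA this.1, this.2⟩
    refine h (P, ∅) ?_ hPA (disjoint_empty_left _)
    refine mem_union_left _ (mem_union_left _ (mem_union_left _ ?_))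
    unfold LSf
    rw [mem_biUnion]
    refine ⟨X, mem_filter.mpr ⟨mem_univ _, hX, hX2⟩, ?_⟩
    rw [mem_image]
    exact ⟨P, mem_powersetCard.mpr ⟨hPM, hPc⟩, rfl⟩
  · by_contra hc
    push Not at hc
    obtain ⟨Z, hZ, hZc⟩ := exists_subset_card_eq (Nat.succ_le_of_lt hc)
    have hsub : touch A Z ⊆ touch M Z := by
      intro e he
      rw [F1_touch] at he ⊢
      exact ⟨hA he.1, he.2⟩
    have hcard : (touch A Z).card ≤ dd n f * (ss n f + 1) := by
      have h1 : touch A Z ⊆ Z.biUnion (fun v => A.filter (fun e => v ∈ e)) := by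
        intro e he
        rw [F1_touch] at he
        obtain ⟨h2, v, hv, hve⟩ := he
        rw [mem_biUnion]
        exact ⟨v, hv, mem_filter.mpr ⟨h2, hve⟩⟩
      calc (touch A Z).card ≤ (Z.biUnion (fun v => A.filter (fun e => v ∈ e))).card :=
            card_le_card h1
        _ ≤ ∑ v ∈ Z, (A.filter (fun e => v ∈ e)).card := card_biUnion_le
        _ ≤ ∑ _v ∈ Z, dd n f := by
            apply Finset.sum_le_sum
            intro v hv
            have := (mem_filter.mp (hZ hv)).2
            unfold dg at this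
            exact this.le
        _ = dd n f * (ss n f + 1) := by
            rw [Finset.sum_const, smul_eq_mul, hZc, mul_comm]
    refine h (touch A Z, touch M Z \ touch A Z) ?_
      (fun e he => ((F1_touch A Z e).mp he).1) ?_
    · refine mem_union_left _ (mem_union_left _ (mem_union_right _ ?_))
      unfold EXf
      rw [mem_biUnion]
      refine ⟨Z, mem_powersetCard.mpr ⟨subset_univ _, hZc⟩, ?_⟩
      rw [mem_image]
      exact ⟨touch A Z, mem_filter.mpr ⟨mem_powerset.mpr hsub, hcard⟩, rfl⟩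
    · rw [Finset.disjoint_left]
      intro e he heA
      rw [mem_sdiff] at he
      apply he.2
      have h3 := he.1
      rw [F1_touch] at h3 ⊢
      exact ⟨heA, h3.2⟩
  · intro A1 B1 h1 h2 h3
    by_contra hc
    push Not at hc
    have hsub : betw A A1 B1 ⊆ betw M A1 B1 := by
      intro e he
      rw [F1_betw] at he ⊢
      exact ⟨hA he.1, he.2⟩
    refine h (betw A A1 B1, betw M A1 B1 \ betw A A1 B1) ?_
      (fun e he => ((F1_betw A A1 B1 e).mp he).1) ?_
    · refine mem_union_left _ (mem_union_right _ ?_)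
      unfold BIf
      rw [mem_biUnion]
      refine ⟨(A1, B1), mem_filter.mpr ⟨mem_univ _, h1, h2, h3⟩, ?_⟩
      rw [mem_image]
      exact ⟨betw A A1 B1, mem_filter.mpr ⟨mem_powerset.mpr hsub, hc⟩, rfl⟩
    · rw [Finset.disjoint_left]
      intro e he heA
      rw [mem_sdiff] at he
      apply he.2
      have h4 := he.1
      rw [F1_betw] at h4 ⊢
      exact ⟨heA, h4.2⟩
  · intro P hP hPc R' hR' hR'c h1 h2 h3
    have h4 := h (P, Boo (P ∪ R') ∩ M) (by
      refine mem_union_right _ ?_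
      unfold BOf
      rw [mem_image]
      refine ⟨(P, R'), mem_filter.mpr ⟨mem_product.mpr ⟨?_, ?_⟩, h1, h2, h3⟩, rfl⟩
      · exact mem_filter.mpr ⟨mem_powerset.mpr (hP.trans hA), hPc⟩
      · exact mem_filter.mpr ⟨mem_powerset.mpr hR', hR'c⟩) hP
    rw [Finset.not_disjoint_iff] at h4
    obtain ⟨e, he, heA⟩ := h4
    exact ⟨e, heA, (mem_inter.mp he).1⟩

end AF
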