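import Pool.Agent.Lib.MP_991c8b_co.Defs

/-!
# G1: a strategy from an invariant

PROOF. Let S be closed under the three rules. Claim: for every m and all A, F with Inv A F and
(X \ (A ∪ F)).card = m we have (A, F, true) ∈ S. Strong induction on m.
If X \ (A ∪ F) = ∅ then X ⊆ A ∪ F, T A by hT, so (A, F, true) ∈ S by the first rule.
Otherwise use the second rule: let e be free. Take B from hstep. If X \ (insert e A ∪ F) = ∅ then
B = ∅ (subset of the empty set), Inv (insert e A) (F ∪ ∅), X ⊆ insert e A ∪ F, so T (insert e A)
and the first rule gives (insert e A, F, false) ∈ S. Otherwise the third rule with B: it remains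
(insert e A, F ∪ B, true) ∈ S, which is the induction hypothesis, because the new free set is a
proper subset of the old one (e is missing). Apply the claim to A = F = ∅.
-/

namespace AF

open Finset

variable {E : Type} [DecidableEq E]

theorem win_of_inv (f : ℕ) (X : Finset E) (T : Finset E → Prop)
    (Inv : Finset E → Finset E → Prop) (h0 : Inv ∅ ∅)
    (hstep : ∀ A F e, Inv A F → e ∈ X \ (A ∪ F) →
      ∃ B ⊆ X \ (insert e A ∪ F), B.card = min f (X \ (insert e A ∪ F)).card ∧
        Inv (insert e A) (F ∪ B))
    (hT : ∀ A F, Inv A F → X ⊆ A ∪ F → T A) : ForcerWinsOn f X T := by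
  intro S h1 h2 h3
  have key : ∀ m : ℕ, ∀ A F : Finset E, Inv A F → (X \ (A ∪ F)).card = m → (A, F, true) ∈ S := by
    intro m
    induction m using Nat.strong_induction_on with
    | _ m ih =>
      intro A F hI hm
      by_cases hne : (X \ (A ∪ F)).Nonempty
      · refine h2 A F hne ?_
        intro e he
        obtain ⟨B, hB, hBc, hBI⟩ := hstep A F e hI he
        by_cases hne2 : (X \ (insert e A ∪ F)).Nonempty
        · refine h3 (insert e A) F hne2 ⟨B, hB, hBc, ?_⟩
          refine ih (X \ (insert e A ∪ (F ∪ B))).card ?_ (insert e A) (F ∪ B) hBI rfl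
          rw [← hm]
          refine Finset.card_lt_card ?_
          rw [Finset.ssubset_iff_of_subset]
          · refine ⟨e, he, ?_⟩
            intro hc
            rw [mem_sdiff] at hc
            exact hc.2 (mem_union_left _ (mem_insert_self _ _))
          · intro g hg
            rw [mem_sdiff, mem_union] at hg ⊢
            refine ⟨hg.1, ?_⟩
            rintro (hA | hF)
            · exact hg.2 (Or.inl (mem_insert_of_mem hA))
            · exact hg.2 (Or.inr (mem_union_left _ hF))
        · rw [Finset.not_nonempty_iff_eq_empty] at hne2
          rw [hne2, Finset.subset_empty] at hB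
          rw [hB, Finset.union_empty] at hBI
          have hsub : X ⊆ insert e A ∪ F := Finset.sdiff_eq_empty_iff_subset.mp hne2
          exact h1 (insert e A) F false hsub (hT _ _ hBI hsub)
      · rw [Finset.not_nonempty_iff_eq_empty] at hne
        have hsub : X ⊆ A ∪ F := Finset.sdiff_eq_empty_iff_subset.mp hne
        exact h1 A F true hsub (hT _ _ hI hsub)
  exact key _ ∅ ∅ h0 rfl

end AF
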