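import Pool.Agent.Lib.MP_991c8b_co.G1

/-!
# G2: the product theorem for boards

X = disjoint union of the boards Y i, i ∈ I, K = |I|.

PROOF. Use win_of_inv with the invariant Inv A F :
(a) A ⊆ X, F ⊆ X, Disjoint A F,
(b) there is d with d ≤ number of exhausted boards (i with Y i ⊆ A ∪ F) and
    for all i: J i d (A ∩ Y i) (F ∩ Y i),
(c) f * |A| ≤ |F| + f, and if X \ (A ∪ F) is not empty then f * |A| ≤ |F|.
Start: d = 0. End: X ⊆ A ∪ F. Then d ≤ |I| = K, so Good i (A ∩ Y i) for all i by `good`
((A ∩ Y i) ∪ (F ∩ Y i) = Y i), and |A| + |F| = |X|, so (f + 1) |A| ≤ |X| + f by (c).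
Step: Avoider claims e, e ∈ Y i for exactly one i. Let A' = insert e A. For j ≠ i: A' ∩ Y j =
A ∩ Y j, and A' ∩ Y i = insert e (A ∩ Y i). By `move` in the board i we get
B0 ⊆ Y i \ (A' ∪ F), |B0| = min f |Y i \ (A' ∪ F)|, J i d (A' ∩ Y i) ((F ∩ Y i) ∪ B0).
Case 1: |B0| = f. B = B0. All invariants are clear (F ∪ B0) ∩ Y j = F ∩ Y j for j ≠ i, exhausted
boards stay exhausted; |B0| = f = min f |X \ (A' ∪ F)|; (c): f |A'| = f |A| + f ≤ |F| + f = |F ∪ B|.
Case 2: |B0| < f. Then B0 = Y i \ (A' ∪ F) is everything free in the board i (which was not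
exhausted before, as e was free). Let R = X \ (A' ∪ F ∪ B0) be the free elements in the other
boards, o = f - |B0| ≤ f, and choose R' ⊆ R with |R'| = min o |R|. For every board j put
o_j = |R' ∩ Y j| ≤ o ≤ f (o_i = 0), o_j ≤ |Y j \ (A' ∪ F ∪ B0)|. Apply `dump` in EVERY board j
(also in the board i, there with o = 0) to the position (A' ∩ Y j, (F ∪ B0) ∩ Y j), with o_j: get
B_j ⊆ Y j free, |B_j| = min o_j (free) = o_j, and J j (d+1) (A' ∩ Y j) ((F ∪ B0) ∩ Y j ∪ B_j). This is
allowed as d < K: d ≤ number of exhausted boards before the turn < |I| (the board i was not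
exhausted). Let B = B0 ∪ (union of the B_j). Then |B| = |B0| + |R'| = |B0| + min (f - |B0|) |R| =
min f |X \ (A' ∪ F)| (because X \ (A' ∪ F) = B0 ⊔ R). New d is d + 1 ≤ number of exhausted boards
now (all old ones and the board i). (c): if R has at least o elements then |B| = f as in Case 1; otherwise B
is everything, nothing is free any more, and f |A'| ≤ |F| + f ≤ |F ∪ B| + f.
The elements of the boards are disjoint: (F ∪ B) ∩ Y j = ((F ∪ B0) ∩ Y j) ∪ B_j.
-/

namespace AF

open Finset

variable {E : Type} [DecidableEq E]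

private theorem g2_free (Y A F : Finset E) : Y \ (A ∩ Y ∪ F ∩ Y) = Y \ (A ∪ F) := by
  ext x
  simp only [mem_sdiff, mem_union, mem_inter]
  tauto

private theorem g2_count (f : ℕ) (X A F B : Finset E) (e : E) (he : e ∉ A)
    (hB : B ⊆ X \ (insert e A ∪ F)) (hBc : B.card = min f (X \ (insert e A ∪ F)).card)
    (h : f * A.card ≤ F.card) :
    f * (insert e A).card ≤ (F ∪ B).card + f ∧
      ((X \ (insert e A ∪ (F ∪ B))).Nonempty → f * (insert e A).card ≤ (F ∪ B).card) := by
  have hdis : Disjoint F B := by
    rw [disjoint_right]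
    intro x hx hxF
    have := hB hx
    rw [mem_sdiff, mem_union] at this
    exact this.2 (Or.inr hxF)
  rw [card_insert_of_notMem he, card_union_of_disjoint hdis, mul_add, mul_one]
  constructor
  · omega
  · intro hne
    have h1 : B.card = f := by
      by_contra hcon
      have h2 : (X \ (insert e A ∪ F)).card ≤ B.card := by omega
      have h3 := eq_of_subset_of_card_le hB h2
      obtain ⟨x, hx⟩ := hne
      rw [mem_sdiff, mem_union, mem_union, not_or, not_or] at hx
      apply hx.2.2.2
      rw [h3, mem_sdiff, mem_union, not_or]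
      exact ⟨hx.1, hx.2.1, hx.2.2.1⟩
    omega

theorem product {I : Type} [Fintype I] [DecidableEq I] (f : ℕ) (Y : I → Finset E)
    (hY : ∀ i j, i ≠ j → Disjoint (Y i) (Y j))
    (J : I → ℕ → Finset E → Finset E → Prop) (Good : I → Finset E → Prop)
    (hB : ∀ i, IsBoard f (Fintype.card I) (Y i) (J i) (Good i))
    (T : Finset E → Prop)
    (hT : ∀ A, A ⊆ Finset.univ.biUnion Y → (∀ i, Good i (A ∩ Y i)) →
      (f + 1) * A.card ≤ (Finset.univ.biUnion Y).card + f → T A) :
    ForcerWinsOn f (Finset.univ.biUnion Y) T := by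
  set X := Finset.univ.biUnion Y with hX
  have hYX : ∀ i, Y i ⊆ X := fun i => subset_biUnion_of_mem Y (mem_univ i)
  have hYn : ∀ i j x, x ∈ Y i → x ∈ Y j → i = j := by
    intro i j x hi hj
    by_contra hne
    exact (disjoint_left.1 (hY i j hne)) hi hj
  refine win_of_inv f X T (fun A F => A ⊆ X ∧ F ⊆ X ∧ Disjoint A F ∧
    (∃ d, d ≤ (univ.filter fun i => Y i ⊆ A ∪ F).card ∧ ∀ i, J i d (A ∩ Y i) (F ∩ Y i)) ∧
    f * A.card ≤ F.card + f ∧ ((X \ (A ∪ F)).Nonempty → f * A.card ≤ F.card)) ?_ ?_ ?_
  · refine ⟨empty_subset _, empty_subset _, disjoint_empty_left _, ⟨0, Nat.zero_le _, fun i => ?_⟩,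
      by simp, fun _ => by simp⟩
    rw [empty_inter]
    exact (hB i).init
  · rintro A F e ⟨hAX, hFX, hAF, ⟨d, hd, hJ⟩, -, hc⟩ he
    have hcn : f * A.card ≤ F.card := hc ⟨e, he⟩
    rw [mem_sdiff, mem_union, not_or] at he
    obtain ⟨heX, heA, heF⟩ := he
    obtain ⟨i0, -, hei⟩ := mem_biUnion.1 heX
    have hej : ∀ j, j ≠ i0 → e ∉ Y j := fun j hj h => hj (hYn _ _ _ h hei)
    have hA'X : insert e A ⊆ X := insert_subset heX hAX
    have hA'F : Disjoint (insert e A) F := by
      rw [disjoint_insert_left]
      exact ⟨heF, hAF⟩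
    have hAi : insert e A ∩ Y i0 = insert e (A ∩ Y i0) := insert_inter_of_mem hei
    have hAj : ∀ j, j ≠ i0 → insert e A ∩ Y j = A ∩ Y j := fun j hj => insert_inter_of_notMem (hej j hj)
    obtain ⟨B0, hB0, hB0c, hJ0⟩ := (hB i0).move d (A ∩ Y i0) (F ∩ Y i0) e (hJ i0) inter_subset_right
      inter_subset_right (disjoint_of_subset_left inter_subset_left (disjoint_of_subset_right inter_subset_left hAF))
      (by
        rw [g2_free, mem_sdiff, mem_union, not_or]
        exact ⟨hei, heA, heF⟩)
    rw [← hAi, g2_free] at hB0 hB0c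
    rw [← hAi] at hJ0
    have hB0Y : B0 ⊆ Y i0 := hB0.trans sdiff_subset
    have hB0X : B0 ⊆ X \ (insert e A ∪ F) := hB0.trans (sdiff_subset_sdiff (hYX i0) Subset.rfl)
    -- the state after `B0`
    have hJ1 : ∀ j, J j d (insert e A ∩ Y j) ((F ∪ B0) ∩ Y j) := by
      intro j
      by_cases hj : j = i0
      · subst hj
        have e1 : (F ∪ B0) ∩ Y j = F ∩ Y j ∪ B0 := by
          rw [union_inter_distrib_right, inter_eq_left.2 hB0Y]
        rw [e1]
        exact hJ0
      · have e1 : (F ∪ B0) ∩ Y j = F ∩ Y j := by
          rw [union_inter_distrib_right]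
          have : B0 ∩ Y j = ∅ := by
            rw [← disjoint_iff_inter_eq_empty]
            exact disjoint_of_subset_left hB0Y (hY _ _ (fun h => hj h.symm))
          rw [this, union_empty]
        rw [e1, hAj j hj]
        exact hJ j
    have hF0X : F ∪ B0 ⊆ X := union_subset hFX (hB0Y.trans (hYX i0))
    have hdis0 : Disjoint (insert e A) (F ∪ B0) := by
      rw [disjoint_union_right]
      refine ⟨hA'F, ?_⟩
      rw [disjoint_right]
      intro x hx hxA
      have := hB0 hx
      rw [mem_sdiff, mem_union] at this
      exact this.2 (Or.inl hxA)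
    by_cases hcase : f ≤ (Y i0 \ (insert e A ∪ F)).card
    · -- enough free elements in the board of Avoider
      have h1 : B0.card = f := by omega
      have h2 : B0.card ≤ (X \ (insert e A ∪ F)).card := card_le_card hB0X
      have h3 : B0.card = min f (X \ (insert e A ∪ F)).card := by omega
      have h4 := g2_count f X A F B0 e heA hB0X h3 hcn
      refine ⟨B0, hB0X, h3, hA'X, hF0X, hdis0, ⟨d, hd.trans (card_le_card ?_), hJ1⟩, h4.1, h4.2⟩
      intro i hi
      rw [mem_filter] at hi ⊢
      exact ⟨hi.1, hi.2.trans (union_subset_union (subset_insert _ _) subset_union_left)⟩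
    · push Not at hcase
      have h1 : B0 = Y i0 \ (insert e A ∪ F) := eq_of_subset_of_card_le hB0 (by omega)
      have hi0 : i0 ∉ univ.filter fun i => Y i ⊆ A ∪ F := by
        rw [mem_filter]
        rintro ⟨-, h⟩
        have := h hei
        rw [mem_union] at this
        exact this.elim heA heF
      have hdK : d < Fintype.card I := by
        refine lt_of_le_of_lt hd ?_
        exact card_lt_univ_of_notMem hi0
      set R := X \ (insert e A ∪ (F ∪ B0)) with hR
      obtain ⟨R', hR', hR'c⟩ := exists_subset_card_eq (s := R) (n := min (f - B0.card) R.card) (min_le_right _ _)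
      have hdump : ∀ j, ∃ B ⊆ Y j \ (insert e A ∪ (F ∪ B0)), B.card = (R' ∩ Y j).card ∧
          J j (d + 1) (insert e A ∩ Y j) ((F ∪ B0) ∩ Y j ∪ B) := by
        intro j
        obtain ⟨B, hB1, hB2, hB3⟩ := (hB j).dump d (insert e A ∩ Y j) ((F ∪ B0) ∩ Y j) (R' ∩ Y j).card hdK
          (by
            have := card_le_card (inter_subset_left (s₁ := R') (s₂ := Y j))
            omega)
          (hJ1 j) inter_subset_right inter_subset_right
          (disjoint_of_subset_left inter_subset_left (disjoint_of_subset_right inter_subset_left hdis0))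
        rw [g2_free] at hB1 hB2
        refine ⟨B, hB1, ?_, hB3⟩
        rw [hB2]
        refine min_eq_left (card_le_card ?_)
        intro x hx
        rw [mem_inter] at hx
        have := hR' hx.1
        rw [hR, mem_sdiff] at this
        exact mem_sdiff.2 ⟨hx.2, this.2⟩
      choose Bf hBf1 hBf2 hBf3 using hdump
      have hBfY : ∀ j, Bf j ⊆ Y j := fun j => (hBf1 j).trans sdiff_subset
      have hBfR : univ.biUnion Bf ⊆ R := by
        intro x hx
        obtain ⟨j, -, hxj⟩ := mem_biUnion.1 hx
        have := hBf1 j hxj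
        rw [mem_sdiff] at this
        exact mem_sdiff.2 ⟨hYX j this.1, this.2⟩
      have hcardB : (univ.biUnion Bf).card = R'.card := by
        rw [card_biUnion (fun i _ j _ hij => disjoint_of_subset_left (hBfY i)
          (disjoint_of_subset_right (hBfY j) (hY i j hij)))]
        have e1 : R' = univ.biUnion fun j => R' ∩ Y j := by
          ext x
          rw [mem_biUnion]
          constructor
          · intro hx
            have := hR' hx
            rw [hR, mem_sdiff] at this
            obtain ⟨j, hj, hxj⟩ := mem_biUnion.1 this.1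
            exact ⟨j, hj, mem_inter.2 ⟨hx, hxj⟩⟩
          · rintro ⟨j, -, hx⟩
            exact (mem_inter.1 hx).1
        conv_rhs => rw [e1]
        rw [card_biUnion (fun i _ j _ hij => disjoint_of_subset_left inter_subset_right
          (disjoint_of_subset_right inter_subset_right (hY i j hij)))]
        exact sum_congr rfl fun j _ => hBf2 j
      have hdisB : Disjoint B0 (univ.biUnion Bf) := by
        rw [disjoint_right]
        intro x hx hx0
        have := hBfR hx
        rw [hR, mem_sdiff, mem_union, mem_union] at this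
        exact this.2 (Or.inr (Or.inr hx0))
      have hRsub : R = (X \ (insert e A ∪ F)) \ B0 := by
        rw [hR]
        ext x
        simp only [mem_sdiff, mem_union]
        tauto
      have hRc : R.card + B0.card = (X \ (insert e A ∪ F)).card := by
        rw [hRsub]
        exact card_sdiff_add_card_eq_card hB0X
      set B := B0 ∪ univ.biUnion Bf with hBdef
      have hBX : B ⊆ X \ (insert e A ∪ F) := by
        refine union_subset hB0X (hBfR.trans ?_)
        rw [hRsub]
        exact sdiff_subset
      have hBc : B.card = min f (X \ (insert e A ∪ F)).card := by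
        rw [hBdef, card_union_of_disjoint hdisB, hcardB, hR'c]
        omega
      have h4 := g2_count f X A F B e heA hBX hBc hcn
      refine ⟨B, hBX, hBc, hA'X, union_subset hFX (hBX.trans sdiff_subset), ?_, ⟨d + 1, ?_, ?_⟩, h4.1, h4.2⟩
      · rw [disjoint_union_right]
        refine ⟨hA'F, ?_⟩
        rw [disjoint_right]
        intro x hx hxA
        have := hBX hx
        rw [mem_sdiff, mem_union] at this
        exact this.2 (Or.inl hxA)
      · have h5 : insert i0 (univ.filter fun i => Y i ⊆ A ∪ F) ⊆
            univ.filter fun i => Y i ⊆ insert e A ∪ (F ∪ B) := by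
          intro i hi
          rw [mem_insert, mem_filter] at hi
          rw [mem_filter]
          refine ⟨mem_univ _, ?_⟩
          rcases hi with rfl | ⟨-, hi⟩
          · intro x hx
            by_cases hx2 : x ∈ insert e A ∪ F
            · rw [mem_union] at hx2 ⊢
              exact hx2.imp id fun h => mem_union_left _ h
            · have : x ∈ B0 := by
                rw [h1]
                exact mem_sdiff.2 ⟨hx, hx2⟩
              exact mem_union_right _ (mem_union_right _ (mem_union_left _ this))
          · exact hi.trans (union_subset_union (subset_insert _ _) subset_union_left)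
        have h6 := card_le_card h5
        rw [card_insert_of_notMem hi0] at h6
        omega
      · intro j
        have e1 : (F ∪ B) ∩ Y j = (F ∪ B0) ∩ Y j ∪ Bf j := by
          ext x
          simp only [hBdef, mem_inter, mem_union, mem_biUnion, mem_univ, true_and]
          constructor
          · rintro ⟨h | h | ⟨i, h⟩, hj⟩
            · exact Or.inl ⟨Or.inl h, hj⟩
            · exact Or.inl ⟨Or.inr h, hj⟩
            · right
              rw [← hYn i j x (hBfY i h) hj]
              exact h
          · rintro (⟨h | h, hj⟩ | h)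
            · exact ⟨Or.inl h, hj⟩
            · exact ⟨Or.inr (Or.inl h), hj⟩
            · exact ⟨Or.inr (Or.inr ⟨j, h⟩), hBfY j h⟩
        rw [e1]
        exact hBf3 j
  · rintro A F ⟨hAX, hFX, hAF, ⟨d, hd, hJ⟩, hc1, -⟩ hX'
    refine hT A hAX (fun i => ?_) ?_
    · refine (hB i).good d (A ∩ Y i) (F ∩ Y i) (hd.trans (card_le_univ _)) (hJ i) inter_subset_right
        inter_subset_right (disjoint_of_subset_left inter_subset_left
          (disjoint_of_subset_right inter_subset_left hAF)) ?_
      intro x hx
      have := hX' (hYX i hx)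
      rw [mem_union] at this ⊢
      exact this.imp (fun h => mem_inter.2 ⟨h, hx⟩) (fun h => mem_inter.2 ⟨h, hx⟩)
    · have h1 : A ∪ F = X := Subset.antisymm (union_subset hAX hFX) hX'
      have h2 := card_union_of_disjoint hAF
      rw [h1] at h2
      rw [h2, add_mul, one_mul]
      omega

end AF
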