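import Pool.Agent.Lib.MP_991c8b_co.Defs

/-!
# H0: neighbours on a list

NbL l w = elements next to w in the list l. Work with [u, w] <:+: (l1 ++ l2): either inside l1, or inside l2, or u = last l1, w = head l2
(List.infix_append'-type facts, or with indices: l[i] = u, l[i+1] = w). For l1.reverse: [u, w] <:+: l1.reverse ⟺ [w, u] <:+: l1
(List.reverse_infix).
nb_rot: the only pairs of neighbours which differ are {last l1, head l2} and {head l1, head l2}, and w is none of these three.
nb_cut: last l1 is a neighbour of head l2 in l1 ++ l2.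
nb_count: w with a neighbour r ∈ R on l: w = l[i+1], r = l[i] (at most one w for every r ∈ R, l nodup) or w = l[i-1], r = l[i], i ≥ 1 (at most
one w for every r ∈ R except r = head l ∈ R). So the number is ≤ |R| + (|R| - 1).
-/

namespace AF

open Finset

variable {V : Type} [Fintype V] [DecidableEq V]

open Classical in
noncomputable def NbL (l : List V) (w : V) : Finset V :=
  Finset.univ.filter (fun u => [u, w] <:+: l ∨ [w, u] <:+: l)

omit [Fintype V] [DecidableEq V] in
theorem H0_pair (l1 l2 : List V) (u w : V) : [u, w] <:+: l1 ++ l2 ↔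
    [u, w] <:+: l1 ∨ [u, w] <:+: l2 ∨ (l1.getLast? = some u ∧ l2.head? = some w) := by
  rw [List.infix_append_iff]
  constructor
  · rintro (h | h | ⟨a, b, hab, ha, hb⟩)
    · exact Or.inl h
    · exact Or.inr (Or.inl h)
    · match a, b, hab, ha, hb with
      | [], b, hab, ha, hb =>
        rw [List.nil_append] at hab
        rw [hab]
        exact Or.inr (Or.inl hb.isInfix)
      | [a1], b, hab, ha, hb =>
        rw [List.singleton_append, List.cons.injEq] at hab
        obtain ⟨rfl, rfl⟩ := hab
        right; right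
        constructor
        · obtain ⟨t, ht⟩ := ha
          rw [← ht, List.getLast?_concat]
        · obtain ⟨t, ht⟩ := hb
          rw [← ht]
          rfl
      | a1 :: a2 :: a, b, hab, ha, hb =>
        left
        simp only [List.cons_append, List.cons.injEq] at hab
        obtain ⟨rfl, rfl, h3⟩ := hab
        have h4 : a = [] ∧ b = [] := by
          have := h3.symm
          rwa [List.append_eq_nil_iff] at this
        rw [h4.1] at ha
        exact ha.isInfix
  · rintro (h | h | ⟨h1, h2⟩)
    · exact Or.inl h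
    · exact Or.inr (Or.inl h)
    · right; right
      refine ⟨[u], [w], rfl, ?_, ?_⟩
      · rw [List.getLast?_eq_some_iff] at h1
        obtain ⟨ys, rfl⟩ := h1
        exact ⟨ys, rfl⟩
      · rw [List.head?_eq_some_iff] at h2
        obtain ⟨ys, rfl⟩ := h2
        exact ⟨ys, rfl⟩

omit [Fintype V] [DecidableEq V] in
theorem H0_rev (l : List V) (u w : V) : [u, w] <:+: l.reverse ↔ [w, u] <:+: l := by
  have h : [u, w] = [w, u].reverse := rfl
  rw [h, List.reverse_infix]

theorem nb_rot (l1 l2 : List V) (h1 : l1 ≠ []) (h2 : l2 ≠ []) (w : V) (hw1 : w ≠ l1.head h1)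
    (hw2 : w ≠ l1.getLast h1) (hw3 : w ≠ l2.head h2) :
    NbL (l1.reverse ++ l2) w = NbL (l1 ++ l2) w := by
  classical
  have a1 : l1.head? ≠ some w := by
    rw [List.head?_eq_some_head h1]
    intro h
    exact hw1 (by simpa using h.symm)
  have a2 : l1.getLast? ≠ some w := by
    rw [List.getLast?_eq_some_getLast h1]
    intro h
    exact hw2 (by simpa using h.symm)
  have a3 : l2.head? ≠ some w := by
    rw [List.head?_eq_some_head h2]
    intro h
    exact hw3 (by simpa using h.symm)
  ext u
  unfold NbL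
  rw [Finset.mem_filter, Finset.mem_filter, H0_pair, H0_pair, H0_pair, H0_pair, H0_rev, H0_rev,
    List.getLast?_reverse]
  tauto

theorem nb_cut (l1 l2 : List V) (h1 : l1 ≠ []) (h2 : l2 ≠ []) :
    l1.getLast h1 ∈ NbL (l1 ++ l2) (l2.head h2) := by
  classical
  unfold NbL
  rw [Finset.mem_filter, H0_pair]
  refine ⟨Finset.mem_univ _, Or.inl (Or.inr (Or.inr ⟨?_, ?_⟩))⟩
  · exact List.getLast?_eq_some_getLast h1
  · exact List.head?_eq_some_head h2

omit [Fintype V] [DecidableEq V] in
theorem H0_index {l : List V} {u w : V} (h : [u, w] <:+: l) :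
    ∃ i : ℕ, l[i]? = some u ∧ l[i + 1]? = some w := by
  obtain ⟨s, t, rfl⟩ := h
  refine ⟨s.length, ?_, ?_⟩
  · simp
  · simp

omit [Fintype V] [DecidableEq V] in
theorem H0_inj {l : List V} (hl : l.Nodup) {i j : ℕ} {u : V} (h1 : l[i]? = some u) (h2 : l[j]? = some u) :
    i = j := by
  have hi : i < l.length := by
    by_contra h
    rw [List.getElem?_eq_none (by omega)] at h1
    exact absurd h1 (by simp)
  exact (List.getElem?_inj hi hl).1 (h1.trans h2.symm)

open Classical in
theorem nb_count (l : List V) (hl : l.Nodup) (hne : l ≠ []) (R : Finset V)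
    (hR : l.head hne ∈ R) :
    (Finset.univ.filter (fun w => ∃ r ∈ R, r ∈ NbL l w)).card + 1 ≤ 2 * R.card := by
  have hsub : (Finset.univ.filter (fun w => ∃ r ∈ R, r ∈ NbL l w)) ⊆
      (Finset.univ.filter (fun w => ∃ r ∈ R, [r, w] <:+: l)) ∪
      (Finset.univ.filter (fun w => ∃ r ∈ R.erase (l.head hne), [w, r] <:+: l)) := by
    intro w hw
    rw [Finset.mem_filter] at hw
    obtain ⟨_, r, hr, hrw⟩ := hw
    unfold NbL at hrw
    rw [Finset.mem_filter] at hrw
    rw [Finset.mem_union, Finset.mem_filter, Finset.mem_filter]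
    rcases hrw.2 with h | h
    · exact Or.inl ⟨Finset.mem_univ _, r, hr, h⟩
    · refine Or.inr ⟨Finset.mem_univ _, r, Finset.mem_erase.2 ⟨?_, hr⟩, h⟩
      rintro rfl
      obtain ⟨i, _, hi⟩ := H0_index h
      have h0 : l[0]? = some (l.head hne) := by
        rw [← List.head?_eq_getElem?]
        exact List.head?_eq_some_head hne
      have := H0_inj hl hi h0
      omega
  have hA : (Finset.univ.filter (fun w => ∃ r ∈ R, [r, w] <:+: l)).card ≤ R.card := by
    have hch : ∀ w ∈ (Finset.univ.filter (fun w => ∃ r ∈ R, [r, w] <:+: l)), ∃ r ∈ R, [r, w] <:+: l :=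
      fun w hw => (Finset.mem_filter.1 hw).2
    choose! g hg1 hg2 using hch
    refine Finset.card_le_card_of_injOn g (fun w hw => hg1 w hw) ?_
    intro w hw w' hw' hww
    have h1 := hg2 w hw
    have h2 := hg2 w' hw'
    rw [← hww] at h2
    obtain ⟨i, hi1, hi2⟩ := H0_index h1
    obtain ⟨j, hj1, hj2⟩ := H0_index h2
    have hij := H0_inj hl hi1 hj1
    rw [← hij, hi2] at hj2
    simpa using hj2
  have hB : (Finset.univ.filter (fun w => ∃ r ∈ R.erase (l.head hne), [w, r] <:+: l)).card ≤
      (R.erase (l.head hne)).card := by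
    have hch : ∀ w ∈ (Finset.univ.filter (fun w => ∃ r ∈ R.erase (l.head hne), [w, r] <:+: l)),
        ∃ r ∈ R.erase (l.head hne), [w, r] <:+: l :=
      fun w hw => (Finset.mem_filter.1 hw).2
    choose! g hg1 hg2 using hch
    refine Finset.card_le_card_of_injOn g (fun w hw => hg1 w hw) ?_
    intro w hw w' hw' hww
    have h1 := hg2 w hw
    have h2 := hg2 w' hw'
    rw [← hww] at h2
    obtain ⟨i, hi1, hi2⟩ := H0_index h1
    obtain ⟨j, hj1, hj2⟩ := H0_index h2
    have hij := H0_inj hl hi2 hj2
    have hij' : i = j := by omega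
    rw [← hij', hi1] at hj1
    simpa using hj1
  have h1 := Finset.card_le_card hsub
  have h2 := Finset.card_union_le (Finset.univ.filter (fun w => ∃ r ∈ R, [r, w] <:+: l))
    (Finset.univ.filter (fun w => ∃ r ∈ R.erase (l.head hne), [w, r] <:+: l))
  have h3 := Finset.card_erase_of_mem hR
  have h4 : 0 < R.card := Finset.card_pos.2 ⟨_, hR⟩
  omega

end AF
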