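import Pool.Agent.Lib.MP_991c8b_co.Defs

/-!
# H1: paths as lists

lng_spec: Nat.findGreatest_spec with the witness m = 0 (the empty list). len_le_lng: l nodup, so l.length ≤ card V
(List.Nodup.length_le_card), Nat.le_findGreatest.
rot: rotation: l1 ++ l2 is a path, s(head l1, head l2) ∈ Γ; then l1.reverse ++ l2 is a path: nodup is clear (a permutation);
chain: List.isChain_append / isChain_reverse (the relation is symmetric, Sym2.eq_swap), the last element of l1.reverse is
the head of l1.
close: Conn Γ, l is a path, closed by s(last, head) ∈ Γ, not all vertices: S = vertices of l (nonempty, ≠ univ), so there are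
z ∈ l, w ∉ l with s(z, w) ∈ Γ. Write l = l1 ++ l2 with z the last element of l1 (List.append_of_mem: l = as ++ z :: l2,
l1 = as ++ [z]). The list w :: (l1.reverse ++ l2.reverse) is a path with one more vertex: head of l1.reverse is z; if l2 ≠ []
the last of l1.reverse is head l, the head of l2.reverse is last l; the chain in l2.reverse by symmetry.
-/

namespace AF

open Finset

variable {V : Type} [Fintype V] [DecidableEq V]

theorem lng_spec (Γ : Finset (Sym2 V)) : ∃ l : List V, PathL Γ l ∧ l.length = lng Γ := by
  classical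
  unfold lng
  exact Nat.findGreatest_spec (P := fun m => ∃ l : List V, PathL Γ l ∧ l.length = m) (m := 0)
    (Nat.zero_le _) ⟨[], ⟨List.nodup_nil, List.IsChain.nil⟩, rfl⟩

theorem len_le_lng (Γ : Finset (Sym2 V)) (l : List V) (h : PathL Γ l) : l.length ≤ lng Γ := by
  classical
  unfold lng
  exact Nat.le_findGreatest (P := fun m => ∃ l : List V, PathL Γ l ∧ l.length = m)
    h.1.length_le_card ⟨l, h, rfl⟩

theorem lng_le_card (Γ : Finset (Sym2 V)) : lng Γ ≤ Fintype.card V := by
  classical
  unfold lng
  exact Nat.findGreatest_le _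

theorem pathL_mono {Γ Γ' : Finset (Sym2 V)} (h : Γ ⊆ Γ') {l : List V} (hl : PathL Γ l) :
    PathL Γ' l :=
  ⟨hl.1, hl.2.imp fun _ _ hab => h hab⟩

theorem pathL_reverse {Γ : Finset (Sym2 V)} {l : List V} (hl : PathL Γ l) :
    PathL Γ l.reverse := by
  refine ⟨List.nodup_reverse.2 hl.1, ?_⟩
  rw [List.isChain_reverse]
  refine hl.2.imp fun a b hab => ?_
  rw [Sym2.eq_swap]
  exact hab

theorem pathL_rot {Γ : Finset (Sym2 V)} {l1 l2 : List V} (hl : PathL Γ (l1 ++ l2))
    (h1 : l1 ≠ []) (h2 : l2 ≠ []) (he : s(l1.head h1, l2.head h2) ∈ Γ) :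
    PathL Γ (l1.reverse ++ l2) := by
  refine ⟨((List.Perm.append_right l2 (List.reverse_perm l1)).nodup_iff).2 hl.1, ?_⟩
  have hc := List.isChain_append.1 hl.2
  refine List.isChain_append.2 ⟨?_, hc.2.1, ?_⟩
  · rw [List.isChain_reverse]
    refine hc.1.imp fun a b hab => ?_
    rw [Sym2.eq_swap]
    exact hab
  · intro x hx y hy
    rw [List.getLast?_reverse, List.head?_eq_some_head h1] at hx
    rw [List.head?_eq_some_head h2] at hy
    have hx' : l1.head h1 = x := by simpa using hx
    have hy' : l2.head h2 = y := by simpa using hy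
    rw [← hx', ← hy']
    exact he

theorem hamC_mono {Γ Γ' : Finset (Sym2 V)} (h : Γ ⊆ Γ') (hG : HamC Γ) : HamC Γ' := by
  obtain ⟨h3, l, hl, hp, hlen, he⟩ := hG
  exact ⟨h3, l, hl, pathL_mono h hp, hlen, h he⟩

theorem path_close {Γ : Finset (Sym2 V)} (hc : Conn Γ) {l : List V} (hl : PathL Γ l)
    (hne : l ≠ []) (he : s(l.getLast hne, l.head hne) ∈ Γ) (hlt : l.length < Fintype.card V) :
    ∃ l', PathL Γ l' ∧ l'.length = l.length + 1 := by
  have hS1 : l.toFinset.Nonempty := by
    obtain ⟨a, ha⟩ := List.exists_mem_of_ne_nil l hne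
    exact ⟨a, List.mem_toFinset.2 ha⟩
  have hS2 : l.toFinset ≠ Finset.univ := by
    intro h
    have h1 := List.toFinset_card_le l
    rw [h, Finset.card_univ] at h1
    omega
  obtain ⟨w, hw⟩ := hc l.toFinset hS1 hS2
  unfold outn nbr at hw
  rw [Finset.mem_sdiff, Finset.mem_filter] at hw
  obtain ⟨⟨_, z, hz, hzw⟩, hwl⟩ := hw
  rw [List.mem_toFinset] at hz hwl
  obtain ⟨as, l2, hal⟩ := List.append_of_mem hz
  set l1 := as ++ [z] with hl1
  have hl12 : l = l1 ++ l2 := by rw [hal, hl1]; simp
  have hl1ne : l1 ≠ [] := by rw [hl1]; simp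
  have hQ : PathL Γ (l2 ++ l1) := by
    have hc' := List.isChain_append.1 (hl12 ▸ hl.2)
    refine ⟨(List.perm_append_comm.nodup_iff).1 (hl12 ▸ hl.1), List.isChain_append.2 ⟨hc'.2.1, hc'.1, ?_⟩⟩
    intro x hx y hy
    by_cases h2 : l2 = []
    · rw [h2] at hx
      simp at hx
    · have hx' : l.getLast hne = x := by
        have h3 : l.getLast? = some x := by
          rw [hl12, List.getLast?_append]
          have : l2.getLast? = some x := by simpa using hx
          rw [this]
          rfl
        rw [List.getLast?_eq_some_getLast hne] at h3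
        simpa using h3
      have hy' : l.head hne = y := by
        have h3 : l.head? = some y := by
          rw [hl12, List.head?_append]
          have : l1.head? = some y := by simpa using hy
          rw [this]
          rfl
        rw [List.head?_eq_some_head hne] at h3
        simpa using h3
      rw [← hx', ← hy']
      exact he
  have hQr := pathL_reverse hQ
  refine ⟨w :: (l2 ++ l1).reverse, ⟨List.nodup_cons.2 ⟨?_, hQr.1⟩, List.isChain_cons.2 ⟨?_, hQr.2⟩⟩, ?_⟩
  · intro hmem
    apply hwl
    rw [hl12]
    simp only [List.mem_reverse, List.mem_append] at hmem ⊢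
    tauto
  · intro y hy
    rw [List.head?_reverse, hl1, ← List.append_assoc, List.getLast?_concat] at hy
    have hy' : z = y := by simpa using hy
    rw [← hy', Sym2.eq_swap]
    exact hzw
  · rw [hl12]
    simp only [List.length_cons, List.length_reverse, List.length_append]
    omega

end AF
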