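import Pool.Agent.Lib.MP_991c8b_co.H0
import Pool.Agent.Lib.MP_991c8b_co.H1

/-!
# H2: Posa's lemma

PROOF. l = longest path, as a list; its last element is fixed, we rotate at the head. Rot a b :⟺ a = l1 ++ l2,
b = l1.reverse ++ l2, l1 ≠ [], l2 ≠ [], s(head l1, head l2) ∈ Γ. Let 𝓡 be the set of all lists reachable from l
(Relation.ReflTransGen Rot l). Each l' ∈ 𝓡 is a path (pathL_rot), is a permutation of l (same length = lng Γ), has the same
last element. R = set of the heads of the lists in 𝓡 (Finset.univ.filter). For a list a and a vertex w let Nb a w be the set of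
neighbours of w on a (= NbL of H0).
CLAIM: outn Γ R ⊆ {w : some element of R is in Nb l w}. Let u ∈ R, s(u,w) ∈ Γ, w ∉ R, and suppose Nb l w ∩ R = ∅.
(1) w lies on l (otherwise w :: l' is a longer path, l' ∈ 𝓡 with head u).
(2) For all l' ∈ 𝓡: Nb l' w = Nb l w. Induction along the rotations (nb_rot, nb_cut): a = l1 ++ l2 ∈ 𝓡, b = l1.reverse ++ l2 ∈ 𝓡. The only pairs
  of neighbours which change are {last l1, head l2} (removed) and {head l1, head l2} (added). w ≠ head l1 (= head a ∈ R),
  w ≠ last l1 (= head b ∈ R). If w = head l2 then last l1 ∈ Nb a w = Nb l w and last l1 ∈ R: contradiction. So w is not in these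
  pairs and Nb does not change.
(3) l' ∈ 𝓡 with head u; w on l', w ≠ u: l' = l1 ++ l2 with head l2 = w, l1 ≠ []. Since s(u, w) ∈ Γ this is a rotation and the
  last element of l1 is in R; it is in Nb l' w = Nb l w: contradiction.
COUNT: |{w : Nb l w ∩ R ≠ ∅}| ≤ 2|R| - 1: w is the successor on l of an element of R (at most |R| such w) or the predecessor on
l of an element of R; the head of l is in R and has no predecessor: at most |R| - 1 such w. (By indices: l[i+1] = w with
l[i] ∈ R, or l[i] = w with l[i+1] ∈ R; this is nb_count of H0.)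
END: R ≠ ∅ (head l). If |R| ≤ k then 2 |R| ≤ |outn Γ R| ≤ 2|R| - 1. So |R| ≥ k + 1.
-/

namespace AF

open Finset

variable {V : Type} [Fintype V] [DecidableEq V]

private def H2Rot (Γ : Finset (Sym2 V)) (a b : List V) : Prop :=
  ∃ l1 l2 : List V, ∃ h1 : l1 ≠ [], ∃ h2 : l2 ≠ [], a = l1 ++ l2 ∧ b = l1.reverse ++ l2 ∧
    s(l1.head h1, l2.head h2) ∈ Γ

omit [Fintype V] [DecidableEq V] in
private theorem H2_getLast {Γ : Finset (Sym2 V)} {a b : List V} (h : H2Rot Γ a b) :
    b.getLast? = a.getLast? := by
  obtain ⟨l1, l2, h1, h2, rfl, rfl, -⟩ := h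
  rw [List.getLast?_append_of_ne_nil _ h2, List.getLast?_append_of_ne_nil _ h2]

omit [Fintype V] [DecidableEq V] in
private theorem H2_perm {Γ : Finset (Sym2 V)} {a b : List V} (h : H2Rot Γ a b) :
    b.Perm a := by
  obtain ⟨l1, l2, h1, h2, rfl, rfl, -⟩ := h
  exact List.Perm.append_right l2 (List.reverse_perm l1)

private theorem H2_path {Γ : Finset (Sym2 V)} {a b : List V} (h : H2Rot Γ a b)
    (ha : PathL Γ a) : PathL Γ b := by
  obtain ⟨l1, l2, h1, h2, rfl, rfl, he⟩ := h
  exact pathL_rot ha h1 h2 he

private theorem H2_inv {Γ : Finset (Sym2 V)} {l a : List V}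
    (h : Relation.ReflTransGen (H2Rot Γ) l a) (hl : PathL Γ l) :
    PathL Γ a ∧ a.Perm l ∧ a.getLast? = l.getLast? := by
  induction h with
  | refl => exact ⟨hl, List.Perm.refl _, rfl⟩
  | tail _ hbc ih =>
    exact ⟨H2_path hbc ih.1, (H2_perm hbc).trans ih.2.1, (H2_getLast hbc).trans ih.2.2⟩

theorem posa (Γ : Finset (Sym2 V)) (k : ℕ) (he : Expd Γ k) (l : List V) (hl : PathL Γ l)
    (hmax : l.length = lng Γ) (hne : l ≠ []) :
    ∃ R : Finset V, k + 1 ≤ R.card ∧ ∀ r ∈ R, ∃ l' : List V, ∃ h' : l' ≠ [],
      PathL Γ l' ∧ l'.length = lng Γ ∧ l'.head h' = r ∧ l'.getLast h' = l.getLast hne := by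
  classical
  obtain ⟨R, hR⟩ : ∃ R : Finset V, ∀ r, r ∈ R ↔
      ∃ a, Relation.ReflTransGen (H2Rot Γ) l a ∧ a.head? = some r :=
    ⟨Finset.univ.filter (fun r => ∃ a, Relation.ReflTransGen (H2Rot Γ) l a ∧ a.head? = some r),
      fun r => by simp⟩
  have hhead : l.head hne ∈ R :=
    (hR _).2 ⟨l, Relation.ReflTransGen.refl, List.head?_eq_some_head hne⟩
  refine ⟨R, ?_, ?_⟩
  · by_contra hlt
    push Not at hlt
    have hcard : R.card ≤ k := by omega
    have h1 := he R ⟨_, hhead⟩ hcard
    have hsub : outn Γ R ⊆ Finset.univ.filter (fun w => ∃ r ∈ R, r ∈ NbL l w) := by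
      intro w hw
      rw [Finset.mem_filter]
      refine ⟨Finset.mem_univ _, ?_⟩
      by_contra hno
      push Not at hno
      unfold outn nbr at hw
      rw [Finset.mem_sdiff, Finset.mem_filter] at hw
      obtain ⟨⟨-, u, huR, huw⟩, hwR⟩ := hw
      -- the neighbours of w do not change
      have hnb : ∀ a, Relation.ReflTransGen (H2Rot Γ) l a → NbL a w = NbL l w := by
        intro a ha
        induction ha with
        | refl => rfl
        | tail hab hbc ih =>
          rename_i b c
          have hb := hab
          have hc := Relation.ReflTransGen.tail hab hbc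
          obtain ⟨l1, l2, h1, h2, rfl, rfl, hΓ⟩ := hbc
          rw [← ih]
          have hlast : l1.getLast h1 ∈ R := by
            refine (hR _).2 ⟨_, hc, ?_⟩
            rw [List.head?_append_of_ne_nil _ (by simpa using h1), List.head?_reverse]
            exact List.getLast?_eq_some_getLast h1
          apply nb_rot l1 l2 h1 h2 w
          · rintro rfl
            apply hwR
            refine (hR _).2 ⟨_, hb, ?_⟩
            rw [List.head?_append_of_ne_nil _ h1]
            exact List.head?_eq_some_head h1
          · rintro rfl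
            exact hwR hlast
          · intro hw2
            have h3 := nb_cut l1 l2 h1 h2
            rw [← hw2, ih] at h3
            exact hno _ hlast h3
      obtain ⟨a, ha, hau⟩ := (hR u).1 huR
      obtain ⟨hpa, hperm, hlasta⟩ := H2_inv ha hl
      have hwu : w ≠ u := fun h => hwR (h ▸ huR)
      -- w lies on the path
      have hwa : w ∈ a := by
        by_contra hwa
        have h3 : PathL Γ (w :: a) := by
          refine ⟨List.nodup_cons.2 ⟨hwa, hpa.1⟩, ?_⟩
          rw [List.isChain_cons]
          refine ⟨?_, hpa.2⟩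
          intro y hy
          rw [hau] at hy
          have : u = y := by simpa using hy
          rw [← this, Sym2.eq_swap]
          exact huw
        have h4 := len_le_lng Γ _ h3
        rw [List.length_cons, hperm.length_eq, hmax] at h4
        omega
      obtain ⟨l1, t, hsplit⟩ := List.append_of_mem hwa
      have h1ne : l1 ≠ [] := by
        rintro rfl
        rw [hsplit] at hau
        simp at hau
        exact hwu hau
      have hu1 : l1.head h1ne = u := by
        rw [List.head_eq_iff_head?_eq_some, ← hau, hsplit, List.head?_append_of_ne_nil _ h1ne]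
      have hrot : H2Rot Γ a (l1.reverse ++ w :: t) := by
        refine ⟨l1, w :: t, h1ne, List.cons_ne_nil _ _, hsplit, rfl, ?_⟩
        rw [hu1]
        exact huw
      have hlast : l1.getLast h1ne ∈ R := by
        refine (hR _).2 ⟨_, Relation.ReflTransGen.tail ha hrot, ?_⟩
        rw [List.head?_append_of_ne_nil _ (by simpa using h1ne), List.head?_reverse]
        exact List.getLast?_eq_some_getLast h1ne
      have h3 := nb_cut l1 (w :: t) h1ne (List.cons_ne_nil _ _)
      rw [← hsplit, List.head_cons, hnb a ha] at h3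
      exact hno _ hlast h3
    have h2 := nb_count l hl.1 hne R hhead
    have h3 := Finset.card_le_card hsub
    omega
  · intro r hr
    obtain ⟨a, ha, har⟩ := (hR r).1 hr
    obtain ⟨hpa, hperm, hlasta⟩ := H2_inv ha hl
    have hane : a ≠ [] := by
      rintro rfl
      simp at har
    refine ⟨a, hane, hpa, hperm.length_eq.trans hmax, ?_, ?_⟩
    · rw [List.head_eq_iff_head?_eq_some]; exact har
    · rw [List.getLast_eq_iff_getLast?_eq_some, hlasta]
      exact List.getLast?_eq_some_getLast hne

end AF
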