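import Pool.Agent.Lib.MP_991c8b_co.H2

/-!
# H3: many boosters

PROOF. lng Γ ≥ 1 (the list [v] is a path). Take a longest path l (lng_spec), posa gives R, |R| ≥ k+1 ≥ 2, and for r ∈ R a longest
path l_r with head r and the last element z = last l. Reverse it: longest path with head z and last element r; posa again:
R_r with |R_r| ≥ k+1, for all q ∈ R_r a longest path with head q and last element r.
Let D = {(q, r) : r ∈ R, q ∈ R_r}, |D| ≥ (k+1)^2. CLAIM: (q, r) ∈ D ⟹ s(q, r) ∈ Boo Γ. The path l' has head q and last r,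
length m = lng Γ. m ≥ 2 (R ⊆ vertices of l... simply: if m = 1 then every longest path is [x] with x = its last element, so R ⊆ {last l},
but |R| ≥ 2). So q ≠ r, not a diagonal. If s(r, q) ∈ Γ: if m = card V then HamC Γ, contradiction; if m < card V then path_close gives
a longer path, contradiction to len_le_lng. So s(q,r) ∉ Γ. In Γ' = insert (s(q,r)) Γ the list l' is a closed path: if m = card V then
HamC Γ'; if m < card V then path_close in Γ' (Conn Γ' holds, Γ ⊆ Γ') gives a path with m + 1 vertices: lng Γ' ≥ m + 1.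
COUNT: the map D → Boo Γ, (q, r) ↦ s(q, r) is at most 2 to 1 (fibres ⊆ {(q,r), (r,q)}), so (k+1)^2 ≤ |D| ≤ 2 |Boo Γ|
(Finset.card_le_mul_card_image).
-/

namespace AF

open Finset

variable {V : Type} [Fintype V] [DecidableEq V]

private theorem H3_conn {Γ Γ' : Finset (Sym2 V)} (h : Γ ⊆ Γ') (hc : Conn Γ) : Conn Γ' := by
  intro S h1 h2
  obtain ⟨w, hw⟩ := hc S h1 h2
  refine ⟨w, ?_⟩
  unfold outn nbr at hw ⊢
  rw [Finset.mem_sdiff, Finset.mem_filter] at hw ⊢
  obtain ⟨⟨h3, v, hv, hvw⟩, h4⟩ := hw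
  exact ⟨⟨h3, v, hv, h hvw⟩, h4⟩

omit [Fintype V] [DecidableEq V] in
private theorem H3_ends {l : List V} (hl : l.Nodup) (hne : l ≠ []) (h2 : 2 ≤ l.length) :
    l.head hne ≠ l.getLast hne := by
  match l, hl, hne, h2 with
  | [], _, hne, _ => exact absurd rfl hne
  | [a], _, _, h2 => simp at h2
  | a :: b :: t, hl, hne, _ =>
    rw [List.head_cons, List.getLast_cons (List.cons_ne_nil b t)]
    intro h
    have h3 : a ∈ b :: t := by
      rw [h]
      exact List.getLast_mem _
    exact (List.nodup_cons.1 hl).1 h3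

private theorem H3_boo (Γ : Finset (Sym2 V)) (h3 : 3 ≤ Fintype.card V)
    (hc : Conn Γ) (hn : ¬ HamC Γ) (h2 : 2 ≤ lng Γ) {l : List V} (hne : l ≠ [])
    (hl : PathL Γ l) (hlen : l.length = lng Γ) :
    s(l.head hne, l.getLast hne) ∈ Boo Γ := by
  classical
  have hlc := lng_le_card Γ
  unfold Boo
  rw [Finset.mem_filter]
  refine ⟨Finset.mem_univ _, ?_, ?_, ?_⟩
  · rw [Sym2.mk_isDiag_iff]
    exact H3_ends hl.1 hne (by omega)
  · intro he
    rw [Sym2.eq_swap] at he
    rcases Nat.lt_or_ge (lng Γ) (Fintype.card V) with h | h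
    · obtain ⟨l', h4, h5⟩ := path_close hc hl hne he (by omega)
      have := len_le_lng Γ l' h4
      omega
    · exact hn ⟨h3, l, hne, hl, by omega, he⟩
  · have he : s(l.getLast hne, l.head hne) ∈ insert s(l.head hne, l.getLast hne) Γ := by
      rw [Sym2.eq_swap]
      exact Finset.mem_insert_self _ _
    have hsub : Γ ⊆ insert s(l.head hne, l.getLast hne) Γ := Finset.subset_insert _ _
    have hl' := pathL_mono hsub hl
    rcases Nat.lt_or_ge (lng Γ) (Fintype.card V) with h | h
    · right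
      obtain ⟨l', h4, h5⟩ := path_close (H3_conn hsub hc) hl' hne he (by omega)
      have := len_le_lng _ l' h4
      omega
    · left
      exact ⟨h3, l, hne, hl', by omega, he⟩

theorem boo_card (Γ : Finset (Sym2 V)) (k : ℕ) (hk : 1 ≤ k) (h3 : 3 ≤ Fintype.card V)
    (hc : Conn Γ) (he : Expd Γ k) (hn : ¬ HamC Γ) : (k + 1) ^ 2 ≤ 2 * (Boo Γ).card := by
  obtain ⟨l, hl, hlen⟩ := lng_spec Γ
  have hV : Nonempty V := Fintype.card_pos_iff.1 (by omega)
  have h1 : 1 ≤ lng Γ := by
    obtain ⟨v⟩ := hV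
    exact len_le_lng Γ [v] ⟨List.nodup_singleton v, List.isChain_singleton v⟩
  have hne : l ≠ [] := by
    rintro rfl
    rw [List.length_nil] at hlen
    omega
  obtain ⟨R, hRc, hR⟩ := posa Γ k he l hl hlen hne
  have h2 : 2 ≤ lng Γ := by
    by_contra hlt
    have hsub : R ⊆ {l.getLast hne} := by
      intro r hr
      obtain ⟨l', h', h4, h5, h6, h7⟩ := hR r hr
      rw [Finset.mem_singleton]
      have hl1 : l'.length = 1 := by omega
      obtain ⟨a, ha⟩ := List.length_eq_one_iff.1 hl1
      subst ha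
      rw [← h6, ← h7]
      rfl
    have := Finset.card_le_card hsub
    rw [Finset.card_singleton] at this
    omega
  have hS : ∀ r ∈ R, ∃ S : Finset V, k + 1 ≤ S.card ∧ ∀ q ∈ S, s(q, r) ∈ Boo Γ := by
    intro r hr
    obtain ⟨l', h', h4, h5, h6, h7⟩ := hR r hr
    have hne' : l'.reverse ≠ [] := by
      intro h
      exact h' (List.reverse_eq_nil_iff.1 h)
    obtain ⟨S, hSc, hS⟩ := posa Γ k he l'.reverse (pathL_reverse h4)
      (by rw [List.length_reverse]; exact h5) hne'
    refine ⟨S, hSc, fun q hq => ?_⟩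
    obtain ⟨m, hm, h8, h9, h10, h11⟩ := hS q hq
    have h12 := H3_boo Γ h3 hc hn h2 hm h8 h9
    rw [h10, h11, List.getLast_reverse, h6] at h12
    exact h12
  choose! S hSc hS using hS
  have hD : ((R.sigma S).card : ℕ) ≤ 2 * (Boo Γ).card := by
    refine Finset.card_le_mul_card_image_of_maps_to (f := fun x : (_ : V) × V => s(x.2, x.1))
      (fun x hx => ?_) 2 ?_
    · rw [Finset.mem_sigma] at hx
      exact hS x.1 hx.1 x.2 hx.2
    · intro e _
      induction e using Sym2.ind with
      | _ a b =>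
        have hsub : ((R.sigma S).filter fun x : (_ : V) × V => s(x.2, x.1) = s(a, b)) ⊆
            {⟨b, a⟩, ⟨a, b⟩} := by
          rintro ⟨r, q⟩ hx
          rw [Finset.mem_filter] at hx
          rw [Finset.mem_insert, Finset.mem_singleton]
          have h4 : s(q, r) = s(a, b) := hx.2
          rcases Sym2.eq_iff.1 h4 with ⟨h5, h6⟩ | ⟨h5, h6⟩
          · left
            rw [h5, h6]
          · right
            rw [h5, h6]
        exact (Finset.card_le_card hsub).trans Finset.card_le_two
  have hE : (k + 1) * (k + 1) ≤ (R.sigma S).card := by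
    rw [Finset.card_sigma]
    calc (k + 1) * (k + 1) ≤ R.card * (k + 1) := Nat.mul_le_mul_right _ hRc
      _ = ∑ _r ∈ R, (k + 1) := by rw [Finset.sum_const, smul_eq_mul]
      _ ≤ ∑ r ∈ R, (S r).card := Finset.sum_le_sum fun r hr => hSc r hr
  rw [pow_two]
  exact hE.trans hD

end AF
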