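import Pool.Agent.Lib.MP_991c8b_co.H1

/-!
# H4: adding boosters until there is a Hamiltonian cycle

PROOF. Claim by induction on j ≤ card V + 1: there is Q ⊆ B with |Q| ≤ j and (HamC (G0 ∪ Q) or j ≤ lng (G0 ∪ Q)). j = 0: Q = ∅.
Step j ≤ card V: if HamC keep Q. Otherwise |Q| ≤ j ≤ card V, hstep gives e ∈ B, e ∈ Boo (G0 ∪ Q): HamC (insert e (G0 ∪ Q)) or
lng (G0 ∪ Q) < lng (insert e (G0 ∪ Q)); insert e (G0 ∪ Q) = G0 ∪ insert e Q. At j = card V + 1: lng ≤ card V (lng_le_card), so HamC.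
-/

namespace AF

open Finset

variable {V : Type} [Fintype V] [DecidableEq V]

theorem iterate (G0 B : Finset (Sym2 V))
    (hstep : ∀ Q ⊆ B, Q.card ≤ Fintype.card V → ¬ HamC (G0 ∪ Q) →
      ∃ e ∈ B, e ∈ Boo (G0 ∪ Q)) : ∃ Q ⊆ B, HamC (G0 ∪ Q) := by
  classical
  have key : ∀ j : ℕ, j ≤ Fintype.card V + 1 →
      ∃ Q ⊆ B, Q.card ≤ j ∧ (HamC (G0 ∪ Q) ∨ j ≤ lng (G0 ∪ Q)) := by
    intro j
    induction j with
    | zero =>
      intro _
      exact ⟨∅, Finset.empty_subset _, by simp, Or.inr (Nat.zero_le _)⟩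
    | succ j ih =>
      intro hj
      obtain ⟨Q, hQB, hQc, hQ⟩ := ih (by omega)
      by_cases hH : HamC (G0 ∪ Q)
      · exact ⟨Q, hQB, by omega, Or.inl hH⟩
      · have hl : j ≤ lng (G0 ∪ Q) := hQ.resolve_left hH
        obtain ⟨e, heB, he⟩ := hstep Q hQB (by omega) hH
        have he' := (Finset.mem_filter.1 he).2
        have hu : G0 ∪ insert e Q = insert e (G0 ∪ Q) := Finset.union_insert e G0 Q
        refine ⟨insert e Q, Finset.insert_subset heB hQB, ?_, ?_⟩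
        · exact (Finset.card_insert_le e Q).trans (by omega)
        · rw [hu]
          rcases he'.2.2 with h | h
          · exact Or.inl h
          · exact Or.inr (by omega)
  obtain ⟨Q, hQB, _, hQ⟩ := key (Fintype.card V + 1) le_rfl
  refine ⟨Q, hQB, hQ.resolve_right fun h => ?_⟩
  have := lng_le_card (G0 ∪ Q)
  omega

end AF
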