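import Pool.Agent.Lib.MP_991c8b_co.Defs

/-!
# H5: from the list to Mathlib's Hamiltonian cycle

PROOF. l = a :: t is a nodup list of all vertices, consecutive elements adjacent, s(last, head) ∈ A. Elements of A which join different
vertices are edges of SimpleGraph.fromEdgeSet A. Build the walk along l from a to the last element b (induction on the list; support = l),
then add the edge from b to a: p = (walk a → b).concat (b ~ a), or Walk.cons (b ~ a) of the walk a → b (closed walk at b).
IsHamiltonianCycle: isCycle (tail/path + the edge {b, a} not an edge of the path as n ≥ 3: Walk.cons_isCycle_iff) and the tail is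
Hamiltonian (each vertex exactly once: support of the path = l is nodup and of length n, so every vertex appears;
SimpleGraph.Walk.isHamiltonianCycle_isCycle_and_isHamiltonian_tail or the structure IsHamiltonianCycle of Mathlib;
Walk.IsPath.isHamiltonian_of_mem).
-/

namespace AF

open Finset

theorem ham_conv {n : ℕ} (A : Finset (Sym2 (Fin n))) (h : HamC A) :
    ∃ a : Fin n, ∃ p : (SimpleGraph.fromEdgeSet (A : Set (Sym2 (Fin n)))).Walk a a,
      p.IsHamiltonianCycle := by
  obtain ⟨hn, l, hl, ⟨hnd, hch⟩, hlen, hlast⟩ := h
  rw [Fintype.card_fin] at hn hlen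
  have hchain : l.IsChain (SimpleGraph.fromEdgeSet (A : Set (Sym2 (Fin n)))).Adj := by
    rw [List.isChain_iff_getElem] at hch ⊢
    intro i hi
    rw [SimpleGraph.fromEdgeSet_adj]
    refine ⟨hch i hi, fun he => ?_⟩
    have := (hnd.getElem_inj_iff).mp he
    omega
  set q := SimpleGraph.Walk.ofSupport l hl hchain with hq
  have hqs : q.support = l := SimpleGraph.Walk.support_ofSupport hl hchain
  have hql : q.length = l.length - 1 := SimpleGraph.Walk.length_ofSupport hl hchain
  have hpath : q.IsPath := by
    rw [SimpleGraph.Walk.isPath_def, hqs]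
    exact hnd
  have hne : l.getLast hl ≠ l.head hl := by
    intro he
    rw [List.getLast_eq_getElem, List.head_eq_getElem] at he
    have := (hnd.getElem_inj_iff).mp he
    omega
  have hadj : (SimpleGraph.fromEdgeSet (A : Set (Sym2 (Fin n)))).Adj (l.getLast hl)
      (l.head hl) := by
    rw [SimpleGraph.fromEdgeSet_adj]
    exact ⟨hlast, hne⟩
  refine ⟨l.getLast hl, SimpleGraph.Walk.cons hadj q, ?_⟩
  rw [SimpleGraph.Walk.isHamiltonianCycle_iff_isCycle_and_length_eq]
  constructor
  · rw [SimpleGraph.Walk.cons_isCycle_iff]
    refine ⟨hpath, fun he => ?_⟩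
    have h1 : s(l.head hl, l.getLast hl) ∈ q.edges := by
      rw [Sym2.eq_swap]
      exact he
    have h2 := hpath.length_eq_one_of_mem_edges h1
    omega
  · rw [SimpleGraph.Walk.length_cons, hql, Fintype.card_fin]
    omega

end AF
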