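import Pool.Agent.Lib.MP_991c8b_co.N0

/-!
# N1: weight of the family LS (locally sparse)

C = n/f ≥ 2^64. PROOF. wt ≤ ∑_X ∑_(P ∈ powersetCard t (inside M X)) lam^t, x = |X|, t = tt n f x ≥ C x/2^22 ≥ 2^42 x ≥ 1.
|inside M X| ≤ x^2/2 (no loops, M ⊆ KE n). C(|inside|, t) lam^t ≤ (e x^2/(2t))^t (4/f)^t = (2 e x^2/(t f))^t, and t f ≥ n x/2^22:
≤ (2^23 e x/n)^t ≤ w^t, w = 2^25 x/n ≤ 1/2 (2^26 x ≤ n). Number of X with |X| = x: C(n,x) ≤ (e n/x)^x ≤ (2^27/w)^x. Using only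
t ≥ 64 x: (2^27/w * w^64)^x ≤ (w^36)^x. For x^2 ≤ n this is at most (w^2)^18 ≤ (2^50/n)^18 ≤ 1/n^5 (n ≥ 2^70); for
x^2 > n it is at most 2^(-36 x) ≤ x^(-36) ≤ n^(-18). The sum over x ≤ n is at most (n+1)/n^5 ≤ 1/n^3.
-/

namespace AF

open Finset

private theorem N1_mem_inside {V : Type} [Fintype V] [DecidableEq V] (Γ : Finset (Sym2 V))
    (X : Finset V) (e : Sym2 V) : e ∈ inside Γ X ↔ e ∈ Γ ∧ ∀ v ∈ e, v ∈ X := by
  unfold inside
  exact Finset.mem_filter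

private theorem N1_inside_card {n : ℕ} (M : Finset (Sym2 (Fin n))) (hM : M ⊆ KE n)
    (X : Finset (Fin n)) : ((inside M X).card : ℝ) ≤ (X.card : ℝ) ^ 2 / 2 := by
  have h1 : inside M X ⊆ X.offDiag.image Sym2.mk.uncurry := by
    intro e he
    obtain ⟨h2, h3⟩ := (N1_mem_inside M X e).mp he
    have h4 := hM h2
    induction e using Sym2.ind with
    | _ u v =>
      have h5 : u ≠ v := by
        have h6 : s(u, v) ∈ (⊤ : SimpleGraph (Fin n)).edgeFinset := h4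
        rw [SimpleGraph.mem_edgeFinset, SimpleGraph.mem_edgeSet] at h6
        exact h6
      exact Finset.mem_image.mpr ⟨(u, v), Finset.mem_offDiag.mpr
        ⟨h3 u (Sym2.mem_mk_left u v), h3 v (Sym2.mem_mk_right u v), h5⟩, rfl⟩
  have h2 : (inside M X).card ≤ X.card.choose 2 := by
    refine (Finset.card_le_card h1).trans (le_of_eq ?_)
    exact Sym2.card_image_offDiag X
  have h3 : ((X.card.choose 2 : ℕ) : ℝ) ≤ (X.card : ℝ) ^ 2 / 2 := by
    rw [Nat.cast_choose_two]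
    have h4 : (0 : ℝ) ≤ X.card := Nat.cast_nonneg _
    nlinarith
  exact (Nat.cast_le.mpr h2).trans h3

/-- the contribution of one set X -/
private theorem N1_one (n f : ℕ) (hf : 1 ≤ f) (hfn : 2 ^ 64 * f ≤ n)
    (x I : ℕ) (hx : 1 ≤ x) (hxn : 2 ^ 26 * x ≤ n) (hI : (I : ℝ) ≤ (x : ℝ) ^ 2 / 2) :
    (I.choose (tt n f x) : ℝ) * lam f ^ (tt n f x) ≤ (2 ^ 25 * x / n : ℝ) ^ (64 * x) := by
  have hf0 : (0 : ℝ) < f := by exact_mod_cast hf
  have hx0 : (1 : ℝ) ≤ x := by exact_mod_cast hx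
  have hfn' : (2 : ℝ) ^ 64 * f ≤ n := by exact_mod_cast hfn
  have hxn' : (2 : ℝ) ^ 26 * x ≤ n := by exact_mod_cast hxn
  have hn0 : (0 : ℝ) < n := lt_of_lt_of_le (by positivity) hfn'
  set t := tt n f x with ht
  have h1 : (n : ℝ) / f * x / 2 ^ 22 ≤ t := by
    rw [ht]
    unfold tt Cc
    exact Nat.le_ceil _
  have hC : (2 : ℝ) ^ 64 ≤ n / f := by
    rw [le_div_iff₀ hf0]
    exact hfn'
  have h2 : (64 : ℝ) * x ≤ t := by
    refine le_trans ?_ h1
    rw [le_div_iff₀ (by positivity)]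
    nlinarith
  have h2' : 64 * x ≤ t := by exact_mod_cast h2
  have ht0 : 0 < t := by omega
  have htr : (0 : ℝ) < t := by exact_mod_cast ht0
  have h3 : (n : ℝ) * x / 2 ^ 22 ≤ t * f := by
    have h4 := mul_le_mul_of_nonneg_right h1 hf0.le
    refine le_trans (le_of_eq ?_) h4
    field_simp
  have hw0 : (0 : ℝ) ≤ 2 ^ 25 * x / n := by positivity
  have hw1 : (2 : ℝ) ^ 25 * x / n ≤ 1 := by
    rw [div_le_one hn0]
    nlinarith
  have he : Real.exp 1 ≤ 4 := by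
    have := Real.exp_one_lt_d9
    linarith
  have h5 : Real.exp 1 * I / t * lam f ≤ 2 ^ 25 * x / n := by
    have h6 : Real.exp 1 * I / t * lam f ≤ 4 * ((x : ℝ) ^ 2 / 2) / t * (4 / f) := by
      have h7 := lam_le f hf
      have h8 := (lam_pos f).le
      gcongr
    refine h6.trans ?_
    have h9 : 4 * ((x : ℝ) ^ 2 / 2) / t * (4 / f) = 8 * (x : ℝ) ^ 2 / (t * f) := by
      field_simp
      ring
    rw [h9, div_le_div_iff₀ (by positivity) hn0]
    have h10 : (2 : ℝ) ^ 25 * x * ((n : ℝ) * x / 2 ^ 22) ≤ 2 ^ 25 * x * (t * f) :=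
      mul_le_mul_of_nonneg_left h3 (by positivity)
    refine le_trans (le_of_eq ?_) h10
    ring
  calc (I.choose t : ℝ) * lam f ^ t ≤ (Real.exp 1 * I / t) ^ t * lam f ^ t :=
        mul_le_mul_of_nonneg_right (choose_le_exp I t ht0) (pow_nonneg (lam_pos f).le _)
    _ = (Real.exp 1 * I / t * lam f) ^ t := (mul_pow _ _ _).symm
    _ ≤ (2 ^ 25 * x / n : ℝ) ^ t :=
        pow_le_pow_left₀ (mul_nonneg (by positivity) (lam_pos f).le) h5 _
    _ ≤ (2 ^ 25 * x / n : ℝ) ^ (64 * x) := pow_le_pow_of_le_one hw0 hw1 h2'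

/-- the contribution of all sets with x elements -/
private theorem N1_size (n : ℕ) (hn : 2 ^ 70 ≤ n) (x : ℕ) (hx : 1 ≤ x) (hxn : 2 ^ 26 * x ≤ n) :
    (n.choose x : ℝ) * (2 ^ 25 * x / n : ℝ) ^ (64 * x) ≤ 1 / (n : ℝ) ^ 5 := by
  have hx0 : (1 : ℝ) ≤ x := by exact_mod_cast hx
  have hn' : (2 : ℝ) ^ 70 ≤ n := by exact_mod_cast hn
  have hxn' : (2 : ℝ) ^ 26 * x ≤ n := by exact_mod_cast hxn
  have hn0 : (0 : ℝ) < n := lt_of_lt_of_le (by positivity) hn'
  set w : ℝ := 2 ^ 25 * x / n with hw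
  have hw0 : 0 < w := by positivity
  have hw1 : w ≤ 1 / 2 := by
    rw [hw, div_le_div_iff₀ hn0 (by norm_num)]
    nlinarith
  have he : Real.exp 1 ≤ 4 := by
    have := Real.exp_one_lt_d9
    linarith
  have h1 : (n.choose x : ℝ) ≤ (2 ^ 27 / w) ^ x := by
    refine (choose_le_exp n x (by omega)).trans ?_
    refine pow_le_pow_left₀ (by positivity) ?_ _
    have h2 : (2 : ℝ) ^ 27 / w = 4 * n / x := by
      rw [hw]
      field_simp
      norm_num
    rw [h2]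
    gcongr
  have h3 : 2 ^ 27 / w * w ^ 64 ≤ w ^ 36 := by
    have h4 : 2 ^ 27 / w * w ^ 64 = (2 * w) ^ 27 * w ^ 36 := by
      field_simp
    rw [h4]
    have h5 : (2 * w) ^ 27 ≤ 1 := pow_le_one₀ (by positivity) (by linarith)
    exact mul_le_of_le_one_left (by positivity) h5
  have h6 : (n.choose x : ℝ) * w ^ (64 * x) ≤ (w ^ 36) ^ x := by
    calc (n.choose x : ℝ) * w ^ (64 * x) ≤ (2 ^ 27 / w) ^ x * w ^ (64 * x) :=
          mul_le_mul_of_nonneg_right h1 (by positivity)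
      _ = (2 ^ 27 / w * w ^ 64) ^ x := by
          rw [pow_mul, mul_pow]
      _ ≤ (w ^ 36) ^ x := pow_le_pow_left₀ (by positivity) h3 _
  refine h6.trans ?_
  rcases le_or_gt ((x : ℝ) ^ 2) n with h7 | h7
  · have h8 : (w ^ 36) ^ x ≤ w ^ 36 := by
      have h9 : (w ^ 36) ^ x ≤ (w ^ 36) ^ 1 :=
        pow_le_pow_of_le_one (by positivity) (pow_le_one₀ hw0.le (by linarith)) hx
      rwa [pow_one] at h9
    refine h8.trans ?_
    have h10 : w ^ 2 ≤ 2 ^ 50 / n := by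
      rw [hw, div_pow, div_le_div_iff₀ (by positivity) hn0]
      have : (2 ^ 25 * (x : ℝ)) ^ 2 * n = 2 ^ 50 * ((x : ℝ) ^ 2 * n) := by ring
      rw [this]
      have h11 : (x : ℝ) ^ 2 * n ≤ n ^ 2 := by nlinarith
      exact mul_le_mul_of_nonneg_left h11 (by positivity)
    calc w ^ 36 = (w ^ 2) ^ 18 := by ring
      _ ≤ (2 ^ 50 / n : ℝ) ^ 18 := pow_le_pow_left₀ (by positivity) h10 _
      _ ≤ 1 / (n : ℝ) ^ 5 := by
          rw [div_pow, div_le_div_iff₀ (by positivity) (by positivity), one_mul]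
          have h12 : ((2 : ℝ) ^ 50) ^ 18 ≤ (n : ℝ) ^ 13 := by
            calc ((2 : ℝ) ^ 50) ^ 18 = 2 ^ 900 := by rw [← pow_mul]
              _ ≤ 2 ^ (70 * 13) := pow_le_pow_right₀ (by norm_num) (by norm_num)
              _ = ((2 : ℝ) ^ 70) ^ 13 := by rw [pow_mul]
              _ ≤ (n : ℝ) ^ 13 := pow_le_pow_left₀ (by positivity) hn' _
          calc ((2 : ℝ) ^ 50) ^ 18 * (n : ℝ) ^ 5 ≤ (n : ℝ) ^ 13 * (n : ℝ) ^ 5 :=
                mul_le_mul_of_nonneg_right h12 (by positivity)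
            _ = (n : ℝ) ^ 18 := by ring
  · have h8 : (w ^ 36) ^ x ≤ ((1 / 2 : ℝ) ^ 36) ^ x :=
      pow_le_pow_left₀ (by positivity) (pow_le_pow_left₀ hw0.le hw1 _) _
    refine h8.trans ?_
    have h9 : (x : ℝ) ≤ 2 ^ x := by
      have : x < 2 ^ x := Nat.lt_two_pow_self
      exact_mod_cast this.le
    have h10 : (n : ℝ) ^ 5 ≤ (2 ^ x) ^ 36 := by
      have h1n : (1 : ℝ) ≤ n := by
        have : (1 : ℝ) ≤ 2 ^ 70 := by norm_num
        linarith
      calc (n : ℝ) ^ 5 ≤ (n : ℝ) ^ 18 := pow_le_pow_right₀ h1n (by norm_num)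
        _ ≤ ((x : ℝ) ^ 2) ^ 18 := pow_le_pow_left₀ hn0.le h7.le _
        _ = (x : ℝ) ^ 36 := by ring
        _ ≤ (2 ^ x) ^ 36 := pow_le_pow_left₀ (by positivity) h9 _
    have h11 : ((1 / 2 : ℝ) ^ 36) ^ x = 1 / (2 ^ x) ^ 36 := by
      rw [one_div, inv_pow, inv_pow, one_div, ← pow_mul, ← pow_mul, mul_comm]
    rw [h11]
    exact one_div_le_one_div_of_le (by positivity) h10

theorem wt_LS : ∃ N : ℕ, ∀ n : ℕ, N ≤ n → ∀ f : ℕ, 1 ≤ f → 2 ^ 64 * f ≤ n →
    ∀ M : Finset (Sym2 (Fin n)), M ⊆ KE n → wt f (LSf f M) ≤ 1 / (n : ℝ) ^ 3 := by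
  refine ⟨2 ^ 70, fun n hn f hf hfn M hM => ?_⟩
  have hn' : (2 : ℝ) ^ 70 ≤ n := by exact_mod_cast hn
  have hn0 : (0 : ℝ) < n := lt_of_lt_of_le (by positivity) hn'
  have h1n : (1 : ℝ) ≤ n := by
    have : (1 : ℝ) ≤ 2 ^ 70 := by norm_num
    linarith
  let G : ℕ → ℝ := fun x =>
    if 1 ≤ x ∧ 2 ^ 26 * x ≤ n then (2 ^ 25 * x / n : ℝ) ^ (64 * x) else 0
  have hG0 : ∀ x, 0 ≤ G x := by
    intro x
    change 0 ≤ (if 1 ≤ x ∧ 2 ^ 26 * x ≤ n then (2 ^ 25 * x / n : ℝ) ^ (64 * x) else 0)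
    split_ifs
    · positivity
    · exact le_refl _
  have h1 : wt f (LSf f M) ≤ ∑ X ∈ Finset.univ.filter
      (fun X : Finset (Fin n) => X.Nonempty ∧ 2 ^ 26 * X.card ≤ n), G X.card := by
    unfold LSf
    refine (wt_biUnion_le f _ _).trans (Finset.sum_le_sum ?_)
    intro X hX
    obtain ⟨h2, h3⟩ := (Finset.mem_filter.mp hX).2
    have hx1 : 1 ≤ X.card := Finset.card_pos.mpr h2
    refine (wt_image_le f _ _).trans ?_
    have h4 : ∑ P ∈ (inside M X).powersetCard (tt n f X.card),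
        lam f ^ P.card * mu f ^ (∅ : Finset (Sym2 (Fin n))).card =
        ((inside M X).card.choose (tt n f X.card) : ℝ) * lam f ^ (tt n f X.card) := by
      rw [Finset.sum_congr rfl (g := fun _ => lam f ^ (tt n f X.card))]
      · rw [Finset.sum_const, Finset.card_powersetCard, nsmul_eq_mul]
      · intro P hP
        rw [(Finset.mem_powersetCard.mp hP).2, Finset.card_empty, pow_zero, mul_one]
    refine (le_of_eq h4).trans ?_
    have h5 : G X.card = (2 ^ 25 * X.card / n : ℝ) ^ (64 * X.card) := if_pos ⟨hx1, h3⟩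
    rw [h5]
    exact N1_one n f hf hfn X.card _ hx1 h3 (N1_inside_card M hM X)
  have h2 : ∑ X ∈ Finset.univ.filter
      (fun X : Finset (Fin n) => X.Nonempty ∧ 2 ^ 26 * X.card ≤ n), G X.card ≤
      ∑ X : Finset (Fin n), G X.card :=
    Finset.sum_le_sum_of_subset_of_nonneg (Finset.filter_subset _ _) fun X _ _ => hG0 _
  have h3 : ∑ X : Finset (Fin n), G X.card = ∑ m ∈ Finset.range (n + 1), n.choose m • G m := by
    have h4 := Finset.sum_powerset_apply_card G (x := (Finset.univ : Finset (Fin n)))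
    rw [Finset.powerset_univ, Finset.card_univ, Fintype.card_fin] at h4
    exact h4
  have h4 : ∑ m ∈ Finset.range (n + 1), n.choose m • G m ≤
      ∑ m ∈ Finset.range (n + 1), 1 / (n : ℝ) ^ 5 := by
    refine Finset.sum_le_sum fun m _ => ?_
    rw [nsmul_eq_mul]
    by_cases h5 : 1 ≤ m ∧ 2 ^ 26 * m ≤ n
    · have h6 : G m = (2 ^ 25 * m / n : ℝ) ^ (64 * m) := if_pos h5
      rw [h6]
      exact N1_size n hn m h5.1 h5.2
    · have h6 : G m = 0 := if_neg h5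
      rw [h6, mul_zero]
      positivity
  refine h1.trans (h2.trans ((le_of_eq h3).trans (h4.trans ?_)))
  rw [Finset.sum_const, Finset.card_range, nsmul_eq_mul]
  push_cast
  rw [mul_one_div, div_le_div_iff₀ (by positivity) (by positivity), one_mul]
  have h7 : (n : ℝ) + 1 ≤ n ^ 2 := by nlinarith
  calc ((n : ℝ) + 1) * n ^ 3 ≤ n ^ 2 * n ^ 3 := mul_le_mul_of_nonneg_right h7 (by positivity)
    _ = n ^ 5 := by ring

end AF
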