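import Pool.Agent.Lib.MP_991c8b_co.N0

/-!
# N2: weight of the family EX (few vertices of small degree)

C = n/f ≥ 2^64, z = ss n f + 1, so exp(-0.03 C) n < z ≤ exp(-0.03 C) n + 1 ≤ n/100 + 1. m = dd z, dd = ⌈C/2^17⌉ ≤ C/2^16.
For one Z, U = touch M Z: |U| ≤ z n. LOWER BOUND: ∑_(v ∈ Z) dg M v ≤ |U| + z^2 (an edge is counted twice only if both ends
are in Z, at most z^2 such edges), dg M v ≥ n - 1 - n/2^33 (M = KE n \ R, dg (KE n) v = n-1). So |U| ≥ z (n - 1 - n/2^33 - z) ≥ (98/100) z n.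
∑_P lam^|P| mu^|U \ P| ≤ ∑_(P ⊆ U, |P| ≤ m) (4/f)^|P| * exp(-(|U| - m)/(3f)) (|U \ P| ≥ |U| - m, mu ≤ 1).
sum_small with N = z n, y = 4/f, N y = 4 C z ≥ m: ≤ (4 e C z/m)^m = (4 e C/dd)^m ≤ (4 e 2^17)^m ≤ 2^(21 m) ≤ exp(15 m) ≤ exp(15 C z/2^16) ≤
exp(C z/1000). (|U| - m)/(3f) ≥ (98/100 z n - C z/2^16)/(3f) ≥ (97/100) z n/(3 f) ≥ (32/100) C z.
Number of Z: C(n, z) ≤ (e n/z)^z ≤ exp(z (1 + 0.03 C)) as n/z < exp(0.03 C). Total ≤ exp(z (1 + 0.03 C + 0.001 C - 0.32 C)) ≤ exp(-C z/4).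
Need exp(-C z/4) ≤ 1/n^3: if C ≥ 16 log n, z ≥ 1 is enough. If C < 16 log n: z ≥ exp(-0.48 log n) n ≥ √n, C z/4 ≥ √n ≥ 3 log n for
large n.
-/

namespace AF

open Finset

private theorem mem_touch {V : Type} [Fintype V] [DecidableEq V] {Γ : Finset (Sym2 V)}
    {Z : Finset V} {e : Sym2 V} : e ∈ touch Γ Z ↔ e ∈ Γ ∧ ∃ v ∈ Z, v ∈ e := by
  unfold touch
  rw [Finset.mem_filter]

private theorem touch_card_le {n : ℕ} (M : Finset (Sym2 (Fin n))) (Z : Finset (Fin n)) :
    (touch M Z).card ≤ Z.card * n := by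
  have h1 : touch M Z ⊆ (Z ×ˢ (Finset.univ : Finset (Fin n))).image
      (fun q : Fin n × Fin n => s(q.1, q.2)) := by
    intro e he
    obtain ⟨v, hv, hve⟩ := (mem_touch.1 he).2
    obtain ⟨w, rfl⟩ := hve
    exact Finset.mem_image.2 ⟨(v, w), Finset.mem_product.2 ⟨hv, Finset.mem_univ w⟩, rfl⟩
  calc (touch M Z).card ≤ _ := Finset.card_le_card h1
    _ ≤ (Z ×ˢ (Finset.univ : Finset (Fin n))).card := Finset.card_image_le
    _ = Z.card * n := by rw [Finset.card_product, Finset.card_univ, Fintype.card_fin]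

private theorem touch_R {n : ℕ} (R : Finset (Sym2 (Fin n))) (hR : ∀ v, dg R v * 2 ^ 33 ≤ n)
    (Z : Finset (Fin n)) : (touch R Z).card * 2 ^ 33 ≤ Z.card * n := by
  have h1 : touch R Z ⊆ Z.biUnion (fun v => R.filter (fun e => v ∈ e)) := by
    intro e he
    obtain ⟨h2, v, hv, hve⟩ := mem_touch.1 he
    exact Finset.mem_biUnion.2 ⟨v, hv, Finset.mem_filter.2 ⟨h2, hve⟩⟩
  calc (touch R Z).card * 2 ^ 33 ≤ (∑ v ∈ Z, dg R v) * 2 ^ 33 := by
        refine Nat.mul_le_mul_right _ ((Finset.card_le_card h1).trans Finset.card_biUnion_le)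
    _ = ∑ v ∈ Z, dg R v * 2 ^ 33 := Finset.sum_mul _ _ _
    _ ≤ ∑ _v ∈ Z, n := Finset.sum_le_sum fun v _ => hR v
    _ = Z.card * n := by rw [Finset.sum_const, smul_eq_mul]

private theorem touch_low {n : ℕ} (R : Finset (Sym2 (Fin n))) (Z : Finset (Fin n)) :
    Z.card * (n - Z.card) ≤ (touch (KE n \ R) Z).card + (touch R Z).card := by
  have h1 : (Z ×ˢ Zᶜ).image (fun q : Fin n × Fin n => s(q.1, q.2)) ⊆
      touch (KE n \ R) Z ∪ touch R Z := by
    intro e he
    obtain ⟨⟨v, w⟩, hq, rfl⟩ := Finset.mem_image.1 he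
    obtain ⟨hv, hw⟩ := Finset.mem_product.1 hq
    have hw' : w ∉ Z := Finset.mem_compl.1 hw
    have hvw : v ≠ w := by
      rintro rfl
      exact hw' hv
    have hm : ∃ u ∈ Z, u ∈ s(v, w) := ⟨v, hv, Sym2.mem_mk_left v w⟩
    rw [Finset.mem_union]
    by_cases hr : s(v, w) ∈ R
    · exact Or.inr (mem_touch.2 ⟨hr, hm⟩)
    · refine Or.inl (mem_touch.2 ⟨Finset.mem_sdiff.2 ⟨?_, hr⟩, hm⟩)
      unfold KE
      rw [SimpleGraph.mem_edgeFinset, SimpleGraph.mem_edgeSet]
      exact hvw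
  have h2 : ((Z ×ˢ Zᶜ).image (fun q : Fin n × Fin n => s(q.1, q.2))).card =
      Z.card * (n - Z.card) := by
    rw [Finset.card_image_of_injOn, Finset.card_product, Finset.card_compl, Fintype.card_fin]
    rintro ⟨v, w⟩ hq ⟨v', w'⟩ hq' h
    obtain ⟨hv, hw⟩ := Finset.mem_product.1 (Finset.mem_coe.1 hq)
    obtain ⟨hv', hw'⟩ := Finset.mem_product.1 (Finset.mem_coe.1 hq')
    have h3 : s(v, w) = s(v', w') := h
    rw [Sym2.eq_iff] at h3
    rcases h3 with ⟨h4, h5⟩ | ⟨h4, h5⟩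
    · rw [h4, h5]
    · exfalso
      exact Finset.mem_compl.1 hw' (h4 ▸ hv)
  rw [← h2]
  exact (Finset.card_le_card h1).trans (Finset.card_union_le _ _)

/-- The inner sum. -/
private theorem inner {n f z m d : ℕ} {C : ℝ} (hf : 1 ≤ f) (hC : C = (n : ℝ) / f)
    (hC2 : (2 : ℝ) ^ 64 ≤ C) (hz : 0 < z) (hd : d = ⌈C / 2 ^ 17⌉₊) (hm : m = d * z)
    (U : Finset (Sym2 (Fin n))) (hU : (U.card : ℝ) ≤ z * n) (hUl : 98 / 100 * (z * n) ≤ (U.card : ℝ)) :
    ∑ P ∈ U.powerset.filter (fun P => P.card ≤ m), lam f ^ P.card * mu f ^ (U \ P).card ≤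
      Real.exp (-(319 / 1000) * (C * z)) := by
  have hf0 : (0 : ℝ) < f := by exact_mod_cast hf
  have hf1 : (1 : ℝ) ≤ f := by exact_mod_cast hf
  have hC0 : 0 < C := by linarith [show (0 : ℝ) < 2 ^ 64 by norm_num]
  have hz0 : (0 : ℝ) < z := by exact_mod_cast hz
  have hCf : C * f = n := by rw [hC]; field_simp
  have hd1 : C / 2 ^ 17 ≤ d := by rw [hd]; exact Nat.le_ceil _
  have hd2 : (d : ℝ) ≤ C / 2 ^ 16 := by
    have h1 : (d : ℝ) < C / 2 ^ 17 + 1 := by
      rw [hd]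
      exact Nat.ceil_lt_add_one (by positivity)
    have h2 : (1 : ℝ) ≤ C / 2 ^ 17 := by
      rw [le_div_iff₀ (by positivity)]
      exact le_trans (by norm_num) hC2
    have h3 : C / 2 ^ 16 = C / 2 ^ 17 + C / 2 ^ 17 := by ring
    linarith
  have hd0 : (0 : ℝ) < d := lt_of_lt_of_le (by positivity) hd1
  have hdN : 0 < d := by exact_mod_cast hd0
  have hmr : (m : ℝ) = d * z := by rw [hm]; push_cast; ring
  have hm0 : 0 < m := by rw [hm]; exact Nat.mul_pos hdN hz
  have hm0' : (0 : ℝ) < m := by exact_mod_cast hm0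
  -- the sum over P
  have hsum := sum_small U ((z : ℝ) * n) (4 / f) m hU (by positivity) hm0 (by
    have e1 : (z : ℝ) * n * (4 / f) = 4 * (C * z) := by rw [← hCf]; field_simp
    rw [e1, hmr]
    have : (d : ℝ) * z ≤ C / 2 ^ 16 * z := mul_le_mul_of_nonneg_right hd2 hz0.le
    have h2 : C / 2 ^ 16 * z ≤ 4 * (C * z) := by
      have h3 : 0 < C * z := by positivity
      have h4 : C / 2 ^ 16 * z = (C * z) / 2 ^ 16 := by ring
      rw [h4, div_le_iff₀ (by positivity)]
      nlinarith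
    linarith)
  have hbase : Real.exp 1 * (z * n) * (4 / f) / m ≤ Real.exp 15 := by
    have e1 : Real.exp 1 * (z * n) * (4 / f) / m = Real.exp 1 * 4 * (C / d) := by
      rw [hmr, ← hCf]
      field_simp
    have h1 : C / d ≤ 2 ^ 17 := by
      rw [div_le_iff₀ hd0]
      rw [div_le_iff₀ (by positivity)] at hd1
      linarith
    rw [e1]
    have h2 : Real.exp 15 = Real.exp 1 ^ 15 := by
      rw [← Real.exp_nat_mul]
      norm_num
    have h3 : (2 : ℝ) ≤ Real.exp 1 := by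
      have := Real.exp_one_gt_d9
      linarith
    have h4 : Real.exp 1 * 4 * (C / d) ≤ Real.exp 1 * 4 * 2 ^ 17 :=
      mul_le_mul_of_nonneg_left h1 (by positivity)
    rw [h2]
    refine h4.trans ?_
    have h5 : (4 : ℝ) * 2 ^ 17 ≤ Real.exp 1 ^ 14 := by
      have h6 : (27 / 10 : ℝ) ≤ Real.exp 1 := by
        have := Real.exp_one_gt_d9
        linarith
      calc (4 : ℝ) * 2 ^ 17 ≤ (27 / 10) ^ 14 := by norm_num
        _ ≤ Real.exp 1 ^ 14 := pow_le_pow_left₀ (by norm_num) h6 14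
    calc Real.exp 1 * 4 * 2 ^ 17 = Real.exp 1 * (4 * 2 ^ 17) := by ring
      _ ≤ Real.exp 1 * Real.exp 1 ^ 14 := mul_le_mul_of_nonneg_left h5 (by positivity)
      _ = Real.exp 1 ^ 15 := by ring
  have hsum2 : ∑ P ∈ U.powerset.filter (fun P => P.card ≤ m), (4 / (f : ℝ)) ^ P.card ≤
      Real.exp (15 * m) := by
    refine hsum.trans ((pow_le_pow_left₀ (by positivity) hbase m).trans (le_of_eq ?_))
    rw [← Real.exp_nat_mul]
    congr 1
    ring
  have hterm : ∀ P ∈ U.powerset.filter (fun P => P.card ≤ m),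
      lam f ^ P.card * mu f ^ (U \ P).card ≤
        (4 / (f : ℝ)) ^ P.card * Real.exp (-((U.card - m) / (3 * (f : ℝ)))) := by
    intro P hP
    obtain ⟨h1, h2⟩ := Finset.mem_filter.1 hP
    have h3 := Finset.mem_powerset.1 h1
    refine mul_le_mul (pow_le_pow_left₀ (lam_pos f).le (lam_le f hf) _) ?_
      (pow_nonneg (mu_pos f hf).le _) (by positivity)
    refine (mu_pow_le f hf _).trans (Real.exp_le_exp.2 ?_)
    rw [Finset.card_sdiff_of_subset h3, Nat.cast_sub (Finset.card_le_card h3)]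
    refine neg_le_neg (div_le_div_of_nonneg_right ?_ (by positivity))
    have : (P.card : ℝ) ≤ m := by exact_mod_cast h2
    linarith
  refine (Finset.sum_le_sum hterm).trans ?_
  rw [← Finset.sum_mul]
  refine (mul_le_mul_of_nonneg_right hsum2 (Real.exp_pos _).le).trans ?_
  rw [← Real.exp_add]
  apply Real.exp_le_exp.2
  have h1 : (m : ℝ) ≤ C * z / 2 ^ 16 := by
    rw [hmr]
    calc (d : ℝ) * z ≤ C / 2 ^ 16 * z := mul_le_mul_of_nonneg_right hd2 hz0.le
      _ = C * z / 2 ^ 16 := by ring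
  have h2 : (98 / 100 * (C * z) - C * z / 2 ^ 16) / 3 ≤ (U.card - m) / (3 * (f : ℝ)) := by
    rw [div_le_div_iff₀ (by norm_num) (by positivity)]
    have e1 : (z : ℝ) * n = C * z * f := by rw [← hCf]; ring
    rw [e1] at hUl
    have h3 : (m : ℝ) ≤ C * z / 2 ^ 16 * f := by
      have h4 : (0 : ℝ) ≤ C * z / 2 ^ 16 := by positivity
      nlinarith
    nlinarith
  have h3 : 0 < C * z := by positivity
  have h4 : C * z / 2 ^ 16 = (C * z) * (1 / 2 ^ 16) := by ring
  rw [h4] at h1 h2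
  norm_num at h1 h2 ⊢
  linarith

theorem wt_EX : ∃ N : ℕ, ∀ n : ℕ, N ≤ n → ∀ f : ℕ, 1 ≤ f → 2 ^ 64 * f ≤ n →
    ∀ R : Finset (Sym2 (Fin n)), (∀ v, dg R v * 2 ^ 33 ≤ n) →
      wt f (EXf f (KE n \ R)) ≤ 1 / (n : ℝ) ^ 3 := by
  refine ⟨⌈Real.exp 100⌉₊, fun n hn f hf hfn R hR => ?_⟩
  have hn100 : Real.exp 100 ≤ n := Nat.ceil_le.1 hn
  have hn0 : (0 : ℝ) < n := (Real.exp_pos 100).trans_le hn100
  have hlg : 100 ≤ Real.log n := by
    rw [Real.le_log_iff_exp_le hn0]
    exact hn100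
  have hn5 : (5000 : ℝ) ≤ n := by
    have := Real.quadratic_le_exp_of_nonneg (show (0 : ℝ) ≤ 100 by norm_num)
    norm_num at this
    linarith
  have hf0 : (0 : ℝ) < f := by exact_mod_cast hf
  obtain ⟨C, hC⟩ : ∃ C : ℝ, C = (n : ℝ) / f := ⟨_, rfl⟩
  have hCc : Cc n f = C := by rw [hC]; rfl
  have hC2 : (2 : ℝ) ^ 64 ≤ C := by
    rw [hC, le_div_iff₀ hf0]
    exact_mod_cast hfn
  have hC0 : 0 < C := by linarith [show (0 : ℝ) < 2 ^ 64 by norm_num]
  obtain ⟨z, hz⟩ : ∃ z : ℕ, z = ss n f + 1 := ⟨_, rfl⟩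
  have hz1 : 0 < z := by omega
  have hzr : (1 : ℝ) ≤ z := by exact_mod_cast hz1
  have hzl : Real.exp (-(3 / 100) * C) * n < z := by
    rw [hz, ss, hCc]
    push_cast
    exact Nat.lt_floor_add_one _
  have hzu : (z : ℝ) ≤ n / 100 := by
    have h1 : (ss n f : ℝ) ≤ Real.exp (-(3 / 100) * C) * n := by
      rw [ss, hCc]
      exact Nat.floor_le (by positivity)
    have h2 : Real.exp (-(3 / 100) * C) ≤ 1 / 1000 := by
      rw [neg_mul, Real.exp_neg, ← one_div]
      refine one_div_le_one_div_of_le (by norm_num) ?_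
      have h3 := Real.add_one_le_exp (3 / 100 * C)
      have h4 : (1000 : ℝ) ≤ 3 / 100 * C := by
        have : (2 : ℝ) ^ 64 ≥ 100000 := by norm_num
        linarith
      linarith
    have h3 : Real.exp (-(3 / 100) * C) * n ≤ 1 / 1000 * n :=
      mul_le_mul_of_nonneg_right h2 hn0.le
    have h4 : (z : ℝ) = ss n f + 1 := by rw [hz]; push_cast; ring
    rw [h4]
    linarith
  -- every Z
  have key : ∀ Z ∈ (Finset.univ : Finset (Fin n)).powersetCard z,
      wt f (((touch (KE n \ R) Z).powerset.filter (fun P => P.card ≤ dd n f * z)).image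
        (fun P => (P, touch (KE n \ R) Z \ P))) ≤ Real.exp (-(319 / 1000) * (C * z)) := by
    intro Z hZ
    have hZc : Z.card = z := (Finset.mem_powersetCard.1 hZ).2
    refine (wt_image_le f _ _).trans ?_
    have hU1 := touch_card_le (KE n \ R) Z
    have hU2 := touch_R R hR Z
    have hU3 := touch_low R Z
    rw [hZc] at hU1 hU2 hU3
    have hzn : z ≤ n := by
      have : (z : ℝ) ≤ n := by linarith
      exact_mod_cast this
    have r1 : ((touch (KE n \ R) Z).card : ℝ) ≤ z * n := by exact_mod_cast hU1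
    have r2 : ((touch R Z).card : ℝ) * 2 ^ 33 ≤ z * n := by exact_mod_cast hU2
    have r3 : (z : ℝ) * (n - z) ≤ (touch (KE n \ R) Z).card + (touch R Z).card := by
      have : ((z * (n - z) : ℕ) : ℝ) ≤
          (((touch (KE n \ R) Z).card + (touch R Z).card : ℕ) : ℝ) := by exact_mod_cast hU3
      rw [Nat.cast_mul, Nat.cast_sub hzn] at this
      push_cast at this
      exact this
    have r4 : 98 / 100 * ((z : ℝ) * n) ≤ (touch (KE n \ R) Z).card := by
      have h1 : (z : ℝ) * z ≤ z * (n / 100) := mul_le_mul_of_nonneg_left hzu (by linarith)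
      have h2 : ((touch R Z).card : ℝ) ≤ 1 / 100 * (z * n) := by
        norm_num at r2
        have h3 : (0 : ℝ) ≤ (touch R Z).card := Nat.cast_nonneg _
        linarith
      nlinarith
    refine inner (C := C) (z := z) (m := dd n f * z) (d := dd n f) hf hC hC2 hz1 ?_ rfl _ r1 r4
    rw [dd, hCc]
  have htot : wt f (EXf f (KE n \ R)) ≤
      (n.choose z : ℝ) * Real.exp (-(319 / 1000) * (C * z)) := by
    unfold EXf
    rw [← hz]
    refine (wt_biUnion_le f _ _).trans ((Finset.sum_le_sum key).trans (le_of_eq ?_))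
    rw [Finset.sum_const, Finset.card_powersetCard, Finset.card_univ, Fintype.card_fin,
      nsmul_eq_mul]
  refine htot.trans ?_
  have hch : (n.choose z : ℝ) ≤ Real.exp (z * (1 + 3 / 100 * C)) := by
    refine (choose_le_exp n z hz1).trans ?_
    have h1 : Real.exp 1 * n / z ≤ Real.exp (1 + 3 / 100 * C) := by
      rw [Real.exp_add, mul_div_assoc]
      refine mul_le_mul_of_nonneg_left ?_ (Real.exp_pos 1).le
      rw [div_le_iff₀ (by linarith)]
      have h2 : Real.exp (3 / 100 * C) * Real.exp (-(3 / 100) * C) = 1 := by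
        rw [← Real.exp_add]
        have : 3 / 100 * C + -(3 / 100) * C = 0 := by ring
        rw [this, Real.exp_zero]
      calc (n : ℝ) = Real.exp (3 / 100 * C) * (Real.exp (-(3 / 100) * C) * n) := by
            rw [← mul_assoc, h2, one_mul]
        _ ≤ Real.exp (3 / 100 * C) * z :=
            mul_le_mul_of_nonneg_left hzl.le (Real.exp_pos _).le
    refine (pow_le_pow_left₀ (by positivity) h1 z).trans (le_of_eq ?_)
    rw [← Real.exp_nat_mul]
  refine (mul_le_mul_of_nonneg_right hch (Real.exp_pos _).le).trans ?_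
  rw [← Real.exp_add]
  have hCz : 12 * Real.log n ≤ C * z := by
    by_cases hbig : 16 * Real.log n ≤ C
    · have : C ≤ C * z := le_mul_of_one_le_right hC0.le hzr
      linarith
    · push Not at hbig
      have h1 : Real.exp (1 / 2 * Real.log n) ≤ z := by
        refine le_trans ?_ hzl.le
        have h2 : (n : ℝ) = Real.exp (Real.log n) := (Real.exp_log hn0).symm
        calc Real.exp (1 / 2 * Real.log n) ≤ Real.exp (-(3 / 100) * C + Real.log n) := by
              apply Real.exp_le_exp.2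
              linarith
          _ = Real.exp (-(3 / 100) * C) * n := by rw [Real.exp_add, ← h2]
      have h2 := Real.quadratic_le_exp_of_nonneg
        (show (0 : ℝ) ≤ 1 / 2 * Real.log n by linarith)
      have h3 : 12 * Real.log n ≤ z := by nlinarith
      have h4 : (z : ℝ) ≤ C * z := by
        refine le_mul_of_one_le_left (by linarith) ?_
        exact le_trans (by norm_num) hC2
      linarith
  have hfin : (z : ℝ) * (1 + 3 / 100 * C) + -(319 / 1000) * (C * z) ≤ -(3 * Real.log n) := by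
    have h1 : (z : ℝ) ≤ 1 / 1000 * (C * z) := by
      have : (1000 : ℝ) ≤ C := le_trans (by norm_num) hC2
      nlinarith
    nlinarith
  refine (Real.exp_le_exp.2 hfin).trans (le_of_eq ?_)
  rw [Real.exp_neg, ← one_div]
  congr 1
  have : (3 : ℝ) * Real.log n = ((3 : ℕ) : ℝ) * Real.log n := by norm_num
  rw [this, Real.exp_nat_mul, Real.exp_log hn0]

end AF
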