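import Pool.Agent.Lib.MP_991c8b_co.N0

/-!
# N3: weight of the family BI (edges between large sets)

C = n/f ≥ 2^64, a = aa n = ⌈n/2^30⌉, j0 = jj n f = ⌊C a/2^8⌋ (≥ C a/2^9 > 0). For one pair (A1, B1), U = betw M A1 B1:
|U| ≤ a n/2. LOWER BOUND: the a * (n/2 : ℕ) pairs s(u, v) are different edges of KE n (A1, B1 disjoint), of which at most
∑_(u ∈ A1) dg R u ≤ a n/2^33 are in R: |U| ≥ a ((n-1)/2 - n/2^33) ≥ (49/100) a n.
∑_P lam^|P| mu^|U \ P| ≤ ∑_(P ⊆ U, |P| ≤ j0) (4/f)^|P| * exp(-(|U| - j0)/(3f)). sum_small with N = a n/2, y = 4/f, N y = 2 C a ≥ j0: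
≤ (2 e C a/j0)^j0 ≤ (2 e 2^9)^j0 ≤ 2^(12 j0) ≤ exp(12 * 0.6932 * C a/2^8) ≤ exp(0.033 C a). (|U| - j0)/(3 f) ≥
(49/100 a n - C a/2^8)/(3f) ≥ (48/100) a n/(3f) = (16/100) C a (C ≤ n). Number of pairs ≤ 4^n ≤ exp(1.4 n). Total ≤ exp(1.4 n - 0.12 C a), and
C a ≥ 2^64 n/2^30 = 2^34 n: ≤ exp(-n) ≤ 1/n^3 for large n.
-/

namespace AF

open Finset

private theorem N3_mem {V : Type} [Fintype V] [DecidableEq V] (M : Finset (Sym2 V))
    (A B : Finset V) (e : Sym2 V) :
    e ∈ betw M A B ↔ e ∈ M ∧ ∃ u ∈ A, ∃ v ∈ B, e = s(u, v) := by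
  unfold betw
  rw [Finset.mem_filter]

private theorem N3_upper {n : ℕ} (M : Finset (Sym2 (Fin n))) (A1 B1 : Finset (Fin n)) :
    (betw M A1 B1).card ≤ A1.card * B1.card := by
  classical
  have h : betw M A1 B1 ⊆ (A1 ×ˢ B1).image (fun q => s(q.1, q.2)) := by
    intro e he
    rw [N3_mem] at he
    obtain ⟨_, u, hu, v, hv, rfl⟩ := he
    exact Finset.mem_image.mpr ⟨(u, v), Finset.mem_product.mpr ⟨hu, hv⟩, rfl⟩
  calc (betw M A1 B1).card ≤ ((A1 ×ˢ B1).image (fun q => s(q.1, q.2))).card :=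
        Finset.card_le_card h
    _ ≤ (A1 ×ˢ B1).card := Finset.card_image_le
    _ = A1.card * B1.card := Finset.card_product _ _

private theorem N3_lower {n : ℕ} (R : Finset (Sym2 (Fin n))) (A1 B1 : Finset (Fin n))
    (hd : Disjoint A1 B1) :
    A1.card * B1.card ≤ (betw (KE n \ R) A1 B1).card + ∑ u ∈ A1, dg R u := by
  classical
  have hinj : Set.InjOn (fun q : Fin n × Fin n => s(q.1, q.2))
      (((A1 ×ˢ B1 : Finset (Fin n × Fin n))) : Set (Fin n × Fin n)) := by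
    rintro ⟨u, v⟩ hq ⟨u', v'⟩ hq' he
    rw [Finset.mem_coe, Finset.mem_product] at hq hq'
    simp only at hq hq' he
    rw [Sym2.eq_iff] at he
    rcases he with ⟨h1, h2⟩ | ⟨h1, h2⟩
    · rw [h1, h2]
    · exact absurd hq'.2 (by rw [← h1]; exact Finset.disjoint_left.mp hd hq.1)
  have hsub : (A1 ×ˢ B1).image (fun q : Fin n × Fin n => s(q.1, q.2)) ⊆
      betw (KE n \ R) A1 B1 ∪ A1.biUnion (fun u => R.filter (fun e => u ∈ e)) := by
    intro e he
    rw [Finset.mem_image] at he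
    obtain ⟨⟨u, v⟩, hq, rfl⟩ := he
    rw [Finset.mem_product] at hq
    rw [Finset.mem_union]
    by_cases hR : s(u, v) ∈ R
    · right
      rw [Finset.mem_biUnion]
      exact ⟨u, hq.1, Finset.mem_filter.mpr ⟨hR, Sym2.mem_mk_left u v⟩⟩
    · left
      rw [N3_mem, Finset.mem_sdiff]
      refine ⟨⟨?_, hR⟩, u, hq.1, v, hq.2, rfl⟩
      unfold KE
      rw [SimpleGraph.mem_edgeFinset, SimpleGraph.mem_edgeSet, SimpleGraph.top_adj]
      intro huv
      have huv' : u = v := huv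
      exact Finset.disjoint_left.mp hd hq.1 (by rw [huv']; exact hq.2)
  calc A1.card * B1.card = (A1 ×ˢ B1).card := (Finset.card_product _ _).symm
    _ = ((A1 ×ˢ B1).image (fun q : Fin n × Fin n => s(q.1, q.2))).card :=
        (Finset.card_image_of_injOn hinj).symm
    _ ≤ _ := Finset.card_le_card hsub
    _ ≤ (betw (KE n \ R) A1 B1).card +
        (A1.biUnion (fun u => R.filter (fun e => u ∈ e))).card := Finset.card_union_le _ _
    _ ≤ _ := Nat.add_le_add_left Finset.card_biUnion_le _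

private theorem N3_pair {n : ℕ} (f : ℕ) (hf : 1 ≤ f) (hfn : 2 ^ 64 * f ≤ n) (hn : 100 ≤ n)
    (U : Finset (Sym2 (Fin n))) (hU1 : (U.card : ℝ) ≤ aa n * n / 2)
    (hU2 : 49 / 100 * ((aa n : ℝ) * n) ≤ U.card) :
    ∑ P ∈ U.powerset.filter (fun P => P.card ≤ jj n f),
      lam f ^ P.card * mu f ^ (U \ P).card ≤ Real.exp (-(12 / 100 * (Cc n f * aa n))) := by
  classical
  have hf0 : (0 : ℝ) < f := by exact_mod_cast hf
  have hf1 : (1 : ℝ) ≤ f := by exact_mod_cast hf
  have hn0 : (0 : ℝ) < n := by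
    have : 0 < n := by omega
    exact_mod_cast this
  have hC : (2 : ℝ) ^ 64 ≤ Cc n f := by
    unfold Cc
    rw [le_div_iff₀ hf0]
    exact_mod_cast hfn
  have hCn : Cc n f * f = n := by
    unfold Cc
    field_simp
  have ha1 : (1 : ℝ) ≤ aa n := by
    have h1 : 0 < aa n := by
      unfold aa
      exact Nat.ceil_pos.mpr (by positivity)
    exact_mod_cast h1
  obtain ⟨K, hK⟩ : ∃ K : ℝ, K = Cc n f * aa n := ⟨_, rfl⟩
  have hC0 : 0 < Cc n f := lt_of_lt_of_le (by positivity) hC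
  have hKbig : 256 ≤ K := by
    rw [hK]
    nlinarith
  have hj1 : (jj n f : ℝ) ≤ K / 2 ^ 8 := by
    unfold jj
    rw [← hK]
    exact Nat.floor_le (by positivity)
  have hj2 : K / 2 ^ 9 ≤ jj n f := by
    have h1 : K / 2 ^ 8 < jj n f + 1 := by
      unfold jj
      rw [← hK]
      exact Nat.lt_floor_add_one _
    have h2 : (1 : ℝ) ≤ jj n f := by
      have h3 : 1 ≤ jj n f := by
        unfold jj
        rw [← hK]
        apply Nat.le_floor
        rw [le_div_iff₀ (by positivity)]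
        push_cast
        linarith
      exact_mod_cast h3
    linarith
  have hjpos : 0 < jj n f := by
    have h1 : (0 : ℝ) < jj n f := lt_of_lt_of_le (by positivity) hj2
    exact_mod_cast h1
  have hj0 : (0 : ℝ) < jj n f := by exact_mod_cast hjpos
  have hNy : ((aa n : ℝ) * n / 2) * (4 / f) = 2 * K := by
    rw [hK, ← hCn]
    field_simp
    ring
  -- the bound for each term
  have hterm : ∀ P ∈ U.powerset.filter (fun P => P.card ≤ jj n f),
      lam f ^ P.card * mu f ^ (U \ P).card ≤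
        (4 / (f : ℝ)) ^ P.card * Real.exp (-(16 / 100 * K)) := by
    intro P hP
    obtain ⟨hPU, hPj⟩ := Finset.mem_filter.mp hP
    rw [Finset.mem_powerset] at hPU
    have h1 : lam f ^ P.card ≤ (4 / (f : ℝ)) ^ P.card :=
      pow_le_pow_left₀ (lam_pos f).le (lam_le f hf) _
    have h2 : mu f ^ (U \ P).card ≤ Real.exp (-(16 / 100 * K)) := by
      refine (mu_pow_le f hf _).trans (Real.exp_le_exp.mpr ?_)
      rw [neg_le_neg_iff, le_div_iff₀ (by positivity)]
      have h3 : ((U \ P).card : ℝ) = U.card - P.card := by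
        have h4 := Finset.card_sdiff_add_card_eq_card hPU
        have h5 : ((U \ P).card : ℝ) + P.card = U.card := by exact_mod_cast h4
        linarith
      have h6 : (P.card : ℝ) ≤ K / 2 ^ 8 := by
        have h7 : (P.card : ℝ) ≤ jj n f := by exact_mod_cast hPj
        linarith
      have h8 : (aa n : ℝ) * n = K * f := by
        rw [hK, ← hCn]
        ring
      rw [h3]
      have h9 : K ≤ K * f := by nlinarith
      rw [h8] at hU2
      nlinarith
    exact mul_le_mul h1 h2 (pow_pos (mu_pos f hf) _).le (by positivity)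
  have hsum := sum_small U ((aa n : ℝ) * n / 2) (4 / f) (jj n f) hU1 (by positivity) hjpos
    (by rw [hNy]; linarith)
  have hbase : Real.exp 1 * ((aa n : ℝ) * n / 2) * (4 / f) / jj n f ≤ 2 ^ 12 := by
    rw [mul_assoc, hNy, div_le_iff₀ hj0]
    have h1 : Real.exp 1 ≤ 4 := by
      have := Real.exp_one_lt_d9
      linarith
    have h2 : 0 ≤ K := by linarith
    nlinarith
  have hpow : (Real.exp 1 * ((aa n : ℝ) * n / 2) * (4 / f) / jj n f) ^ jj n f ≤
      Real.exp (4 / 100 * K) := by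
    calc (Real.exp 1 * ((aa n : ℝ) * n / 2) * (4 / f) / jj n f) ^ jj n f
        ≤ ((2 : ℝ) ^ 12) ^ jj n f := pow_le_pow_left₀ (by positivity) hbase _
      _ ≤ (Real.exp 10) ^ jj n f := by
          refine pow_le_pow_left₀ (by positivity) ?_ _
          have h1 : (2.7 : ℝ) ≤ Real.exp 1 := by
            have := Real.exp_one_gt_d9
            linarith
          have h2 : Real.exp 10 = Real.exp 1 ^ 10 := by
            rw [← Real.exp_nat_mul]
            norm_num
          rw [h2]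
          calc (2 : ℝ) ^ 12 ≤ (2.7 : ℝ) ^ 10 := by norm_num
            _ ≤ Real.exp 1 ^ 10 := pow_le_pow_left₀ (by norm_num) h1 _
      _ = Real.exp (jj n f * 10) := (Real.exp_nat_mul _ _).symm
      _ ≤ Real.exp (4 / 100 * K) := by
          refine Real.exp_le_exp.mpr ?_
          linarith
  calc ∑ P ∈ U.powerset.filter (fun P => P.card ≤ jj n f),
      lam f ^ P.card * mu f ^ (U \ P).card
      ≤ ∑ P ∈ U.powerset.filter (fun P => P.card ≤ jj n f),
        (4 / (f : ℝ)) ^ P.card * Real.exp (-(16 / 100 * K)) := Finset.sum_le_sum hterm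
    _ = (∑ P ∈ U.powerset.filter (fun P => P.card ≤ jj n f), (4 / (f : ℝ)) ^ P.card) *
        Real.exp (-(16 / 100 * K)) := by rw [Finset.sum_mul]
    _ ≤ Real.exp (4 / 100 * K) * Real.exp (-(16 / 100 * K)) :=
        mul_le_mul_of_nonneg_right (hsum.trans hpow) (Real.exp_pos _).le
    _ = Real.exp (-(12 / 100 * K)) := by
        rw [← Real.exp_add]
        congr 1
        ring
    _ = _ := by rw [hK]

theorem wt_BI : ∃ N : ℕ, ∀ n : ℕ, N ≤ n → ∀ f : ℕ, 1 ≤ f → 2 ^ 64 * f ≤ n →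
    ∀ R : Finset (Sym2 (Fin n)), (∀ v, dg R v * 2 ^ 33 ≤ n) →
      wt f (BIf f (KE n \ R)) ≤ 1 / (n : ℝ) ^ 3 := by
  classical
  refine ⟨100, fun n hn f hf hfn R hR => ?_⟩
  have hf0 : (0 : ℝ) < f := by exact_mod_cast hf
  have hnr : (100 : ℝ) ≤ n := by exact_mod_cast hn
  have hn0 : (0 : ℝ) < n := by linarith
  have hC : (2 : ℝ) ^ 64 ≤ Cc n f := by
    unfold Cc
    rw [le_div_iff₀ hf0]
    exact_mod_cast hfn
  have haa : (n : ℝ) / 2 ^ 30 ≤ aa n := by
    unfold aa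
    exact Nat.le_ceil _
  have hK : 2 ^ 34 * (n : ℝ) ≤ Cc n f * aa n := by
    have h1 : (2 : ℝ) ^ 64 * (n / 2 ^ 30) ≤ Cc n f * aa n :=
      mul_le_mul hC haa (by positivity) (le_trans (by positivity) hC)
    have h2 : (2 : ℝ) ^ 64 * (n / 2 ^ 30) = 2 ^ 34 * n := by ring
    linarith
  have hpair : ∀ q ∈ (Finset.univ.filter (fun q : Finset (Fin n) × Finset (Fin n) =>
      q.1.card = aa n ∧ q.2.card = n / 2 ∧ Disjoint q.1 q.2)),
      wt f (((betw (KE n \ R) q.1 q.2).powerset.filter (fun P => P.card ≤ jj n f)).image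
        (fun P => (P, betw (KE n \ R) q.1 q.2 \ P))) ≤ Real.exp (-(3 * n)) := by
    intro q hq
    obtain ⟨hq1, hq2, hqd⟩ := (Finset.mem_filter.mp hq).2
    have hU1 : ((betw (KE n \ R) q.1 q.2).card : ℝ) ≤ aa n * n / 2 := by
      have h1 := N3_upper (KE n \ R) q.1 q.2
      rw [hq1, hq2] at h1
      have h2 : ((betw (KE n \ R) q.1 q.2).card : ℝ) ≤ aa n * ((n / 2 : ℕ) : ℝ) := by
        exact_mod_cast h1
      have h3 : ((n / 2 : ℕ) : ℝ) ≤ n / 2 := Nat.cast_div_le
      have h4 : (aa n : ℝ) * ((n / 2 : ℕ) : ℝ) ≤ aa n * (n / 2) :=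
        mul_le_mul_of_nonneg_left h3 (Nat.cast_nonneg _)
      linarith
    have hU2 : 49 / 100 * ((aa n : ℝ) * n) ≤ (betw (KE n \ R) q.1 q.2).card := by
      have h1 := N3_lower R q.1 q.2 hqd
      rw [hq1, hq2] at h1
      have h2 : (∑ u ∈ q.1, dg R u) * 2 ^ 33 ≤ aa n * n := by
        rw [Finset.sum_mul]
        calc ∑ u ∈ q.1, dg R u * 2 ^ 33 ≤ ∑ _u ∈ q.1, n := Finset.sum_le_sum fun u _ => hR u
          _ = aa n * n := by rw [Finset.sum_const, hq1, smul_eq_mul]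
      have h3 : (aa n : ℝ) * ((n / 2 : ℕ) : ℝ) ≤
          (betw (KE n \ R) q.1 q.2).card + ((∑ u ∈ q.1, dg R u : ℕ) : ℝ) := by exact_mod_cast h1
      have h4 : ((∑ u ∈ q.1, dg R u : ℕ) : ℝ) * 2 ^ 33 ≤ aa n * n := by exact_mod_cast h2
      have h5 : ((n : ℝ) - 1) / 2 ≤ ((n / 2 : ℕ) : ℝ) := by
        have h6 : n ≤ 2 * (n / 2) + 1 := by omega
        have h7 : (n : ℝ) ≤ 2 * ((n / 2 : ℕ) : ℝ) + 1 := by exact_mod_cast h6
        linarith
      have h8 : (0 : ℝ) ≤ aa n := Nat.cast_nonneg _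
      have h9 : (aa n : ℝ) * (((n : ℝ) - 1) / 2) ≤ aa n * ((n / 2 : ℕ) : ℝ) :=
        mul_le_mul_of_nonneg_left h5 h8
      have h10 : (aa n : ℝ) * 100 ≤ aa n * n := mul_le_mul_of_nonneg_left hnr h8
      nlinarith
    refine (wt_image_le f _ _).trans ?_
    refine (N3_pair f hf hfn hn _ hU1 hU2).trans (Real.exp_le_exp.mpr ?_)
    rw [neg_le_neg_iff]
    nlinarith
  have hcard : ((Finset.univ.filter (fun q : Finset (Fin n) × Finset (Fin n) =>
      q.1.card = aa n ∧ q.2.card = n / 2 ∧ Disjoint q.1 q.2)).card : ℝ) ≤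
      Real.exp (2 * n) := by
    have h1 : (Finset.univ.filter (fun q : Finset (Fin n) × Finset (Fin n) =>
        q.1.card = aa n ∧ q.2.card = n / 2 ∧ Disjoint q.1 q.2)).card ≤ 2 ^ n * 2 ^ n := by
      refine (Finset.card_filter_le _ _).trans (le_of_eq ?_)
      rw [Finset.card_univ, Fintype.card_prod, Fintype.card_finset, Fintype.card_fin]
    have h2 : ((Finset.univ.filter (fun q : Finset (Fin n) × Finset (Fin n) =>
        q.1.card = aa n ∧ q.2.card = n / 2 ∧ Disjoint q.1 q.2)).card : ℝ) ≤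
        2 ^ n * 2 ^ n := by exact_mod_cast h1
    refine h2.trans ?_
    have h3 : (2 : ℝ) ≤ Real.exp 1 := by
      have := Real.exp_one_gt_d9
      linarith
    have h4 : (2 : ℝ) ^ n ≤ Real.exp 1 ^ n := pow_le_pow_left₀ (by norm_num) h3 _
    have h5 : Real.exp (2 * n) = Real.exp 1 ^ n * Real.exp 1 ^ n := by
      rw [← Real.exp_nat_mul, ← Real.exp_add]
      congr 1
      ring
    rw [h5]
    exact mul_le_mul h4 h4 (by positivity) (by positivity)
  have hfin : Real.exp (-(n : ℝ)) ≤ 1 / (n : ℝ) ^ 3 := by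
    rw [Real.exp_neg, ← one_div]
    apply one_div_le_one_div_of_le (by positivity)
    have h1 := Real.pow_div_factorial_le_exp (n : ℝ) hn0.le 4
    have h2 : ((4 : ℕ).factorial : ℝ) = 24 := by norm_num [Nat.factorial]
    rw [h2] at h1
    refine le_trans ?_ h1
    rw [le_div_iff₀ (by norm_num)]
    have h3 : (0 : ℝ) < (n : ℝ) ^ 3 := by positivity
    nlinarith
  unfold BIf
  refine (wt_biUnion_le f _ _).trans ?_
  calc _ ≤ ∑ _q ∈ (Finset.univ.filter (fun q : Finset (Fin n) × Finset (Fin n) =>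
      q.1.card = aa n ∧ q.2.card = n / 2 ∧ Disjoint q.1 q.2)), Real.exp (-(3 * (n : ℝ))) :=
        Finset.sum_le_sum hpair
    _ = ((Finset.univ.filter (fun q : Finset (Fin n) × Finset (Fin n) =>
      q.1.card = aa n ∧ q.2.card = n / 2 ∧ Disjoint q.1 q.2)).card : ℝ) *
        Real.exp (-(3 * (n : ℝ))) := by rw [Finset.sum_const, nsmul_eq_mul]
    _ ≤ Real.exp (2 * n) * Real.exp (-(3 * (n : ℝ))) :=
        mul_le_mul_of_nonneg_right hcard (Real.exp_pos _).le
    _ = Real.exp (-(n : ℝ)) := by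
        rw [← Real.exp_add]
        congr 1
        ring
    _ ≤ _ := hfin

end AF
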