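import Pool.Agent.Lib.MP_991c8b_co.N0
import Pool.Agent.Lib.MP_991c8b_co.H3

/-!
# N4: weight of the family BO (boosters)

C = n/f ≥ 2^64, M = KE n \ R. For a pair (P, R') in the index set, Γ = P ∪ R' is connected, expanding up to n/6 and not HamC, so
boo_card (k = n/6 ≥ 1, card V = n ≥ 3) gives |Boo Γ| ≥ (n/6 + 1)^2/2 ≥ n^2/72. The elements of Boo Γ are in KE n (not diagonal), so
|Boo Γ ∩ M| ≥ |Boo Γ| - |R|, 2 |R ∩ KE n| ≤ ∑_v dg R v ≤ n^2/2^33 (or |R| ≤ ∑ dg R v ≤ n^2/2^33: each edge has an end): ≥ n^2/80.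
mu^|Q| ≤ exp(-n^2/(240 f)) = exp(-C n/240).
∑_(P ⊆ M, |P| ≤ mm) lam^|P| ≤ (e (n^2/2) (4/f)/mm)^mm = (2 e C n/mm)^mm (sum_small, N = n^2/2, N y = 2 C n ≥ mm > 0), mm ≥ C n/2^15:
≤ (2 e 2^15)^mm ≤ 2^(18 mm) ≤ exp(18 * 0.6932 * C n/2^14) ≤ exp(C n/1000).
Number of R' ⊆ R with at most r0 elements ≤ (|R| + 1)^r0 ≤ (n^2)^r0 (small_count) = exp(2 r0 log n) ≤ exp(C n/1000) by hr.
Total ≤ exp(C n (-1/240 + 1/1000 + 1/1000)) ≤ exp(-C n/500) ≤ exp(-n) ≤ 1/n^3 for large n.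
-/

namespace AF

open Finset

private theorem N4_cardR {n : ℕ} (R : Finset (Sym2 (Fin n)))
    (hR : ∀ v, dg R v * 2 ^ 33 ≤ n) : (R.card : ℝ) * 2 ^ 33 ≤ (n : ℝ) ^ 2 := by
  have h1 : R.card ≤ ∑ v : Fin n, dg R v := by
    have h2 : R ⊆ (Finset.univ : Finset (Fin n)).biUnion (fun v => R.filter (fun e => v ∈ e)) := by
      intro e he
      rw [mem_biUnion]
      induction e using Sym2.ind with
      | _ x y => exact ⟨x, mem_univ _, mem_filter.mpr ⟨he, Sym2.mem_mk_left x y⟩⟩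
    calc R.card ≤ ((Finset.univ : Finset (Fin n)).biUnion
          (fun v => R.filter (fun e => v ∈ e))).card := card_le_card h2
      _ ≤ ∑ v : Fin n, (R.filter (fun e => v ∈ e)).card := card_biUnion_le
      _ = ∑ v : Fin n, dg R v := rfl
  have h3 : (∑ v : Fin n, dg R v) * 2 ^ 33 ≤ n * n := by
    rw [Finset.sum_mul]
    calc ∑ v : Fin n, dg R v * 2 ^ 33 ≤ ∑ _v : Fin n, n := Finset.sum_le_sum (fun v _ => hR v)
      _ = n * n := by simp
  have h4 : R.card * 2 ^ 33 ≤ n * n := le_trans (Nat.mul_le_mul_right _ h1) h3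
  have h5 : ((R.card * 2 ^ 33 : ℕ) : ℝ) ≤ ((n * n : ℕ) : ℝ) := by exact_mod_cast h4
  push_cast at h5
  rw [sq]
  norm_num at h5 ⊢
  exact h5

private theorem N4_cardKE (n : ℕ) (R : Finset (Sym2 (Fin n))) :
    (((KE n) \ R).card : ℝ) ≤ (n : ℝ) ^ 2 / 2 := by
  have h1 : ((KE n) \ R).card ≤ n.choose 2 := by
    calc ((KE n) \ R).card ≤ (KE n).card := card_le_card sdiff_subset
      _ = n.choose 2 := by
        unfold KE
        rw [SimpleGraph.card_edgeFinset_top_eq_card_choose_two, Fintype.card_fin]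
  have h2 : ((n.choose 2 : ℕ) : ℝ) ≤ (n : ℝ) ^ 2 / 2 := by
    have := Nat.choose_le_pow_div (α := ℝ) 2 n
    simpa [Nat.factorial] using this
  calc (((KE n) \ R).card : ℝ) ≤ ((n.choose 2 : ℕ) : ℝ) := by exact_mod_cast h1
    _ ≤ (n : ℝ) ^ 2 / 2 := h2

private theorem N4_boo {n : ℕ} (hn : 6 ≤ n) (R Γ : Finset (Sym2 (Fin n)))
    (hR : ∀ v, dg R v * 2 ^ 33 ≤ n) (h1 : Conn Γ) (h2 : Expd Γ (n / 6)) (h3 : ¬ HamC Γ) :
    (n : ℝ) ^ 2 / 80 ≤ ((Boo Γ ∩ (KE n \ R)).card : ℝ) := by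
  classical
  have h4 : (n / 6 + 1) ^ 2 ≤ 2 * (Boo Γ).card :=
    boo_card Γ (n / 6) (by omega) (by rw [Fintype.card_fin]; omega) h1 h2 h3
  have h5 : (n : ℝ) / 6 ≤ ((n / 6 + 1 : ℕ) : ℝ) := by
    have h6 : n ≤ 6 * (n / 6 + 1) := by omega
    have h7 : (n : ℝ) ≤ 6 * ((n / 6 + 1 : ℕ) : ℝ) := by exact_mod_cast h6
    linarith
  have h8 : ((n : ℝ) / 6) ^ 2 ≤ 2 * ((Boo Γ).card : ℝ) := by
    calc ((n : ℝ) / 6) ^ 2 ≤ ((n / 6 + 1 : ℕ) : ℝ) ^ 2 := by
          apply pow_le_pow_left₀ (by positivity) h5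
      _ ≤ 2 * ((Boo Γ).card : ℝ) := by exact_mod_cast h4
  have h9 : Boo Γ ⊆ (Boo Γ ∩ (KE n \ R)) ∪ R := by
    intro e he
    rw [mem_union]
    by_cases heR : e ∈ R
    · exact Or.inr heR
    · left
      refine mem_inter.mpr ⟨he, mem_sdiff.mpr ⟨?_, heR⟩⟩
      have h10 : ¬ e.IsDiag := by
        unfold Boo at he
        exact (mem_filter.mp he).2.1
      unfold KE
      rw [SimpleGraph.mem_edgeFinset, SimpleGraph.edgeSet_top]
      exact h10
  have h11 : (Boo Γ).card ≤ (Boo Γ ∩ (KE n \ R)).card + R.card :=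
    le_trans (card_le_card h9) (card_union_le _ _)
  have h12 : ((Boo Γ).card : ℝ) ≤ ((Boo Γ ∩ (KE n \ R)).card : ℝ) + (R.card : ℝ) := by
    exact_mod_cast h11
  have h13 := N4_cardR R hR
  have h14 : (0 : ℝ) ≤ (n : ℝ) ^ 2 := by positivity
  have h15 : ((n : ℝ) / 6) ^ 2 = (n : ℝ) ^ 2 / 36 := by ring
  rw [h15] at h8
  linarith

private theorem N4_sumP {n f : ℕ} (hf : 1 ≤ f) (hfn : 2 ^ 64 * f ≤ n)
    (R : Finset (Sym2 (Fin n))) :
    ∑ P ∈ (KE n \ R).powerset.filter (fun P => P.card ≤ mm n f), lam f ^ P.card ≤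
      Real.exp (Cc n f * n / 1000) := by
  have hf0 : (0 : ℝ) < f := by exact_mod_cast hf
  have hfnR : (2 : ℝ) ^ 64 * f ≤ n := by exact_mod_cast hfn
  have hn1 : (1 : ℝ) ≤ n := by
    have : (1 : ℝ) ≤ f := by exact_mod_cast hf
    nlinarith
  have hC : (2 : ℝ) ^ 64 ≤ Cc n f := by
    unfold Cc
    rw [le_div_iff₀ hf0]
    exact hfnR
  set C := Cc n f with hCdef
  have hCf : C * f = n := by
    rw [hCdef]; unfold Cc; field_simp
  have hx : (2 : ℝ) ≤ C * n / 2 ^ 14 := by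
    rw [le_div_iff₀ (by positivity)]
    nlinarith
  have hm1 : ((mm n f : ℕ) : ℝ) ≤ C * n / 2 ^ 14 := by
    unfold mm
    exact Nat.floor_le (by linarith)
  have hm2 : C * n / 2 ^ 14 - 1 < ((mm n f : ℕ) : ℝ) := by
    unfold mm
    exact Nat.sub_one_lt_floor _
  have hm3 : C * n / 2 ^ 15 ≤ ((mm n f : ℕ) : ℝ) := by
    have : C * n / 2 ^ 15 = (C * n / 2 ^ 14) / 2 := by ring
    rw [this]
    linarith
  have hm0 : 0 < mm n f := by
    have : (0 : ℝ) < ((mm n f : ℕ) : ℝ) := by linarith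
    exact_mod_cast this
  have hNy : (n : ℝ) ^ 2 / 2 * (4 / f) = 2 * C * n := by
    rw [← hCf]
    field_simp
    ring
  have h1 : ∑ P ∈ (KE n \ R).powerset.filter (fun P => P.card ≤ mm n f), lam f ^ P.card ≤
      ∑ P ∈ (KE n \ R).powerset.filter (fun P => P.card ≤ mm n f), (4 / (f : ℝ)) ^ P.card :=
    Finset.sum_le_sum (fun P _ => pow_le_pow_left₀ (lam_pos f).le (lam_le f hf) _)
  have h2 := sum_small (KE n \ R) ((n : ℝ) ^ 2 / 2) (4 / (f : ℝ)) (mm n f) (N4_cardKE n R)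
    (by positivity) hm0 (by
      rw [hNy]
      have : C * n / 2 ^ 14 ≤ 2 * C * n := by
        have : 0 ≤ C * n := by positivity
        rw [div_le_iff₀ (by positivity)]
        nlinarith
      linarith)
  have hmpos : (0 : ℝ) < ((mm n f : ℕ) : ℝ) := by exact_mod_cast hm0
  have h3 : Real.exp 1 * ((n : ℝ) ^ 2 / 2) * (4 / (f : ℝ)) / (mm n f : ℕ) ≤ 2 ^ 18 := by
    have h4 : Real.exp 1 * ((n : ℝ) ^ 2 / 2) * (4 / (f : ℝ)) = Real.exp 1 * (2 * C * n) := by
      rw [mul_assoc, hNy]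
    rw [h4, div_le_iff₀ hmpos]
    have h5 : Real.exp 1 ≤ 4 := by
      have := Real.exp_one_lt_d9
      linarith
    have h6 : C * n ≤ 2 ^ 15 * ((mm n f : ℕ) : ℝ) := by
      rw [div_le_iff₀ (by positivity)] at hm3
      linarith
    have h7 : 0 ≤ C * n := by positivity
    calc Real.exp 1 * (2 * C * n) ≤ 4 * (2 * C * n) := by
          apply mul_le_mul_of_nonneg_right h5 (by positivity)
      _ = 8 * (C * n) := by ring
      _ ≤ 8 * (2 ^ 15 * ((mm n f : ℕ) : ℝ)) := by linarith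
      _ = 2 ^ 18 * ((mm n f : ℕ) : ℝ) := by ring
  calc ∑ P ∈ (KE n \ R).powerset.filter (fun P => P.card ≤ mm n f), lam f ^ P.card
      ≤ _ := h1
    _ ≤ _ := h2
    _ ≤ ((2 : ℝ) ^ 18) ^ (mm n f) := by
      apply pow_le_pow_left₀ (by positivity) h3
    _ = Real.exp ((mm n f : ℕ) * (18 * Real.log 2)) := by
      rw [Real.exp_nat_mul]
      congr 1
      rw [show (18 : ℝ) * Real.log 2 = ((18 : ℕ) : ℝ) * Real.log 2 by norm_num, Real.exp_nat_mul,
        Real.exp_log (by norm_num)]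
    _ ≤ Real.exp (C * n / 1000) := by
      apply Real.exp_le_exp.mpr
      have h8 : Real.log 2 ≤ 0.7 := by
        have := Real.log_two_lt_d9
        linarith
      have h9 : 0 ≤ C * n := by positivity
      calc ((mm n f : ℕ) : ℝ) * (18 * Real.log 2) ≤ (C * n / 2 ^ 14) * (18 * 0.7) := by
            apply mul_le_mul hm1 (by linarith) _ (by positivity)
            have := Real.log_nonneg (show (1 : ℝ) ≤ 2 by norm_num)
            positivity
        _ ≤ C * n / 1000 := by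
            rw [div_mul_eq_mul_div, div_le_div_iff₀ (by positivity) (by positivity)]
            nlinarith

private theorem N4_cnt {n f r0 : ℕ} (hf : 1 ≤ f) (hfn : 2 ^ 64 * f ≤ n)
    (hr : 2 * (r0 : ℝ) * Real.log n ≤ Cc n f * n / 1000)
    (R : Finset (Sym2 (Fin n))) (hR : ∀ v, dg R v * 2 ^ 33 ≤ n) :
    (((R.powerset.filter (fun P => P.card ≤ r0)).card : ℕ) : ℝ) ≤
      Real.exp (Cc n f * n / 1000) := by
  have hf0 : (0 : ℝ) < f := by exact_mod_cast hf
  have hfnR : (2 : ℝ) ^ 64 * f ≤ n := by exact_mod_cast hfn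
  have hn1 : (2 : ℝ) ≤ n := by
    have : (1 : ℝ) ≤ f := by exact_mod_cast hf
    nlinarith
  have h1 : (((R.powerset.filter (fun P => P.card ≤ r0)).card : ℕ) : ℝ) ≤
      ((R.card : ℝ) + 1) ^ r0 := by
    have := small_count R r0
    exact_mod_cast this
  have h2 : (R.card : ℝ) + 1 ≤ (n : ℝ) ^ 2 := by
    have h3 := N4_cardR R hR
    have h4 : (0 : ℝ) ≤ R.card := by positivity
    nlinarith
  calc (((R.powerset.filter (fun P => P.card ≤ r0)).card : ℕ) : ℝ) ≤ _ := h1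
    _ ≤ ((n : ℝ) ^ 2) ^ r0 := pow_le_pow_left₀ (by positivity) h2 _
    _ = Real.exp (2 * (r0 : ℝ) * Real.log n) := by
      rw [show 2 * (r0 : ℝ) * Real.log n = ((r0 : ℕ) : ℝ) * (((2 : ℕ) : ℝ) * Real.log n) by
        push_cast; ring]
      rw [Real.exp_nat_mul, Real.exp_nat_mul, Real.exp_log (by linarith)]
    _ ≤ Real.exp (Cc n f * n / 1000) := Real.exp_le_exp.mpr hr

theorem wt_BO : ∃ N : ℕ, ∀ n : ℕ, N ≤ n → ∀ f r0 : ℕ, 1 ≤ f → 2 ^ 64 * f ≤ n →
    2 * (r0 : ℝ) * Real.log n ≤ Cc n f * n / 1000 →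
    ∀ R : Finset (Sym2 (Fin n)), (∀ v, dg R v * 2 ^ 33 ≤ n) →
      wt f (BOf f r0 (KE n \ R) R) ≤ 1 / (n : ℝ) ^ 3 := by
  classical
  refine ⟨24, ?_⟩
  intro n hn f r0 hf hfn hr R hR
  have hf0 : (0 : ℝ) < f := by exact_mod_cast hf
  have hfnR : (2 : ℝ) ^ 64 * f ≤ n := by exact_mod_cast hfn
  have hn24 : (24 : ℝ) ≤ n := by exact_mod_cast hn
  have hC : (2 : ℝ) ^ 64 ≤ Cc n f := by
    unfold Cc
    rw [le_div_iff₀ hf0]
    exact hfnR
  have hCf : Cc n f * f = n := by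
    unfold Cc; field_simp
  have hmu : ∀ q : Finset (Sym2 (Fin n)) × Finset (Sym2 (Fin n)),
      Conn (q.1 ∪ q.2) → Expd (q.1 ∪ q.2) (n / 6) → ¬ HamC (q.1 ∪ q.2) →
      mu f ^ (Boo (q.1 ∪ q.2) ∩ (KE n \ R)).card ≤ Real.exp (-(Cc n f * n / 240)) := by
    intro q h1 h2 h3
    refine le_trans (mu_pow_le f hf _) (Real.exp_le_exp.mpr ?_)
    apply neg_le_neg
    have h4 := N4_boo (by omega) R (q.1 ∪ q.2) hR h1 h2 h3
    rw [le_div_iff₀ (by positivity)]
    have h5 : Cc n f * n / 240 * (3 * (f : ℝ)) = (Cc n f * f) * n / 80 := by ring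
    rw [h5, hCf]
    calc (n : ℝ) * n / 80 = (n : ℝ) ^ 2 / 80 := by ring
      _ ≤ _ := h4
  have hlp := lam_pos f
  have hmain : wt f (BOf f r0 (KE n \ R) R) ≤
      Real.exp (Cc n f * n / 1000) * Real.exp (Cc n f * n / 1000) *
        Real.exp (-(Cc n f * n / 240)) := by
    unfold BOf
    refine le_trans (wt_image_le f _ _) ?_
    calc _ ≤ ∑ q ∈ (((KE n \ R).powerset.filter (fun P => P.card ≤ mm n f)) ×ˢ
          (R.powerset.filter (fun P => P.card ≤ r0))).filter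
            (fun q => Conn (q.1 ∪ q.2) ∧ Expd (q.1 ∪ q.2) (n / 6) ∧ ¬ HamC (q.1 ∪ q.2)),
            lam f ^ q.1.card * Real.exp (-(Cc n f * n / 240)) := by
          apply Finset.sum_le_sum
          intro q hq
          have h6 := (mem_filter.mp hq).2
          exact mul_le_mul_of_nonneg_left (hmu q h6.1 h6.2.1 h6.2.2) (by positivity)
      _ ≤ ∑ q ∈ (((KE n \ R).powerset.filter (fun P => P.card ≤ mm n f)) ×ˢ
          (R.powerset.filter (fun P => P.card ≤ r0))),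
            lam f ^ q.1.card * Real.exp (-(Cc n f * n / 240)) := by
          apply Finset.sum_le_sum_of_subset_of_nonneg (filter_subset _ _)
          intro q _ _
          positivity
      _ = (∑ P ∈ (KE n \ R).powerset.filter (fun P => P.card ≤ mm n f), lam f ^ P.card) *
          ((R.powerset.filter (fun P => P.card ≤ r0)).card : ℝ) *
            Real.exp (-(Cc n f * n / 240)) := by
          rw [Finset.sum_product]
          simp only [Finset.sum_const, nsmul_eq_mul]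
          rw [Finset.sum_mul, Finset.sum_mul]
          apply Finset.sum_congr rfl
          intro P _
          ring
      _ ≤ _ := by
          apply mul_le_mul_of_nonneg_right _ (Real.exp_pos _).le
          apply mul_le_mul (N4_sumP hf hfn R) (N4_cnt hf hfn hr R hR) (by positivity)
            (Real.exp_pos _).le
  refine le_trans hmain ?_
  rw [← Real.exp_add, ← Real.exp_add]
  have h7 : Cc n f * n / 1000 + Cc n f * n / 1000 + -(Cc n f * n / 240) ≤ -(n : ℝ) := by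
    have h8 : (2 : ℝ) ^ 64 * n ≤ Cc n f * n := mul_le_mul_of_nonneg_right hC (by positivity)
    have h9 : (0 : ℝ) ≤ n := by positivity
    nlinarith
  refine le_trans (Real.exp_le_exp.mpr h7) ?_
  rw [Real.exp_neg, ← one_div]
  apply one_div_le_one_div_of_le (by positivity)
  have h10 := Real.pow_div_factorial_le_exp (n : ℝ) (by positivity) 4
  have h11 : (n : ℝ) ^ 3 ≤ (n : ℝ) ^ 4 / (Nat.factorial 4 : ℕ) := by
    rw [le_div_iff₀ (by positivity)]
    have : ((Nat.factorial 4 : ℕ) : ℝ) = 24 := by norm_num [Nat.factorial]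
    rw [this]
    have h12 : (0 : ℝ) ≤ (n : ℝ) ^ 3 := by positivity
    nlinarith
  linarith

end AF
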