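import Pool.Agent.Lib.MP_991c8b_co.P2
import Pool.Agent.Lib.MP_991c8b_co.F1
import Pool.Agent.Lib.MP_991c8b_co.N1
import Pool.Agent.Lib.MP_991c8b_co.N2
import Pool.Agent.Lib.MP_991c8b_co.N3
import Pool.Agent.Lib.MP_991c8b_co.N4

/-!
# N5: the main board

PROOF. 𝓑 = LSf ∪ EXf ∪ BIf ∪ BOf for M = KE n \ R. wt 𝓑 ≤ 4/n^3 (wt_union_le, wt_LS, ..), 1 + f/4 ≤ n, 2^(K+1) ≤ n, so
wt * (1 + f/4) * 2^(K+1) ≤ 4/n < 1. All second components are subsets of M (∅, touch M Z \ P, betw M A1 B1 \ P, Boo ∩ M).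
mixed_board and mgood_of.
-/

namespace AF

open Finset

private theorem n5_touch {V : Type} [Fintype V] [DecidableEq V] (M : Finset (Sym2 V))
    (Z : Finset V) : touch M Z ⊆ M := by
  unfold touch
  exact filter_subset _ _

private theorem n5_betw {V : Type} [Fintype V] [DecidableEq V] (M : Finset (Sym2 V))
    (Z Z' : Finset V) : betw M Z Z' ⊆ M := by
  unfold betw
  exact filter_subset _ _

theorem mboard : ∃ N : ℕ, ∀ n : ℕ, N ≤ n → ∀ f r0 K : ℕ, 1 ≤ f → 2 ^ 64 * f ≤ n →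
    2 ^ (K + 1) ≤ n → 2 * (r0 : ℝ) * Real.log n ≤ Cc n f * n / 1000 →
    ∀ R : Finset (Sym2 (Fin n)), (∀ v, dg R v * 2 ^ 33 ≤ n) →
      ∃ J Good, IsBoard f K (KE n \ R) J Good ∧
        ∀ A ⊆ KE n \ R, Good A → MGood n f r0 R A := by
  obtain ⟨Na, ha⟩ := wt_LS
  obtain ⟨Nb, hb⟩ := wt_EX
  obtain ⟨Nc, hc⟩ := wt_BI
  obtain ⟨Nd, hd⟩ := wt_BO
  refine ⟨max (max Na Nb) (max (max Nc Nd) 5), ?_⟩
  intro n hn f r0 K hf hfn hK hr R hR
  have hna : Na ≤ n := le_trans (by simp) hn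
  have hnb : Nb ≤ n := le_trans (by simp) hn
  have hnc : Nc ≤ n := le_trans (by simp) hn
  have hnd : Nd ≤ n := le_trans (by simp) hn
  have hn5 : 5 ≤ n := le_trans (by simp) hn
  set M := KE n \ R with hM
  set BB := LSf f M ∪ EXf f M ∪ BIf f M ∪ BOf f r0 M R with hBB
  have hn0 : (0 : ℝ) < n := by
    have : 0 < n := by omega
    exact_mod_cast this
  have hw : wt f BB ≤ 4 / (n : ℝ) ^ 3 := by
    have e1 := ha n hna f hf hfn M sdiff_subset
    have e2 := hb n hnb f hf hfn R hR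
    have e3 := hc n hnc f hf hfn R hR
    have e4 := hd n hnd f r0 hf hfn hr R hR
    have u1 := wt_union_le f (LSf f M ∪ EXf f M ∪ BIf f M) (BOf f r0 M R)
    have u2 := wt_union_le f (LSf f M ∪ EXf f M) (BIf f M)
    have u3 := wt_union_le f (LSf f M) (EXf f M)
    have : (4 : ℝ) / (n : ℝ) ^ 3 = 1 / (n : ℝ) ^ 3 + 1 / (n : ℝ) ^ 3 + 1 / (n : ℝ) ^ 3 +
        1 / (n : ℝ) ^ 3 := by ring
    rw [this]
    linarith
  have hwlt : wt f BB * (1 + (f : ℝ) / 4) * 2 ^ (K + 1) < 1 := by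
    have h1 : (1 + (f : ℝ) / 4) ≤ n := by
      have h2 : (f : ℝ) * 2 ^ 64 ≤ n := by
        have : ((2 ^ 64 * f : ℕ) : ℝ) ≤ n := by exact_mod_cast hfn
        push_cast at this
        linarith
      have h3 : (5 : ℝ) ≤ n := by exact_mod_cast hn5
      have h4 : (0 : ℝ) ≤ f := by positivity
      nlinarith
    have h2 : (2 : ℝ) ^ (K + 1) ≤ n := by exact_mod_cast hK
    have h3 := wt_nonneg f BB
    calc wt f BB * (1 + (f : ℝ) / 4) * 2 ^ (K + 1)
        ≤ (4 / (n : ℝ) ^ 3) * n * n := by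
          apply mul_le_mul _ h2 (by positivity) (by positivity)
          exact mul_le_mul hw h1 (by positivity) (by positivity)
      _ = 4 / n := by field_simp
      _ < 1 := by
          rw [div_lt_one hn0]
          have : (5 : ℝ) ≤ n := by exact_mod_cast hn5
          linarith
  have hQ : ∀ x ∈ BB, x.2 ⊆ M := by
    intro x hx
    rw [hBB, mem_union, mem_union, mem_union] at hx
    rcases hx with ((hx | hx) | hx) | hx
    · unfold LSf at hx
      simp only [mem_biUnion, mem_image] at hx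
      obtain ⟨X, _, P, _, rfl⟩ := hx
      exact empty_subset _
    · unfold EXf at hx
      simp only [mem_biUnion, mem_image] at hx
      obtain ⟨X, _, P, _, rfl⟩ := hx
      exact sdiff_subset.trans (n5_touch _ _)
    · unfold BIf at hx
      simp only [mem_biUnion, mem_image] at hx
      obtain ⟨X, _, P, _, rfl⟩ := hx
      exact sdiff_subset.trans (n5_betw _ _ _)
    · unfold BOf at hx
      simp only [mem_image] at hx
      obtain ⟨q, _, rfl⟩ := hx
      exact inter_subset_right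
  obtain ⟨J, hJ⟩ := mixed_board f K hf BB M hQ hwlt
  exact ⟨J, _, hJ, fun A hA hG => mgood_of f r0 M R A hA hG⟩

end AF
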