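import Pool.Agent.Lib.MP_991c8b_co.Defs

/-!
# T2: small sets expand

C = Cc n f > 0. PROOF. Suppose |outn Γ S| < 2|S|, X = S ∪ outn Γ S, |X| < 3|S|, 2^26 |X| ≤ n, X nonempty. S1 = S \ Ex, S2 = S ∩ Ex.
The edges of P0 at the vertices of S1 lie inside X (P0 ⊆ Γ; both ends in S or outn), also inside AM: P0 ⊆ AM. So
dd |S1| ≤ ∑_(v ∈ S1) dg P0 v ≤ 2 |inside AM X| (each edge has two ends; edges of AM are no loops, or at most 2 members anyway).
ls: |inside AM X| < tt n f |X|, so |inside AM X| < C |X| / 2^22 (Nat.lt_ceil) ≤ 3 C |S| / 2^22. dd ≥ C / 2^17 (Nat.le_ceil). So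
C |S1| / 2^17 ≤ 6 C |S| / 2^22, |S1| ≤ (3/16) |S|, |S2| ≥ (13/16)|S| > 0. hR: |nbr R' S2| ≥ 10 |S2| ≥ (130/16) |S| > 8|S|.
nbr R' S2 \ S ⊆ outn Γ S (R' ⊆ Γ, S2 ⊆ S): |outn Γ S| ≥ 8|S| - |S| ≥ 2|S|. Contradiction.
-/

namespace AF

open Finset

private theorem T2_nbr {V : Type} [Fintype V] [DecidableEq V] (Γ : Finset (Sym2 V))
    (S : Finset V) (w : V) : w ∈ nbr Γ S ↔ ∃ v ∈ S, s(v, w) ∈ Γ := by
  unfold nbr
  rw [mem_filter]
  exact ⟨fun h => h.2, fun h => ⟨mem_univ _, h⟩⟩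

private theorem T2_inside {V : Type} [Fintype V] [DecidableEq V] (Γ : Finset (Sym2 V))
    (X : Finset V) (e : Sym2 V) : e ∈ inside Γ X ↔ e ∈ Γ ∧ ∀ v ∈ e, v ∈ X := by
  unfold inside
  rw [mem_filter]

private theorem T2_two {n : ℕ} (S : Finset (Fin n)) (e : Sym2 (Fin n)) :
    (S.filter fun v => v ∈ e).card ≤ 2 := by
  induction e using Sym2.ind with
  | _ a b =>
    have h : (S.filter fun v => v ∈ s(a, b)) ⊆ {a, b} := by
      intro v hv
      have h2 := (mem_filter.1 hv).2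
      rw [Sym2.mem_iff] at h2
      rw [mem_insert, mem_singleton]
      exact h2
    exact (card_le_card h).trans card_le_two

theorem exp_small {n f : ℕ} (hf : 1 ≤ f) (hn : 1 ≤ n) (AM P0 R' Γ : Finset (Sym2 (Fin n)))
    (hls : ∀ X : Finset (Fin n), X.Nonempty → 2 ^ 26 * X.card ≤ n →
      (inside AM X).card < tt n f X.card)
    (hP0 : P0 ⊆ AM) (Ex : Finset (Fin n)) (hdeg : ∀ v, v ∉ Ex → dd n f ≤ dg P0 v)
    (hR : ∀ S ⊆ Ex, S.Nonempty → 10 * S.card ≤ (nbr R' S).card)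
    (h1 : P0 ⊆ Γ) (h2 : R' ⊆ Γ) (S : Finset (Fin n)) (hS : S.Nonempty)
    (hSn : 3 * 2 ^ 26 * S.card ≤ n) : 2 * S.card ≤ (outn Γ S).card := by
  by_contra hcon
  rw [not_le] at hcon
  set X : Finset (Fin n) := S ∪ outn Γ S with hX
  have hXc : X.card ≤ S.card + (outn Γ S).card := card_union_le _ _
  have hXne : X.Nonempty := hS.mono subset_union_left
  have hXn : 2 ^ 26 * X.card ≤ n := by omega
  have hin := hls X hXne hXn
  unfold tt at hin
  rw [Nat.lt_ceil] at hin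
  have hn0 : (0 : ℝ) < n := by exact_mod_cast hn
  have hf0 : (0 : ℝ) < f := by exact_mod_cast hf
  have hC : 0 < Cc n f := div_pos hn0 hf0
  have hSpos : 0 < S.card := card_pos.2 hS
  have hSR : (0 : ℝ) < S.card := by exact_mod_cast hSpos
  -- edges at the vertices outside `Ex`
  have hnb : ∀ v ∈ S, ∀ w, s(v, w) ∈ Γ → w ∈ X := by
    intro v hv w hw
    rw [hX, mem_union]
    by_cases hwS : w ∈ S
    · exact Or.inl hwS
    · refine Or.inr (mem_sdiff.2 ⟨?_, hwS⟩)
      rw [T2_nbr]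
      exact ⟨v, hv, hw⟩
  have hdc : ∑ v ∈ S \ Ex, dg P0 v ≤ 2 * (inside AM X).card := by
    have e1 : ∀ v, dg P0 v = ∑ e ∈ P0, if v ∈ e then 1 else 0 := by
      intro v
      unfold dg
      rw [card_filter]
    have e2 : ∑ v ∈ S \ Ex, dg P0 v = ∑ e ∈ P0, ((S \ Ex).filter fun v => v ∈ e).card := by
      rw [sum_congr rfl fun v _ => e1 v, sum_comm]
      refine sum_congr rfl fun e _ => ?_
      rw [card_filter]
    rw [e2]
    have e3 : ∑ e ∈ P0, ((S \ Ex).filter fun v => v ∈ e).card =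
        ∑ e ∈ P0.filter (fun e => e ∈ inside AM X), ((S \ Ex).filter fun v => v ∈ e).card := by
      symm
      refine sum_subset (filter_subset _ _) ?_
      intro e he hne
      rw [mem_filter, not_and] at hne
      have hne' := hne he
      rw [card_eq_zero, filter_eq_empty_iff]
      intro v hv hve
      apply hne'
      rw [T2_inside]
      refine ⟨hP0 he, ?_⟩
      obtain ⟨w, rfl⟩ := Sym2.mem_iff_exists.1 hve
      have hvS : v ∈ S := (mem_sdiff.1 hv).1
      intro u hu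
      rcases Sym2.mem_iff.1 hu with rfl | rfl
      · exact mem_union_left _ hvS
      · exact hnb v hvS _ (h1 he)
    rw [e3]
    calc ∑ e ∈ P0.filter (fun e => e ∈ inside AM X), ((S \ Ex).filter fun v => v ∈ e).card
        ≤ ∑ _e ∈ P0.filter (fun e => e ∈ inside AM X), 2 := sum_le_sum fun e _ => T2_two _ e
      _ = (P0.filter (fun e => e ∈ inside AM X)).card * 2 := by rw [sum_const, smul_eq_mul]
      _ ≤ (inside AM X).card * 2 := by
          refine Nat.mul_le_mul_right _ (card_le_card ?_)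
          intro e he
          exact (mem_filter.1 he).2
      _ = 2 * (inside AM X).card := mul_comm _ _
  have hdd : (S \ Ex).card * dd n f ≤ 2 * (inside AM X).card := by
    refine le_trans ?_ hdc
    rw [← smul_eq_mul, ← sum_const]
    exact sum_le_sum fun v hv => hdeg v (mem_sdiff.1 hv).2
  have hddR : (Cc n f / 2 ^ 17 : ℝ) ≤ dd n f := Nat.le_ceil _
  have hddR2 : ((S \ Ex).card : ℝ) * dd n f ≤ 2 * (inside AM X).card := by exact_mod_cast hdd
  have hXR : (X.card : ℝ) ≤ 3 * S.card := by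
    have : X.card ≤ 3 * S.card := by omega
    exact_mod_cast this
  have h3 : ((S \ Ex).card : ℝ) * (Cc n f / 2 ^ 17) ≤ 2 * (Cc n f * (3 * S.card) / 2 ^ 22) := by
    calc ((S \ Ex).card : ℝ) * (Cc n f / 2 ^ 17) ≤ ((S \ Ex).card : ℝ) * dd n f :=
          mul_le_mul_of_nonneg_left hddR (Nat.cast_nonneg _)
      _ ≤ 2 * (inside AM X).card := hddR2
      _ ≤ 2 * (Cc n f * X.card / 2 ^ 22) := by linarith
      _ ≤ 2 * (Cc n f * (3 * S.card) / 2 ^ 22) := by
          have := mul_le_mul_of_nonneg_left hXR hC.le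
          linarith
  have h4 : Cc n f * (16 * ((S \ Ex).card : ℝ)) ≤ Cc n f * (3 * S.card) := by
    have h5 : ((S \ Ex).card : ℝ) * (Cc n f / 2 ^ 17) =
      Cc n f * (16 * ((S \ Ex).card : ℝ)) / 2 ^ 21 := by ring
    have h6 : 2 * (Cc n f * (3 * (S.card : ℝ)) / 2 ^ 22) = Cc n f * (3 * S.card) / 2 ^ 21 := by ring
    rw [h5, h6] at h3
    exact (div_le_div_iff_of_pos_right (by positivity)).1 h3
  have h7 : 16 * ((S \ Ex).card : ℝ) ≤ 3 * S.card := le_of_mul_le_mul_left h4 hC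
  have h8 : 16 * (S \ Ex).card ≤ 3 * S.card := by exact_mod_cast h7
  have h9 : (S \ Ex).card + (S ∩ Ex).card = S.card := card_sdiff_add_card_inter S Ex
  have h10 : (S ∩ Ex).Nonempty := card_pos.1 (by omega)
  have h11 := hR (S ∩ Ex) inter_subset_right h10
  have h12 : nbr R' (S ∩ Ex) ⊆ X := by
    intro w hw
    rw [T2_nbr] at hw
    obtain ⟨v, hv, hvw⟩ := hw
    exact hnb v (mem_inter.1 hv).1 w (h2 hvw)
  have h13 := card_le_card h12
  omega

end AF
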