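import Pool.Agent.Lib.MP_991c8b_co.Defs

/-!
# T3: large sets expand, connectedness

PROOF. aa n = ⌈n/2^30⌉ satisfies 3 * 2^26 * aa n ≤ n for large n (≥ 2^31), so every S with 3 * 2^26 * |S| > n has |S| ≥ aa n.
Let S with aa n ≤ |S| ≤ n/6. If |outn Γ S| < 2|S| then the complement of S ∪ outn Γ S has more than n - 3|S| ≥ n/2 vertices; choose
A1 ⊆ S, |A1| = aa n, B1 in this complement, |B1| = n/2 (disjoint). hbig gives an edge s(u,v) ∈ Γ, u ∈ A1 ⊆ S, v ∈ B1, v ∉ S, so v ∈ outn Γ S,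
contradiction. With hsmall: Expd Γ (n/6).
Conn: S nonempty, ≠ univ, S' = complement. It is enough to find an edge between S and S'. If |S| ≤ n/6: outn Γ S has ≥ 2|S| > 0
elements. If |S'| ≤ n/6: the same for S' (symmetry s(u,v) = s(v,u)). Otherwise both are larger than n/6 ≥ aa n; one of them has ≥ n/2
elements (sum = n): choose B1 in it with n/2 elements and A1 in the other: an edge of Γ between them.
-/

namespace AF

open Finset

private theorem t3_aa {n : ℕ} (hn : 2 ^ 31 ≤ n) : 3 * 2 ^ 26 * aa n ≤ n := by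
  have h1 : (aa n : ℝ) < (n : ℝ) / 2 ^ 30 + 1 := Nat.ceil_lt_add_one (by positivity)
  have h2 : (2 ^ 31 : ℝ) ≤ n := by exact_mod_cast hn
  have h3 : (3 * 2 ^ 26 * aa n : ℝ) ≤ n := by nlinarith
  exact_mod_cast h3

private theorem t3_iff {V : Type} [Fintype V] [DecidableEq V] (Γ : Finset (Sym2 V)) (S : Finset V) (v : V) :
    v ∈ outn Γ S ↔ (∃ u ∈ S, s(u, v) ∈ Γ) ∧ v ∉ S := by
  unfold outn nbr
  rw [mem_sdiff, mem_filter]
  exact ⟨fun h => ⟨h.1.2, h.2⟩, fun h => ⟨⟨mem_univ _, h.1⟩, h.2⟩⟩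

private theorem t3_mem {n : ℕ} {Γ : Finset (Sym2 (Fin n))} {S : Finset (Fin n)} {u v : Fin n} (hu : u ∈ S)
    (hv : v ∉ S) (h : s(u, v) ∈ Γ) : v ∈ outn Γ S :=
  (t3_iff Γ S v).2 ⟨⟨u, hu, h⟩, hv⟩

theorem exp_large : ∃ N : ℕ, ∀ n : ℕ, N ≤ n → ∀ Γ : Finset (Sym2 (Fin n)),
    (∀ S : Finset (Fin n), S.Nonempty → 3 * 2 ^ 26 * S.card ≤ n →
      2 * S.card ≤ (outn Γ S).card) →
    (∀ A1 B1 : Finset (Fin n), A1.card = aa n → B1.card = n / 2 → Disjoint A1 B1 →
      ∃ u ∈ A1, ∃ v ∈ B1, s(u, v) ∈ Γ) →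
    Expd Γ (n / 6) ∧ Conn Γ := by
  refine ⟨2 ^ 31, fun n hn Γ hsmall hbig => ?_⟩
  have haa := t3_aa hn
  have hE : Expd Γ (n / 6) := by
    intro S hS hSc
    by_cases h1 : 3 * 2 ^ 26 * S.card ≤ n
    · exact hsmall S hS h1
    · by_contra hcon
      push Not at hcon
      have h2 : aa n ≤ S.card := by omega
      have h3 : n / 2 ≤ (S ∪ outn Γ S)ᶜ.card := by
        rw [card_compl, Fintype.card_fin]
        have := card_union_le S (outn Γ S)
        omega
      obtain ⟨A1, hA1, hA1c⟩ := exists_subset_card_eq h2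
      obtain ⟨B1, hB1, hB1c⟩ := exists_subset_card_eq h3
      have hB1' : ∀ x ∈ B1, x ∉ S ∧ x ∉ outn Γ S := by
        intro x hx
        have := hB1 hx
        rw [mem_compl, mem_union, not_or] at this
        exact this
      obtain ⟨u, hu, v, hv, huv⟩ := hbig A1 B1 hA1c hB1c (by
        rw [disjoint_left]
        intro x hx hx2
        exact (hB1' x hx2).1 (hA1 hx))
      exact (hB1' v hv).2 (t3_mem (hA1 hu) (hB1' v hv).1 huv)
  refine ⟨hE, ?_⟩
  intro S hS hSu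
  have hSc : (Sᶜ).Nonempty := by
    rw [nonempty_iff_ne_empty]
    intro h
    exact hSu ((compl_eq_empty_iff S).1 h)
  have hsum : Sᶜ.card + S.card = n := by
    rw [card_compl, Fintype.card_fin]
    have := card_le_univ S
    rw [Fintype.card_fin] at this
    omega
  have hSpos := card_pos.2 hS
  have hScpos := card_pos.2 hSc
  have key : ∃ u ∈ S, ∃ v, v ∉ S ∧ s(u, v) ∈ Γ := by
    by_cases h1 : S.card ≤ n / 6
    · have h2 := hE S hS h1
      obtain ⟨v, hv⟩ := card_pos.1 (show 0 < (outn Γ S).card by omega)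
      rw [t3_iff] at hv
      obtain ⟨⟨u, hu, huv⟩, hv⟩ := hv
      exact ⟨u, hu, v, hv, huv⟩
    · by_cases h2 : Sᶜ.card ≤ n / 6
      · have h3 := hE Sᶜ hSc h2
        obtain ⟨v, hv⟩ := card_pos.1 (show 0 < (outn Γ Sᶜ).card by omega)
        rw [t3_iff, mem_compl, not_not] at hv
        obtain ⟨⟨u, hu, huv⟩, hv⟩ := hv
        rw [mem_compl] at hu
        rw [Sym2.eq_swap] at huv
        exact ⟨v, hv, u, hu, huv⟩
      · by_cases h3 : n / 2 ≤ Sᶜ.card
        · obtain ⟨A1, hA1, hA1c⟩ := exists_subset_card_eq (show aa n ≤ S.card by omega)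
          obtain ⟨B1, hB1, hB1c⟩ := exists_subset_card_eq h3
          obtain ⟨u, hu, v, hv, huv⟩ := hbig A1 B1 hA1c hB1c (by
            rw [disjoint_left]
            intro x hx hx2
            exact (mem_compl.1 (hB1 hx2)) (hA1 hx))
          exact ⟨u, hA1 hu, v, mem_compl.1 (hB1 hv), huv⟩
        · obtain ⟨A1, hA1, hA1c⟩ := exists_subset_card_eq (show aa n ≤ Sᶜ.card by omega)
          obtain ⟨B1, hB1, hB1c⟩ := exists_subset_card_eq (show n / 2 ≤ S.card by omega)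
          obtain ⟨u, hu, v, hv, huv⟩ := hbig A1 B1 hA1c hB1c (by
            rw [disjoint_left]
            intro x hx hx2
            exact (mem_compl.1 (hA1 hx)) (hB1 hx2))
          rw [Sym2.eq_swap] at huv
          exact ⟨v, hB1 hv, u, mem_compl.1 (hA1 hu), huv⟩
  obtain ⟨u, hu, v, hv, huv⟩ := key
  exact ⟨v, t3_mem hu hv huv⟩

end AF
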