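import Pool.Agent.Lib.MP_991c8b_co.T1
import Pool.Agent.Lib.MP_991c8b_co.T2
import Pool.Agent.Lib.MP_991c8b_co.T3
import Pool.Agent.Lib.MP_991c8b_co.H4

/-!
# T4: assembly: the final graph of Avoider is Hamiltonian

PROOF. C = Cc n f = n/f ≥ 2^64, AM = A \ R, Ex = {v : dg AM v < dd n f}, |Ex| ≤ ss n f (ex). RX gives R' ⊆ A ∩ R, |R'| ≤ r0.
(1) For v ∉ Ex choose dd n f edges of AM at v; P1 = union of these: |P1| ≤ n dd, dg P1 v ≥ dd for v ∉ Ex.
(2) hitting with U = AM, 𝓕 = all betw AM A1 B1 (A1, B1 disjoint, |A1| = aa n, |B1| = n/2), q = 2^38, m = 2n+1: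
 |𝓕| ≤ 2^n 2^n < 2^(2n+1). |AM| ≤ |A| ≤ (|KE n| + f)/(f+1) ≤ (n^2/2 + f)/f... ≤ C n / 2 + 1 ≤ C n (C n ≥ 2), and
 |betw AM A1 B1| ≥ jj + 1 > C aa / 2^8 ≥ C n / 2^38. So |AM| ≤ q |betw ..|, nonempty. Get H0 ⊆ AM, |H0| ≤ 2^38 (2n+1).
(3) P0 = P1 ∪ H0 ⊆ AM; |P0| + n ≤ n (C/2^17 + 1) + 2^38 (2n+1) + n ≤ C n/2^14 - 1 ≤ mm n f (as C ≥ 2^64:
 C/2^14 - C/2^17 = 7 C/2^17 ≥ 7 * 2^47).
(4) For every Γ with P0 ∪ R' ⊆ Γ: small sets expand by exp_small (AM, P0, R', Ex), and for disjoint A1, B1 of the sizes aa n, n/2 an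
 element of betw AM A1 B1 ∩ H0 is an edge s(u,v) ∈ Γ, u ∈ A1, v ∈ B1. exp_large: Expd Γ (n/6) and Conn Γ.
(5) iterate with G0 = P0 ∪ R', B = AM: Q ⊆ AM, |Q| ≤ n, not HamC (G0 ∪ Q): with P = P0 ∪ Q ⊆ AM, |P| ≤ |P0| + n ≤ mm n f,
 G0 ∪ Q = P ∪ R' is connected and expanding by (4); bo gives e ∈ AM, e ∈ Boo (P ∪ R'). So there is Q ⊆ AM with HamC (G0 ∪ Q),
 G0 ∪ Q ⊆ A, hamC_mono.
-/

namespace AF

open Finset

private theorem t4_card_KE (n : ℕ) : 2 * ((KE n).card : ℝ) ≤ (n : ℝ) ^ 2 := by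
  have h1 : (KE n).card = n.choose 2 := by
    have h := SimpleGraph.card_edgeFinset_top_eq_card_choose_two (V := Fin n)
    rw [Fintype.card_fin] at h
    exact h
  rw [h1]
  have h2 : (n.choose 2) * 2 ≤ n ^ 2 := by
    rw [Nat.choose_two_right]
    calc n * (n - 1) / 2 * 2 ≤ n * (n - 1) := Nat.div_mul_le_self _ _
      _ ≤ n * n := Nat.mul_le_mul_left _ (Nat.sub_le _ _)
      _ = n ^ 2 := (sq n).symm
  have h3 : ((n.choose 2 * 2 : ℕ) : ℝ) ≤ ((n ^ 2 : ℕ) : ℝ) := by exact_mod_cast h2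
  push_cast at h3
  linarith

private theorem t4_C {n f : ℕ} (hf : 1 ≤ f) (hfn : 2 ^ 64 * f ≤ n) : (2 : ℝ) ^ 64 ≤ Cc n f := by
  unfold Cc
  have hf' : (0 : ℝ) < f := by exact_mod_cast hf
  rw [le_div_iff₀ hf']
  exact_mod_cast hfn

private theorem t4_card_A {n f : ℕ} (hf : 1 ≤ f) (hfn : 2 ^ 64 * f ≤ n)
    {A : Finset (Sym2 (Fin n))} (hA : (f + 1) * A.card ≤ (KE n).card + f) :
    (A.card : ℝ) ≤ Cc n f * n := by
  have hf' : (1 : ℝ) ≤ f := by exact_mod_cast hf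
  have hn : (1 : ℝ) ≤ n := by
    have : 1 ≤ n := le_trans (by omega) hfn
    exact_mod_cast this
  have h1 : ((f : ℝ) + 1) * A.card ≤ (KE n).card + f := by exact_mod_cast hA
  have h2 := t4_card_KE n
  have hC := t4_C hf hfn
  have hCn : Cc n f * f = n := by
    unfold Cc
    field_simp
  have h3 : (A.card : ℝ) * f ≤ (n : ℝ) ^ 2 / 2 + f := by nlinarith [Nat.cast_nonneg (α := ℝ) A.card]
  have h4 : (n : ℝ) ^ 2 / 2 + f ≤ Cc n f * n * f := by
    have e1 : Cc n f * n * f = (n : ℝ) ^ 2 := by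
      calc Cc n f * n * f = (Cc n f * f) * n := by ring
        _ = (n : ℝ) ^ 2 := by rw [hCn]; ring
    rw [e1]
    have e2 : (f : ℝ) * 2 ^ 64 ≤ n := by
      rw [← hCn]
      nlinarith
    nlinarith
  have h5 : (A.card : ℝ) * f ≤ Cc n f * n * f := h3.trans h4
  exact le_of_mul_le_mul_right h5 (by linarith)

private theorem t4_jj {n f c : ℕ} (hC : (0 : ℝ) ≤ Cc n f) (hc : jj n f < c) :
    Cc n f * n ≤ (2 : ℝ) ^ 38 * c := by
  have h1 : Cc n f * aa n / 2 ^ 8 < (c : ℝ) := by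
    unfold jj at hc
    exact (Nat.floor_lt (by positivity)).1 hc
  have h2 : (n : ℝ) / 2 ^ 30 ≤ aa n := by
    unfold aa
    exact Nat.le_ceil _
  have h3 : Cc n f * ((n : ℝ) / 2 ^ 30) ≤ Cc n f * aa n := mul_le_mul_of_nonneg_left h2 hC
  have h4 : Cc n f * n = 2 ^ 30 * (Cc n f * ((n : ℝ) / 2 ^ 30)) := by ring
  have h5 : Cc n f * aa n < 2 ^ 8 * (c : ℝ) := by
    rw [div_lt_iff₀ (by norm_num)] at h1
    linarith
  rw [h4]
  have h6 : (2 : ℝ) ^ 38 * c = 2 ^ 30 * (2 ^ 8 * (c : ℝ)) := by ring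
  rw [h6]
  exact mul_le_mul_of_nonneg_left (h3.trans h5.le) (by norm_num)

private theorem t4_mm {n f : ℕ} (hn : 1 ≤ n) (hC : (2 : ℝ) ^ 64 ≤ Cc n f) {p : ℕ}
    (hp : p ≤ n * dd n f + 2 ^ 38 * (2 * n + 1)) : p + n ≤ mm n f := by
  unfold mm
  apply Nat.le_floor
  have hn' : (1 : ℝ) ≤ n := by exact_mod_cast hn
  have h1 : (dd n f : ℝ) ≤ Cc n f / 2 ^ 17 + 1 := by
    unfold dd
    exact (Nat.ceil_lt_add_one (by positivity)).le
  have h2 : (p : ℝ) ≤ n * dd n f + 2 ^ 38 * (2 * n + 1) := by exact_mod_cast hp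
  have h3 : (n : ℝ) * dd n f ≤ n * (Cc n f / 2 ^ 17 + 1) :=
    mul_le_mul_of_nonneg_left h1 (by linarith)
  have h4 : (n : ℝ) * 2 ^ 64 ≤ n * Cc n f := mul_le_mul_of_nonneg_left hC (by linarith)
  push_cast
  have h5 : (n : ℝ) * (Cc n f / 2 ^ 17 + 1) = n * Cc n f / 2 ^ 17 + n := by ring
  rw [h5] at h3
  rw [le_div_iff₀ (by norm_num)]
  have h6 : (p : ℝ) ≤ n * Cc n f / 2 ^ 17 + n + 2 ^ 38 * (2 * n + 1) := by linarith
  have h7 : (p : ℝ) * 2 ^ 14 ≤ (n * Cc n f / 2 ^ 17 + n + 2 ^ 38 * (2 * n + 1)) * 2 ^ 14 :=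
    mul_le_mul_of_nonneg_right h6 (by norm_num)
  nlinarith

private theorem t4_mem_filter {α : Type*} (p : α → Prop) (inst : DecidablePred p) (s : Finset α)
    (a : α) (h : a ∈ @Finset.filter α p inst s) : a ∈ s ∧ p a := Finset.mem_filter.1 h

private theorem t4_mem_betw {n : ℕ} {Γ : Finset (Sym2 (Fin n))} {A B : Finset (Fin n)}
    {e : Sym2 (Fin n)} (he : e ∈ betw Γ A B) : e ∈ Γ ∧ ∃ u ∈ A, ∃ v ∈ B, e = s(u, v) := by
  exact t4_mem_filter _ _ _ _ he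

theorem assemble : ∃ N : ℕ, ∀ n : ℕ, N ≤ n → ∀ f r0 : ℕ, 1 ≤ f → 2 ^ 64 * f ≤ n →
    ∀ A R : Finset (Sym2 (Fin n)), A ⊆ KE n → MGood n f r0 R (A \ R) →
    RX A R (ss n f) r0 → (f + 1) * A.card ≤ (KE n).card + f → HamC A := by
  classical
  obtain ⟨N, hN⟩ := exp_large
  refine ⟨N, fun n hn f r0 hf hfn A R hAK hM hRX hAc => ?_⟩
  have hn1 : 1 ≤ n := le_trans (by omega) hfn
  have hC := t4_C hf hfn
  have hC0 : (0 : ℝ) ≤ Cc n f := le_trans (by norm_num) hC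
  set AM := A \ R with hAM
  set Ex := Finset.univ.filter (fun v => dg AM v < dd n f) with hEx
  obtain ⟨R', hR'A, hR'c, hR'⟩ := hRX Ex hM.ex
  have hR'R : R' ⊆ R := hR'A.trans Finset.inter_subset_right
  have hR'A' : R' ⊆ A := hR'A.trans Finset.inter_subset_left
  -- (1)
  have hPv : ∀ v : Fin n, ∃ P ⊆ AM.filter (fun e => v ∈ e), P.card ≤ dd n f ∧
      (v ∉ Ex → dd n f ≤ P.card) := by
    intro v
    by_cases hv : v ∈ Ex
    · exact ⟨∅, Finset.empty_subset _, Nat.zero_le _, fun h => absurd hv h⟩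
    · have h1 : dd n f ≤ (AM.filter (fun e => v ∈ e)).card := by
        by_contra h
        exact hv (Finset.mem_filter.2 ⟨Finset.mem_univ _, not_le.1 h⟩)
      obtain ⟨P, hP, hPc⟩ := Finset.exists_subset_card_eq h1
      exact ⟨P, hP, hPc.le, fun _ => hPc.ge⟩
  choose Pv hPv1 hPv2 hPv3 using hPv
  set P1 := Finset.univ.biUnion Pv with hP1
  have hP1AM : P1 ⊆ AM := by
    intro e he
    obtain ⟨v, -, hev⟩ := Finset.mem_biUnion.1 he
    exact (Finset.mem_filter.1 (hPv1 v hev)).1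
  have hP1c : P1.card ≤ n * dd n f := by
    refine Finset.card_biUnion_le.trans ?_
    refine (Finset.sum_le_sum fun v _ => hPv2 v).trans ?_
    rw [Finset.sum_const, Finset.card_univ, Fintype.card_fin, smul_eq_mul]
  have hP1d : ∀ v, v ∉ Ex → dd n f ≤ dg P1 v := by
    intro v hv
    refine (hPv3 v hv).trans (Finset.card_le_card fun e he => ?_)
    exact Finset.mem_filter.2 ⟨Finset.mem_biUnion.2 ⟨v, Finset.mem_univ _, he⟩,
      (Finset.mem_filter.1 (hPv1 v he)).2⟩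
  -- (2)
  set pairs : Finset (Finset (Fin n) × Finset (Fin n)) := Finset.univ.filter
    (fun q => q.1.card = aa n ∧ q.2.card = n / 2 ∧ Disjoint q.1 q.2) with hpairs
  obtain ⟨H0, hH0, hH0c, hH0h⟩ := hitting AM (pairs.image fun q => betw AM q.1 q.2)
    (2 ^ 38) (2 * n + 1) (by norm_num)
    (by
      intro S hS
      obtain ⟨q, hq, rfl⟩ := Finset.mem_image.1 hS
      obtain ⟨-, hq1, hq2, hq3⟩ := Finset.mem_filter.1 hq
      have hjj := hM.bi q.1 q.2 hq1 hq2 hq3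
      refine ⟨fun e he => (t4_mem_betw he).1,
        Finset.card_pos.1 (lt_of_le_of_lt (Nat.zero_le _) hjj), ?_⟩
      have h1 := t4_jj hC0 hjj
      have h2 := t4_card_A hf hfn hAc
      have h3 : AM.card ≤ A.card := Finset.card_le_card Finset.sdiff_subset
      have h4 : (AM.card : ℝ) ≤ A.card := by exact_mod_cast h3
      have h5 : (AM.card : ℝ) ≤ ((2 ^ 38 * (betw AM q.1 q.2).card : ℕ) : ℝ) := by
        push_cast
        linarith
      exact_mod_cast h5)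
    (by
      refine lt_of_le_of_lt (Finset.card_image_le.trans (Finset.card_filter_le _ _)) ?_
      rw [Finset.card_univ, Fintype.card_prod, Fintype.card_finset, Fintype.card_fin, ← pow_add]
      exact Nat.pow_lt_pow_right (by norm_num) (by omega))
  -- (3)
  set P0 := P1 ∪ H0 with hP0
  have hP0AM : P0 ⊆ AM := Finset.union_subset hP1AM hH0
  have hP0c : P0.card + n ≤ mm n f := by
    apply t4_mm hn1 hC
    exact (Finset.card_union_le _ _).trans (Nat.add_le_add hP1c hH0c)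
  have hP0d : ∀ v, v ∉ Ex → dd n f ≤ dg P0 v := by
    intro v hv
    refine (hP1d v hv).trans (Finset.card_le_card ?_)
    exact Finset.filter_subset_filter _ Finset.subset_union_left
  -- (4)
  have hexp : ∀ Γ : Finset (Sym2 (Fin n)), P0 ⊆ Γ → R' ⊆ Γ → Expd Γ (n / 6) ∧ Conn Γ := by
    intro Γ h1 h2
    refine hN n hn Γ (fun S hS hSn => ?_) (fun A1 B1 hA1 hB1 hdis => ?_)
    · exact exp_small hf hn1 AM P0 R' Γ hM.ls hP0AM Ex hP0d hR' h1 h2 S hS hSn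
    · have hmem : betw AM A1 B1 ∈ pairs.image fun q => betw AM q.1 q.2 :=
        Finset.mem_image.2 ⟨(A1, B1), Finset.mem_filter.2 ⟨Finset.mem_univ _, hA1, hB1, hdis⟩, rfl⟩
      obtain ⟨e, he⟩ := hH0h _ hmem
      obtain ⟨he1, he2⟩ := Finset.mem_inter.1 he
      obtain ⟨u, hu, v, hv, rfl⟩ := (t4_mem_betw he1).2
      exact ⟨u, hu, v, hv, h1 (Finset.mem_union_right _ he2)⟩
  -- (5)
  obtain ⟨Q, hQ, hHam⟩ := iterate (P0 ∪ R') AM (by
    intro Q hQ hQc hnot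
    rw [Fintype.card_fin] at hQc
    have hPc : (P0 ∪ Q).card ≤ mm n f :=
      ((Finset.card_union_le _ _).trans (Nat.add_le_add_left hQc _)).trans hP0c
    have heq : P0 ∪ R' ∪ Q = P0 ∪ Q ∪ R' := Finset.union_right_comm _ _ _
    rw [heq] at hnot ⊢
    have hE := hexp (P0 ∪ Q ∪ R')
      (Finset.subset_union_left.trans Finset.subset_union_left) Finset.subset_union_right
    exact hM.bo (P0 ∪ Q) (Finset.union_subset hP0AM hQ) hPc R' hR'R hR'c hE.2 hE.1 hnot)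
  refine hamC_mono (Finset.union_subset (Finset.union_subset ?_ hR'A') ?_) hHam
  · exact hP0AM.trans Finset.sdiff_subset
  · exact hQ.trans Finset.sdiff_subset

end AF
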