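import Pool.Agent.Lib.MP_991c8b_co.Q5
import Pool.Agent.Lib.MP_991c8b_co.N5
import Pool.Agent.Lib.MP_991c8b_co.G2
import Pool.Agent.Lib.MP_991c8b_co.T4
import Pool.Agent.Lib.MP_991c8b_co.H5

/-!
# Main: assembly
-/

namespace AF

open Finset

theorem core {n f k r0 N1 N2 : ℕ} (hf : 1 ≤ f) (hfn : 2 ^ 64 * f ≤ n)
    (hN1 : ∀ n : ℕ, N1 ≤ n → ∀ f r0 K : ℕ, 1 ≤ f → 2 ^ 64 * f ≤ n →
      2 ^ (K + 1) ≤ n → 2 * (r0 : ℝ) * Real.log n ≤ Cc n f * n / 1000 →
      ∀ R : Finset (Sym2 (Fin n)), (∀ v, dg R v * 2 ^ 33 ≤ n) →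
        ∃ J Good, IsBoard f K (KE n \ R) J Good ∧
          ∀ A ⊆ KE n \ R, Good A → MGood n f r0 R A)
    (hN2 : ∀ n : ℕ, N2 ≤ n → ∀ f r0 : ℕ, 1 ≤ f → 2 ^ 64 * f ≤ n →
      ∀ A R : Finset (Sym2 (Fin n)), A ⊆ KE n → MGood n f r0 R (A \ R) →
      RX A R (ss n f) r0 → (f + 1) * A.card ≤ (KE n).card + f → HamC A)
    (h1 : N1 ≤ n) (h2 : N2 ≤ n) (hk : 2 ^ (k + 2) ≤ n)
    (hr : 2 * (r0 : ℝ) * Real.log n ≤ Cc n f * n / 1000)
    (Y : Fin k → Finset (Sym2 (Fin n))) (hY : ∀ i j, i ≠ j → Disjoint (Y i) (Y j))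
    (hYK : ∀ j, Y j ⊆ KE n) (hdg : ∀ v, dg (Finset.univ.biUnion Y) v * 2 ^ 33 ≤ n)
    (J : Fin k → ℕ → Finset (Sym2 (Fin n)) → Finset (Sym2 (Fin n)) → Prop)
    (Good : Fin k → Finset (Sym2 (Fin n)) → Prop)
    (hB : ∀ j, IsBoard f (k + 1) (Y j) (J j) (Good j))
    (hRX : ∀ A : Finset (Sym2 (Fin n)), (∀ j, Good j (A ∩ Y j)) →
      RX A (Finset.univ.biUnion Y) (ss n f) r0) :
    ForcerWinsOn f (KE n) (fun A => HamC A) := by
  obtain ⟨J0, G0, hJ0, hG0⟩ := hN1 n h1 f r0 (k + 1) hf hfn hk hr (Finset.univ.biUnion Y) hdg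
  set R := Finset.univ.biUnion Y with hR
  let Z : Option (Fin k) → Finset (Sym2 (Fin n)) := fun i => Option.casesOn i (KE n \ R) Y
  have hZn : Z none = KE n \ R := rfl
  have hZs : ∀ j, Z (some j) = Y j := fun _ => rfl
  have hRK : R ⊆ KE n := by
    intro e he
    rw [hR, mem_biUnion] at he
    obtain ⟨j, _, hj⟩ := he
    exact hYK j hj
  have hU : Finset.univ.biUnion Z = KE n := by
    ext e
    simp only [mem_biUnion, mem_univ, true_and]
    constructor
    · rintro ⟨i, hi⟩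
      cases i with
      | none => exact (mem_sdiff.mp (by simpa [hZn] using hi)).1
      | some j => exact hYK j (by simpa [hZs] using hi)
    · intro he
      by_cases heR : e ∈ R
      · have := heR
        rw [hR, mem_biUnion] at this
        obtain ⟨j, _, hj⟩ := this
        exact ⟨some j, hj⟩
      · exact ⟨none, mem_sdiff.mpr ⟨he, heR⟩⟩
  have hdis : ∀ i j, i ≠ j → Disjoint (Z i) (Z j) := by
    intro i j hij
    cases i with
    | none =>
      cases j with
      | none => exact absurd rfl hij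
      | some j =>
        rw [hZn, hZs]
        refine Finset.disjoint_left.mpr ?_
        intro e he1 he2
        exact (mem_sdiff.mp he1).2 (by rw [hR, mem_biUnion]; exact ⟨j, mem_univ _, he2⟩)
    | some i =>
      cases j with
      | none =>
        rw [hZn, hZs]
        refine Finset.disjoint_left.mpr ?_
        intro e he1 he2
        exact (mem_sdiff.mp he2).2 (by rw [hR, mem_biUnion]; exact ⟨i, mem_univ _, he1⟩)
      | some j =>
        rw [hZs, hZs]
        exact hY i j (fun h => hij (by rw [h]))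
  let JJ : Option (Fin k) → ℕ → Finset (Sym2 (Fin n)) → Finset (Sym2 (Fin n)) → Prop :=
    fun i => Option.casesOn i J0 J
  let GG : Option (Fin k) → Finset (Sym2 (Fin n)) → Prop := fun i => Option.casesOn i G0 Good
  have hcard : Fintype.card (Option (Fin k)) = k + 1 := by simp
  have hBB : ∀ i, IsBoard f (Fintype.card (Option (Fin k))) (Z i) (JJ i) (GG i) := by
    intro i
    rw [hcard]
    cases i with
    | none => exact hJ0
    | some j => exact hB j
  have := product f Z hdis JJ GG hBB (fun A => HamC A) (by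
    intro A hA hgood hc
    rw [hU] at hA hc
    refine hN2 n h2 f r0 hf hfn A R hA ?_ ?_ hc
    · have h3 : A \ R = A ∩ Z none := by
        ext e
        rw [hZn, mem_sdiff, mem_inter, mem_sdiff]
        constructor
        · rintro ⟨h4, h5⟩; exact ⟨h4, hA h4, h5⟩
        · rintro ⟨h4, _, h5⟩; exact ⟨h4, h5⟩
      rw [h3]
      exact hG0 _ inter_subset_right (hgood none)
    · exact hRX A (fun j => hgood (some j)))
  rw [hU] at this
  exact this

theorem af_main : ∃ c : ℝ, 0 < c ∧ ∃ N : ℕ, ∀ n : ℕ, N ≤ n → ∀ f : ℕ, 1 ≤ f →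
    (f : ℝ) ≤ c * n / Real.log (Real.log n) ^ 2 →
    ForcerWinsOn f (KE n) (fun A => HamC A) := by
  obtain ⟨c1, hc1, Na, ha⟩ := reserve_main
  obtain ⟨c2, hc2, Nb, hb⟩ := params
  obtain ⟨N1, hN1⟩ := mboard
  obtain ⟨N2, hN2⟩ := assemble
  refine ⟨min c1 c2, lt_min hc1 hc2, max (max (max Na Nb) (max N1 N2)) 4, ?_⟩
  intro n hn f hf hfc
  have hna : Na ≤ n := le_trans (by simp) hn
  have hnb : Nb ≤ n := le_trans (by simp) hn
  have hn1 : N1 ≤ n := le_trans (by simp) hn
  have hn2 : N2 ≤ n := le_trans (by simp) hn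
  have hn4 : 4 ≤ n := le_trans (by simp) hn
  have hmono : ∀ c', min c1 c2 ≤ c' → (f : ℝ) ≤ c' * n / Real.log (Real.log n) ^ 2 := by
    intro c' hc'
    refine le_trans hfc ?_
    apply div_le_div_of_nonneg_right _ (by positivity)
    exact mul_le_mul_of_nonneg_right hc' (by positivity)
  have hfn := (hb n hnb f hf (hmono c2 (min_le_right _ _))).1
  by_cases hcase : (3 / 100 : ℝ) * Cc n f ≤ Real.log n
  · obtain ⟨k, r0, hk, hr, Y, hY, hYK, hdg, J, Good, hB, hRX⟩ :=
      ha n hna f hf (hmono c1 (min_le_left _ _)) hcase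
    exact core hf hfn hN1 hN2 hn1 hn2 hk hr Y hY hYK hdg J Good hB hRX
  · push_neg at hcase
    have hn0 : (0 : ℝ) < n := by
      have : 0 < n := by omega
      exact_mod_cast this
    have hss : ss n f = 0 := by
      unfold ss
      rw [Nat.floor_eq_zero]
      have h5 : Real.exp (-(3 / 100) * Cc n f) < Real.exp (-Real.log n) :=
        Real.exp_lt_exp.mpr (by linarith)
      rw [Real.exp_neg, Real.exp_log hn0] at h5
      calc Real.exp (-(3 / 100) * Cc n f) * n < (n : ℝ)⁻¹ * n :=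
            mul_lt_mul_of_pos_right h5 hn0
        _ = 1 := by field_simp
    refine core (k := 0) (r0 := 0) hf hfn hN1 hN2 hn1 hn2 (by simpa using hn4) ?_
      (fun i => i.elim0) (fun i => i.elim0) (fun i => i.elim0) ?_ (fun i => i.elim0)
      (fun i => i.elim0) (fun i => i.elim0) ?_
    · simp only [Nat.cast_zero, mul_zero, zero_mul]
      have : (0 : ℝ) ≤ Cc n f := by unfold Cc; positivity
      positivity
    · intro v
      simp [dg]
    · intro A _
      rw [hss]
      intro Ex hEx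
      refine ⟨∅, empty_subset _, by simp, ?_⟩
      intro S hS hS2
      have : Ex = ∅ := by
        rw [← card_eq_zero]; omega
      rw [this, subset_empty] at hS
      exact absurd hS (Finset.nonempty_iff_ne_empty.mp hS2)

end AF
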