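import Pool.Agent.Lib.MP_991c8b_co.Defs

/-!
# N0: counting tools

sum_small: Put t = m/(N y) ∈ (0, 1]. ∑_(P ⊆ U, |P| ≤ m) y^|P| ≤ t^(-m) ∑_(P ⊆ U) (t y)^|P| (as t^(|P|-m) ≥ 1) = t^(-m) (1 + t y)^|U|
(Finset.sum_pow_mul_eq_add_pow or prod_one_add) ≤ t^(-m) exp(t y N) = (N y/m)^m e^m.
choose_le_exp: n.choose x ≤ n^x / x! (Nat.choose_le_pow_div) and x! ≥ (x/e)^x (e^x ≥ x^x / x!, Real.pow_div_factorial_le_exp or the
series).
small_count: induction on m or: P ↦ choose: ∑_(j ≤ m) C(N, j) ≤ (N+1)^m; e.g. induction on m: C(N, m+1) ≤ N (N+1)^m as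
C(N, m+1) ≤ N^(m+1) ≤ N (N+1)^m, so the sum up to m+1 is ≤ (N+1)^m + N (N+1)^m.
lam_le: 1/(1 + f/4) ≤ 4/f. mu_le: 1 + 1/(2f) ≥ exp(1/(3f)): for y = 1/(3f) ∈ (0, 1/3], exp y ≤ 1 + y + y^2 ≤ 1 + (4/3) y ≤ 1 + (3/2) y
(Real.exp_bound' or Real.abs_exp_sub_one_sub_id_le).
wt_union_le, wt_biUnion_le: terms are nonnegative.
-/

namespace AF

open Finset

variable {E : Type} [DecidableEq E]

theorem lam_pos (f : ℕ) : 0 < lam f := by
  unfold lam
  positivity

theorem lam_le (f : ℕ) (hf : 1 ≤ f) : lam f ≤ 4 / f := by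
  unfold lam
  have hf0 : (0 : ℝ) < f := by exact_mod_cast hf
  rw [div_le_div_iff₀ (by positivity) hf0]
  linarith

theorem mu_pos (f : ℕ) (hf : 1 ≤ f) : 0 < mu f := by
  have hf0 : (0 : ℝ) < f := by exact_mod_cast hf
  unfold mu
  positivity

theorem mu_le (f : ℕ) (hf : 1 ≤ f) : mu f ≤ Real.exp (-(1 / (3 * (f : ℝ)))) := by
  have hf0 : (1 : ℝ) ≤ f := by exact_mod_cast hf
  unfold mu
  have h1 : Real.exp (1 / (3 * (f : ℝ))) ≤ 1 + 1 / (2 * (f : ℝ)) := by
    set y : ℝ := 1 / (3 * (f : ℝ)) with hy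
    have hy0 : 0 < y := by positivity
    have hy1 : y ≤ 1 / 3 := by
      rw [hy]
      exact one_div_le_one_div_of_le (by norm_num) (by linarith)
    have h2 := Real.abs_exp_sub_one_sub_id_le (x := y) (by rw [abs_of_pos hy0]; linarith)
    have h3 := (abs_le.mp h2).2
    have h4 : 1 / (2 * (f : ℝ)) = 3 / 2 * y := by
      rw [hy]
      field_simp
    rw [h4]
    nlinarith
  rw [Real.exp_neg, one_div]
  exact inv_anti₀ (Real.exp_pos _) h1

/-- mu^q ≤ exp (-q/(3f)) -/
theorem mu_pow_le (f : ℕ) (hf : 1 ≤ f) (q : ℕ) : mu f ^ q ≤ Real.exp (-(q / (3 * (f : ℝ)))) := by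
  calc mu f ^ q ≤ Real.exp (-(1 / (3 * (f : ℝ)))) ^ q :=
        pow_le_pow_left₀ (mu_pos f hf).le (mu_le f hf) q
    _ = Real.exp (-(q / (3 * (f : ℝ)))) := by
        rw [← Real.exp_nat_mul]
        congr 1
        ring

theorem sum_small (U : Finset E) (N y : ℝ) (m : ℕ) (hU : (U.card : ℝ) ≤ N) (hy : 0 < y)
    (hm : 0 < m) (hmN : (m : ℝ) ≤ N * y) :
    ∑ P ∈ U.powerset.filter (fun P => P.card ≤ m), y ^ P.card ≤
      (Real.exp 1 * N * y / m) ^ m := by
  have hm0 : (0 : ℝ) < m := by exact_mod_cast hm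
  have hNy : 0 < N * y := lt_of_lt_of_le hm0 hmN
  have hN : 0 < N := (pos_iff_pos_of_mul_pos hNy).mpr hy
  set t : ℝ := m / (N * y) with ht
  have ht0 : 0 < t := by positivity
  have ht1 : t ≤ 1 := by
    rw [ht, div_le_one hNy]
    exact hmN
  have h1 : ∀ P ∈ U.powerset.filter (fun P => P.card ≤ m), y ^ P.card ≤
      (1 / t) ^ m * (t * y) ^ P.card := by
    intro P hP
    have hPm : P.card ≤ m := (Finset.mem_filter.mp hP).2
    have h2 : 1 ≤ (1 / t) ^ m * t ^ P.card := by
      have h3 : t ^ m ≤ t ^ P.card := pow_le_pow_of_le_one ht0.le ht1 hPm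
      rw [one_div, inv_pow]
      calc (1 : ℝ) = (t ^ m)⁻¹ * t ^ m := (inv_mul_cancel₀ (pow_pos ht0 m).ne').symm
        _ ≤ _ := mul_le_mul_of_nonneg_left h3 (inv_nonneg.mpr (pow_pos ht0 m).le)
    calc y ^ P.card = 1 * y ^ P.card := (one_mul _).symm
      _ ≤ ((1 / t) ^ m * t ^ P.card) * y ^ P.card :=
          mul_le_mul_of_nonneg_right h2 (pow_pos hy _).le
      _ = (1 / t) ^ m * (t * y) ^ P.card := by
          rw [mul_pow]
          ring
  have h4 : ∑ P ∈ U.powerset, (t * y) ^ P.card = (t * y + 1) ^ U.card := by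
    rw [← Finset.sum_pow_mul_eq_add_pow]
    exact Finset.sum_congr rfl fun P _ => by rw [one_pow, mul_one]
  have h5 : (t * y + 1) ^ U.card ≤ Real.exp m := by
    calc (t * y + 1) ^ U.card ≤ Real.exp (t * y) ^ U.card :=
          pow_le_pow_left₀ (by positivity) (Real.add_one_le_exp _) _
      _ = Real.exp (U.card * (t * y)) := (Real.exp_nat_mul _ _).symm
      _ ≤ Real.exp m := by
          refine Real.exp_le_exp.mpr ?_
          calc (U.card : ℝ) * (t * y) ≤ N * (t * y) :=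
                mul_le_mul_of_nonneg_right hU (by positivity)
            _ = m := by
                rw [ht]
                field_simp
  calc ∑ P ∈ U.powerset.filter (fun P => P.card ≤ m), y ^ P.card
      ≤ ∑ P ∈ U.powerset.filter (fun P => P.card ≤ m), (1 / t) ^ m * (t * y) ^ P.card :=
        Finset.sum_le_sum h1
    _ ≤ ∑ P ∈ U.powerset, (1 / t) ^ m * (t * y) ^ P.card :=
        Finset.sum_le_sum_of_subset_of_nonneg (Finset.filter_subset _ _)
          fun P _ _ => by positivity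
    _ = (1 / t) ^ m * (t * y + 1) ^ U.card := by rw [← Finset.mul_sum, h4]
    _ ≤ (1 / t) ^ m * Real.exp m := mul_le_mul_of_nonneg_left h5 (by positivity)
    _ = (Real.exp 1 * N * y / m) ^ m := by
        have h6 : Real.exp (m : ℝ) = Real.exp 1 ^ m := by
          rw [← Real.exp_nat_mul, mul_one]
        rw [h6, ← mul_pow, ht]
        congr 1
        field_simp

theorem choose_le_exp (n x : ℕ) (hx : 0 < x) :
    (n.choose x : ℝ) ≤ (Real.exp 1 * n / x) ^ x := by
  have hx0 : (0 : ℝ) < x := by exact_mod_cast hx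
  have hf : (0 : ℝ) < x.factorial := by exact_mod_cast Nat.factorial_pos x
  have h1 : (n.choose x : ℝ) ≤ (n : ℝ) ^ x / x.factorial := Nat.choose_le_pow_div x n
  have h2 := Real.pow_div_factorial_le_exp (x : ℝ) hx0.le x
  have h3 : (1 : ℝ) / x.factorial ≤ Real.exp 1 ^ x / (x : ℝ) ^ x := by
    rw [← Real.exp_nat_mul, mul_one, div_le_div_iff₀ hf (by positivity), one_mul]
    rwa [div_le_iff₀ hf] at h2
  calc (n.choose x : ℝ) ≤ (n : ℝ) ^ x / x.factorial := h1
    _ = (n : ℝ) ^ x * (1 / x.factorial) := by ring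
    _ ≤ (n : ℝ) ^ x * (Real.exp 1 ^ x / (x : ℝ) ^ x) :=
        mul_le_mul_of_nonneg_left h3 (by positivity)
    _ = (Real.exp 1 * n / x) ^ x := by
        rw [div_pow, mul_pow]
        ring

theorem small_count (U : Finset E) (m : ℕ) :
    (U.powerset.filter (fun P => P.card ≤ m)).card ≤ (U.card + 1) ^ m := by
  induction m with
  | zero =>
    have h : U.powerset.filter (fun P => P.card ≤ 0) ⊆ {∅} := by
      intro P hP
      have h1 := (Finset.mem_filter.mp hP).2
      rw [Finset.mem_singleton, ← Finset.card_eq_zero]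
      omega
    exact (Finset.card_le_card h).trans (by simp)
  | succ m ih =>
    have h1 : U.powerset.filter (fun P => P.card ≤ m + 1) ⊆
        U.powerset.filter (fun P => P.card ≤ m) ∪ U.powersetCard (m + 1) := by
      intro P hP
      obtain ⟨h2, h3⟩ := Finset.mem_filter.mp hP
      rcases Nat.lt_or_ge m P.card with h4 | h4
      · exact Finset.mem_union_right _ (Finset.mem_powersetCard.mpr
          ⟨Finset.mem_powerset.mp h2, by omega⟩)
      · exact Finset.mem_union_left _ (Finset.mem_filter.mpr ⟨h2, h4⟩)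
    have h5 : U.card.choose (m + 1) ≤ U.card * (U.card + 1) ^ m := by
      calc U.card.choose (m + 1) ≤ U.card ^ (m + 1) := Nat.choose_le_pow _ _
        _ = U.card * U.card ^ m := by ring
        _ ≤ U.card * (U.card + 1) ^ m :=
            Nat.mul_le_mul_left _ (Nat.pow_le_pow_left (Nat.le_succ _) m)
    calc (U.powerset.filter (fun P => P.card ≤ m + 1)).card
        ≤ (U.powerset.filter (fun P => P.card ≤ m) ∪ U.powersetCard (m + 1)).card :=
          Finset.card_le_card h1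
      _ ≤ (U.powerset.filter (fun P => P.card ≤ m)).card + (U.powersetCard (m + 1)).card :=
          Finset.card_union_le _ _
      _ ≤ (U.card + 1) ^ m + U.card * (U.card + 1) ^ m := by
          rw [Finset.card_powersetCard]
          exact Nat.add_le_add ih h5
      _ = (U.card + 1) ^ (m + 1) := by ring

private theorem N0_term_nonneg (f : ℕ) (a b : ℕ) : 0 ≤ lam f ^ a * mu f ^ b := by
  have h1 : 0 ≤ lam f := (lam_pos f).le
  have h2 : 0 ≤ mu f := by
    unfold mu
    positivity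
  positivity

theorem wt_nonneg (f : ℕ) (𝓑 : Finset (Finset E × Finset E)) : 0 ≤ wt f 𝓑 :=
  Finset.sum_nonneg fun _ _ => N0_term_nonneg f _ _

theorem wt_union_le (f : ℕ) (𝓑 𝓒 : Finset (Finset E × Finset E)) :
    wt f (𝓑 ∪ 𝓒) ≤ wt f 𝓑 + wt f 𝓒 := by
  unfold wt
  have h := Finset.sum_union_inter (s₁ := 𝓑) (s₂ := 𝓒)
    (f := fun x : Finset E × Finset E => lam f ^ x.1.card * mu f ^ x.2.card)
  have h2 : 0 ≤ ∑ x ∈ 𝓑 ∩ 𝓒, lam f ^ x.1.card * mu f ^ x.2.card :=
    Finset.sum_nonneg fun _ _ => N0_term_nonneg f _ _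
  linarith

theorem wt_biUnion_le {ι : Type} (f : ℕ) (s : Finset ι)
    (𝓑 : ι → Finset (Finset E × Finset E)) :
    wt f (s.biUnion 𝓑) ≤ ∑ i ∈ s, wt f (𝓑 i) := by
  classical
  induction s using Finset.induction_on with
  | empty => simp [wt]
  | insert a s ha ih =>
    rw [Finset.biUnion_insert, Finset.sum_insert ha]
    exact (wt_union_le f _ _).trans (add_le_add le_rfl ih)

theorem wt_image_le {ι : Type} (f : ℕ) (s : Finset ι) (g : ι → Finset E × Finset E) :
    wt f (s.image g) ≤ ∑ i ∈ s, lam f ^ (g i).1.card * mu f ^ (g i).2.card := by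
  classical
  have h1 : s.image g = s.biUnion fun i => {g i} := by
    ext x
    simp [eq_comm]
  rw [h1]
  refine (wt_biUnion_le f s _).trans (le_of_eq ?_)
  refine Finset.sum_congr rfl fun i _ => ?_
  unfold wt
  rw [Finset.sum_singleton]

end AF
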