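import Pool.Agent.Lib.MP_991c8b_co.Defs

/-!
# P0: how the mixed potential changes

Compare term by term. lam f ^ (m) * (1 + f/4) = lam f ^ (m-1) for m ≥ 1, mu f ^ m * (1 + 1/(2f)) = mu f ^ (m-1).
pot_A: e ∉ A: alive pairs of (insert e A, F) = alive pairs x of (A, F) with e ∉ x.2. For these val changes only if e ∈ x.1:
|x.1 \ insert e A| = |x.1 \ A| - 1 (e ∉ A), val(new) = (1 + f/4) val(old) = val(old) + (f/4) val(old). So
pot(new) = pot(old) - qq e + (f/4) ∑_(x alive, e ∈ x.1, e ∉ x.2) val ≤ pot(old) + (f/4) pp e - qq e (val ≥ 0).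
pot_F: g ∉ F: alive pairs of (A, insert g F) = alive pairs x of (A, F) with g ∉ x.1; |x.2 \ insert g F| = |x.2 \ F| - 1 if g ∈ x.2.
pp_F: alive pairs of (A, insert g F) with e ∈ x.1 are alive for (A, F), and val(new) ≤ (1 + 1/(2f)) val(old).
qq_F: alive pairs of (A, F) with e ∈ x.2 : those with g ∈ x.1 have total value ≤ pp g; the others are alive for (A, insert g F) and
their value does not decrease.
-/

namespace AF

open Finset

variable {E : Type} [DecidableEq E]

private theorem lam_pos (f : ℕ) : 0 < lam f := by unfold lam; positivity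

private theorem mu_pos (f : ℕ) : 0 < mu f := by unfold mu; positivity

private theorem lam_mul (f : ℕ) : lam f * (1 + (f : ℝ) / 4) = 1 := by
  unfold lam
  have : (1 + (f : ℝ) / 4) ≠ 0 := by positivity
  field_simp

private theorem mu_mul (f : ℕ) : mu f * (1 + 1 / (2 * (f : ℝ))) = 1 := by
  unfold mu
  rw [one_div, inv_mul_cancel₀]
  positivity

theorem val_nonneg (f : ℕ) (A F : Finset E) (x : Finset E × Finset E) : 0 ≤ val f A F x := by
  unfold val
  exact mul_nonneg (pow_nonneg (lam_pos f).le _) (pow_nonneg (mu_pos f).le _)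

theorem pp_nonneg (f : ℕ) (𝓑 : Finset (Finset E × Finset E)) (A F : Finset E) (g : E) :
    0 ≤ pp f 𝓑 A F g := Finset.sum_nonneg fun x _ => val_nonneg f A F x

theorem qq_nonneg (f : ℕ) (𝓑 : Finset (Finset E × Finset E)) (A F : Finset E) (g : E) :
    0 ≤ qq f 𝓑 A F g := Finset.sum_nonneg fun x _ => val_nonneg f A F x

private theorem val_A_in (f : ℕ) (A F : Finset E) (x : Finset E × Finset E) (e : E) (he : e ∉ A)
    (hx : e ∈ x.1) : val f (insert e A) F x = (1 + (f : ℝ) / 4) * val f A F x := by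
  unfold val
  have h1 : (x.1 \ A).card = (x.1 \ insert e A).card + 1 := by
    rw [Finset.sdiff_insert, Finset.card_erase_of_mem (Finset.mem_sdiff.2 ⟨hx, he⟩)]
    have := Finset.card_pos.2 ⟨e, Finset.mem_sdiff.2 ⟨hx, he⟩⟩
    omega
  rw [h1, pow_succ]
  linear_combination (-(lam f ^ (x.1 \ insert e A).card * mu f ^ (x.2 \ F).card)) * lam_mul f

private theorem val_A_out (f : ℕ) (A F : Finset E) (x : Finset E × Finset E) (e : E)
    (hx : e ∉ x.1) : val f (insert e A) F x = val f A F x := by
  unfold val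
  rw [Finset.sdiff_insert, Finset.erase_eq_of_notMem (fun h => hx (Finset.mem_sdiff.1 h).1)]

private theorem val_F_in (f : ℕ) (A F : Finset E) (x : Finset E × Finset E) (g : E) (hg : g ∉ F)
    (hx : g ∈ x.2) : val f A (insert g F) x = (1 + 1 / (2 * (f : ℝ))) * val f A F x := by
  unfold val
  have h1 : (x.2 \ F).card = (x.2 \ insert g F).card + 1 := by
    rw [Finset.sdiff_insert, Finset.card_erase_of_mem (Finset.mem_sdiff.2 ⟨hx, hg⟩)]
    have := Finset.card_pos.2 ⟨g, Finset.mem_sdiff.2 ⟨hx, hg⟩⟩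
    omega
  rw [h1, pow_succ]
  linear_combination (-(lam f ^ (x.1 \ A).card * mu f ^ (x.2 \ insert g F).card)) * mu_mul f

private theorem val_F_out (f : ℕ) (A F : Finset E) (x : Finset E × Finset E) (g : E)
    (hx : g ∉ x.2) : val f A (insert g F) x = val f A F x := by
  unfold val
  rw [Finset.sdiff_insert x.2, Finset.erase_eq_of_notMem (fun h => hx (Finset.mem_sdiff.1 h).1)]

private theorem val_F_le (f : ℕ) (A F : Finset E) (x : Finset E × Finset E) (g : E)
    (hg : g ∉ F) : val f A (insert g F) x ≤ (1 + 1 / (2 * (f : ℝ))) * val f A F x := by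
  by_cases hx : g ∈ x.2
  · exact (val_F_in f A F x g hg hx).le
  · rw [val_F_out f A F x g hx]
    have h1 := val_nonneg f A F x
    have h2 : 0 ≤ 1 / (2 * (f : ℝ)) := by positivity
    nlinarith

private theorem val_F_ge (f : ℕ) (A F : Finset E) (x : Finset E × Finset E) (g : E)
    (hg : g ∉ F) : val f A F x ≤ val f A (insert g F) x := by
  by_cases hx : g ∈ x.2
  · rw [val_F_in f A F x g hg hx]
    have h1 := val_nonneg f A F x
    have h2 : 0 ≤ 1 / (2 * (f : ℝ)) := by positivity
    nlinarith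
  · rw [val_F_out f A F x g hx]

private theorem pot_ite (f : ℕ) (𝓑 : Finset (Finset E × Finset E)) (A F : Finset E) :
    pot f 𝓑 A F = ∑ x ∈ 𝓑, if Disjoint x.1 F ∧ Disjoint x.2 A then val f A F x else 0 := by
  unfold pot alive
  rw [Finset.sum_filter]

private theorem pp_ite (f : ℕ) (𝓑 : Finset (Finset E × Finset E)) (A F : Finset E) (g : E) :
    pp f 𝓑 A F g = ∑ x ∈ 𝓑, if Disjoint x.1 F ∧ Disjoint x.2 A then
      (if g ∈ x.1 then val f A F x else 0) else 0 := by
  unfold pp alive
  rw [Finset.sum_filter, Finset.sum_filter]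

private theorem qq_ite (f : ℕ) (𝓑 : Finset (Finset E × Finset E)) (A F : Finset E) (g : E) :
    qq f 𝓑 A F g = ∑ x ∈ 𝓑, if Disjoint x.1 F ∧ Disjoint x.2 A then
      (if g ∈ x.2 then val f A F x else 0) else 0 := by
  unfold qq alive
  rw [Finset.sum_filter, Finset.sum_filter]

theorem pot_A (f : ℕ) (𝓑 : Finset (Finset E × Finset E)) (A F : Finset E) (e : E) (he : e ∉ A) :
    pot f 𝓑 (insert e A) F ≤ pot f 𝓑 A F + (f : ℝ) / 4 * pp f 𝓑 A F e - qq f 𝓑 A F e := by
  rw [pot_ite, pot_ite, pp_ite, qq_ite, Finset.mul_sum, ← Finset.sum_add_distrib,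
    ← Finset.sum_sub_distrib]
  refine Finset.sum_le_sum fun x _ => ?_
  have hv := val_nonneg f A F x
  have hf : (0 : ℝ) ≤ (f : ℝ) / 4 := by positivity
  have hfv := mul_nonneg hf hv
  by_cases h1 : Disjoint x.1 F
  · by_cases h2 : Disjoint x.2 A
    · by_cases h3 : e ∈ x.2
      · have h4 : ¬ Disjoint x.2 (insert e A) := by
          rw [Finset.disjoint_insert_right]; tauto
        have hal : Disjoint x.1 F ∧ Disjoint x.2 A := ⟨h1, h2⟩
        have hal' : ¬ (Disjoint x.1 F ∧ Disjoint x.2 (insert e A)) := fun h => h4 h.2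
        rw [if_neg hal', if_pos hal, if_pos hal, if_pos hal, if_pos h3]
        split_ifs
        · linarith
        · linarith
      · have h4 : Disjoint x.2 (insert e A) := by
          rw [Finset.disjoint_insert_right]; tauto
        have hal : Disjoint x.1 F ∧ Disjoint x.2 A := ⟨h1, h2⟩
        have hal' : Disjoint x.1 F ∧ Disjoint x.2 (insert e A) := ⟨h1, h4⟩
        rw [if_pos hal', if_pos hal, if_pos hal, if_pos hal, if_neg h3]
        by_cases h5 : e ∈ x.1
        · rw [if_pos h5, val_A_in f A F x e he h5]; linarith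
        · rw [if_neg h5, val_A_out f A F x e h5]; linarith
    · have h4 : ¬ Disjoint x.2 (insert e A) := by
        rw [Finset.disjoint_insert_right]; tauto
      rw [if_neg (fun h => h4 h.2), if_neg (fun h => h2 h.2), if_neg (fun h => h2 h.2),
        if_neg (fun h => h2 h.2)]
      simp
  · rw [if_neg (fun h => h1 h.1), if_neg (fun h => h1 h.1), if_neg (fun h => h1 h.1),
      if_neg (fun h => h1 h.1)]
    simp

theorem pot_F (f : ℕ) (hf : 1 ≤ f) (𝓑 : Finset (Finset E × Finset E)) (A F : Finset E) (g : E)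
    (hg : g ∉ F) :
    pot f 𝓑 A (insert g F) ≤ pot f 𝓑 A F - pp f 𝓑 A F g + qq f 𝓑 A F g / (2 * f) := by
  have hf0 : (0 : ℝ) < f := by exact_mod_cast hf
  rw [pot_ite, pot_ite, pp_ite, qq_ite, Finset.sum_div, ← Finset.sum_sub_distrib,
    ← Finset.sum_add_distrib]
  refine Finset.sum_le_sum fun x _ => ?_
  have hv := val_nonneg f A F x
  have hfv : 0 ≤ val f A F x / (2 * (f : ℝ)) := by positivity
  by_cases h1 : Disjoint x.1 F
  · by_cases h2 : Disjoint x.2 A
    · by_cases h3 : g ∈ x.1
      · have h4 : ¬ Disjoint x.1 (insert g F) := by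
          rw [Finset.disjoint_insert_right]; tauto
        have hal : Disjoint x.1 F ∧ Disjoint x.2 A := ⟨h1, h2⟩
        have hal' : ¬ (Disjoint x.1 (insert g F) ∧ Disjoint x.2 A) := fun h => h4 h.1
        rw [if_neg hal', if_pos hal, if_pos hal, if_pos hal, if_pos h3]
        split_ifs
        · linarith
        · simp
      · have h4 : Disjoint x.1 (insert g F) := by
          rw [Finset.disjoint_insert_right]; tauto
        have hal : Disjoint x.1 F ∧ Disjoint x.2 A := ⟨h1, h2⟩
        have hal' : Disjoint x.1 (insert g F) ∧ Disjoint x.2 A := ⟨h4, h2⟩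
        rw [if_pos hal', if_pos hal, if_pos hal, if_pos hal, if_neg h3]
        by_cases h5 : g ∈ x.2
        · rw [if_pos h5, val_F_in f A F x g hg h5]
          apply le_of_eq
          ring
        · rw [if_neg h5, val_F_out f A F x g h5]; simp
    · rw [if_neg (fun h => h2 h.2), if_neg (fun h => h2 h.2), if_neg (fun h => h2 h.2),
        if_neg (fun h => h2 h.2)]
      simp
  · have h4 : ¬ Disjoint x.1 (insert g F) := by
      rw [Finset.disjoint_insert_right]; tauto
    rw [if_neg (fun h => h4 h.1), if_neg (fun h => h1 h.1), if_neg (fun h => h1 h.1),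
      if_neg (fun h => h1 h.1)]
    simp

theorem pp_F (f : ℕ) (hf : 1 ≤ f) (𝓑 : Finset (Finset E × Finset E)) (A F : Finset E) (g e : E)
    (hg : g ∉ F) :
    pp f 𝓑 A (insert g F) e ≤ (1 + 1 / (2 * (f : ℝ))) * pp f 𝓑 A F e := by
  rw [pp_ite, pp_ite, Finset.mul_sum]
  refine Finset.sum_le_sum fun x _ => ?_
  have hv := val_nonneg f A F x
  have hv' := val_F_le f A F x g hg
  have h0 : 0 ≤ (1 + 1 / (2 * (f : ℝ))) * val f A F x := by positivity
  by_cases h1 : Disjoint x.1 F ∧ Disjoint x.2 A
  · rw [if_pos h1]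
    by_cases h3 : e ∈ x.1
    · rw [if_pos h3, if_pos h3]
      split_ifs
      · exact hv'
      · exact h0
    · rw [if_neg h3, if_neg h3]
      simp
  · have h4 : ¬ (Disjoint x.1 (insert g F) ∧ Disjoint x.2 A) := by
      rw [Finset.disjoint_insert_right]; tauto
    rw [if_neg h4, if_neg h1]
    simp

theorem qq_F (f : ℕ) (hf : 1 ≤ f) (𝓑 : Finset (Finset E × Finset E)) (A F : Finset E) (g e : E)
    (hg : g ∉ F) :
    qq f 𝓑 A F e - pp f 𝓑 A F g ≤ qq f 𝓑 A (insert g F) e := by
  rw [qq_ite, pp_ite, qq_ite, ← Finset.sum_sub_distrib]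
  refine Finset.sum_le_sum fun x _ => ?_
  have hv := val_nonneg f A F x
  have hv' := val_F_ge f A F x g hg
  have hv2 := val_nonneg f A (insert g F) x
  by_cases h1 : Disjoint x.1 F ∧ Disjoint x.2 A
  · rw [if_pos h1, if_pos h1]
    by_cases h3 : g ∈ x.1
    · rw [if_pos h3]
      have h4 : (if e ∈ x.2 then val f A F x else 0) - val f A F x ≤ 0 := by
        split_ifs
        · simp
        · linarith
      refine h4.trans ?_
      split_ifs
      · exact hv2
      · exact le_rfl
      · exact le_rfl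
    · have h4 : Disjoint x.1 (insert g F) ∧ Disjoint x.2 A := by
        rw [Finset.disjoint_insert_right]; tauto
      rw [if_neg h3, if_pos h4]
      split_ifs
      · linarith
      · simp
  · have h4 : ¬ (Disjoint x.1 (insert g F) ∧ Disjoint x.2 A) := by
      rw [Finset.disjoint_insert_right]; tauto
    rw [if_neg h4, if_neg h1, if_neg h1]
    simp

end AF
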