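import Pool.Agent.Lib.MP_991c8b_co.P0

/-!
# P1: the mixed potential lemma (greedy choice)

U = free elements (disjoint from A ∪ F), at least f of them. Forcer can claim B ⊆ U, |B| = f such
that whatever Avoider claims next, the potential after his claim is at most the potential now.

PROOF. r = 1 + 1/(2f). The facts of P0:
(1) pot (insert e A) F ≤ pot A F + (f/4) p e - q e for e ∉ A.
(2) pot A (insert g F) ≤ pot A F - p g + q g / (2 f) for g ∉ F.
(3) for g ∉ F: p_e(A, insert g F) ≤ r p_e(A, F) and q_e(A, insert g F) ≥ q_e(A, F) - p_g(A, F).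
GREEDY: B_0 = ∅; B_(m+1) = insert g B_m, g ∈ U \ B_m maximizing phi(g) = p g / 2 - q g / (2f), where p, q
are taken in the position (A, F ∪ B_m). Let S_m = sum of the numbers p g over the steps so far and
sg_m = sum of r^(-i), i = 1..m. CLAIM by induction on m ≤ |U|: there are B_m ⊆ U with |B_m| = m and
S_m ≥ 0 such that for all e ∈ U \ B_m, with p e, q e in the position (A, F ∪ B_m):
  pot A (F ∪ B_m) ≤ pot A F - sg_m * p e / 2 + (m / (2f)) (q e + S_m) - S_m / 2.      (*)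
Step: by (2) and the maximality pot(new) ≤ pot(old) - p g + q g/(2f) = pot(old) - phi(g) - p g / 2 ≤
pot(old) - p e / 2 + q e / (2f) - p g / 2 (p e, q e in the old position). Insert (*) for pot(old) and use
p_e(old) ≥ p_e(new) / r, so (sg_m + 1) p_e(old) ≥ sg_(m+1) p_e(new), and
q_e(old) ≤ q_e(new) + p g: m (q_e(old) + S_m) + q_e(old) ≤ m (q_e(new) + S_(m+1)) + q_e(new) + p g
≤ (m+1) (q_e(new) + S_(m+1)) with S_(m+1) = S_m + p g.
END: m = f. r^f ≤ exp(1/2) ≤ 5/3, so sg_f ≥ f r^(-f) ≥ (3/5) f and by (*)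
pot A (F ∪ B) ≤ pot A F - (3/10) f p e + q e / 2 + S/2 - S/2. With (1) in the position (A, F ∪ B):
pot (insert e A) (F ∪ B) ≤ pot A F - (3/10) f p e + q e/2 + (f/4) p e - q e ≤ pot A F.
-/

namespace AF

open Finset

variable {E : Type} [DecidableEq E]

/-- `sg (m+1) = (sg m + 1) / r`. -/
private noncomputable def sg (r : ℝ) : ℕ → ℝ
  | 0 => 0
  | m + 1 => (sg r m + 1) / r

private theorem sg_ge {r : ℝ} (hr : 1 ≤ r) (m : ℕ) : (m : ℝ) / r ^ m ≤ sg r m := by
  have hr0 : 0 < r := by linarith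
  induction m with
  | zero => simp [sg]
  | succ m ih =>
    have h1 : (1 : ℝ) ≤ r ^ m := one_le_pow₀ hr
    have h2 : 1 / r ^ m ≤ 1 := by
      rw [div_le_one (by positivity)]
      exact h1
    have h3 : ((m + 1 : ℕ) : ℝ) / r ^ (m + 1) = ((m : ℝ) / r ^ m + 1 / r ^ m) / r := by
      rw [pow_succ]
      push_cast
      field_simp
    rw [h3]
    show _ ≤ (sg r m + 1) / r
    exact div_le_div_of_nonneg_right (by linarith) hr0.le

private theorem r_pow (f : ℕ) (hf : 1 ≤ f) : (1 + 1 / (2 * (f : ℝ))) ^ f ≤ 5 / 3 := by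
  have hf0 : (0 : ℝ) < f := by exact_mod_cast hf
  have h1 : 1 + 1 / (2 * (f : ℝ)) ≤ Real.exp (1 / (2 * (f : ℝ))) := by
    have := Real.add_one_le_exp (1 / (2 * (f : ℝ)))
    linarith
  have h2 : (1 + 1 / (2 * (f : ℝ))) ^ f ≤ Real.exp (1 / 2) := by
    calc (1 + 1 / (2 * (f : ℝ))) ^ f ≤ Real.exp (1 / (2 * (f : ℝ))) ^ f :=
          pow_le_pow_left₀ (by positivity) h1 f
      _ = Real.exp (f * (1 / (2 * (f : ℝ)))) := (Real.exp_nat_mul _ _).symm
      _ = Real.exp (1 / 2) := by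
          congr 1
          field_simp
  have h3 : Real.exp (1 / 2) ≤ 5 / 3 := by
    have h4 : Real.exp (1 / 2) ^ 2 < (5 / 3) ^ 2 := by
      rw [← Real.exp_nat_mul]
      have : ((2 : ℕ) : ℝ) * (1 / 2) = 1 := by norm_num
      rw [this]
      have := Real.exp_one_lt_d9
      norm_num at this ⊢
      linarith
    exact (lt_of_pow_lt_pow_left₀ 2 (by norm_num) h4).le
  exact h2.trans h3

private theorem greedy (f : ℕ) (hf : 1 ≤ f) (𝓑 : Finset (Finset E × Finset E)) (A F U : Finset E)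
    (hU : Disjoint U (A ∪ F)) (m : ℕ) (hm : m ≤ U.card) :
    ∃ B ⊆ U, B.card = m ∧ ∃ S : ℝ, 0 ≤ S ∧ ∀ e ∈ U \ B,
      pot f 𝓑 A (F ∪ B) ≤ pot f 𝓑 A F -
        sg (1 + 1 / (2 * (f : ℝ))) m * pp f 𝓑 A (F ∪ B) e / 2 +
        (m / (2 * (f : ℝ))) * (qq f 𝓑 A (F ∪ B) e + S) - S / 2 := by
  have hf0 : (0 : ℝ) < f := by exact_mod_cast hf
  induction m with
  | zero =>
    refine ⟨∅, Finset.empty_subset _, rfl, 0, le_rfl, fun e _ => ?_⟩
    simp [sg]
  | succ m ih =>
    obtain ⟨B, hBU, hBc, S, hS, hB⟩ := ih (by omega)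
    have hne : (U \ B).Nonempty := by
      rw [Finset.sdiff_nonempty]
      intro h
      have := Finset.card_le_card h
      omega
    obtain ⟨g, hg, hmax⟩ := Finset.exists_max_image (U \ B)
      (fun g => pp f 𝓑 A (F ∪ B) g / 2 - qq f 𝓑 A (F ∪ B) g / (2 * (f : ℝ))) hne
    have hgU : g ∈ U := (Finset.mem_sdiff.1 hg).1
    have hgB : g ∉ B := (Finset.mem_sdiff.1 hg).2
    have hgAF : g ∉ A ∪ F := Finset.disjoint_left.1 hU hgU
    have hgF : g ∉ F ∪ B := by
      rw [Finset.mem_union]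
      rintro (h | h)
      · exact hgAF (Finset.mem_union_right _ h)
      · exact hgB h
    refine ⟨insert g B, Finset.insert_subset hgU hBU, ?_, S + pp f 𝓑 A (F ∪ B) g, ?_, ?_⟩
    · rw [Finset.card_insert_of_notMem hgB, hBc]
    · exact add_nonneg hS (pp_nonneg f 𝓑 A (F ∪ B) g)
    · intro e he
      have heU : e ∈ U := (Finset.mem_sdiff.1 he).1
      have heB' : e ∉ insert g B := (Finset.mem_sdiff.1 he).2
      have heB : e ∉ B := fun h => heB' (Finset.mem_insert_of_mem h)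
      have he2 : e ∈ U \ B := Finset.mem_sdiff.2 ⟨heU, heB⟩
      have h1 := hB e he2
      have h2 := hmax e he2
      have h3 := pot_F f hf 𝓑 A (F ∪ B) g hgF
      have h4 := pp_F f hf 𝓑 A (F ∪ B) g e hgF
      have h5 := qq_F f hf 𝓑 A (F ∪ B) g e hgF
      have h6 : F ∪ insert g B = insert g (F ∪ B) := Finset.union_insert g F B
      rw [h6]
      have hp := pp_nonneg f 𝓑 A (F ∪ B) g
      generalize pot f 𝓑 A (insert g (F ∪ B)) = Xn at *
      generalize pot f 𝓑 A (F ∪ B) = Xo at *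
      generalize pp f 𝓑 A (insert g (F ∪ B)) e = pn at *
      generalize pp f 𝓑 A (F ∪ B) e = po at *
      generalize qq f 𝓑 A (insert g (F ∪ B)) e = qn at *
      generalize qq f 𝓑 A (F ∪ B) e = qo at *
      generalize pp f 𝓑 A (F ∪ B) g = pg at *
      generalize qq f 𝓑 A (F ∪ B) g = qg at *
      have hr0 : (0 : ℝ) < 1 + 1 / (2 * (f : ℝ)) := by positivity
      have hsg : 0 ≤ sg (1 + 1 / (2 * (f : ℝ))) m := by
        have := sg_ge (r := 1 + 1 / (2 * (f : ℝ)))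
          (le_add_of_nonneg_right (by positivity)) m
        exact le_trans (by positivity) this
      show Xn ≤ _ - ((sg (1 + 1 / (2 * (f : ℝ))) m + 1) / (1 + 1 / (2 * (f : ℝ)))) * pn / 2 + _ - _
      generalize sg (1 + 1 / (2 * (f : ℝ))) m = s at *
      have h7 : ((s + 1) / (1 + 1 / (2 * (f : ℝ)))) * pn ≤ (s + 1) * po := by
        rw [div_mul_eq_mul_div, div_le_iff₀ hr0, mul_assoc]
        refine mul_le_mul_of_nonneg_left ?_ (by linarith)
        linarith
      have h8 : (m : ℝ) * (qo + S) + qo ≤ ((m + 1 : ℕ) : ℝ) * (qn + (S + pg)) := by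
        have hm0 : (0 : ℝ) ≤ m := Nat.cast_nonneg m
        push_cast
        nlinarith
      have h9 : (m : ℝ) / (2 * (f : ℝ)) * (qo + S) + qo / (2 * (f : ℝ)) ≤
          ((m + 1 : ℕ) : ℝ) / (2 * (f : ℝ)) * (qn + (S + pg)) := by
        have e1 : (m : ℝ) / (2 * (f : ℝ)) * (qo + S) + qo / (2 * (f : ℝ)) =
            ((m : ℝ) * (qo + S) + qo) / (2 * (f : ℝ)) := by ring
        have e2 : ((m + 1 : ℕ) : ℝ) / (2 * (f : ℝ)) * (qn + (S + pg)) =
            (((m + 1 : ℕ) : ℝ) * (qn + (S + pg))) / (2 * (f : ℝ)) := by ring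
        rw [e1, e2]
        exact div_le_div_of_nonneg_right h8 (by positivity)
      linarith

theorem mixed_step (f : ℕ) (hf : 1 ≤ f) (𝓑 : Finset (Finset E × Finset E)) (A F U : Finset E)
    (hU : Disjoint U (A ∪ F)) (hc : f ≤ U.card) :
    ∃ B ⊆ U, B.card = f ∧ ∀ e ∈ U \ B, pot f 𝓑 (insert e A) (F ∪ B) ≤ pot f 𝓑 A F := by
  have hf0 : (0 : ℝ) < f := by exact_mod_cast hf
  obtain ⟨B, hBU, hBc, S, hS, hB⟩ := greedy f hf 𝓑 A F U hU f hc
  refine ⟨B, hBU, hBc, fun e he => ?_⟩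
  have heA : e ∉ A := fun h =>
    Finset.disjoint_left.1 hU (Finset.mem_sdiff.1 he).1 (Finset.mem_union_left _ h)
  have h1 := hB e he
  have h2 := pot_A f 𝓑 A (F ∪ B) e heA
  have hp := pp_nonneg f 𝓑 A (F ∪ B) e
  have hq := qq_nonneg f 𝓑 A (F ∪ B) e
  have h3 : (3 : ℝ) / 5 * f ≤ sg (1 + 1 / (2 * (f : ℝ))) f := by
    refine le_trans ?_ (sg_ge (le_add_of_nonneg_right (by positivity)) f)
    rw [le_div_iff₀ (by positivity)]
    have := r_pow f hf
    nlinarith
  have h4 : (f : ℝ) / (2 * (f : ℝ)) = 1 / 2 := by field_simp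
  rw [h4] at h1
  nlinarith

end AF
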