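import Pool.Agent.Lib.MP_991c8b_co.P1

/-!
# P2: the mixed board

PROOF. Put W = wt f 𝓑 * (1 + f/4) and J d A F := (for all e ∈ Y \ (A ∪ F):
pot f 𝓑 (insert e A) F ≤ W * 2^d) and pot f 𝓑 A F ≤ 2 * W * 2^d.
FACT 1: pot f 𝓑 A (F ∪ B) ≤ 2 * pot f 𝓑 A F if B.card ≤ f: alive pairs of (A, F ∪ B) are alive in (A, F),
|Q \ (F ∪ B)| ≥ |Q \ F| - |B| and mu f ≤ 1, (1/mu f)^f = (1 + 1/(2f))^f ≤ exp(1/2) ≤ 2.
FACT 2: pot f 𝓑 A (F ∪ B) in the statement (for all e) : the set of free e becomes smaller.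
init: pot (insert e ∅) ∅ ≤ (1 + f/4) wt (the exponent |P \ {e}| is |P| or |P| - 1) and pot ∅ ∅ = wt ≤ W.
move: J d A F, e free. Let A' = insert e A, U = Y \ (A' ∪ F). pot A' F ≤ W 2^d.
 If f ≤ |U|: B from mixed_step; for e' ∈ Y \ (A' ∪ (F ∪ B)) = U \ B: pot (insert e' A') (F ∪ B) ≤ pot A' F ≤ W 2^d;
 pot A' (F ∪ B) ≤ 2 pot A' F by FACT 1. If |U| < f: B = U, nothing is free, FACT 1 again.
dump: any B ⊆ free with |B| = min o |free| (exists_subset_card_eq); FACT 1 for all A, insert e A.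
good: d ≤ K, Y ⊆ A ∪ F. Suppose x ∈ 𝓑, x.1 ⊆ A and Disjoint x.2 A. Then x is alive (x.1 ∩ F ⊆ A ∩ F = ∅),
x.2 ⊆ Y gives x.2 ⊆ F, so val = lam^0 mu^0 = 1 and pot ≥ 1 (all terms ≥ 0). But pot ≤ 2 W 2^d ≤ W 2^(K+1) < 1.
(W ≥ 0.)
-/

namespace AF

open Finset

variable {E : Type} [DecidableEq E]

private theorem P2_lam (f : ℕ) : 0 ≤ lam f ∧ lam f ≤ 1 ∧ (1 + (f : ℝ) / 4) * lam f = 1 := by
  have h : (0 : ℝ) ≤ (f : ℝ) / 4 := by positivity
  have h1 : (0 : ℝ) < 1 + (f : ℝ) / 4 := by linarith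
  unfold lam
  refine ⟨by positivity, ?_, ?_⟩
  · rw [div_le_one h1]
    linarith
  · field_simp

private theorem P2_mu (f : ℕ) : 0 < mu f ∧ mu f ≤ 1 := by
  have h : (0 : ℝ) ≤ 1 / (2 * (f : ℝ)) := by positivity
  have h1 : (0 : ℝ) < 1 + 1 / (2 * (f : ℝ)) := by linarith
  unfold mu
  refine ⟨by positivity, ?_⟩
  rw [div_le_one h1]
  linarith

private theorem P2_muf (f : ℕ) (hf : 1 ≤ f) : 1 ≤ 2 * mu f ^ f := by
  have hf0 : (0 : ℝ) < f := by exact_mod_cast hf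
  have h : (0 : ℝ) ≤ 1 / (2 * (f : ℝ)) := by positivity
  have h1 : (0 : ℝ) < 1 + 1 / (2 * (f : ℝ)) := by linarith
  have h2 : (1 + 1 / (2 * (f : ℝ))) ^ f ≤ 2 := by
    have e1 : 1 + 1 / (2 * (f : ℝ)) ≤ Real.exp (1 / (2 * (f : ℝ))) := by
      have := Real.add_one_le_exp (1 / (2 * (f : ℝ)))
      linarith
    have e2 : (1 + 1 / (2 * (f : ℝ))) ^ f ≤ Real.exp (1 / (2 * (f : ℝ))) ^ f :=
      pow_le_pow_left₀ h1.le e1 f
    have e3 : Real.exp (1 / (2 * (f : ℝ))) ^ f = Real.exp (1 / 2) := by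
      rw [← Real.exp_nat_mul]
      congr 1
      field_simp
    have e4 : Real.exp (1 / 2) ≤ 2 := by
      have h5 : Real.exp (1 / 2) ^ 2 = Real.exp 1 := by
        rw [← Real.exp_nat_mul]
        norm_num
      have h6 := Real.exp_one_lt_d9
      have h7 : 0 < Real.exp (1 / 2) := Real.exp_pos _
      nlinarith
    linarith [e3 ▸ e2]
  unfold mu
  rw [div_pow, one_pow]
  have h3 : 0 < (1 + 1 / (2 * (f : ℝ))) ^ f := by positivity
  rw [mul_one_div, le_div_iff₀ h3]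
  linarith

private theorem P2_mu_step (f : ℕ) (hf : 1 ≤ f) (m n : ℕ) (h : n ≤ m + f) :
    mu f ^ m ≤ 2 * mu f ^ n := by
  obtain ⟨h0, h1⟩ := P2_mu f
  have h2 : mu f ^ (m + f) ≤ mu f ^ n := pow_le_pow_of_le_one h0.le h1 h
  have h3 := P2_muf f hf
  have h4 : 0 < mu f ^ m := pow_pos h0 m
  rw [pow_add] at h2
  nlinarith

private theorem P2_fact1 (f : ℕ) (hf : 1 ≤ f) (𝓑 : Finset (Finset E × Finset E))
    (A F B : Finset E) (hB : B.card ≤ f) : pot f 𝓑 A (F ∪ B) ≤ 2 * pot f 𝓑 A F := by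
  unfold pot
  rw [Finset.mul_sum]
  have hsub : alive 𝓑 A (F ∪ B) ⊆ alive 𝓑 A F := by
    intro x hx
    unfold alive at hx ⊢
    rw [Finset.mem_filter] at hx ⊢
    exact ⟨hx.1, (Finset.disjoint_union_right.mp hx.2.1).1, hx.2.2⟩
  refine le_trans (Finset.sum_le_sum (g := fun x => 2 * val f A F x) fun x _ => ?_)
    (Finset.sum_le_sum_of_subset_of_nonneg hsub fun x _ _ =>
      mul_nonneg (by norm_num) (val_nonneg f A F x))
  unfold val
  have h1 : (x.2 \ F).card ≤ (x.2 \ (F ∪ B)).card + f := by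
    have h2 : x.2 \ F ⊆ (x.2 \ (F ∪ B)) ∪ B := by
      intro y hy
      simp only [Finset.mem_sdiff, Finset.mem_union] at hy ⊢
      tauto
    have h3 := (Finset.card_le_card h2).trans (Finset.card_union_le _ _)
    omega
  have h2 := P2_mu_step f hf _ _ h1
  have h3 : 0 ≤ lam f ^ (x.1 \ A).card := pow_nonneg (P2_lam f).1 _
  nlinarith [mul_le_mul_of_nonneg_left h2 h3]

private theorem P2_start (f : ℕ) (𝓑 : Finset (Finset E × Finset E)) (e : E) :
    pot f 𝓑 (insert e ∅) ∅ ≤ wt f 𝓑 * (1 + (f : ℝ) / 4) := by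
  unfold pot wt
  rw [Finset.sum_mul]
  obtain ⟨l0, l1, l2⟩ := P2_lam f
  obtain ⟨m0, m1⟩ := P2_mu f
  refine le_trans (Finset.sum_le_sum
    (g := fun x => lam f ^ x.1.card * mu f ^ x.2.card * (1 + (f : ℝ) / 4)) fun x _ => ?_)
    (Finset.sum_le_sum_of_subset_of_nonneg (Finset.filter_subset _ _) fun x _ _ => ?_)
  · unfold val
    rw [Finset.sdiff_empty]
    have h1 : x.1.card ≤ (x.1 \ insert e ∅).card + 1 := by
      have h2 : x.1 ⊆ (x.1 \ insert e ∅) ∪ {e} := by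
        intro y hy
        by_cases hye : y = e
        · simp [hye]
        · simp [hye, hy]
      have h3 := (Finset.card_le_card h2).trans (Finset.card_union_le _ _)
      simpa using h3
    have h2 : lam f ^ ((x.1 \ insert e ∅).card + 1) ≤ lam f ^ x.1.card :=
      pow_le_pow_of_le_one l0 l1 h1
    have h3 : 0 ≤ mu f ^ x.2.card := pow_nonneg m0.le _
    have h4 : lam f ^ (x.1 \ insert e ∅).card ≤ (1 + (f : ℝ) / 4) * lam f ^ x.1.card := by
      have h5 : (0 : ℝ) ≤ 1 + (f : ℝ) / 4 := by positivity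
      calc lam f ^ (x.1 \ insert e ∅).card
          = ((1 + (f : ℝ) / 4) * lam f) * lam f ^ (x.1 \ insert e ∅).card := by
            rw [l2, one_mul]
        _ = (1 + (f : ℝ) / 4) * lam f ^ ((x.1 \ insert e ∅).card + 1) := by
            rw [pow_succ]; ring
        _ ≤ _ := mul_le_mul_of_nonneg_left h2 h5
    calc lam f ^ (x.1 \ insert e ∅).card * mu f ^ x.2.card
        ≤ ((1 + (f : ℝ) / 4) * lam f ^ x.1.card) * mu f ^ x.2.card :=
          mul_le_mul_of_nonneg_right h4 h3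
      _ = _ := by ring
  · exact mul_nonneg (mul_nonneg (pow_nonneg l0 _) (pow_nonneg m0.le _)) (by positivity)

private theorem P2_start0 (f : ℕ) (𝓑 : Finset (Finset E × Finset E)) :
    pot f 𝓑 ∅ ∅ = wt f 𝓑 := by
  unfold pot wt alive val
  rw [Finset.filter_true_of_mem]
  · simp
  · intro x _
    exact ⟨Finset.disjoint_empty_right _, Finset.disjoint_empty_right _⟩

omit [DecidableEq E] in
private theorem P2_wt_nonneg (f : ℕ) (𝓑 : Finset (Finset E × Finset E)) : 0 ≤ wt f 𝓑 := by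
  unfold wt
  exact Finset.sum_nonneg fun x _ =>
    mul_nonneg (pow_nonneg (P2_lam f).1 _) (pow_nonneg (P2_mu f).1.le _)

theorem mixed_board (f K : ℕ) (hf : 1 ≤ f) (𝓑 : Finset (Finset E × Finset E)) (Y : Finset E)
    (hQ : ∀ x ∈ 𝓑, x.2 ⊆ Y) (hw : wt f 𝓑 * (1 + (f : ℝ) / 4) * 2 ^ (K + 1) < 1) :
    ∃ J, IsBoard f K Y J (fun A => ∀ x ∈ 𝓑, x.1 ⊆ A → ¬ Disjoint x.2 A) := by
  obtain ⟨W, hW⟩ : ∃ W : ℝ, W = wt f 𝓑 * (1 + (f : ℝ) / 4) := ⟨_, rfl⟩
  have hwt : 0 ≤ wt f 𝓑 := P2_wt_nonneg f 𝓑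
  have hf4 : (0 : ℝ) ≤ (f : ℝ) / 4 := by positivity
  have hWwt : wt f 𝓑 ≤ W := by rw [hW]; nlinarith
  have hW0 : 0 ≤ W := hwt.trans hWwt
  rw [← hW] at hw
  refine ⟨fun d A F => (∀ e ∈ Y \ (A ∪ F), pot f 𝓑 (insert e A) F ≤ W * 2 ^ d) ∧
    pot f 𝓑 A F ≤ 2 * W * 2 ^ d, ⟨?_, ?_, ?_, ?_⟩⟩
  · refine ⟨fun e _ => ?_, ?_⟩
    · rw [pow_zero, mul_one, hW]
      exact P2_start f 𝓑 e
    · rw [pow_zero, mul_one, P2_start0]
      linarith
  · rintro d A F e ⟨hJ1, hJ2⟩ hA hF hAF he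
    have hpot : pot f 𝓑 (insert e A) F ≤ W * 2 ^ d := hJ1 e he
    by_cases hU : f ≤ (Y \ (insert e A ∪ F)).card
    · obtain ⟨B, hBU, hBc, hB⟩ := mixed_step f hf 𝓑 (insert e A) F (Y \ (insert e A ∪ F))
        Finset.sdiff_disjoint hU
      refine ⟨B, hBU, by rw [hBc, min_eq_left hU], fun e' he' => ?_, ?_⟩
      · refine (hB e' ?_).trans hpot
        simp only [Finset.mem_sdiff, Finset.mem_union] at he' ⊢
        tauto
      · have h := P2_fact1 f hf 𝓑 (insert e A) F B hBc.le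
        linarith
    · push Not at hU
      refine ⟨Y \ (insert e A ∪ F), subset_rfl, by rw [min_eq_right hU.le], fun e' he' => ?_, ?_⟩
      · exfalso
        simp only [Finset.mem_sdiff, Finset.mem_union] at he'
        tauto
      · have h := P2_fact1 f hf 𝓑 (insert e A) F (Y \ (insert e A ∪ F)) hU.le
        linarith
  · rintro d A F o hd ho ⟨hJ1, hJ2⟩ hA hF hAF
    obtain ⟨B, hB, hBc⟩ := Finset.exists_subset_card_eq
      (min_le_right o (Y \ (A ∪ F)).card)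
    have hBf : B.card ≤ f := by rw [hBc]; exact (min_le_left _ _).trans ho
    refine ⟨B, hB, hBc, fun e he => ?_, ?_⟩
    · have h := P2_fact1 f hf 𝓑 (insert e A) F B hBf
      have h2 : pot f 𝓑 (insert e A) F ≤ W * 2 ^ d := by
        apply hJ1
        simp only [Finset.mem_sdiff, Finset.mem_union] at he ⊢
        tauto
      rw [pow_succ]
      linarith
    · have h := P2_fact1 f hf 𝓑 A F B hBf
      rw [pow_succ]
      linarith
  · rintro d A F hd ⟨hJ1, hJ2⟩ hA hF hAF hY x hx hxA hdis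
    have hx2F : x.2 ⊆ F := by
      intro y hy
      have h1 := hY (hQ x hx hy)
      rcases Finset.mem_union.mp h1 with h2 | h2
      · exact absurd h2 (Finset.disjoint_left.mp hdis hy)
      · exact h2
    have hal : x ∈ alive 𝓑 A F := by
      unfold alive
      rw [Finset.mem_filter]
      exact ⟨hx, Finset.disjoint_of_subset_left hxA hAF, hdis⟩
    have hval : val f A F x = 1 := by
      unfold val
      rw [Finset.sdiff_eq_empty_iff_subset.mpr hxA, Finset.sdiff_eq_empty_iff_subset.mpr hx2F]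
      simp
    have h1 : val f A F x ≤ pot f 𝓑 A F :=
      Finset.single_le_sum (f := fun x => val f A F x) (fun y _ => val_nonneg f A F y) hal
    have h2 : (2 : ℝ) ^ d ≤ 2 ^ K := pow_le_pow_right₀ (by norm_num) hd
    have h3 : 2 * W * 2 ^ d ≤ W * 2 ^ (K + 1) := by
      rw [pow_succ]
      nlinarith
    rw [hval] at h1
    linarith

end AF
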