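import Pool.Agent.Lib.MP_991c8b_co.QDefs

/-!
# Q1: the level bounds, and the condition for X

Gl_le: induction on l. Gl (l+1) ≤ ((1+K) f + H Gl l)/(f+1) ≤ (1+K) + η Gl l ≤ (1+K) + η (2 (1+K) + η^l m) ≤ 2(1+K) + η^(l+1) m
(η ≤ 1/2; natural division ≤ real division, Nat.cast_div_le).
Gl_pos: (1+K) f ≥ f + 1 if K, f ≥ 1, so the quotient is ≥ 1.
xcond: q = N1 f1 ≥ 1: (1 + 1/q)^q ≥ 2 (one_add_mul_le_pow), so (1+1/q)^(q ml + 1) ≥ 2^ml > 2 n N1 (Nat.lt_pow_succ_log_self).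
-/

namespace AF

theorem Gl_le (m f K H : ℕ) (η : ℝ) (h0 : 0 ≤ η) (h1 : η ≤ 1 / 2) (hH : (H : ℝ) ≤ η * f)
    (l : ℕ) : (Gl m f K H l : ℝ) ≤ 2 * (1 + K) + η ^ l * m := by
  induction l with
  | zero =>
    have h2 : (Gl m f K H 0 : ℝ) = m := rfl
    rw [h2, pow_zero, one_mul]
    have hK : (0 : ℝ) ≤ K := Nat.cast_nonneg K
    linarith
  | succ l ih =>
    have h2 : (Gl m f K H (l + 1) : ℝ) ≤
        (((1 + K) * f + H * Gl m f K H l : ℕ) : ℝ) / ((f + 1 : ℕ) : ℝ) := Nat.cast_div_le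
    refine h2.trans ?_
    push_cast
    have hf : (0 : ℝ) ≤ f := Nat.cast_nonneg f
    have hK : (0 : ℝ) ≤ K := Nat.cast_nonneg K
    obtain ⟨g, hg⟩ : ∃ g : ℝ, g = (Gl m f K H l : ℝ) := ⟨_, rfl⟩
    have hg0 : 0 ≤ g := by
      rw [hg]
      exact Nat.cast_nonneg _
    rw [← hg] at ih ⊢
    rw [div_le_iff₀ (by linarith)]
    have h3 : (H : ℝ) * g ≤ η * f * g := mul_le_mul_of_nonneg_right hH hg0
    have h4 : η * g ≤ η * (2 * (1 + K) + η ^ l * m) := mul_le_mul_of_nonneg_left ih h0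
    have h5 : η * (2 * (1 + K)) ≤ 1 + K := by nlinarith
    have h6 : η * (η ^ l * m) = η ^ (l + 1) * m := by ring
    have h7 : η * g ≤ 1 + K + η ^ (l + 1) * m := by nlinarith
    have h8 : 0 ≤ η ^ (l + 1) * m := by positivity
    have h9 : f * (η * g) ≤ f * (1 + K + η ^ (l + 1) * m) := mul_le_mul_of_nonneg_left h7 hf
    nlinarith

theorem Gl_pos (m f K H l : ℕ) (hf : 1 ≤ f) (hK : 1 ≤ K) : 1 ≤ Gl m f K H (l + 1) := by
  show 0 < ((1 + K) * f + H * Gl m f K H l) / (f + 1)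
  refine Nat.div_pos ?_ (Nat.succ_pos f)
  have h1 : 1 ≤ K * f := Nat.mul_pos hK hf
  have h2 : (1 + K) * f = f + K * f := by ring
  rw [h2]
  exact (Nat.add_le_add_left h1 f).trans (Nat.le_add_right _ _)

theorem xcond (n f N1 s : ℕ) (hN : 1 ≤ N1) (hf : 1 ≤ fj n f s) :
    (2 * n * N1 : ℝ) < (1 + 1 / ((N1 : ℝ) * fj n f s)) ^ (Xj n f N1 s + 1) := by
  unfold Xj
  obtain ⟨q, hq⟩ : ∃ q, q = N1 * fj n f s := ⟨_, rfl⟩
  have hq1 : 1 ≤ q := by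
    rw [hq]
    exact Nat.mul_pos hN hf
  have hq2 : (N1 : ℝ) * fj n f s = q := by
    rw [hq]
    push_cast
    rfl
  rw [← hq, hq2]
  have hq0 : (0 : ℝ) < q := by exact_mod_cast hq1
  have h1 : (2 : ℝ) ≤ (1 + 1 / (q : ℝ)) ^ q := by
    have h2 := one_add_mul_le_pow (a := 1 / (q : ℝ)) (by
      have : (0 : ℝ) < 1 / q := by positivity
      linarith) q
    have h3 : (q : ℝ) * (1 / q) = 1 := by field_simp
    rw [h3] at h2
    linarith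
  have h4 : (1 : ℝ) ≤ 1 + 1 / (q : ℝ) := by
    have : (0 : ℝ) < 1 / q := by positivity
    linarith
  have h5 : ((2 : ℝ)) ^ ml n N1 ≤ (1 + 1 / (q : ℝ)) ^ (q * ml n N1 + 1) := by
    calc ((2 : ℝ)) ^ ml n N1 ≤ ((1 + 1 / (q : ℝ)) ^ q) ^ ml n N1 :=
          pow_le_pow_left₀ (by norm_num) h1 _
      _ = (1 + 1 / (q : ℝ)) ^ (q * ml n N1) := (pow_mul _ _ _).symm
      _ ≤ _ := pow_le_pow_right₀ h4 (Nat.le_succ _)
  refine lt_of_lt_of_le ?_ h5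
  have h6 : 2 * n * N1 < 2 ^ (Nat.log 2 (2 * n * N1) + 1) :=
    Nat.lt_pow_succ_log_self (by norm_num) _
  unfold ml
  exact_mod_cast h6

end AF
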