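import Pool.Agent.Lib.MP_991c8b_co.QDefs
import Pool.Agent.Lib.MP_991c8b_co.N0

/-!
# Q2: the initial weight of the bad configurations is small

PROOF. Fix t, 1 ≤ t ≤ s, u = t/n ≤ s/n ≤ (log n)^(-200), lg = log n. n ≤ 34 f lg.
C(n,t) ≤ (e n/t)^t = (e/u)^t; C(n, F t) ≤ (e n/(F t))^(F t) ≤ (e/u)^(F t) (also if F = 0); C(F t, b1) ≤ (e F t/b1)^b1 ≤ (3 F t)^b1.
1 + fj ≥ √(s/n) f ≥ √u n/(34 lg). So 3 F t/(1 + fj) ≤ 3 F (u n) 34 lg/(√u n) = 102 F lg √u ≤ 102 lg^3 √u ≤ u^(3/8), because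
u^(-1/8) ≥ lg^25 ≥ 102 lg^3 (rpow). e/u ≤ u^(-2). The t-th summand is at most
 (u^(-2))^((F+1) t) * (u^(3/8))^(b1 t), and 3 b1/8 ≥ 3 F + 9, so it is ≤ u^((F+7) t) ≤ u^(7 t) = (t/n)^(7 t).
SUM: for t ≤ √n: t/n ≤ n^(-1/2), (t/n)^(7 t) ≤ n^(-3.5); for t > √n: (t/n)^(7t) ≤ exp(-7 √n). Total ≤ √n n^(-3.5) + n exp(-7 √n) ≤
2/n^3 ≤ 1/(4 (1 + n)) ≤ 1/(4 (1 + fj)) for large n.
-/

namespace AF

open Finset

/-- `(t/n)^t ≤ 1/n`. -/
private theorem pow_self_le {n t : ℕ} (ht : 1 ≤ t) (hn : 2 * t ≤ n) :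
    ((t : ℝ) / n) ^ t ≤ 1 / n := by
  have ht0 : (0 : ℝ) < t := by exact_mod_cast ht
  have hn0 : (0 : ℝ) < n := by
    have : 0 < n := by omega
    exact_mod_cast this
  obtain ⟨r, rfl⟩ : ∃ r, t = r + 1 := ⟨t - 1, by omega⟩
  have h1 : (((r + 1 : ℕ) : ℝ)) ≤ 2 ^ r := by
    have : r + 1 ≤ 2 ^ r := Nat.lt_two_pow_self
    exact_mod_cast this
  have h2 : ((r + 1 : ℕ) : ℝ) / n ≤ 1 / 2 := by
    rw [div_le_div_iff₀ hn0 (by norm_num)]
    have : (2 * (r + 1) : ℕ) ≤ n := hn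
    have h3 : ((2 * (r + 1) : ℕ) : ℝ) ≤ n := by exact_mod_cast this
    push_cast at h3 ⊢
    linarith
  have h3 : (((r + 1 : ℕ) : ℝ) / n) ^ r ≤ (1 / 2) ^ r :=
    pow_le_pow_left₀ (by positivity) h2 r
  have h4 : (1 / 2 : ℝ) ^ r * ((r + 1 : ℕ) : ℝ) ≤ 1 := by
    rw [div_pow, one_pow, div_mul_eq_mul_div, one_mul, div_le_one (by positivity)]
    exact h1
  rw [pow_succ]
  calc (((r + 1 : ℕ) : ℝ) / n) ^ r * (((r + 1 : ℕ) : ℝ) / n)
      ≤ (1 / 2) ^ r * (((r + 1 : ℕ) : ℝ) / n) :=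
        mul_le_mul_of_nonneg_right h3 (by positivity)
    _ = ((1 / 2) ^ r * ((r + 1 : ℕ) : ℝ)) / n := by ring
    _ ≤ 1 / n := div_le_div_of_nonneg_right h4 hn0.le

private theorem term_le {n f s b1 F t : ℕ} (hlg : 8 ≤ Real.log n)
    (hs : (s : ℝ) / n ≤ 1 / Real.log n ^ 200) (hnf : (n : ℝ) ≤ 34 * f * Real.log n)
    (hF : (F : ℝ) ≤ Real.log n ^ 2) (hb : 8 * F + 24 ≤ b1) (ht : 1 ≤ t) (hts : t ≤ s) :
    (n.choose t : ℝ) * (n.choose (F * t) : ℝ) *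
      (((F * t).choose b1 : ℕ) : ℝ) ^ t * (1 / (1 + (fj n f s : ℝ))) ^ (b1 * t) ≤
      (1 / (n : ℝ)) ^ 7 := by
  obtain ⟨L, hL⟩ : ∃ L, L = Real.log n := ⟨_, rfl⟩
  rw [← hL] at hlg hs hnf hF
  have hn0 : (0 : ℝ) < n := by
    rcases Nat.eq_zero_or_pos n with h | h
    · rw [hL, h] at hlg
      simp at hlg
      linarith
    · exact_mod_cast h
  have ht0 : (0 : ℝ) < t := by exact_mod_cast ht
  obtain ⟨u, hu⟩ : ∃ u : ℝ, u = (t : ℝ) / n := ⟨_, rfl⟩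
  have hu0 : 0 < u := by rw [hu]; positivity
  have hus : u ≤ (s : ℝ) / n := by
    rw [hu]
    exact div_le_div_of_nonneg_right (by exact_mod_cast hts) hn0.le
  have huL : u * L ^ 200 ≤ 1 := by
    have := hus.trans hs
    rwa [le_div_iff₀ (by positivity)] at this
  have hL8 : L ≤ L ^ 200 := by
    calc L = L ^ 1 := (pow_one L).symm
      _ ≤ L ^ 200 := pow_le_pow_right₀ (by linarith) (by norm_num)
  have hu8 : u ≤ 1 / 8 := by
    have : u * 8 ≤ 1 := le_trans (mul_le_mul_of_nonneg_left (hlg.trans hL8) hu0.le) huL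
    linarith
  -- v = u^(1/8)
  obtain ⟨v, hv⟩ : ∃ v : ℝ, v = u ^ (1 / 8 : ℝ) := ⟨_, rfl⟩
  have hv0 : 0 < v := by rw [hv]; exact Real.rpow_pos_of_pos hu0 _
  have hv8 : v ^ 8 = u := by
    rw [hv, ← Real.rpow_natCast, ← Real.rpow_mul hu0.le]
    norm_num
  have hv1 : v ≤ 1 := by
    have : v ^ 8 ≤ 1 := by rw [hv8]; linarith
    exact (pow_le_one_iff_of_nonneg hv0.le (by norm_num)).1 this
  have hvL : L ^ 25 * v ≤ 1 := by
    have : (L ^ 25 * v) ^ 8 ≤ 1 := by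
      rw [mul_pow, hv8, ← pow_mul]
      show L ^ 200 * u ≤ 1
      linarith
    exact (pow_le_one_iff_of_nonneg (by positivity) (by norm_num)).1 this
  have h34 : 34 * L ^ 3 * v ≤ 1 := by
    refine le_trans (mul_le_mul_of_nonneg_right ?_ hv0.le) hvL
    calc 34 * L ^ 3 ≤ L ^ 2 * L ^ 3 :=
          mul_le_mul_of_nonneg_right (by nlinarith) (by positivity)
      _ = L ^ 5 := by ring
      _ ≤ L ^ 25 := pow_le_pow_right₀ (by linarith) (by norm_num)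
  -- control claims
  have hfj : v ^ 4 * f ≤ (fj n f s : ℝ) := by
    have h1 : v ^ 4 ≤ Real.sqrt ((s : ℝ) / n) := by
      apply Real.le_sqrt_of_sq_le
      rw [← pow_mul]
      show v ^ 8 ≤ _
      rw [hv8]
      exact hus
    calc v ^ 4 * (f : ℝ) ≤ Real.sqrt ((s : ℝ) / n) * f :=
          mul_le_mul_of_nonneg_right h1 (Nat.cast_nonneg f)
      _ ≤ (fj n f s : ℝ) := Nat.le_ceil _
  have hFt : (F : ℝ) * t / (1 + (fj n f s : ℝ)) ≤ v ^ 3 := by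
    rw [div_le_iff₀ (by positivity)]
    have e1 : (t : ℝ) = v ^ 8 * n := by
      rw [hv8, hu]
      field_simp
    calc (F : ℝ) * t = F * (v ^ 8 * n) := by rw [← e1]
      _ ≤ L ^ 2 * (v ^ 8 * (34 * f * L)) := by
          refine mul_le_mul hF ?_ (by positivity) (by positivity)
          exact mul_le_mul_of_nonneg_left hnf (by positivity)
      _ = (34 * L ^ 3 * v) * (v ^ 3 * (v ^ 4 * f)) := by ring
      _ ≤ 1 * (v ^ 3 * (v ^ 4 * f)) :=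
          mul_le_mul_of_nonneg_right h34 (by positivity)
      _ ≤ v ^ 3 * (1 + (fj n f s : ℝ)) := by
          rw [one_mul]
          refine mul_le_mul_of_nonneg_left ?_ (by positivity)
          linarith
  -- binomials
  have hee : Real.exp 1 * u ≤ 1 := by
    have := Real.exp_one_lt_d9
    nlinarith
  have hc1 : Real.exp 1 * n / t ≤ (u⁻¹) ^ 2 := by
    have e1 : Real.exp 1 * n / t = Real.exp 1 * u⁻¹ := by
      rw [hu]
      field_simp
    rw [e1, pow_two]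
    refine mul_le_mul_of_nonneg_right ?_ (by positivity)
    rw [← one_div, le_div_iff₀ hu0]
    exact hee
  have ha : (n.choose t : ℝ) ≤ ((u⁻¹) ^ 2) ^ t :=
    (choose_le_exp n t ht).trans (pow_le_pow_left₀ (by positivity) hc1 t)
  have hb' : (n.choose (F * t) : ℝ) ≤ ((u⁻¹) ^ 2) ^ (F * t) := by
    rcases Nat.eq_zero_or_pos F with h | h
    · rw [h, zero_mul]
      simp
    · refine (choose_le_exp n (F * t) (Nat.mul_pos h ht)).trans
        (pow_le_pow_left₀ (by positivity) (le_trans ?_ hc1) _)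
      refine div_le_div_of_nonneg_left (by positivity) ht0 ?_
      have : t ≤ F * t := Nat.le_mul_of_pos_left t h
      exact_mod_cast this
  have hc : (((F * t).choose b1 : ℕ) : ℝ) ≤ ((F : ℝ) * t) ^ b1 := by
    have := Nat.choose_le_pow (F * t) b1
    have h2 : (((F * t).choose b1 : ℕ) : ℝ) ≤ (((F * t) ^ b1 : ℕ) : ℝ) := by exact_mod_cast this
    push_cast at h2
    exact h2
  have hd : (((F * t).choose b1 : ℕ) : ℝ) ^ t * (1 / (1 + (fj n f s : ℝ))) ^ (b1 * t) ≤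
      u ^ ((3 * F + 9) * t) := by
    calc (((F * t).choose b1 : ℕ) : ℝ) ^ t * (1 / (1 + (fj n f s : ℝ))) ^ (b1 * t)
        ≤ (((F : ℝ) * t) ^ b1) ^ t * (1 / (1 + (fj n f s : ℝ))) ^ (b1 * t) := by
          refine mul_le_mul_of_nonneg_right ?_ (by positivity)
          exact pow_le_pow_left₀ (by positivity) hc t
      _ = ((F : ℝ) * t / (1 + (fj n f s : ℝ))) ^ (b1 * t) := by
          rw [← pow_mul, ← mul_pow, mul_one_div]
      _ ≤ (v ^ 3) ^ (b1 * t) := pow_le_pow_left₀ (by positivity) hFt _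
      _ ≤ (v ^ 3) ^ ((8 * F + 24) * t) := by
          refine pow_le_pow_of_le_one (by positivity) (pow_le_one₀ hv0.le hv1) ?_
          exact Nat.mul_le_mul_right t hb
      _ = u ^ ((3 * F + 9) * t) := by
          rw [← hv8, ← pow_mul, ← pow_mul]
          congr 1
          ring
  have hfin : ((u⁻¹) ^ 2) ^ t * ((u⁻¹) ^ 2) ^ (F * t) * u ^ ((3 * F + 9) * t) =
      u ^ ((F + 7) * t) := by
    have e1 : (3 * F + 9) * t = (F + 7) * t + (2 * t + 2 * (F * t)) := by ring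
    rw [e1, pow_add, pow_add, pow_mul u 2 t, pow_mul u 2 (F * t)]
    have e2 : ((u⁻¹) ^ 2) ^ t * (u ^ 2) ^ t = 1 := by
      rw [← mul_pow, ← mul_pow, inv_mul_cancel₀ hu0.ne', one_pow, one_pow]
    have e3 : ((u⁻¹) ^ 2) ^ (F * t) * (u ^ 2) ^ (F * t) = 1 := by
      rw [← mul_pow, ← mul_pow, inv_mul_cancel₀ hu0.ne', one_pow, one_pow]
    calc ((u⁻¹) ^ 2) ^ t * ((u⁻¹) ^ 2) ^ (F * t) *
          (u ^ ((F + 7) * t) * ((u ^ 2) ^ t * (u ^ 2) ^ (F * t)))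
        = (((u⁻¹) ^ 2) ^ t * (u ^ 2) ^ t) * (((u⁻¹) ^ 2) ^ (F * t) * (u ^ 2) ^ (F * t)) *
          u ^ ((F + 7) * t) := by ring
      _ = u ^ ((F + 7) * t) := by rw [e2, e3]; ring
  have h2t : 2 * t ≤ n := by
    have h1 : (t : ℝ) = u * n := by
      rw [hu]
      field_simp
    have h2 : (2 : ℝ) * t ≤ n := by
      rw [h1]
      nlinarith
    exact_mod_cast h2
  calc (n.choose t : ℝ) * (n.choose (F * t) : ℝ) *
      (((F * t).choose b1 : ℕ) : ℝ) ^ t * (1 / (1 + (fj n f s : ℝ))) ^ (b1 * t)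
      = ((n.choose t : ℝ) * (n.choose (F * t) : ℝ)) *
        ((((F * t).choose b1 : ℕ) : ℝ) ^ t * (1 / (1 + (fj n f s : ℝ))) ^ (b1 * t)) := by ring
    _ ≤ (((u⁻¹) ^ 2) ^ t * ((u⁻¹) ^ 2) ^ (F * t)) * u ^ ((3 * F + 9) * t) := by
        refine mul_le_mul (mul_le_mul ha hb' (by positivity) (by positivity)) hd
          (by positivity) (by positivity)
    _ = u ^ ((F + 7) * t) := hfin
    _ ≤ u ^ (t * 7) := by
        refine pow_le_pow_of_le_one hu0.le (by linarith) ?_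
        nlinarith
    _ = (u ^ t) ^ 7 := pow_mul u t 7
    _ ≤ (1 / (n : ℝ)) ^ 7 := by
        refine pow_le_pow_left₀ (by positivity) ?_ 7
        rw [hu]
        exact pow_self_le ht h2t

theorem phi0 : ∃ N : ℕ, ∀ n : ℕ, N ≤ n → ∀ f s b1 F : ℕ, 1 ≤ s →
    (s : ℝ) / n ≤ 1 / Real.log n ^ 200 → (n : ℝ) ≤ 34 * f * Real.log n →
    (F : ℝ) ≤ Real.log n ^ 2 → 8 * F + 24 ≤ b1 → fj n f s ≤ n →
    ∑ t ∈ Finset.Icc 1 s, (n.choose t : ℝ) * (n.choose (F * t) : ℝ) *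
      (((F * t).choose b1 : ℕ) : ℝ) ^ t * (1 / (1 + (fj n f s : ℝ))) ^ (b1 * t) ≤
      1 / (4 * (1 + (fj n f s : ℝ))) := by
  refine ⟨⌈Real.exp 8⌉₊ + 2, fun n hn f s b1 F hs1 hs hnf hF hb hfn => ?_⟩
  have hn8 : Real.exp 8 ≤ n := by
    have h1 := Nat.le_ceil (Real.exp 8)
    have h2 : ((⌈Real.exp 8⌉₊ : ℕ) : ℝ) ≤ n := by
      have : ⌈Real.exp 8⌉₊ ≤ n := by omega
      exact_mod_cast this
    linarith
  have hn0 : (0 : ℝ) < n := (Real.exp_pos 8).trans_le hn8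
  have hlg : 8 ≤ Real.log n := by
    rw [Real.le_log_iff_exp_le hn0]
    exact hn8
  have hn2 : (2 : ℝ) ≤ n := by
    have : 2 ≤ n := by omega
    exact_mod_cast this
  have hsn : (s : ℝ) ≤ n := by
    have h1 : (1 : ℝ) ≤ Real.log n ^ 200 := one_le_pow₀ (by linarith)
    have h2 : (s : ℝ) / n ≤ 1 := hs.trans (by rw [div_le_one (by positivity)]; exact h1)
    rwa [div_le_one hn0] at h2
  have h1 : ∑ t ∈ Finset.Icc 1 s, (n.choose t : ℝ) * (n.choose (F * t) : ℝ) *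
      (((F * t).choose b1 : ℕ) : ℝ) ^ t * (1 / (1 + (fj n f s : ℝ))) ^ (b1 * t) ≤
      ∑ _t ∈ Finset.Icc 1 s, (1 / (n : ℝ)) ^ 7 := by
    refine Finset.sum_le_sum fun t ht => ?_
    have h2 := Finset.mem_Icc.1 ht
    exact term_le hlg hs hnf hF hb h2.1 h2.2
  refine h1.trans ?_
  rw [Finset.sum_const, Nat.card_Icc, Nat.add_sub_cancel, nsmul_eq_mul]
  have h2 : (s : ℝ) * (1 / (n : ℝ)) ^ 7 ≤ 1 / (n : ℝ) ^ 6 := by
    calc (s : ℝ) * (1 / (n : ℝ)) ^ 7 ≤ n * (1 / (n : ℝ)) ^ 7 :=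
          mul_le_mul_of_nonneg_right hsn (by positivity)
      _ = 1 / (n : ℝ) ^ 6 := by field_simp
  refine h2.trans ?_
  have hfn' : (fj n f s : ℝ) ≤ n := by exact_mod_cast hfn
  refine one_div_le_one_div_of_le (by positivity) ?_
  have h3 : (32 : ℝ) * n ≤ (n : ℝ) ^ 6 := by
    calc (32 : ℝ) * n = 2 ^ 5 * n := by norm_num
      _ ≤ (n : ℝ) ^ 5 * n :=
          mul_le_mul_of_nonneg_right (pow_le_pow_left₀ (by norm_num) hn2 5) hn0.le
      _ = (n : ℝ) ^ 6 := by ring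
  linarith

end AF
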