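import Pool.Agent.Lib.MP_991c8b_co.Q1

/-!
# Q3: the sequence of the numbers of dangerous rows

lg = log n, u_j = sq j/n, s = sq j, H_j = fj * N1 * (1 + ml).
ONE STEP (s ≥ 1, u = s/n ≤ lg^(-200)): √u f ≥ √(1/n) n/(34 lg) = √n/(34 lg) ≥ 1, so fj ≤ √u f + 1 ≤ 2 √u f, fj ≥ 1, 2 fj ≤ 4 √u f ≤ f.
ml ≤ log_2 (2 n N1) + 1 ≤ 2 lg (N1 ≤ 35 lg, large n), so H ≤ 2 √u f * 35 lg * (1 + 2 lg) ≤ 210 lg^2 √u f ≤ u^(1/4) f, because
u^(-1/4) ≥ lg^50. In particular H ≤ f (u^(1/4) ≤ 1/2). Gl_le with η = u^(1/4): sq (j+1) ≤ 2(1+K) + u^6 n, so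
u_(j+1) ≤ u_j^6 + 2 (1+K)/n, 1 + K ≤ lg. Gl_pos: sq (j+1) ≥ 1.
CLAIM u_(j+1) ≤ max (u_j^3) (n^(-1/2)): if u_j^3 ≥ n^(-1/2): u_j^6 ≤ u_j^3/2 and 2 lg/n ≤ n^(-1/2)/2 ≤ u_j^3/2. Otherwise
u_j^6 < 1/n, sum ≤ 1/n + 2 lg/n ≤ n^(-1/2).
INDUCTION: 1 ≤ sq j and u_j ≤ max (u_0^(3^j)) (n^(-1/2)) ≤ lg^(-200) (u_0 ≤ lg^(-200) ≤ 1, n^(-1/2) ≤ lg^(-200) for large n).
LAST: u_0 ≤ exp(-1), 3^(k-1) ≥ lg, so u_0^(3^(k-1)) ≤ 1/n and u_(k-1) ≤ n^(-1/2); sq k ≤ 2(1+K) + n^(-3) n < 2 K + 3.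
-/

namespace AF

private theorem Q3_ml {n N1 : ℕ} (hn : 0 < n) (hN1 : 1 ≤ N1) (h100 : 100 ≤ Real.log n)
    (h400 : Real.log n ^ 400 ≤ n) (hN : (N1 : ℝ) ≤ 35 * Real.log n) :
    (ml n N1 : ℝ) ≤ 2 * Real.log n := by
  have hn0 : (0 : ℝ) < n := by exact_mod_cast hn
  set L := Real.log n with hL
  have hL0 : 0 < L := by linarith
  have hne : 2 * n * N1 ≠ 0 := by positivity
  have h1 : 2 ^ (Nat.log 2 (2 * n * N1)) ≤ 2 * n * N1 := Nat.pow_log_le_self 2 hne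
  have h2 : ((2 : ℝ) ^ (Nat.log 2 (2 * n * N1))) ≤ 2 * n * N1 := by exact_mod_cast h1
  have h3 : (2 : ℝ) * n * N1 ≤ n * (L * L) := by
    have : (2 : ℝ) * n * N1 ≤ 2 * n * (35 * L) := mul_le_mul_of_nonneg_left hN (by positivity)
    refine this.trans ?_
    have h4 : 70 * L ≤ L * L := by nlinarith
    calc (2 : ℝ) * n * (35 * L) = n * (70 * L) := by ring
      _ ≤ n * (L * L) := mul_le_mul_of_nonneg_left h4 hn0.le
  have h5 : (Nat.log 2 (2 * n * N1) : ℝ) * Real.log 2 ≤ L + 2 * Real.log L := by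
    have h6 := Real.log_le_log (by positivity) (h2.trans h3)
    rw [Real.log_pow, Real.log_mul hn0.ne' (by positivity), Real.log_mul hL0.ne' hL0.ne',
      ← hL] at h6
    linarith
  have h7 : 12 * Real.log L ≤ L := by
    have h8 : L ^ 12 ≤ (n : ℝ) := by
      refine le_trans ?_ h400
      exact pow_le_pow_right₀ (by linarith) (by norm_num)
    have h9 := Real.log_le_log (by positivity) h8
    rw [Real.log_pow, ← hL] at h9
    push_cast at h9
    linarith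
  have h10 : (0.6931471803 : ℝ) < Real.log 2 := Real.log_two_gt_d9
  have h11 : (0 : ℝ) ≤ (Nat.log 2 (2 * n * N1) : ℝ) := by positivity
  unfold ml
  push_cast
  nlinarith

private theorem Q3_step {n f K N1 s : ℕ} (hn : 0 < n) (h100 : 100 ≤ Real.log n)
    (h400 : Real.log n ^ 400 ≤ n) (hf : 1 ≤ f) (hK : 1 ≤ K) (hs : 1 ≤ s)
    (hu : (s : ℝ) / n ≤ 1 / Real.log n ^ 200) (hnf : (n : ℝ) ≤ 34 * f * Real.log n)
    (hN1 : 1 ≤ N1) (hN : (N1 : ℝ) ≤ 35 * Real.log n) :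
    (1 ≤ fj n f s ∧ 2 * fj n f s ≤ f ∧ Hj n f N1 s ≤ f) ∧
      1 ≤ Gl n f K (Hj n f N1 s) 24 ∧
      (Gl n f K (Hj n f N1 s) 24 : ℝ) ≤ 2 * (1 + K) + ((s : ℝ) / n) ^ 6 * n := by
  have hn0 : (0 : ℝ) < n := by exact_mod_cast hn
  have hs0 : (1 : ℝ) ≤ s := by exact_mod_cast hs
  have hf0 : (0 : ℝ) < f := by exact_mod_cast hf
  have hml := Q3_ml hn hN1 h100 h400 hN
  set L := Real.log n with hL
  have hL0 : 0 < L := by linarith
  set u := (s : ℝ) / n with hudef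
  have hu0 : 0 < u := by positivity
  set v := Real.sqrt (Real.sqrt u) with hv
  have hv0 : 0 < v := Real.sqrt_pos.2 (Real.sqrt_pos.2 hu0)
  have hv2 : v ^ 2 = Real.sqrt u := Real.sq_sqrt (Real.sqrt_nonneg u)
  have hsq2 : Real.sqrt u ^ 2 = u := Real.sq_sqrt hu0.le
  have hv4 : v ^ 4 = u := by
    rw [show v ^ 4 = (v ^ 2) ^ 2 by ring, hv2, hsq2]
  have hvL : v ≤ 1 / L ^ 50 := by
    have h1 : v ^ 4 ≤ (1 / L ^ 50) ^ 4 := by
      rw [hv4]
      refine hu.trans (le_of_eq ?_)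
      rw [div_pow, one_pow, ← pow_mul]
    exact le_of_pow_le_pow_left₀ (by norm_num) (by positivity) h1
  have hvL2 : v * L ^ 50 ≤ 1 := by
    rw [le_div_iff₀ (by positivity)] at hvL
    exact hvL
  -- 210 L^2 v ≤ 1 and v ≤ 1/4
  have hL48 : 210 ≤ L ^ 48 := by
    have : (210 : ℝ) ≤ 100 ^ 48 := by norm_num
    exact this.trans (pow_le_pow_left₀ (by norm_num) h100 48)
  have hv210 : 210 * L ^ 2 * v ≤ 1 := by
    have h1 : 210 * L ^ 2 * v ≤ L ^ 48 * L ^ 2 * v := by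
      apply mul_le_mul_of_nonneg_right _ hv0.le
      exact mul_le_mul_of_nonneg_right hL48 (by positivity)
    refine h1.trans ?_
    calc L ^ 48 * L ^ 2 * v = v * L ^ 50 := by ring
      _ ≤ 1 := hvL2
  have hv4' : v ≤ 1 / 4 := by
    have h1 : (1 : ℝ) ≤ L ^ 2 := one_le_pow₀ (by linarith)
    have h2 : 210 * 1 * v ≤ 210 * L ^ 2 * v :=
      mul_le_mul_of_nonneg_right (mul_le_mul_of_nonneg_left h1 (by norm_num)) hv0.le
    linarith
  have hsqu : Real.sqrt u ≤ 1 / 4 := by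
    rw [← hv2]
    nlinarith
  -- the value of fj
  have hfu : 1 ≤ Real.sqrt u * f := by
    have hR : Real.sqrt n ^ 2 = n := Real.sq_sqrt hn0.le
    have hR0 : 0 < Real.sqrt n := Real.sqrt_pos.2 hn0
    have hRL : 34 * L ≤ Real.sqrt n := by
      have h1 : (L ^ 200) ^ 2 ≤ Real.sqrt n ^ 2 := by
        rw [hR, ← pow_mul]
        exact h400
      have h2 : L ^ 200 ≤ Real.sqrt n := le_of_pow_le_pow_left₀ (by norm_num) hR0.le h1
      have h3 : L ^ 2 ≤ L ^ 200 := pow_le_pow_right₀ (by linarith) (by norm_num)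
      nlinarith
    have h4 : 1 / Real.sqrt n ≤ Real.sqrt u := by
      have h5 : Real.sqrt (1 / n) ≤ Real.sqrt u := by
        apply Real.sqrt_le_sqrt
        rw [hudef]
        exact div_le_div_of_nonneg_right hs0 hn0.le
      rwa [Real.sqrt_div (by norm_num), Real.sqrt_one] at h5
    have h6 : 1 ≤ 1 / Real.sqrt n * f := by
      rw [one_div_mul_eq_div, le_div_iff₀ hR0, one_mul]
      by_contra hcon
      push Not at hcon
      have h7 : (n : ℝ) < Real.sqrt n * Real.sqrt n := by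
        calc (n : ℝ) ≤ 34 * f * L := hnf
          _ = f * (34 * L) := by ring
          _ ≤ f * Real.sqrt n := mul_le_mul_of_nonneg_left hRL hf0.le
          _ < Real.sqrt n * Real.sqrt n := mul_lt_mul_of_pos_right hcon hR0
      rw [Real.mul_self_sqrt hn0.le] at h7
      exact lt_irrefl _ h7
    exact h6.trans (mul_le_mul_of_nonneg_right h4 hf0.le)
  have hfj1 : 1 ≤ fj n f s := by
    unfold fj
    rw [Nat.one_le_ceil_iff]
    linarith
  have hfj2 : (fj n f s : ℝ) ≤ 2 * (Real.sqrt u * f) := by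
    have h1 : (fj n f s : ℝ) < Real.sqrt u * f + 1 := by
      unfold fj
      exact Nat.ceil_lt_add_one (by positivity)
    linarith
  have hfj0 : (0 : ℝ) ≤ fj n f s := by positivity
  have h2fj : 2 * fj n f s ≤ f := by
    have h1 : (2 : ℝ) * fj n f s ≤ f := by nlinarith
    exact_mod_cast h1
  have hH : (Hj n f N1 s : ℝ) ≤ v * f := by
    unfold Hj Xj
    push_cast
    have h1 : (fj n f s : ℝ) * N1 + N1 * fj n f s * ml n N1 =
        fj n f s * (N1 * (1 + ml n N1)) := by ring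
    rw [h1]
    have h2 : (N1 : ℝ) * (1 + ml n N1) ≤ 105 * L ^ 2 := by
      have h3 : (1 : ℝ) + ml n N1 ≤ 3 * L := by linarith
      calc (N1 : ℝ) * (1 + ml n N1) ≤ 35 * L * (3 * L) :=
            mul_le_mul hN h3 (by positivity) (by positivity)
        _ = 105 * L ^ 2 := by ring
    calc (fj n f s : ℝ) * (N1 * (1 + ml n N1)) ≤ 2 * (Real.sqrt u * f) * (105 * L ^ 2) :=
          mul_le_mul hfj2 h2 (by positivity) (by positivity)
      _ = (210 * L ^ 2 * v) * (v * f) := by rw [← hv2]; ring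
      _ ≤ 1 * (v * f) := mul_le_mul_of_nonneg_right hv210 (by positivity)
      _ = v * f := one_mul _
  have hHf : Hj n f N1 s ≤ f := by
    have h1 : (Hj n f N1 s : ℝ) ≤ f := by nlinarith
    exact_mod_cast h1
  refine ⟨⟨hfj1, h2fj, hHf⟩, Gl_pos n f K _ 23 hf hK, ?_⟩
  have h1 := Gl_le n f K (Hj n f N1 s) v hv0.le (by linarith) hH 24
  have h2 : v ^ 24 = u ^ 6 := by
    rw [← hv4]
    ring
  rw [h2] at h1
  exact h1

private theorem Q3_event : ∃ N : ℕ, ∀ n : ℕ, N ≤ n → 0 < n ∧ 100 ≤ Real.log n ∧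
    Real.log n ^ 400 ≤ n := by
  have h1 : Filter.Tendsto (fun n : ℕ => Real.log (n : ℝ)) Filter.atTop Filter.atTop :=
    Real.tendsto_log_atTop.comp tendsto_natCast_atTop_atTop
  have h2 := Real.tendsto_exp_div_pow_atTop 400
  have h3 := (h2.comp h1).eventually_ge_atTop 1
  have h4 := h1.eventually_ge_atTop 100
  have h5 := Filter.eventually_gt_atTop (0 : ℕ)
  obtain ⟨N, hN⟩ := Filter.eventually_atTop.1 ((h3.and h4).and h5)
  refine ⟨N, fun n hn => ?_⟩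
  obtain ⟨⟨h6, h7⟩, h8⟩ := hN n hn
  have hn0 : (0 : ℝ) < n := by exact_mod_cast h8
  refine ⟨h8, h7, ?_⟩
  simp only [Function.comp] at h6
  rw [Real.exp_log hn0, le_div_iff₀ (by positivity), one_mul] at h6
  exact h6

theorem seq_ok : ∃ N : ℕ, ∀ n : ℕ, N ≤ n → ∀ f K N1 s0 k : ℕ, 1 ≤ f → 1 ≤ K → 1 ≤ k → 1 ≤ s0 →
    (s0 : ℝ) / n ≤ 1 / Real.log n ^ 200 → (n : ℝ) ≤ 34 * f * Real.log n → f ≤ n →
    1 ≤ N1 → (N1 : ℝ) ≤ 35 * Real.log n → (K : ℝ) + 1 ≤ Real.log n →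
    Real.log n ≤ 3 ^ (k - 1) →
    (∀ j, j < k → 1 ≤ sq n f K N1 s0 j ∧
      (sq n f K N1 s0 j : ℝ) / n ≤ 1 / Real.log n ^ 200 ∧
      1 ≤ fj n f (sq n f K N1 s0 j) ∧ 2 * fj n f (sq n f K N1 s0 j) ≤ f ∧
      Hj n f N1 (sq n f K N1 s0 j) ≤ f) ∧
    sq n f K N1 s0 k ≤ 2 * K + 3 := by
  obtain ⟨N, hN⟩ := Q3_event
  refine ⟨N, fun n hn f K N1 s0 k hf hK hk hs0 hu hnf _ hN1 hN1L hKL hk3 => ?_⟩
  obtain ⟨hn1, h100, h400⟩ := hN n hn
  have hn0 : (0 : ℝ) < n := by exact_mod_cast hn1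
  have hL0 : 0 < Real.log n := by linarith
  set R := Real.sqrt n with hR
  have hR2 : R ^ 2 = n := Real.sq_sqrt hn0.le
  have hR0 : 0 < R := Real.sqrt_pos.2 hn0
  have hRL : Real.log n ^ 200 ≤ R := by
    have h1 : (Real.log n ^ 200) ^ 2 ≤ R ^ 2 := by
      rw [hR2, ← pow_mul]
      exact h400
    exact le_of_pow_le_pow_left₀ (by norm_num) hR0.le h1
  have hRL2 : 4 * Real.log n + 1 ≤ R := by
    have h3 : Real.log n ^ 2 ≤ Real.log n ^ 200 := pow_le_pow_right₀ (by linarith) (by norm_num)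
    nlinarith
  set r := 1 / R with hr
  have hr0 : 0 < r := by positivity
  have hrR : r * R = 1 := by rw [hr]; field_simp
  have hr1 : r ≤ 1 := by
    rw [hr, div_le_one hR0]
    nlinarith
  have hrn : 1 / (n : ℝ) = r ^ 2 := by
    rw [hr, div_pow, hR2, one_pow]
  have hr200 : r ≤ 1 / Real.log n ^ 200 := one_div_le_one_div_of_le (by positivity) hRL
  have hrL : r * (4 * Real.log n + 1) ≤ 1 := by
    calc r * (4 * Real.log n + 1) ≤ r * R := mul_le_mul_of_nonneg_left hRL2 hr0.le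
      _ = 1 := hrR
  -- one step
  set u : ℕ → ℝ := fun j => (sq n f K N1 s0 j : ℝ) / n with hudef
  have hu0 : ∀ j, 0 ≤ u j := fun j => by
    rw [hudef]
    positivity
  have hhalf : 1 / Real.log n ^ 200 ≤ 1 / 4 := by
    apply one_div_le_one_div_of_le (by norm_num)
    have h1 : (4 : ℝ) ≤ 100 ^ 200 := by norm_num
    exact h1.trans (pow_le_pow_left₀ (by norm_num) h100 200)
  have hstep : ∀ j, 1 ≤ sq n f K N1 s0 j → u j ≤ 1 / Real.log n ^ 200 →
      1 ≤ sq n f K N1 s0 (j + 1) ∧ u (j + 1) ≤ u j ^ 6 + 2 * Real.log n * r ^ 2 := by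
    intro j h1 h2
    obtain ⟨-, h3, h4⟩ := Q3_step hn1 h100 h400 hf hK h1 h2 hnf hN1 hN1L (K := K)
    refine ⟨h3, ?_⟩
    have h5 : (sq n f K N1 s0 (j + 1) : ℝ) ≤ 2 * (1 + K) + u j ^ 6 * n := h4
    show (sq n f K N1 s0 (j + 1) : ℝ) / n ≤ _
    rw [div_le_iff₀ hn0]
    have h6 : r ^ 2 * n = 1 := by
      rw [← hrn]
      field_simp
    calc (sq n f K N1 s0 (j + 1) : ℝ) ≤ 2 * (1 + K) + u j ^ 6 * n := h5
      _ ≤ 2 * Real.log n + u j ^ 6 * n := by linarith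
      _ = (u j ^ 6 + 2 * Real.log n * r ^ 2) * n := by
        rw [add_mul, mul_assoc (2 * Real.log n), h6]
        ring
  have hmax : ∀ j, 1 ≤ sq n f K N1 s0 j → u j ≤ 1 / Real.log n ^ 200 →
      u (j + 1) ≤ max (u j ^ 3) r := by
    intro j h1 h2
    obtain ⟨-, h3⟩ := hstep j h1 h2
    have h4 := hu0 j
    have h5 : u j ^ 3 ≤ 1 / 4 := by
      have : u j ≤ 1 / 4 := h2.trans hhalf
      calc u j ^ 3 ≤ (1 / 4) ^ 3 := pow_le_pow_left₀ h4 this 3
        _ ≤ 1 / 4 := by norm_num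
    have h6 : 0 ≤ u j ^ 3 := by positivity
    have h7 : u j ^ 6 = u j ^ 3 * u j ^ 3 := by ring
    have h8 : 2 * Real.log n * r ^ 2 ≤ r / 2 := by nlinarith
    by_cases hc : r ≤ u j ^ 3
    · apply le_max_of_le_left
      rw [h7] at h3
      nlinarith
    · apply le_max_of_le_right
      push Not at hc
      have h9 : u j ^ 3 * u j ^ 3 ≤ r * r := mul_le_mul hc.le hc.le h6 hr0.le
      rw [h7] at h3
      nlinarith
  have hinv : ∀ j, 1 ≤ sq n f K N1 s0 j ∧ u j ≤ max (u 0 ^ (3 ^ j)) r ∧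
      u j ≤ 1 / Real.log n ^ 200 := by
    intro j
    induction j with
    | zero =>
      refine ⟨hs0, ?_, hu⟩
      simp
    | succ j ih =>
      obtain ⟨h1, h2, h3⟩ := ih
      have h4 := hmax j h1 h3
      have h5 : u (j + 1) ≤ max (u 0 ^ (3 ^ (j + 1))) r := by
        refine h4.trans (max_le ?_ (le_max_right _ _))
        rcases le_max_iff.1 h2 with h6 | h6
        · apply le_max_of_le_left
          calc u j ^ 3 ≤ (u 0 ^ (3 ^ j)) ^ 3 := pow_le_pow_left₀ (hu0 j) h6 3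
            _ = u 0 ^ (3 ^ (j + 1)) := by rw [← pow_mul, ← pow_succ]
        · apply le_max_of_le_right
          calc u j ^ 3 ≤ r ^ 3 := pow_le_pow_left₀ (hu0 j) h6 3
            _ ≤ r := by
              calc r ^ 3 ≤ r ^ 1 := pow_le_pow_of_le_one hr0.le hr1 (by norm_num)
                _ = r := pow_one r
      refine ⟨(hstep j h1 h3).1, h5, h5.trans (max_le ?_ hr200)⟩
      have h6 : u 0 ≤ 1 := by
        have : u 0 ≤ 1 / 4 := le_trans hu hhalf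
        linarith
      calc u 0 ^ (3 ^ (j + 1)) ≤ u 0 ^ 1 :=
            pow_le_pow_of_le_one (hu0 0) h6 (Nat.one_le_pow _ _ (by norm_num))
        _ = u 0 := pow_one _
        _ ≤ 1 / Real.log n ^ 200 := hu
  refine ⟨fun j _ => ?_, ?_⟩
  · obtain ⟨h1, -, h3⟩ := hinv j
    obtain ⟨h4, -, -⟩ := Q3_step hn1 h100 h400 hf hK h1 h3 hnf hN1 hN1L (K := K)
    exact ⟨h1, h3, h4⟩
  · obtain ⟨m, rfl⟩ : ∃ m, k = m + 1 := ⟨k - 1, by omega⟩
    rw [Nat.add_sub_cancel] at hk3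
    obtain ⟨h1, h2, h3⟩ := hinv m
    have h4 : u m ≤ r := by
      refine h2.trans (max_le ?_ le_rfl)
      have h5 : u 0 ≤ Real.exp (-1) := by
        refine (le_trans hu hhalf).trans ?_
        rw [Real.exp_neg, ← one_div]
        apply one_div_le_one_div_of_le (Real.exp_pos 1)
        have := Real.exp_one_lt_d9
        linarith
      calc u 0 ^ (3 ^ m) ≤ Real.exp (-1) ^ (3 ^ m) := pow_le_pow_left₀ (hu0 0) h5 _
        _ = Real.exp (-(3 ^ m : ℝ)) := by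
          rw [← Real.exp_nat_mul]
          push_cast
          ring_nf
        _ ≤ Real.exp (-Real.log n) := Real.exp_le_exp.2 (by linarith)
        _ = 1 / n := by rw [Real.exp_neg, Real.exp_log hn0, one_div]
        _ = r ^ 2 := hrn
        _ ≤ r := by nlinarith
    obtain ⟨-, -, h6⟩ := Q3_step hn1 h100 h400 hf hK h1 h3 hnf hN1 hN1L (K := K)
    have h7 : (sq n f K N1 s0 (m + 1) : ℝ) ≤ 2 * (1 + K) + u m ^ 6 * n := h6
    have h8 : u m ^ 6 * n ≤ 1 := by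
      have h9 : u m ^ 6 ≤ r ^ 6 := pow_le_pow_left₀ (hu0 m) h4 6
      calc u m ^ 6 * n ≤ r ^ 6 * n := mul_le_mul_of_nonneg_right h9 hn0.le
        _ = r ^ 4 * (r ^ 2 * n) := by ring
        _ = r ^ 4 := by
          rw [← hrn]
          field_simp
        _ ≤ 1 := pow_le_one₀ hr0.le hr1
    have h9 : (sq n f K N1 s0 (m + 1) : ℝ) ≤ 2 * K + 3 := by linarith
    exact_mod_cast h9

end AF
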