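import Pool.Agent.Lib.MP_991c8b_co.QDefs

/-!
# Q4: the parameters

c = 2^(-46). lg = log n, ll = log lg (large), C = n/f ≥ 2^46 ll^2, and 0.03 C ≤ lg. k = kk n = ⌈ll⌉ + 3 ≤ ll + 4 ≤ 2 ll, b = bb n f = ⌊C/(2^36 k)⌋.
1: 2^64 ≤ C. 2: 2^(k+2) ≤ 64 * 2^ll ≤ 64 lg ≤ n. 3: b ≥ C/(2^36 k) - 1 ≥ 2^10 ll^2/(2 ll) - 1 = 512 ll - 1 ≥ 164 ll + 400 ≥ 82 k + 52 (if ll is large).
4: 2 b + 3 ≤ 5 b ≤ 5 C/2^36 ≤ C ≤ 34 lg (C ≤ (100/3) lg). 5: exp(-0.03 C) n ≥ 1. 6: ss/n ≤ exp(-0.03 C) ≤ exp(-0.03 2^46 ll^2) ≤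
exp(-200 ll) = lg^(-200). 7: 2 (2b+3) ss lg ≤ 2 C exp(-0.03 C) n lg ≤ C n/1000 since exp(0.03 C) ≥ lg^200 ≥ 2000 lg.
8: 3^(k-1) ≥ exp(k-1) ≥ exp(ll + 2) ≥ lg (3 ≥ e). 9: k + 2 ≤ 2 ll + 2 ≤ lg. 10: (b+1)(f+1) ≤ 4 b f ≤ 4 f C/(2^36 k) = n/(2^34 k).
11: n = C f ≤ 34 f lg. 12: 10 k ≤ 20 ll ≤ lg^2.
-/

namespace AF

private theorem Q4_large : ∃ N : ℕ, ∀ n : ℕ, N ≤ n → 512 ≤ Real.log (Real.log n) := by
  have h : Filter.Tendsto (fun n : ℕ => Real.log (Real.log n)) Filter.atTop Filter.atTop :=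
    Real.tendsto_log_atTop.comp (Real.tendsto_log_atTop.comp tendsto_natCast_atTop_atTop)
  exact Filter.eventually_atTop.1 (h.eventually_ge_atTop 512)

theorem params : ∃ c : ℝ, 0 < c ∧ ∃ N : ℕ, ∀ n : ℕ, N ≤ n → ∀ f : ℕ, 1 ≤ f →
    (f : ℝ) ≤ c * n / Real.log (Real.log n) ^ 2 →
    2 ^ 64 * f ≤ n ∧
    ((3 / 100 : ℝ) * Cc n f ≤ Real.log n →
      2 ^ (kk n + 2) ≤ n ∧
      82 * kk n + 52 ≤ bb n f ∧
      ((2 * bb n f + 3 : ℕ) : ℝ) ≤ 35 * Real.log n ∧
      1 ≤ ss n f ∧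
      (ss n f : ℝ) / n ≤ 1 / Real.log n ^ 200 ∧
      2 * (((2 * bb n f + 3) * ss n f : ℕ) : ℝ) * Real.log n ≤ Cc n f * n / 1000 ∧
      Real.log n ≤ 3 ^ (kk n - 1) ∧
      (kk n : ℝ) + 2 ≤ Real.log n ∧
      2 ^ 34 * (kk n * ((bb n f + 1) * (f + 1))) ≤ n ∧
      (n : ℝ) ≤ 34 * f * Real.log n ∧
      ((10 * kk n : ℕ) : ℝ) ≤ Real.log n ^ 2) := by
  obtain ⟨N, hN⟩ := Q4_large
  refine ⟨1 / 2 ^ 46, by positivity, N, fun n hn f hf hfc => ?_⟩
  have hll := hN n hn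
  obtain ⟨ll, hlldef⟩ : ∃ ll, ll = Real.log (Real.log n) := ⟨_, rfl⟩
  obtain ⟨lg, hlgdef⟩ : ∃ lg, lg = Real.log n := ⟨_, rfl⟩
  rw [← hlldef] at hll hfc
  have hlgnn : 0 ≤ lg := by
    rw [hlgdef]
    exact Real.log_natCast_nonneg n
  have hlg0 : 0 < lg := by
    rcases hlgnn.lt_or_eq with h | h
    · exact h
    · exfalso
      rw [hlldef, ← hlgdef, ← h, Real.log_zero] at hll
      linarith
  have hexpll : Real.exp ll = lg := by
    rw [hlldef, ← hlgdef, Real.exp_log hlg0]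
  have hnN : 0 < n := by
    rcases Nat.eq_zero_or_pos n with h | h
    · exfalso
      rw [hlgdef, h, Nat.cast_zero, Real.log_zero] at hlg0
      exact lt_irrefl _ hlg0
    · exact h
  have hn0 : (0 : ℝ) < n := by exact_mod_cast hnN
  have hexplg : Real.exp lg = n := by rw [hlgdef, Real.exp_log hn0]
  have hf1 : (1 : ℝ) ≤ f := by exact_mod_cast hf
  have hf0 : (0 : ℝ) < f := by linarith
  -- size of lg
  have hq := Real.quadratic_le_exp_of_nonneg (show (0 : ℝ) ≤ ll by linarith)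
  rw [hexpll] at hq
  have hlgll : ll + 6 ≤ lg := by nlinarith
  have hlgbig : 2000 ≤ lg := by nlinarith
  -- size of C
  obtain ⟨C, hCdef⟩ : ∃ C, C = Cc n f := ⟨_, rfl⟩
  have hCf : C * f = n := by
    rw [hCdef]
    unfold Cc
    field_simp
  have hll2 : 0 < ll ^ 2 := by positivity
  have hC46 : 2 ^ 46 * ll ^ 2 ≤ C := by
    rw [le_div_iff₀ hll2] at hfc
    have h1 : f * (2 ^ 46 * ll ^ 2) ≤ f * C := by
      rw [mul_comm (f : ℝ) C, hCf]
      have h2 : f * (2 ^ 46 * ll ^ 2) = 2 ^ 46 * (f * ll ^ 2) := by ring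
      rw [h2]
      linarith
    exact le_of_mul_le_mul_left h1 hf0
  have hC0 : 0 < C := lt_of_lt_of_le (by positivity) hC46
  have hll512 : (2 : ℝ) ^ 18 ≤ ll ^ 2 := by nlinarith
  refine ⟨?_, ?_⟩
  · have h1 : (2 : ℝ) ^ 64 * f ≤ n := by
      rw [← hCf]
      refine mul_le_mul_of_nonneg_right ?_ hf0.le
      calc (2 : ℝ) ^ 64 = 2 ^ 46 * 2 ^ 18 := by norm_num
        _ ≤ 2 ^ 46 * ll ^ 2 := by linarith
        _ ≤ C := hC46
    exact_mod_cast h1
  · intro hC3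
    rw [← hCdef, ← hlgdef] at hC3
    -- size of k
    obtain ⟨k, hkdef⟩ : ∃ k, k = kk n := ⟨_, rfl⟩
    have hk1 : k = ⌈ll⌉₊ + 3 := by
      rw [hkdef, hlldef]
      rfl
    have hk2 : ll + 3 ≤ (k : ℝ) := by
      rw [hk1]
      push_cast
      linarith [Nat.le_ceil ll]
    have hk3 : (k : ℝ) ≤ ll + 4 := by
      rw [hk1]
      push_cast
      linarith [Nat.ceil_lt_add_one (show (0 : ℝ) ≤ ll by linarith)]
    have hk0 : (0 : ℝ) < k := by linarith
    have hk1' : (1 : ℝ) ≤ k := by linarith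
    -- size of b
    obtain ⟨b, hbdef⟩ : ∃ b, b = bb n f := ⟨_, rfl⟩
    have hb1 : b = ⌊C / (2 ^ 36 * k)⌋₊ := by
      rw [hbdef, hCdef, hkdef]
      rfl
    have hb2 : (b : ℝ) ≤ C / (2 ^ 36 * k) := by
      rw [hb1]
      exact Nat.floor_le (by positivity)
    have hb3 : (b : ℝ) * (2 ^ 36 * k) ≤ C := by
      rwa [le_div_iff₀ (by positivity)] at hb2
    have hb4 : (b : ℝ) * 2 ^ 36 ≤ C := by
      refine le_trans ?_ hb3
      refine mul_le_mul_of_nonneg_left ?_ (Nat.cast_nonneg b)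
      nlinarith
    -- size of ss
    obtain ⟨m, hmdef⟩ : ∃ m, m = ss n f := ⟨_, rfl⟩
    have hm1 : m = ⌊Real.exp (-(3 / 100) * C) * n⌋₊ := by
      rw [hmdef, hCdef]
      rfl
    have hm2 : (m : ℝ) ≤ Real.exp (-(3 / 100) * C) * n := by
      rw [hm1]
      exact Nat.floor_le (by positivity)
    have hE : Real.exp (-(3 / 100) * C) ≤ 1 / lg ^ 200 := by
      have h1 : -(3 / 100) * C ≤ -(200 * ll) := by nlinarith
      refine (Real.exp_le_exp.2 h1).trans (le_of_eq ?_)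
      rw [Real.exp_neg, ← hexpll, ← Real.exp_nat_mul, one_div]
      push_cast
      rfl
    have hP2 : lg ^ 2 ≤ lg ^ 200 := pow_le_pow_right₀ (by linarith) (by norm_num)
    have hP0 : 0 < lg ^ 200 := pow_pos hlg0 200
    rw [← hkdef, ← hbdef, ← hmdef, ← hlgdef, ← hCdef]
    obtain ⟨P, hP⟩ : ∃ P, P = lg ^ 200 := ⟨_, rfl⟩
    rw [← hP] at hE hP2 hP0 ⊢
    refine ⟨?_, ?_, ?_, ?_, ?_, ?_, ?_, ?_, ?_, ?_, ?_⟩
    · -- 2^(k+2) ≤ n
      have h1 : (2 : ℝ) ^ (k + 2) ≤ n := by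
        have h2 : (2 : ℝ) ≤ Real.exp 1 := by
          have := Real.add_one_le_exp (1 : ℝ)
          linarith
        calc (2 : ℝ) ^ (k + 2) ≤ Real.exp 1 ^ (k + 2) := pow_le_pow_left₀ (by norm_num) h2 _
          _ = Real.exp ((k + 2 : ℕ) : ℝ) := by rw [← Real.exp_nat_mul, mul_one]
          _ ≤ Real.exp lg := Real.exp_le_exp.2 (by push_cast; linarith)
          _ = n := hexplg
      exact_mod_cast h1
    · rw [hb1]
      refine Nat.le_floor ?_
      rw [le_div_iff₀ (by positivity)]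
      push_cast
      have h1 : (82 * (k : ℝ) + 52) * (2 ^ 36 * k) ≤ (82 * (2 * ll) + 52) * (2 ^ 36 * (2 * ll)) := by
        have h2 : (k : ℝ) ≤ 2 * ll := by linarith
        refine mul_le_mul (by linarith) (by linarith) (by positivity) (by positivity)
      refine h1.trans (le_trans ?_ hC46)
      nlinarith
    · push_cast
      nlinarith
    · rw [hm1]
      refine Nat.le_floor ?_
      rw [Nat.cast_one]
      calc (1 : ℝ) = Real.exp (-lg) * n := by
            rw [← hexplg, ← Real.exp_add, neg_add_cancel, Real.exp_zero]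
        _ ≤ Real.exp (-(3 / 100) * C) * n :=
            mul_le_mul_of_nonneg_right (Real.exp_le_exp.2 (by linarith)) hn0.le
    · rw [div_le_iff₀ hn0]
      exact hm2.trans (mul_le_mul_of_nonneg_right hE hn0.le)
    · have h1 : (((2 * b + 3) * m : ℕ) : ℝ) ≤ C * (Real.exp (-(3 / 100) * C) * n) := by
        push_cast
        refine mul_le_mul ?_ hm2 (Nat.cast_nonneg m) hC0.le
        nlinarith
      have h2 : 2000 * lg * Real.exp (-(3 / 100) * C) ≤ 1 := by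
        have h5 : 2000 * lg ≤ lg ^ 2 := by
          rw [pow_two]
          exact mul_le_mul_of_nonneg_right hlgbig hlg0.le
        have h4 : 2000 * lg ≤ P := h5.trans hP2
        calc 2000 * lg * Real.exp (-(3 / 100) * C) ≤ P * (1 / P) :=
              mul_le_mul h4 hE (Real.exp_pos _).le hP0.le
          _ = 1 := by
              rw [mul_one_div, div_self hP0.ne']
      calc 2 * (((2 * b + 3) * m : ℕ) : ℝ) * lg
          ≤ 2 * (C * (Real.exp (-(3 / 100) * C) * n)) * lg := by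
            refine mul_le_mul_of_nonneg_right ?_ hlg0.le
            linarith
        _ = (C * n / 1000) * (2000 * lg * Real.exp (-(3 / 100) * C)) := by ring
        _ ≤ (C * n / 1000) * 1 := mul_le_mul_of_nonneg_left h2 (by positivity)
        _ = C * n / 1000 := mul_one _
    · have h1 : Real.exp 1 ≤ 3 := Real.exp_one_lt_three.le
      have h2 : ll ≤ ((k - 1 : ℕ) : ℝ) := by
        have h3 : k - 1 = ⌈ll⌉₊ + 2 := by omega
        rw [h3]
        push_cast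
        linarith [Nat.le_ceil ll]
      calc lg = Real.exp ll := hexpll.symm
        _ ≤ Real.exp ((k - 1 : ℕ) : ℝ) := Real.exp_le_exp.2 h2
        _ = Real.exp 1 ^ (k - 1) := by rw [← Real.exp_nat_mul, mul_one]
        _ ≤ 3 ^ (k - 1) := pow_le_pow_left₀ (Real.exp_pos _).le h1 _
    · linarith
    · have hbN : 1 ≤ b := by
        rw [hb1]
        refine Nat.le_floor ?_
        rw [le_div_iff₀ (by positivity), Nat.cast_one, one_mul]
        nlinarith
      have hb1R : (1 : ℝ) ≤ b := by exact_mod_cast hbN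
      have h1 : (2 : ℝ) ^ 34 * (k * ((b + 1) * (f + 1))) ≤ n := by
        have h2 : ((b : ℝ) + 1) * (f + 1) ≤ (2 * b) * (2 * f) :=
          mul_le_mul (by linarith) (by linarith) (by linarith) (by linarith)
        calc (2 : ℝ) ^ 34 * (k * ((b + 1) * (f + 1))) ≤ 2 ^ 34 * (k * ((2 * b) * (2 * f))) := by
              refine mul_le_mul_of_nonneg_left ?_ (by positivity)
              exact mul_le_mul_of_nonneg_left h2 hk0.le
          _ = ((b : ℝ) * (2 ^ 36 * (k : ℝ))) * f := by ring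
          _ ≤ C * f := mul_le_mul_of_nonneg_right hb3 hf0.le
          _ = (n : ℝ) := hCf
      exact_mod_cast h1
    · rw [← hCf]
      have h1 : C ≤ 34 * lg := by linarith
      calc C * f ≤ 34 * lg * f := mul_le_mul_of_nonneg_right h1 hf0.le
        _ = 34 * f * lg := by ring
    · push_cast
      nlinarith

end AF
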