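import Pool.Agent.Lib.MP_991c8b_co.Defs

/-!
# R6: several reserve boards give expansion of the exceptional set

PROOF. Let Ex be given, |Ex| ≤ s 0. Ex_0 = Ex, Ex_(j+1) = {v ∈ Ex_j : |A ∩ O j v| < b1} for j < k. By `few` |Ex_(j+1)| ≤ s (j+1),
so |Ex_j| ≤ s j for all j ≤ k and Ex_k = ∅ (s k = 0). For v ∈ Ex let j(v) < k be the index with v ∈ Ex_j, v ∉ Ex_(j+1)
(so |A ∩ O (j v) v| ≥ b1). R' = union over v ∈ Ex of A ∩ O (j v) v. R' ⊆ A ∩ R, |R'| ≤ N1 |Ex| ≤ N1 s 0 (by `le`).
Let S ⊆ Ex be nonempty, S_j = {v ∈ S : j(v) = j}. Some j has k |S_j| ≥ |S| (pigeonhole), S_j nonempty, |S_j| ≤ |Ex_j| ≤ s j.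
GoodR.ex for S_j: F |S_j| ≤ |{w : ∃ v ∈ S_j, s(v, w) ∈ A ∩ O j v}| ≤ |nbr R' S|. F |S_j| = 10 k |S_j| ≥ 10 |S|.
(A ∩ biUnion (O j)) ∩ O j v = A ∩ O j v.)
-/

namespace AF

open Finset

theorem chain {n k : ℕ} (hk : 1 ≤ k) (O : Fin k → Fin n → Finset (Sym2 (Fin n)))
    (s : ℕ → ℕ) (b1 N1 : ℕ) (A R : Finset (Sym2 (Fin n))) (hR : ∀ j v, O j v ⊆ R)
    (hG : ∀ j : Fin k, GoodR (O j) (s j) (s (j + 1)) b1 (10 * k) N1
      (A ∩ Finset.univ.biUnion (O j))) (hlast : s k = 0) :
    RX A R (s 0) (N1 * s 0) := by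
  classical
  have hint : ∀ (j : Fin k) (v : Fin n),
      (A ∩ Finset.univ.biUnion (O j)) ∩ O j v = A ∩ O j v := by
    intro j v
    ext e
    simp only [Finset.mem_inter, Finset.mem_biUnion, Finset.mem_univ, true_and]
    constructor
    · rintro ⟨⟨h1, _⟩, h2⟩
      exact ⟨h1, h2⟩
    · rintro ⟨h1, h2⟩
      exact ⟨⟨h1, v, h2⟩, h2⟩
  have hfew : ∀ j : Fin k, (Finset.univ.filter (fun v => (A ∩ O j v).card < b1)).card ≤
      s (j + 1) := by
    intro j
    have h := (hG j).few
    simp only [hint] at h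
    exact h
  have hex : ∀ v : Fin n, ∃ j : Fin k, ¬ (A ∩ O j v).card < b1 ∧
      ∀ i : Fin k, i < j → (A ∩ O i v).card < b1 := by
    intro v
    have h0 : ∃ m : ℕ, ∃ h : m < k, ¬ (A ∩ O ⟨m, h⟩ v).card < b1 := by
      by_contra hne
      push Not at hne
      have h1 := hfew ⟨k - 1, by omega⟩
      have h2 : v ∈ Finset.univ.filter (fun v => (A ∩ O ⟨k - 1, by omega⟩ v).card < b1) :=
        Finset.mem_filter.mpr ⟨Finset.mem_univ v, hne (k - 1) (by omega)⟩
      have h3 := Finset.card_pos.mpr ⟨v, h2⟩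
      have h4 : ((⟨k - 1, by omega⟩ : Fin k) : ℕ) + 1 = k := by
        show k - 1 + 1 = k
        omega
      rw [h4, hlast] at h1
      omega
    obtain ⟨hlt, hj⟩ := Nat.find_spec h0
    refine ⟨⟨Nat.find h0, hlt⟩, hj, fun i hi => ?_⟩
    by_contra hne
    exact Nat.find_min h0 (m := (i : ℕ)) hi ⟨i.2, hne⟩
  choose jv hj1 hj2 using hex
  intro Ex hEx
  refine ⟨Ex.biUnion fun v => A ∩ O (jv v) v, ?_, ?_, ?_⟩
  · refine Finset.biUnion_subset.mpr fun v _ => ?_
    exact Finset.inter_subset_inter (Finset.Subset.refl A) (hR (jv v) v)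
  · refine Finset.card_biUnion_le.trans ?_
    calc ∑ v ∈ Ex, (A ∩ O (jv v) v).card ≤ ∑ _v ∈ Ex, N1 := by
          refine Finset.sum_le_sum fun v _ => ?_
          have h := (hG (jv v)).le v
          rwa [hint] at h
      _ = Ex.card * N1 := by rw [Finset.sum_const, smul_eq_mul]
      _ ≤ s 0 * N1 := Nat.mul_le_mul_right _ hEx
      _ = N1 * s 0 := Nat.mul_comm _ _
  · intro S hS hSne
    have hSpos : 0 < S.card := Finset.card_pos.mpr hSne
    obtain ⟨j, hj⟩ : ∃ j : Fin k, S.card ≤ k * (S.filter (fun v => jv v = j)).card := by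
      by_contra hne
      push Not at hne
      have h1 : S.card = ∑ j : Fin k, (S.filter (fun v => jv v = j)).card :=
        Finset.card_eq_sum_card_fiberwise fun v _ => Finset.mem_univ _
      have h2 : ∑ j : Fin k, k * (S.filter (fun v => jv v = j)).card <
          ∑ _j : Fin k, S.card := by
        refine Finset.sum_lt_sum_of_nonempty ?_ fun j _ => hne j
        exact ⟨⟨0, by omega⟩, Finset.mem_univ _⟩
      rw [← Finset.mul_sum, ← h1, Finset.sum_const, Finset.card_univ, Fintype.card_fin,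
        smul_eq_mul] at h2
      exact absurd h2 (lt_irrefl _)
    set Sj := S.filter (fun v => jv v = j) with hSj
    have hne : Sj.Nonempty := by
      rw [← Finset.card_pos]
      rcases Nat.eq_zero_or_pos Sj.card with h | h
      · rw [h, Nat.mul_zero] at hj
        omega
      · exact h
    have hcard : Sj.card ≤ s j := by
      rcases Nat.eq_zero_or_pos (j : ℕ) with h0 | h0
      · rw [h0]
        exact (Finset.card_le_card ((Finset.filter_subset _ _).trans hS)).trans hEx
      · have h1 := hfew ⟨j - 1, by omega⟩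
        have h2 : ((⟨(j : ℕ) - 1, by omega⟩ : Fin k) : ℕ) + 1 = j := by
          show (j : ℕ) - 1 + 1 = j
          omega
        rw [h2] at h1
        refine (Finset.card_le_card ?_).trans h1
        intro v hv
        have h3 : jv v = j := (Finset.mem_filter.mp hv).2
        refine Finset.mem_filter.mpr ⟨Finset.mem_univ _, hj2 v _ ?_⟩
        rw [h3]
        show (j : ℕ) - 1 < j
        omega
    have h5 := (hG j).ex Sj hne hcard (fun v hv => by
      rw [hint]
      have h3 : jv v = j := (Finset.mem_filter.mp hv).2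
      have h4 := hj1 v
      rw [h3] at h4
      exact not_lt.mp h4)
    have h6 : (Finset.univ.filter (fun w => ∃ v ∈ Sj, s(v, w) ∈
        (A ∩ Finset.univ.biUnion (O j)) ∩ O j v)).card ≤
        (nbr (Ex.biUnion fun v => A ∩ O (jv v) v) S).card := by
      refine Finset.card_le_card fun w hw => ?_
      obtain ⟨v, hv, hvw⟩ := (Finset.mem_filter.mp hw).2
      rw [hint] at hvw
      have h3 : jv v = j := (Finset.mem_filter.mp hv).2
      have hvS : v ∈ S := (Finset.mem_filter.mp hv).1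
      simp only [nbr, Finset.mem_filter, Finset.mem_univ, true_and]
      refine ⟨v, hvS, Finset.mem_biUnion.mpr ⟨v, hS hvS, ?_⟩⟩
      rw [h3]
      exact hvw
    calc 10 * S.card ≤ 10 * (k * Sj.card) := Nat.mul_le_mul_left _ hj
      _ = 10 * k * Sj.card := by ring
      _ ≤ _ := h5.trans h6

end AF
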