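import Pool.Agent.Lib.MP_991c8b_co.Defs

/-!
# R7: counting the bad configurations of a reserve board

PROOF. For S, W with |S| = t, |W| = F t let Q(S, W) be the set of all P ⊆ ⋃_(v ∈ S) Ow v, Ow v = {e ∈ O v : ∃ w ∈ W,
e = s(v,w)}, with |P ∩ O v| = b1 for all v ∈ S. |Ow v| ≤ |W| = F t (image of W). The rows are disjoint, so P is
the disjoint union of the P ∩ O v = P ∩ Ow v, v ∈ S: |P| = b1 t, and P is determined by the family (P ∩ O v)_(v ∈ S) of
b1-subsets of the Ow v: |Q(S,W)| ≤ ∏_(v ∈ S) (|Ow v|).choose b1 ≤ ((F t).choose b1)^t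
(injection into Finset.pi S (fun v => (Ow v).powersetCard b1), card_pi). PFam is the union of the Q(S, W)
over t ∈ Icc 1 s, S ∈ powersetCard t univ, W ∈ powersetCard (F t) univ. Sum of y^|P| over a union ≤ sum of the sums
(y ≥ 0; e.g. Finset.sum_biUnion_le or map from a sigma type).
-/

namespace AF

open Finset

private theorem r7_sum_biUnion_le {ι κ : Type*} [DecidableEq κ] (s : Finset ι) (t : ι → Finset κ)
    (f : κ → ℝ) (hf : ∀ x, 0 ≤ f x) :
    ∑ x ∈ s.biUnion t, f x ≤ ∑ i ∈ s, ∑ x ∈ t i, f x := by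
  classical
  induction s using Finset.induction with
  | empty => simp
  | insert a s ha ih =>
    rw [Finset.biUnion_insert, Finset.sum_insert ha]
    have h1 := Finset.sum_union_inter (s₁ := t a) (s₂ := s.biUnion t) (f := f)
    have h2 : 0 ≤ ∑ x ∈ t a ∩ s.biUnion t, f x := Finset.sum_nonneg fun x _ => hf x
    linarith

open Classical in
/-- the part of the row `v` with heads in `W` -/
private noncomputable def r7Ow {n : ℕ} (O : Fin n → Finset (Sym2 (Fin n))) (W : Finset (Fin n))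
    (v : Fin n) : Finset (Sym2 (Fin n)) := (O v).filter (fun e => ∃ w ∈ W, e = s(v, w))

open Classical in
private noncomputable def r7Q {n : ℕ} (O : Fin n → Finset (Sym2 (Fin n))) (b1 : ℕ)
    (S W : Finset (Fin n)) : Finset (Finset (Sym2 (Fin n))) :=
  Finset.univ.filter (fun P => P ⊆ S.biUnion (r7Ow O W) ∧ ∀ v ∈ S, (P ∩ O v).card = b1)

private theorem r7_mem_row {n : ℕ} {O : Fin n → Finset (Sym2 (Fin n))}
    (hdis : ∀ u v, u ≠ v → Disjoint (O u) (O v)) {S W : Finset (Fin n)}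
    {P : Finset (Sym2 (Fin n))} (hP : P ⊆ S.biUnion (r7Ow O W)) {e : Sym2 (Fin n)} (he : e ∈ P) :
    ∃ u ∈ S, e ∈ O u ∧ e ∈ r7Ow O W u ∧ ∀ v, e ∈ O v → v = u := by
  obtain ⟨u, hu, heu⟩ := Finset.mem_biUnion.1 (hP he)
  have h1 : e ∈ O u := (Finset.mem_filter.1 heu).1
  refine ⟨u, hu, h1, heu, fun v hv => ?_⟩
  by_contra hne
  exact Finset.disjoint_left.1 (hdis v u hne) hv h1

private theorem r7_card {n : ℕ} {O : Fin n → Finset (Sym2 (Fin n))}
    (hdis : ∀ u v, u ≠ v → Disjoint (O u) (O v)) {b1 : ℕ} {S W : Finset (Fin n)}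
    {P : Finset (Sym2 (Fin n))} (hP : P ∈ r7Q O b1 S W) : P.card = b1 * S.card := by
  obtain ⟨hP1, hP2⟩ := (Finset.mem_filter.1 hP).2
  have h1 : P = S.biUnion (fun v => P ∩ O v) := by
    apply Finset.Subset.antisymm
    · intro e he
      obtain ⟨u, hu, heu, -, -⟩ := r7_mem_row hdis hP1 he
      exact Finset.mem_biUnion.2 ⟨u, hu, Finset.mem_inter.2 ⟨he, heu⟩⟩
    · intro e he
      obtain ⟨u, -, heu⟩ := Finset.mem_biUnion.1 he
      exact (Finset.mem_inter.1 heu).1
  have h2 : (S.biUnion (fun v => P ∩ O v)).card = ∑ v ∈ S, (P ∩ O v).card := by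
    apply Finset.card_biUnion
    intro u _ v _ huv
    exact (hdis u v huv).mono Finset.inter_subset_right Finset.inter_subset_right
  rw [h1, h2, Finset.sum_congr rfl hP2, Finset.sum_const, smul_eq_mul, mul_comm]

private theorem r7_cardQ {n : ℕ} {O : Fin n → Finset (Sym2 (Fin n))}
    (hdis : ∀ u v, u ≠ v → Disjoint (O u) (O v)) (b1 : ℕ) (S W : Finset (Fin n)) :
    (r7Q O b1 S W).card ≤ (W.card.choose b1) ^ S.card := by
  classical
  have h1 : (r7Q O b1 S W).card ≤ (S.pi fun v => (r7Ow O W v).powersetCard b1).card := by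
    apply Finset.card_le_card_of_injOn (fun P => fun v (_ : v ∈ S) => P ∩ O v)
    · intro P hP
      obtain ⟨hP1, hP2⟩ := (Finset.mem_filter.1 (Finset.mem_coe.1 hP)).2
      rw [Finset.mem_coe, Finset.mem_pi]
      intro v hv
      rw [Finset.mem_powersetCard]
      refine ⟨fun e he => ?_, hP2 v hv⟩
      obtain ⟨he1, he2⟩ := Finset.mem_inter.1 he
      obtain ⟨u, _, _, h3, h4⟩ := r7_mem_row hdis hP1 he1
      rw [h4 v he2]
      exact h3
    · intro P hP P' hP' heq
      obtain ⟨hP1, -⟩ := (Finset.mem_filter.1 (Finset.mem_coe.1 hP)).2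
      obtain ⟨hP1', -⟩ := (Finset.mem_filter.1 (Finset.mem_coe.1 hP')).2
      have hrow : ∀ v (hv : v ∈ S), P ∩ O v = P' ∩ O v := fun v hv =>
        congrFun (congrFun heq v) hv
      apply Finset.Subset.antisymm
      · intro e he
        obtain ⟨u, hu, h3, -, -⟩ := r7_mem_row hdis hP1 he
        have h5 : e ∈ P ∩ O u := Finset.mem_inter.2 ⟨he, h3⟩
        rw [hrow u hu] at h5
        exact (Finset.mem_inter.1 h5).1
      · intro e he
        obtain ⟨u, hu, h3, -, -⟩ := r7_mem_row hdis hP1' he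
        have h5 : e ∈ P' ∩ O u := Finset.mem_inter.2 ⟨he, h3⟩
        rw [← hrow u hu] at h5
        exact (Finset.mem_inter.1 h5).1
  refine h1.trans ?_
  rw [Finset.card_pi]
  refine Finset.prod_le_pow_card _ _ _ fun v _ => ?_
  rw [Finset.card_powersetCard]
  apply Nat.choose_le_choose
  have h2 : r7Ow O W v ⊆ W.image (fun w => s(v, w)) := by
    intro e he
    obtain ⟨w, hw, hew⟩ := (Finset.mem_filter.1 he).2
    exact Finset.mem_image.2 ⟨w, hw, hew.symm⟩
  exact (Finset.card_le_card h2).trans Finset.card_image_le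

private theorem r7_sumQ {n : ℕ} {O : Fin n → Finset (Sym2 (Fin n))}
    (hdis : ∀ u v, u ≠ v → Disjoint (O u) (O v)) (b1 : ℕ) (S W : Finset (Fin n)) (y : ℝ)
    (hy : 0 ≤ y) :
    ∑ P ∈ r7Q O b1 S W, y ^ P.card ≤ ((W.card.choose b1 : ℕ) : ℝ) ^ S.card * y ^ (b1 * S.card) := by
  rw [Finset.sum_congr rfl fun P hP => by rw [r7_card hdis hP], Finset.sum_const, nsmul_eq_mul]
  refine mul_le_mul_of_nonneg_right ?_ (pow_nonneg hy _)
  exact_mod_cast r7_cardQ hdis b1 S W

theorem pcount {n : ℕ} (O : Fin n → Finset (Sym2 (Fin n)))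
    (hdis : ∀ u v, u ≠ v → Disjoint (O u) (O v)) (s b1 F : ℕ) (y : ℝ) (hy : 0 ≤ y) :
    ∑ P ∈ PFam O s b1 F, y ^ P.card ≤
      ∑ t ∈ Finset.Icc 1 s, (n.choose t : ℝ) * (n.choose (F * t) : ℝ) *
        (((F * t).choose b1 : ℕ) : ℝ) ^ t * y ^ (b1 * t) := by
  classical
  have hy' : ∀ P : Finset (Sym2 (Fin n)), 0 ≤ y ^ P.card := fun P => pow_nonneg hy _
  have hsub : PFam O s b1 F ⊆ (Finset.Icc 1 s).biUnion (fun t =>
      ((Finset.univ : Finset (Fin n)).powersetCard t).biUnion (fun S =>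
        ((Finset.univ : Finset (Fin n)).powersetCard (F * t)).biUnion (fun W =>
          r7Q O b1 S W))) := by
    intro P hP
    obtain ⟨S, W, hS, hSs, hW, hP1, hP2⟩ := (Finset.mem_filter.1 hP).2
    rw [Finset.mem_biUnion]
    refine ⟨S.card, Finset.mem_Icc.2 ⟨Finset.card_pos.2 hS, hSs⟩, ?_⟩
    rw [Finset.mem_biUnion]
    refine ⟨S, Finset.mem_powersetCard.2 ⟨Finset.subset_univ _, rfl⟩, ?_⟩
    rw [Finset.mem_biUnion]
    refine ⟨W, Finset.mem_powersetCard.2 ⟨Finset.subset_univ _, hW⟩, ?_⟩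
    refine Finset.mem_filter.2 ⟨Finset.mem_univ _, fun e he => ?_, hP2⟩
    obtain ⟨v, hv, hev⟩ := Finset.mem_biUnion.1 (hP1 he)
    exact Finset.mem_biUnion.2 ⟨v, hv, Finset.mem_filter.2 (Finset.mem_filter.1 hev)⟩
  refine (Finset.sum_le_sum_of_subset_of_nonneg hsub fun P _ _ => hy' P).trans ?_
  refine (r7_sum_biUnion_le _ _ _ hy').trans (Finset.sum_le_sum fun t _ => ?_)
  refine (r7_sum_biUnion_le _ _ _ hy').trans ?_
  have hS : ∀ S ∈ (Finset.univ : Finset (Fin n)).powersetCard t,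
      ∑ P ∈ ((Finset.univ : Finset (Fin n)).powersetCard (F * t)).biUnion
        (fun W => r7Q O b1 S W), y ^ P.card ≤
      (n.choose (F * t) : ℝ) * ((((F * t).choose b1 : ℕ) : ℝ) ^ t * y ^ (b1 * t)) := by
    intro S hS
    have hSc := (Finset.mem_powersetCard.1 hS).2
    refine (r7_sum_biUnion_le _ _ _ hy').trans ?_
    have hW : ∀ W ∈ (Finset.univ : Finset (Fin n)).powersetCard (F * t),
        ∑ P ∈ r7Q O b1 S W, y ^ P.card ≤
          (((F * t).choose b1 : ℕ) : ℝ) ^ t * y ^ (b1 * t) := by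
      intro W hW
      have hWc := (Finset.mem_powersetCard.1 hW).2
      have h := r7_sumQ hdis b1 S W y hy
      rw [hWc, hSc] at h
      exact h
    refine (Finset.sum_le_sum hW).trans ?_
    rw [Finset.sum_const, Finset.card_powersetCard, Finset.card_univ, Fintype.card_fin,
      nsmul_eq_mul]
  refine (Finset.sum_le_sum hS).trans ?_
  rw [Finset.sum_const, Finset.card_powersetCard, Finset.card_univ, Fintype.card_fin,
    nsmul_eq_mul]
  exact le_of_eq (by ring)

end AF
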