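import Pool.Agent.Lib.MP_991c8b_co.Defs

/-!
# R4: one turn (control claims and claims in the row of Avoider)

f = p.f, f1 = p.f1, y v = |A ∩ O v|. Avoider claims e in the row v0 (unique). A' = insert e A, |A' ∩ O v0| = y v0 + 1.
STEP 0: v0 is active for (A, F), so by lb f y ≤ |F ∩ O v0| + f1 y, and y + |F ∩ O v0| + 1 ≤ |O v0| ≤ (b+1)(f+1)
(A, F disjoint, e is free): y (f - f1 + 1) + 1 ≤ (b+1)(f+1), and 2 f1 ≤ f, so 2 (f - f1 + 1) ≥ f + 2 and
y (f+2) < 2 (b+1)(f+1) ≤ 2 (b+1)(f+2), y < 2 b + 2. So |A' ∩ O v| ≤ 2b + 2 < N1 for all v.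
STEP 1: control: hC.step gives Bc ⊆ free, c = |Bc| ≤ f1, C A' (F ∪ Bc) x', x' v = x v + |Bc ∩ O v|.
STEP 2: own claims: Bo ⊆ O v0 \ (A' ∪ F ∪ Bc) with |Bo| = min (f - c) |O v0 \ (A' ∪ F ∪ Bc)|. B = Bc ∪ Bo,
o = f - c - |Bo|, so |B| + o = f. C A' (F ∪ B) x' by hC.mono. F' = F ∪ B.
New state: x', l, z, lev, comp, M as before; col and Z: if s.col = some c' and c' is not active for (A', F') then
col := none, Z := 0, otherwise unchanged.
 ub: v ≠ v0: |F' ∩ O v| = |F ∩ O v| + |Bc ∩ O v|, fine. v0: |F' ∩ O v0| = |F ∩ O v0| + |Bc ∩ O v0| + |Bo| and |Bo| ≤ f.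
 lb: v ≠ v0 as before. v0 active for (A', F'): then |Bo| = f - c, so
  f (y+1) + x' + z = f y + x + z + f + |Bc ∩ O v0| ≤ |F ∩ O v0| + f1 y + f + |Bc ∩ O v0| = |F' ∩ O v0| + c + f1 y
  ≤ |F' ∩ O v0| + f1 (y + 1).
 yb by STEP 0. zb, levb, l1, l2, l3, Mb unchanged. za, la: active rows for (A', F') are active for (A, F), and if col
 was reset then (col = some c', c' inactive) the summand for active v is 0 before and after. cola, coln, Zb clear.
 bud: nact' ≤ nact. If o = 0: LHS does not increase. If o > 0: then Bo is everything free in the row v0, so v0 is not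
 active any more and nact' + 1 ≤ nact. Enough: OVERFLOW BOUND o ≤ H + (if col = some v0 then Z else 0) (if
 col = some v0 then Z is reset to 0; in all cases new Z ≤ old Z).
 OVERFLOW BOUND: v0 is inactive: |O v0| = (y + 1) + |F' ∩ O v0| = y + 1 + |F ∩ O v0| + |Bc ∩ O v0| + (f - c - o).
 Let W = (f+1)(y+1) + x' v0 + z v0, z v0 = l (f+1) + Z* (za; Z* = Z if col = some v0, else 0).
 By ub: o ≤ W - c - |O v0|, by lb: o ≥ W - f1 y - c - |O v0|, and |O v0| = (b+1)(f+1) - f1 N1.
 If y + l ≤ b: o ≤ (f+1)(y + l - b) + x' + Z* + f1 N1 ≤ X + f1 N1 + Z* = H + Z* (x' ≤ X by hC.bound, as |A' ∩ O v0| < N1).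
 If y + l ≥ b + 1: o ≥ (f+1) + f1 N1 - f1 y - c ≥ f + 1 (c ≤ f1, y + 1 ≤ N1): contradiction to o ≤ f.
-/

namespace AF

open Finset

variable {V E : Type} [Fintype V] [DecidableEq V] [DecidableEq E]

private theorem r4_up (f f1 N1 b l y Fc Oc bc Bc Bo o x z Zs X : ℕ) (hub : Fc ≤ f * y + x + z)
    (hO1 : Oc ≤ y + 1 + (Fc + bc + Bo)) (hza : z = l * (f + 1) + Zs)
    (hlen : Oc + f1 * N1 = (b + 1) * (f + 1)) (hX : x + bc ≤ X) (ho : o + Bo + Bc = f)
    (hc : y + l < b + 1) : o ≤ f1 * N1 + X + Zs := by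
  have e1 : (y + l + 1) * (f + 1) ≤ (b + 1) * (f + 1) := Nat.mul_le_mul_right _ (by omega)
  have e2 : (y + l + 1) * (f + 1) = f * y + y + l * (f + 1) + f + 1 := by ring
  omega

private theorem r4_low (f f1 N1 b l y Fc Oc bc Bc Bo o x z Zs : ℕ) (hlb : f * y + x + z ≤ Fc + f1 * y)
    (hO2 : y + 1 + (Fc + bc + Bo) ≤ Oc) (hza : z = l * (f + 1) + Zs)
    (hlen : Oc + f1 * N1 = (b + 1) * (f + 1)) (ho : o + Bo + Bc = f) (_hB : Bc ≤ f1) (hy : y + 1 ≤ N1) :
    y + l < b + 1 := by
  by_contra hcon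
  have e1 : (b + 2) * (f + 1) ≤ (y + l + 1) * (f + 1) := Nat.mul_le_mul_right _ (by omega)
  have e2 : (y + l + 1) * (f + 1) = f * y + y + l * (f + 1) + f + 1 := by ring
  have e3 : (b + 2) * (f + 1) = (b + 1) * (f + 1) + f + 1 := by ring
  have e4 : f1 * (y + 1) ≤ f1 * N1 := Nat.mul_le_mul_left _ hy
  have e5 : f1 * (y + 1) = f1 * y + f1 := by ring
  omega

private theorem r4_y (f f1 N1 b y Fc Oc x z : ℕ) (hlb : f * y + x + z ≤ Fc + f1 * y)
    (hcov : y + Fc + 1 ≤ Oc) (hlen : Oc + f1 * N1 = (b + 1) * (f + 1)) (hf : 2 * f1 ≤ f) :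
    y ≤ 2 * b + 1 := by
  by_contra hcon
  have e1 : 2 * f1 * y ≤ f * y := Nat.mul_le_mul_right y hf
  have e2 : (2 * b + 2) * (f + 1) ≤ y * (f + 1) := Nat.mul_le_mul_right (f + 1) (by omega)
  have e3 : (2 * b + 2) * (f + 1) = 2 * ((b + 1) * (f + 1)) := by ring
  have e4 : y * (f + 1) = f * y + y := by ring
  have e5 : 2 * f1 * y = 2 * (f1 * y) := by ring
  omega

theorem rturn (p : RP V E) (hp : p.Valid) (C : Finset E → Finset E → (V → ℕ) → Prop)
    (hC : CtlOK p C) (d : ℕ) (A F : Finset E) (s : RSt V) (h : ROK p C d 0 A F s) (e : E)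
    (he : e ∈ p.Y \ (A ∪ F)) :
    ∃ B ⊆ p.Y \ (insert e A ∪ F), ∃ o, B.card + o = p.f ∧
      ∃ s', ROK p C d o (insert e A) (F ∪ B) s' := by
  classical
  have he0 := he
  rw [mem_sdiff, mem_union, not_or] at he
  obtain ⟨heY, heA, heF⟩ := he
  obtain ⟨v0, -, hev⟩ := mem_biUnion.1 heY
  have hOY : ∀ v, p.O v ⊆ p.Y := fun v => subset_biUnion_of_mem p.O (mem_univ v)
  have hej : ∀ v, v ≠ v0 → e ∉ p.O v := fun v hv h' => (disjoint_left.1 (hp.dis v v0 hv)) h' hev
  -- cards of the part of Avoider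
  have hA0 : (insert e A ∩ p.O v0).card = (A ∩ p.O v0).card + 1 := by
    rw [insert_inter_of_mem hev, card_insert_of_notMem]
    intro h'
    exact heA (mem_inter.1 h').1
  have hAj : ∀ v, v ≠ v0 → (insert e A ∩ p.O v).card = (A ∩ p.O v).card := by
    intro v hv
    rw [insert_inter_of_notMem (hej v hv)]
  have hact0 : act p A F v0 := ⟨e, by
    rw [mem_sdiff, mem_union, not_or]
    exact ⟨hev, heA, heF⟩⟩
  have hlen := hp.len v0
  have hf := hp.hf
  have hN := hp.hN
  have hlb0 := h.lb v0 hact0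
  have hub0 := h.ub v0
  have hcov0 : (A ∩ p.O v0).card + (F ∩ p.O v0).card + 1 ≤ (p.O v0).card := by
    have h1 : insert e ((A ∩ p.O v0) ∪ (F ∩ p.O v0)) ⊆ p.O v0 :=
      insert_subset hev (union_subset inter_subset_right inter_subset_right)
    have h2 := card_le_card h1
    rw [card_insert_of_notMem, card_union_of_disjoint] at h2
    · exact h2
    · exact disjoint_of_subset_left inter_subset_left (disjoint_of_subset_right inter_subset_left h.hAF)
    · rw [mem_union, mem_inter, mem_inter]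
      rintro (h' | h')
      · exact heA h'.1
      · exact heF h'.1
  have hy0 : (A ∩ p.O v0).card ≤ 2 * p.b + 1 :=
    r4_y _ _ _ _ _ _ _ _ _ hlb0 hcov0 hlen hf
  have hyb : ∀ v, (insert e A ∩ p.O v).card ≤ 2 * p.b + 2 := by
    intro v
    by_cases hv : v = v0
    · rw [hv, hA0]
      omega
    · rw [hAj v hv]
      exact h.yb v
  -- the control claims
  obtain ⟨Bc, hBc, hBcc, hCc⟩ := hC.step A F s.x e h.ctl h.hA h.hF h.hAF he0 (fun v => by
    have := hyb v
    omega)
  -- the claims in the row of Avoider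
  set R := p.O v0 \ (insert e A ∪ (F ∪ Bc)) with hR
  obtain ⟨Bo, hBo, hBoc⟩ := exists_subset_card_eq (s := R) (n := min (p.f - Bc.card) R.card) (min_le_right _ _)
  have hBoO : Bo ⊆ p.O v0 := hBo.trans sdiff_subset
  have hBoF : Disjoint (F ∪ Bc) Bo := by
    rw [disjoint_right]
    intro x hx hx2
    have := hBo hx
    rw [hR, mem_sdiff, mem_union, not_or] at this
    exact this.2.2 hx2
  have hBcF : Disjoint F Bc := by
    rw [disjoint_right]
    intro x hx hx2
    have := hBc hx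
    rw [mem_sdiff, mem_union, not_or] at this
    exact this.2.2 hx2
  have hcf : Bc.card ≤ p.f := by omega
  have hBcBo : Disjoint Bc Bo := disjoint_of_subset_left subset_union_right hBoF
  set B := Bc ∪ Bo with hB
  have hBcard : B.card = Bc.card + Bo.card := card_union_of_disjoint hBcBo
  have hFB : F ∪ B = (F ∪ Bc) ∪ Bo := by rw [hB, union_assoc]
  have hBY : B ⊆ p.Y \ (insert e A ∪ F) := by
    refine union_subset hBc ?_
    intro x hx
    have := hBo hx
    rw [hR, mem_sdiff, mem_union, mem_union, not_or, not_or] at this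
    rw [mem_sdiff, mem_union, not_or]
    exact ⟨hOY v0 this.1, this.2.1, this.2.2.1⟩
  have hF'0 : ((F ∪ B) ∩ p.O v0).card = (F ∩ p.O v0).card + (Bc ∩ p.O v0).card + Bo.card := by
    rw [hFB, union_inter_distrib_right, union_inter_distrib_right, inter_eq_left.2 hBoO,
      card_union_of_disjoint, card_union_of_disjoint]
    · exact disjoint_of_subset_left inter_subset_left (disjoint_of_subset_right inter_subset_left hBcF)
    · rw [← union_inter_distrib_right]
      exact disjoint_of_subset_left inter_subset_left hBoF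
  have hF'j : ∀ v, v ≠ v0 → ((F ∪ B) ∩ p.O v).card = (F ∩ p.O v).card + (Bc ∩ p.O v).card := by
    intro v hv
    have h1 : Bo ∩ p.O v = ∅ := by
      rw [← disjoint_iff_inter_eq_empty]
      exact disjoint_of_subset_left hBoO (hp.dis _ _ (fun h' => hv h'.symm))
    rw [hFB, union_inter_distrib_right, union_inter_distrib_right, h1, union_empty,
      card_union_of_disjoint]
    exact disjoint_of_subset_left inter_subset_left (disjoint_of_subset_right inter_subset_left hBcF)
  have hdis' : Disjoint (insert e A) (F ∪ B) := by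
    rw [disjoint_union_right]
    constructor
    · rw [disjoint_insert_left]
      exact ⟨heF, h.hAF⟩
    · rw [disjoint_right]
      intro x hx hxA
      have := hBY hx
      rw [mem_sdiff, mem_union, not_or] at this
      exact this.2.1 hxA
  have hactm : ∀ v, act p (insert e A) (F ∪ B) v → act p A F v := by
    rintro v ⟨x, hx⟩
    refine ⟨x, ?_⟩
    rw [mem_sdiff, mem_union, mem_insert, mem_union, not_or, not_or, not_or] at hx
    rw [mem_sdiff, mem_union, not_or]
    exact ⟨hx.1, hx.2.1.2, hx.2.2.1⟩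
  -- in the row of Avoider: active afterwards implies that all claims were made there
  have hBo_full : act p (insert e A) (F ∪ B) v0 → Bo.card = p.f - Bc.card := by
    rintro ⟨x, hx⟩
    by_contra hcon
    have h1 : Bo = R := eq_of_subset_of_card_le hBo (by omega)
    rw [hFB, mem_sdiff, mem_union, mem_union, not_or, not_or] at hx
    apply hx.2.2.2
    rw [h1, hR, mem_sdiff, mem_union, not_or]
    exact ⟨hx.1, hx.2.1, hx.2.2.1⟩
  have hCB : C (insert e A) (F ∪ B) (fun v => s.x v + (Bc ∩ p.O v).card) := by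
    rw [hFB]
    refine hC.mono _ _ _ _ hCc ?_
    intro x hx
    have := hBo hx
    rw [hR, mem_sdiff] at this
    exact mem_sdiff.2 ⟨hOY v0 this.1, this.2⟩
  set o := p.f - Bc.card - Bo.card with ho
  have hBo_le : Bo.card ≤ p.f - Bc.card := by omega
  have hBo_sum : B.card + o = p.f := by omega
  -- the overflow bound
  have hover : 0 < o → ¬ act p (insert e A) (F ∪ B) v0 ∧ o ≤ p.H + (if s.col = some v0 then s.Z else 0) := by
    intro hopos
    have hna : ¬ act p (insert e A) (F ∪ B) v0 := by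
      intro h'
      have := hBo_full h'
      omega
    refine ⟨hna, ?_⟩
    have hsub : p.O v0 ⊆ (insert e A ∩ p.O v0) ∪ ((F ∪ B) ∩ p.O v0) := by
      intro x hx
      by_contra hcon
      apply hna
      refine ⟨x, ?_⟩
      rw [mem_union, mem_inter, mem_inter, not_or] at hcon
      rw [mem_sdiff, mem_union, not_or]
      exact ⟨hx, fun h' => hcon.1 ⟨h', hx⟩, fun h' => hcon.2 ⟨h', hx⟩⟩
    have hO1 : (p.O v0).card ≤ (insert e A ∩ p.O v0).card + ((F ∪ B) ∩ p.O v0).card :=
      (card_le_card hsub).trans (card_union_le _ _)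
    have hO2 : (insert e A ∩ p.O v0).card + ((F ∪ B) ∩ p.O v0).card ≤ (p.O v0).card := by
      rw [← card_union_of_disjoint (disjoint_of_subset_left inter_subset_left
        (disjoint_of_subset_right inter_subset_left hdis'))]
      exact card_le_card (union_subset inter_subset_right inter_subset_right)
    rw [hA0, hF'0] at hO1 hO2
    have hza := h.za v0 hact0
    have hX := hC.bound _ _ _ v0 hCB (by
      have := hyb v0
      omega)
    have hX' : s.x v0 + (Bc ∩ p.O v0).card ≤ p.X := hX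
    unfold RP.H
    have hoeq : o + Bo.card + Bc.card = p.f := by omega
    have hcase := r4_low _ _ _ _ _ _ _ _ _ _ _ _ _ _ _ hlb0 hO2 hza hlen hoeq hBcc (by omega)
    exact r4_up _ _ _ _ _ _ _ _ _ _ _ _ _ _ _ _ hub0 hO1 hza hlen hX' hoeq hcase
  have hnact : nact p (insert e A) (F ∪ B) ≤ nact p A F := by
    refine card_le_card ?_
    intro v hv
    rw [mem_filter] at hv ⊢
    exact ⟨hv.1, hactm v hv.2⟩
  have hnact1 : ¬ act p (insert e A) (F ∪ B) v0 → nact p (insert e A) (F ∪ B) + 1 ≤ nact p A F := by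
    intro hna
    refine card_lt_card ?_
    rw [ssubset_iff_of_subset]
    · refine ⟨v0, ?_, ?_⟩
      · rw [mem_filter]
        exact ⟨mem_univ _, hact0⟩
      · rw [mem_filter]
        exact fun h' => hna h'.2
    · intro v hv
      rw [mem_filter] at hv ⊢
      exact ⟨hv.1, hactm v hv.2⟩
  refine ⟨B, hBY, o, hBo_sum, ?_⟩
  -- the new collector
  obtain ⟨col', Z', hcol1, hcol2⟩ : ∃ (col' : Option V) (Z' : ℕ),
      ((col' = s.col ∧ Z' = s.Z ∧ ∀ c, s.col = some c → act p (insert e A) (F ∪ B) c) ∨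
        (col' = none ∧ Z' = 0 ∧ ∃ c, s.col = some c ∧ ¬ act p (insert e A) (F ∪ B) c)) ∧ Z' ≤ s.Z := by
    by_cases hc : ∃ c, s.col = some c ∧ ¬ act p (insert e A) (F ∪ B) c
    · exact ⟨none, 0, Or.inr ⟨rfl, rfl, hc⟩, Nat.zero_le _⟩
    · push Not at hc
      exact ⟨s.col, s.Z, Or.inl ⟨rfl, rfl, hc⟩, le_rfl⟩
  refine ⟨⟨fun v => s.x v + (Bc ∩ p.O v).card, s.l, s.z, col', Z', s.lev, s.comp, s.M⟩, ?_⟩
  refine ⟨insert_subset heY h.hA, union_subset h.hF (hBY.trans sdiff_subset), hdis', hCB, ?_, ?_, hyb,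
    h.zb, ?_, ?_, ?_, hcol2.trans h.Zb, h.levb, fun v hv => h.la v (hactm v hv), h.l1, h.l2, h.l3, ?_, h.Mb⟩
  · -- ub
    intro v
    show ((F ∪ B) ∩ p.O v).card ≤ p.f * (insert e A ∩ p.O v).card + (s.x v + (Bc ∩ p.O v).card) + s.z v
    by_cases hv : v = v0
    · subst hv
      rw [hF'0, hA0, mul_add, mul_one]
      omega
    · rw [hF'j v hv, hAj v hv]
      have := h.ub v
      omega
  · -- lb
    intro v hv
    show p.f * (insert e A ∩ p.O v).card + (s.x v + (Bc ∩ p.O v).card) + s.z v ≤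
      ((F ∪ B) ∩ p.O v).card + p.f1 * (insert e A ∩ p.O v).card
    by_cases hv0 : v = v0
    · subst hv0
      have h1 := hBo_full hv
      rw [hF'0, hA0, mul_add, mul_one, mul_add, mul_one]
      omega
    · rw [hF'j v hv0, hAj v hv0]
      have := h.lb v (hactm v hv)
      omega
  · -- za
    intro v hv
    show s.z v = s.l v * (p.f + 1) + (if col' = some v then Z' else 0)
    have h1 := h.za v (hactm v hv)
    rcases hcol1 with ⟨rfl, rfl, -⟩ | ⟨rfl, rfl, c, hc, hc2⟩
    · exact h1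
    · have h2 : s.col ≠ some v := by
        rw [hc]
        intro h'
        rw [Option.some.inj h'] at hc2
        exact hc2 hv
      rw [if_neg h2] at h1
      rw [h1]
      simp
  · -- cola
    intro c hc
    have hc' : col' = some c := hc
    rcases hcol1 with ⟨rfl, rfl, h1⟩ | ⟨rfl, rfl, -⟩
    · exact ⟨h1 c hc', (h.cola c hc').2⟩
    · exact absurd hc' (by simp)
  · -- coln
    intro hc
    have hc' : col' = none := hc
    show Z' = 0
    rcases hcol1 with ⟨rfl, rfl, -⟩ | ⟨rfl, rfl, -⟩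
    · exact h.coln hc'
    · rfl
  · -- bud
    show (p.f + 1) * s.comp + Z' + o + p.H * nact p (insert e A) (F ∪ B) ≤ (1 + d) * p.f + p.H * s.M
    have hbud := h.bud
    rcases Nat.eq_zero_or_pos o with h0 | hpos
    · have h1 : p.H * nact p (insert e A) (F ∪ B) ≤ p.H * nact p A F := Nat.mul_le_mul_left _ hnact
      omega
    · obtain ⟨hna, hle⟩ := hover hpos
      have h1 : p.H * (nact p (insert e A) (F ∪ B) + 1) ≤ p.H * nact p A F :=
        Nat.mul_le_mul_left _ (hnact1 hna)
      rw [mul_add, mul_one] at h1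
      by_cases hc : s.col = some v0
      · rw [if_pos hc] at hle
        have hZ' : Z' = 0 := by
          rcases hcol1 with ⟨rfl, rfl, h2⟩ | ⟨rfl, rfl, -⟩
          · exact absurd (h2 v0 hc) hna
          · rfl
        omega
      · rw [if_neg hc] at hle
        omega

end AF
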