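import Pool.Agent.Lib.MP_991c8b_co.R3
import Pool.Agent.Lib.MP_991c8b_co.R4

/-!
# R5: the row board

PROOF. J = RJ p C.
init: s = (x = 0, l = 0, z = 0, col = none, Z = 0, lev = 0, comp = 0, M = |V|); all fields trivial (ctl = hC.init,
bud: H * nact ≤ f + H |V|).
move (we may assume d ≤ K? NO: in `move` there is no bound for d, but rloop needs d ≤ K. So take
J d A F := d ≤ K ∧ RJ p C d A F as the invariant; in dump d < K gives d + 1 ≤ K).
move: rturn gives B1, o with |B1| + o = f and ROK d o A' (F ∪ B1) s'. rloop gives B2 ⊆ Y \ (A' ∪ (F ∪ B1)),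
|B2| = min o (free), B = B1 ∪ B2; |B| = |B1| + min (f - |B1|) (|free'| - |B1|) = min f |free'|, free' = Y \ (A' ∪ F).
dump: ROK d 0 A F s gives ROK (d+1) o A F s (bud: + o ≤ + f). Then rloop.
good: Y ⊆ A ∪ F: RGood: first part: F, s.x. Second: |A ∩ O v| ≤ 2b+2 < N1. Third: l = s.l. For every v:
(b+1)(f+1) = |O v| + f1 N1 ≤ y + |F ∩ O v| + f1 N1 ≤ (f+1) y + x v + z v + f1 N1 ≤ (f+1) y + (l v + 1)(f+1) + H
by ub, zb, hC.bound (x v ≤ X). So (b - y - l v)(f+1) ≤ H ≤ f, so b ≤ y + l v.
If lev = L: #{v : L < l v} ≤ comp ≤ Gl (L+1) (l3, compb), l v ≤ L + comp (l2). If lev < L: l v ≤ lev + 1 ≤ L (l1),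
the set is empty.
-/

namespace AF

open Finset

variable {V E : Type} [Fintype V] [DecidableEq V] [DecidableEq E]

theorem rboard (p : RP V E) (hp : p.Valid) (C : Finset E → Finset E → (V → ℕ) → Prop)
    (hC : CtlOK p C) (hH : p.H ≤ p.f) :
    ∃ J, IsBoard p.f p.K p.Y J (fun A => RGood p C A) := by
  classical
  refine ⟨fun d A F => d ≤ p.K ∧ RJ p C d A F, ⟨⟨Nat.zero_le _, ?_⟩, ?_, ?_, ?_⟩⟩
  · -- init
    refine ⟨⟨fun _ => 0, fun _ => 0, fun _ => 0, none, 0, 0, 0, Fintype.card V⟩, ?_⟩
    refine ⟨empty_subset _, empty_subset _, disjoint_empty_left _, hC.init, ?_, ?_, ?_, ?_, ?_, ?_,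
      fun _ => rfl, Nat.zero_le _, Nat.zero_le _, fun _ _ => le_rfl, fun _ _ => Nat.zero_le _,
      fun _ => Nat.zero_le _, ?_, ?_, le_rfl⟩
    · intro v
      rw [empty_inter, card_empty]
      exact Nat.zero_le _
    · intro v _
      rw [empty_inter, card_empty]
      exact le_rfl
    · intro v
      rw [empty_inter, card_empty]
      exact Nat.zero_le _
    · intro v
      exact Nat.zero_le _
    · intro v _
      show 0 = 0 * (p.f + 1) + (if (none : Option V) = some v then 0 else 0)
      rw [ite_self, Nat.zero_mul]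
    · intro c hc
      exact absurd hc (by simp)
    · show (Finset.univ.filter (fun _ : V => (0 : ℕ) < 0)).card ≤ 0
      rw [Nat.le_zero, card_eq_zero, filter_eq_empty_iff]
      intro v _ h
      exact lt_irrefl _ h
    · show (p.f + 1) * 0 + 0 + 0 + p.H * nact p ∅ ∅ ≤ (1 + 0) * p.f + p.H * Fintype.card V
      have h1 : nact p ∅ ∅ ≤ Fintype.card V := by
        unfold nact
        exact card_le_univ _
      have h2 : p.H * nact p ∅ ∅ ≤ p.H * Fintype.card V := Nat.mul_le_mul_left _ h1
      omega
  · -- move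
    rintro d A F e ⟨hd, s, hs⟩ _ _ _ he
    obtain ⟨B1, hB1, o, ho, s', hs'⟩ := rturn p hp C hC d A F s hs e he
    obtain ⟨B2, hB2, hcard, s'', hs''⟩ := rloop p hp C hC d o (insert e A) (F ∪ B1) s' hs'
      (by omega) hd
    have hset : p.Y \ (insert e A ∪ (F ∪ B1)) = (p.Y \ (insert e A ∪ F)) \ B1 := by
      ext g
      simp only [mem_sdiff, mem_union]
      tauto
    rw [hset] at hB2 hcard
    have hdisj : Disjoint B1 B2 := by
      rw [disjoint_left]
      intro g h1 h2
      exact (mem_sdiff.1 (hB2 h2)).2 h1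
    have hsub : ((p.Y \ (insert e A ∪ F)) \ B1).card = (p.Y \ (insert e A ∪ F)).card - B1.card :=
      card_sdiff_of_subset hB1
    have hle : B1.card ≤ (p.Y \ (insert e A ∪ F)).card := card_le_card hB1
    refine ⟨B1 ∪ B2, union_subset hB1 (hB2.trans sdiff_subset), ?_, hd, s'', ?_⟩
    · rw [card_union_of_disjoint hdisj, hcard, hsub]
      omega
    · rw [← union_assoc]
      exact hs''
  · -- dump
    rintro d A F o hd ho ⟨_, s, hs⟩ _ _ _
    have h1 : ROK p C (d + 1) o A F s := by
      refine ⟨hs.hA, hs.hF, hs.hAF, hs.ctl, hs.ub, hs.lb, hs.yb, hs.zb, hs.za, hs.cola, hs.coln,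
        hs.Zb, hs.levb, hs.la, hs.l1, hs.l2, hs.l3, ?_, hs.Mb⟩
      have h2 := hs.bud
      have h3 : (1 + (d + 1)) * p.f = (1 + d) * p.f + p.f := by ring
      rw [h3]
      omega
    obtain ⟨B, hB, hcard, s', hs'⟩ := rloop p hp C hC (d + 1) o A F s h1 ho hd
    exact ⟨B, hB, hcard, hd, s', hs'⟩
  · -- good
    rintro d A F hd ⟨_, s, hs⟩ _ _ _ hY
    have hy : ∀ v, (A ∩ p.O v).card < p.N1 := by
      intro v
      have h1 := hs.yb v
      have h2 := hp.hN
      omega
    refine ⟨⟨F, s.x, hs.ctl, hs.hAF⟩, hy, s.l, ?_, ?_, ?_⟩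
    · intro v
      have hO : (p.O v).card = (A ∩ p.O v).card + (F ∩ p.O v).card := by
        rw [← card_union_of_disjoint]
        · congr 1
          ext g
          simp only [mem_union, mem_inter]
          constructor
          · intro hg
            have h1 : g ∈ A ∪ F := hY (mem_biUnion.2 ⟨v, mem_univ v, hg⟩)
            rcases mem_union.1 h1 with h2 | h2
            · exact Or.inl ⟨h2, hg⟩
            · exact Or.inr ⟨h2, hg⟩
          · rintro (h1 | h1)
            · exact h1.2
            · exact h1.2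
        · exact disjoint_of_subset_left inter_subset_left
            (disjoint_of_subset_right inter_subset_left hs.hAF)
      have h1 := hp.len v
      have h2 := hs.ub v
      have h3 := hs.zb v
      have h4 := hC.bound A F s.x v hs.ctl (hy v)
      have h5 : p.f1 * p.N1 + p.X ≤ p.f := hH
      by_contra hlt
      push Not at hlt
      have h6 : ((A ∩ p.O v).card + s.l v + 2) * (p.f + 1) ≤ (p.b + 1) * (p.f + 1) :=
        Nat.mul_le_mul_right _ (by omega)
      have h7 : ((A ∩ p.O v).card + s.l v + 2) * (p.f + 1) =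
          p.f * (A ∩ p.O v).card + (A ∩ p.O v).card + (s.l v + 1) * (p.f + 1) + p.f + 1 := by ring
      omega
    · rcases hs.levb.lt_or_eq with hlev | hlev
      · have h1 := hs.l1 hlev
        have h2 : Finset.univ.filter (fun v => p.L < s.l v) = ∅ := by
          rw [filter_eq_empty_iff]
          intro v _
          have := h1 v
          omega
        rw [h2, card_empty]
        exact Nat.zero_le _
      · have h1 := hs.l3
        have h2 := compb p C d 0 A F s hs hd
        rw [hlev] at h1 h2
        exact h1.trans h2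
    · intro v
      rcases hs.levb.lt_or_eq with hlev | hlev
      · have h1 := hs.l1 hlev v
        omega
      · have h1 := hs.l2 v
        have h2 := compb p C d 0 A F s hs hd
        rw [hlev] at h1 h2
        omega

end AF
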