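import Pool.Agent.Lib.MP_991c8b_co.R1
import Pool.Agent.Lib.MP_991c8b_co.R5

/-!
# R8: one reserve board

PROOF. ctrl with PP = PFam p.O s b1 F gives C; rboard gives J and Good = RGood p C.
Let RGood p C A, A ⊆ Y. There are F0, x with C A F0 x, Disjoint A F0, so no P ∈ PFam is a subset of A. l from RGood.
le: |A ∩ O v| < N1. few: if |A ∩ O v| < b1 then l v ≥ b - |A ∩ O v| > b - b1 ≥ L, so v ∈ {v : L < l v}, which has at most
Gl (L+1) elements. If b1 + L + Gl (L+1) ≤ b: b ≤ |A ∩ O v| + l v < b1 + L + Gl (L+1) ≤ b is impossible: the set is empty.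
ex: S nonempty, |S| ≤ s, all rows v ∈ S have |A ∩ O v| ≥ b1. Let Hd = {w : ∃ v ∈ S, s(v,w) ∈ A ∩ O v} and suppose
|Hd| < F |S| ≤ F s ≤ n. Choose W ⊇ Hd with |W| = F |S| (Finset.exists_superset_card_eq or similar) and for
v ∈ S a set P_v ⊆ A ∩ O v with |P_v| = b1, P = ⋃_(v ∈ S) P_v. P ∩ O v = P_v (rows disjoint). Every e ∈ O v contains v (hO), so
e = s(v, w) with w ∈ Hd ⊆ W for e ∈ P_v ⊆ A ∩ O v. So P ∈ PFam and P ⊆ A, contradiction.
-/

namespace AF

open Finset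

theorem reserve {n : ℕ} (hn : 1 ≤ n) (p : RP (Fin n) (Sym2 (Fin n))) (hp : p.Valid)
    (hO : ∀ v, ∀ e ∈ p.O v, v ∈ e) (hf1 : 1 ≤ p.f1) (hH : p.H ≤ p.f)
    (hX : (2 * n * p.N1 : ℝ) < (1 + 1 / ((p.N1 : ℝ) * p.f1)) ^ (p.X + 1)) (s b1 F : ℕ)
    (hw : ∑ P ∈ PFam p.O s b1 F, (1 / (1 + (p.f1 : ℝ))) ^ P.card ≤ 1 / (4 * (1 + (p.f1 : ℝ))))
    (hb : b1 + p.L ≤ p.b) (hFs : F * s ≤ n) :
    ∃ J Good, IsBoard p.f p.K p.Y J Good ∧ ∀ A ⊆ p.Y, Good A →
      GoodR p.O s (Gl n p.f p.K p.H (p.L + 1)) b1 F p.N1 A ∧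
      (b1 + p.L + Gl n p.f p.K p.H (p.L + 1) ≤ p.b → GoodR p.O s 0 b1 F p.N1 A) := by
  obtain ⟨C, hC, hPP⟩ := ctrl p hp (by simpa using hn) hf1 (PFam p.O s b1 F) hw
    (by simpa using hX)
  obtain ⟨J, hJ⟩ := rboard p hp C hC hH
  refine ⟨J, _, hJ, ?_⟩
  rintro A hA ⟨⟨F0, x, hCx, hdisj⟩, hN, l, hl1, hl2, hl3⟩
  rw [Fintype.card_fin] at hl2 hl3
  have hno : ∀ P ∈ PFam p.O s b1 F, ¬ P ⊆ A := hPP A F0 x hCx hdisj
  have hex : ∀ S : Finset (Fin n), S.Nonempty → S.card ≤ s →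
      (∀ v ∈ S, b1 ≤ (A ∩ p.O v).card) →
      F * S.card ≤ (Finset.univ.filter (fun w => ∃ v ∈ S, s(v, w) ∈ A ∩ p.O v)).card := by
    intro S hS hSs hSb
    by_contra hlt
    push Not at hlt
    obtain ⟨W, hW1, hW2⟩ := Finset.exists_superset_card_eq hlt.le (by
      rw [Fintype.card_fin]
      exact le_trans (Nat.mul_le_mul_left F hSs) hFs)
    have hch : ∀ v : Fin n, ∃ Q : Finset (Sym2 (Fin n)), v ∈ S →
        Q ⊆ A ∩ p.O v ∧ Q.card = b1 := by
      intro v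
      by_cases hv : v ∈ S
      · obtain ⟨Q, hQ1, hQ2⟩ := Finset.exists_subset_card_eq (hSb v hv)
        exact ⟨Q, fun _ => ⟨hQ1, hQ2⟩⟩
      · exact ⟨∅, fun h => absurd h hv⟩
    choose Q hQ using hch
    have hPO : ∀ v ∈ S, S.biUnion Q ∩ p.O v = Q v := by
      intro v hv
      ext e
      rw [mem_inter, mem_biUnion]
      constructor
      · rintro ⟨⟨u, hu, heu⟩, hev⟩
        by_cases huv : u = v
        · rwa [huv] at heu
        · exfalso
          have h1 := (mem_inter.mp ((hQ u hu).1 heu)).2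
          exact Finset.disjoint_left.mp (hp.dis u v huv) h1 hev
      · intro he
        exact ⟨⟨v, hv, he⟩, (mem_inter.mp ((hQ v hv).1 he)).2⟩
    refine hno (S.biUnion Q) ?_ ?_
    · unfold PFam
      rw [mem_filter]
      refine ⟨mem_univ _, S, W, hS, hSs, hW2, ?_, ?_⟩
      · intro e he
        rw [mem_biUnion] at he
        obtain ⟨v, hv, hev⟩ := he
        rw [mem_biUnion]
        refine ⟨v, hv, ?_⟩
        rw [mem_filter]
        have h2 := mem_inter.mp ((hQ v hv).1 hev)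
        refine ⟨h2.2, ?_⟩
        have h3 := hO v e h2.2
        obtain ⟨w, hw'⟩ := Sym2.mem_iff_exists.mp h3
        refine ⟨w, hW1 ?_, hw'⟩
        rw [mem_filter]
        refine ⟨mem_univ _, v, hv, ?_⟩
        rw [← hw']
        exact (hQ v hv).1 hev
      · intro v hv
        rw [hPO v hv]
        exact (hQ v hv).2
    · intro e he
      rw [mem_biUnion] at he
      obtain ⟨v, hv, hev⟩ := he
      exact (mem_inter.mp ((hQ v hv).1 hev)).1
  refine ⟨⟨hex, ?_, fun v => (hN v).le⟩, fun hlast => ⟨hex, ?_, fun v => (hN v).le⟩⟩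
  · refine le_trans (card_le_card ?_) hl2
    intro v hv
    rw [mem_filter] at hv ⊢
    refine ⟨mem_univ _, ?_⟩
    have := hl1 v
    have := hv.2
    omega
  · rw [Nat.le_zero, card_eq_zero, filter_eq_empty_iff]
    intro v _ hv
    have := hl1 v
    have := hl3 v
    omega

end AF
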