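import Pool.Agent.Lib.MP_991c8b_co.Q2
import Pool.Agent.Lib.MP_991c8b_co.Q3
import Pool.Agent.Lib.MP_991c8b_co.Q4
import Pool.Agent.Lib.MP_991c8b_co.R6
import Pool.Agent.Lib.MP_991c8b_co.R7
import Pool.Agent.Lib.MP_991c8b_co.R8
import Pool.Agent.Lib.MP_991c8b_co.C1

/-!
# Q5: the reserve boards exist

PROOF. c, N from params (N also ≥ the N of phi0, seq_ok). k = kk n, K = k + 1, b = bb n f, N1 = 2 b + 3, b1 = b - (2 k + 28) (so
8 (10 k) + 24 ≤ b1, b1 + 23 + (2 K + 3) = b), F = 10 k, s j = sq n f K N1 (ss n f) j, W0 = (b+1)(f+1). For j < k: f1 = fj n f (s j),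
X = Xj n f N1 (s j), H = Hj; rows O j v = crow n (j W0) (W0 - f1 N1) v (f1 N1 ≤ H ≤ f ≤ W0), Y j = ⋃_v O j v, D = k W0, 2 D < n.
RP: O := O j, f, f1, N1, b, X, K, L := 23. Valid: crow_disj, crow_card. reserve: hO by crow_mem, hX by xcond, hw by pcount
(y = 1/(1+f1)) and phi0, hFs: F s j ≤ n because s j/n ≤ lg^(-200) and F ≤ lg^2. So there are J j, Good j, and for A ∩ Y j with Good j:
GoodR (O j) (s j) (s (j+1)) b1 F N1 (Gl .. 24 = s (j+1) by definition), and for j = k-1: s k ≤ 2 K + 3, so b1 + 23 + s k ≤ b and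
GoodR (O j) (s j) 0. chain with s' i = if i < k then s i else 0, R = ⋃ Y j: RX A R (ss n f) (N1 ss).
dg R v ≤ 2 D (crow_mono, crow_deg), 2^33 * 2 D = 2^34 k W0 ≤ n. Y j are pairwise disjoint by crow_disj
(intervals (j W0, j W0 + len] with len ≤ W0), Y j ⊆ KE n (no loops).
-/

namespace AF

open Finset

/-- the data of the j-th reserve board -/
noncomputable def q5p (n f : ℕ) [NeZero n] (j : ℕ) : RP (Fin n) (Sym2 (Fin n)) where
  O := fun v => crow n (j * ((bb n f + 1) * (f + 1)))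
    ((bb n f + 1) * (f + 1) -
      fj n f (sq n f (kk n + 1) (2 * bb n f + 3) (ss n f) j) * (2 * bb n f + 3)) v
  f := f
  f1 := fj n f (sq n f (kk n + 1) (2 * bb n f + 3) (ss n f) j)
  N1 := 2 * bb n f + 3
  b := bb n f
  X := Xj n f (2 * bb n f + 3) (sq n f (kk n + 1) (2 * bb n f + 3) (ss n f) j)
  K := kk n + 1
  L := 23

theorem reserve_main : ∃ c : ℝ, 0 < c ∧ ∃ N : ℕ, ∀ n : ℕ, N ≤ n → ∀ f : ℕ, 1 ≤ f →
    (f : ℝ) ≤ c * n / Real.log (Real.log n) ^ 2 → (3 / 100 : ℝ) * Cc n f ≤ Real.log n →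
    ∃ k r0 : ℕ, 2 ^ (k + 2) ≤ n ∧ 2 * (r0 : ℝ) * Real.log n ≤ Cc n f * n / 1000 ∧
      ∃ Y : Fin k → Finset (Sym2 (Fin n)), (∀ i j, i ≠ j → Disjoint (Y i) (Y j)) ∧
        (∀ j, Y j ⊆ KE n) ∧ (∀ v, dg (Finset.univ.biUnion Y) v * 2 ^ 33 ≤ n) ∧
        ∃ (J : Fin k → ℕ → Finset (Sym2 (Fin n)) → Finset (Sym2 (Fin n)) → Prop)
          (Good : Fin k → Finset (Sym2 (Fin n)) → Prop),
          (∀ j, IsBoard f (k + 1) (Y j) (J j) (Good j)) ∧
          ∀ A : Finset (Sym2 (Fin n)), (∀ j, Good j (A ∩ Y j)) →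
            RX A (Finset.univ.biUnion Y) (ss n f) r0 := by
  obtain ⟨c, hc, Na, ha⟩ := params
  obtain ⟨Nb, hb⟩ := phi0
  obtain ⟨Nc, hseq⟩ := seq_ok
  refine ⟨c, hc, max (max Na Nb) (max Nc 3), ?_⟩
  intro n hn f hf hfc hcase
  have hna : Na ≤ n := le_trans (by simp) hn
  have hnb : Nb ≤ n := le_trans (by simp) hn
  have hnc : Nc ≤ n := le_trans (by simp) hn
  have hn3 : 3 ≤ n := le_trans (by simp) hn
  have : NeZero n := ⟨by omega⟩
  obtain ⟨hC, hh⟩ := ha n hna f hf hfc
  obtain ⟨h2, h3, h4, h5, h6, h7, h8, h9, h10, h11, h12⟩ := hh hcase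
  have hfn : f ≤ n := by
    calc f ≤ 2 ^ 64 * f := Nat.le_mul_of_pos_left f (by positivity)
      _ ≤ n := hC
  have hkk : 1 ≤ kk n := by unfold kk; omega
  have hlog1 : 1 ≤ Real.log n := by
    have : (0 : ℝ) ≤ kk n := by positivity
    linarith
  obtain ⟨hs, hsl⟩ := hseq n hnc f (kk n + 1) (2 * bb n f + 3) (ss n f) (kk n) hf (by omega) hkk
    h5 h6 h11 hfn (by omega) h4 (by push_cast; linarith) h8
  set k := kk n with hk
  set b := bb n f with hbdef
  set W0 := (b + 1) * (f + 1) with hW0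
  set s : ℕ → ℕ := sq n f (k + 1) (2 * b + 3) (ss n f) with hsdef
  have hD : 2 * (k * W0) < n := by
    have h13 : 0 < k * W0 := by positivity
    omega
  have hfW : f ≤ W0 := by rw [hW0]; nlinarith
  -- the parameters of the boards
  have hp : ∀ j, j < k → (q5p n f j).Valid := by
    intro j hj
    obtain ⟨_, _, g3, g4, g5⟩ := hs j hj
    have hle : fj n f (s j) * (2 * b + 3) ≤ W0 := by
      refine le_trans (le_trans ?_ g5) hfW
      unfold Hj; exact Nat.le_add_right _ _
    have hin : 2 * (j * W0 + (W0 - fj n f (s j) * (2 * b + 3))) < n := by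
      refine lt_of_le_of_lt ?_ hD
      have : (j + 1) * W0 ≤ k * W0 := Nat.mul_le_mul_right _ hj
      have h14 : (j + 1) * W0 = j * W0 + W0 := by ring
      omega
    refine ⟨?_, ?_, ?_, ?_⟩
    · intro u v huv
      exact crow_disj u v hin hin (Or.inl huv)
    · intro v
      show (crow n (j * W0) (W0 - fj n f (s j) * (2 * b + 3)) v).card +
        fj n f (s j) * (2 * b + 3) = (b + 1) * (f + 1)
      rw [crow_card v hin]
      omega
    · exact g4
    · exact le_refl _
  have hin : ∀ j, j < k → 2 * (j * W0 + (W0 - fj n f (s j) * (2 * b + 3))) < n := by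
    intro j hj
    refine lt_of_le_of_lt ?_ hD
    have : (j + 1) * W0 ≤ k * W0 := Nat.mul_le_mul_right _ hj
    have h14 : (j + 1) * W0 = j * W0 + W0 := by ring
    omega
  have hbd : ∀ j : Fin k, ∃ J Good, IsBoard f (k + 1) (q5p n f j).Y J Good ∧
      ∀ A ⊆ (q5p n f j).Y, Good A →
        GoodR (q5p n f j).O (s j) (s (j + 1)) (b - (2 * k + 28)) (10 * k) (2 * b + 3) A ∧
        (b - (2 * k + 28) + 23 + s (j + 1) ≤ b →
          GoodR (q5p n f j).O (s j) 0 (b - (2 * k + 28)) (10 * k) (2 * b + 3) A) := by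
    intro j
    obtain ⟨g1, g2, g3, g4, g5⟩ := hs j j.2
    have hv := hp j j.2
    have hFs : 10 * k * s j ≤ n := by
      have e1 : ((10 * k : ℕ) : ℝ) * (s j : ℝ) ≤ n := by
        have hn0 : (0 : ℝ) < n := by
          have : 0 < n := by omega
          exact_mod_cast this
        have e2 : (s j : ℝ) ≤ n / Real.log n ^ 200 := by
          have := g2
          rw [div_le_div_iff₀ hn0 (by positivity)] at this
          rw [le_div_iff₀ (by positivity)]
          linarith
        calc ((10 * k : ℕ) : ℝ) * (s j : ℝ) ≤ Real.log n ^ 2 * (n / Real.log n ^ 200) :=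
              mul_le_mul h12 e2 (by positivity) (by positivity)
          _ = n * (Real.log n ^ 2 / Real.log n ^ 200) := by ring
          _ ≤ n * 1 := by
              apply mul_le_mul_of_nonneg_left _ hn0.le
              rw [div_le_one (by positivity)]
              exact pow_le_pow_right₀ hlog1 (by norm_num)
          _ = n := mul_one _
      exact_mod_cast e1
    have := reserve (n := n) (by omega) (q5p n f j) hv
      (fun v e he => (crow_mem v (hin j j.2) e he).1) g3 g5
      (by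
        have := xcond n f (2 * b + 3) (s j) (by omega) g3
        exact this)
      (s j) (b - (2 * k + 28)) (10 * k)
      (le_trans (pcount _ hv.dis _ _ _ _ (by positivity))
        (hb n hnb f (s j) (b - (2 * k + 28)) (10 * k) g1 g2 h11 h12 (by omega) (by omega)))
      (by show b - (2 * k + 28) + 23 ≤ b; omega) hFs
    obtain ⟨J, Good, hB, hG⟩ := this
    exact ⟨J, Good, hB, hG⟩
  choose J Good hB hG using hbd
  refine ⟨k, (2 * b + 3) * ss n f, h2, h7, fun j => (q5p n f j).Y, ?_, ?_, ?_, J, Good, hB, ?_⟩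
  · intro i j hij
    unfold RP.Y
    rw [Finset.disjoint_biUnion_left]
    intro u _
    rw [Finset.disjoint_biUnion_right]
    intro v _
    refine crow_disj u v (hin i i.2) (hin j j.2) (Or.inr ?_)
    rcases lt_or_gt_of_ne (fun h => hij (Fin.ext h) : (i : ℕ) ≠ (j : ℕ)) with h | h
    · left
      have : ((i : ℕ) + 1) * W0 ≤ (j : ℕ) * W0 := Nat.mul_le_mul_right _ h
      have h14 : ((i : ℕ) + 1) * W0 = (i : ℕ) * W0 + W0 := by ring
      show (i : ℕ) * W0 + (W0 - _) ≤ (j : ℕ) * W0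
      omega
    · right
      have : ((j : ℕ) + 1) * W0 ≤ (i : ℕ) * W0 := Nat.mul_le_mul_right _ h
      have h14 : ((j : ℕ) + 1) * W0 = (j : ℕ) * W0 + W0 := by ring
      show (j : ℕ) * W0 + (W0 - _) ≤ (i : ℕ) * W0
      omega
  · intro j e he
    unfold RP.Y at he
    rw [mem_biUnion] at he
    obtain ⟨v, _, hv⟩ := he
    have := (crow_mem v (hin j j.2) e hv).2
    induction e with
    | _ x y =>
      rw [Sym2.mk_isDiag_iff] at this
      simp only [KE, SimpleGraph.mem_edgeFinset, SimpleGraph.mem_edgeSet, SimpleGraph.top_adj]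
      exact this
  · intro v
    have h15 : dg (Finset.univ.biUnion (fun j : Fin k => (q5p n f j).Y)) v ≤ 2 * (k * W0) := by
      apply crow_deg
      intro e he
      rw [mem_biUnion] at he
      obtain ⟨j, _, hj⟩ := he
      unfold RP.Y at hj
      rw [mem_biUnion] at hj
      obtain ⟨u, _, hu⟩ := hj
      rw [mem_biUnion]
      refine ⟨u, mem_univ _, crow_mono u ?_ hu⟩
      have : ((j : ℕ) + 1) * W0 ≤ k * W0 := Nat.mul_le_mul_right _ j.2
      have h14 : ((j : ℕ) + 1) * W0 = (j : ℕ) * W0 + W0 := by ring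
      show (j : ℕ) * W0 + (W0 - _) ≤ k * W0
      omega
    calc dg (Finset.univ.biUnion (fun j : Fin k => (q5p n f j).Y)) v * 2 ^ 33
        ≤ 2 * (k * W0) * 2 ^ 33 := Nat.mul_le_mul_right _ h15
      _ = 2 ^ 34 * (k * W0) := by ring
      _ ≤ n := h10
  · intro A hA
    have hch := chain (n := n) (k := k) hkk (fun j => (q5p n f j).O)
      (fun i => if i < k then s i else 0) (b - (2 * k + 28)) (2 * b + 3) A
      (Finset.univ.biUnion (fun j : Fin k => (q5p n f j).Y)) ?_ ?_ (by simp)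
    · have h0 : (if 0 < k then s 0 else 0) = ss n f := by
        rw [if_pos (by omega)]; rfl
      simp only [h0] at hch
      exact hch
    · intro j v e he
      rw [mem_biUnion]
      exact ⟨j, mem_univ _, by unfold RP.Y; rw [mem_biUnion]; exact ⟨v, mem_univ _, he⟩⟩
    · intro j
      obtain ⟨q1, q2⟩ := hG j (A ∩ (q5p n f j).Y) inter_subset_right (hA j)
      show GoodR (q5p n f j).O (if (j : ℕ) < k then s j else 0)
        (if (j : ℕ) + 1 < k then s (j + 1) else 0) _ _ _ (A ∩ (q5p n f j).Y)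
      rw [if_pos j.2]
      by_cases hlast : (j : ℕ) + 1 < k
      · rw [if_pos hlast]; exact q1
      · rw [if_neg hlast]
        apply q2
        have h16 : (j : ℕ) + 1 = k := by have := j.2; omega
        rw [h16]
        omega

end AF
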