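import Pool.Agent.Lib.MP_991c8b_co.Defs

/-!
# Parameters of the reserve boards
-/

namespace AF

/-- control claims per turn in the reserve board for s dangerous rows -/
noncomputable def fj (n f s : ℕ) : ℕ := ⌈Real.sqrt ((s : ℝ) / n) * f⌉₊

def ml (n N1 : ℕ) : ℕ := Nat.log 2 (2 * n * N1) + 1

noncomputable def Xj (n f N1 s : ℕ) : ℕ := N1 * fj n f s * ml n N1

noncomputable def Hj (n f N1 s : ℕ) : ℕ := fj n f s * N1 + Xj n f N1 s

/-- the numbers of dangerous rows -/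
noncomputable def sq (n f K N1 s0 : ℕ) : ℕ → ℕ
  | 0 => s0
  | j + 1 => Gl n f K (Hj n f N1 (sq n f K N1 s0 j)) 24

/-- number of reserve boards -/
noncomputable def kk (n : ℕ) : ℕ := ⌈Real.log (Real.log n)⌉₊ + 3

noncomputable def bb (n f : ℕ) : ℕ := ⌊Cc n f / (2 ^ 36 * kk n)⌋₊

end AF
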