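import Pool.Agent.Lib.MP_991c8b_co.Defs

/-!
# R1: the control potential (a control oracle exists)

Let f1 = p.f1 ≥ 1, N1 = p.N1, m = |V| ≥ 1, γ = 1/(4 m N1), β = 1 + 1/(N1 f1). (N1 ≥ 3 by Valid.) Rows are
disjoint. Potential
 Om A F x = ∑ P ∈ PP with Disjoint P F, (1/(1+f1))^|P \ A| + γ ∑ v, (N1 - |A ∩ O v| : real) β^(x v).
C A F x := (for all v, |A ∩ O v| < N1) → [Om A F x ≤ 1/2 and for all e ∈ Y \ (A ∪ F), Om (insert e A) F x ≤ 1/2].
(Write it as an implication or, as you like, with truncated terms; only the five facts of CtlOK and the last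
claim count. NOTE the claims of CtlOK.bound and the last claim below have |A ∩ O v| < N1 as hypothesis
only for ONE row v in bound; so it is more convenient to use the real number
max (N1 - |A ∩ O v|) 0 =: c_v(A), i.e. the natural subtraction (N1 - |A ∩ O v| : ℕ), all terms ≥ 0, and
C A F x := Om A F x ≤ 1/2 ∧ ∀ e ∈ Y \ (A ∪ F), Om (insert e A) F x ≤ 1/2 without the implication.)
PROOF with natural subtraction c_v(A) = N1 - |A ∩ O v|:
init: Om ∅ ∅ 0 = Φ0 + γ m N1 = Φ0 + 1/4, Φ0 = ∑ (1/(1+f1))^|P| ≤ 1/(4(1+f1)); Om {e} ∅ 0 ≤ (1+f1) Φ0 + 1/4 ≤ 1/2.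
mono: larger F: fewer sets P, fewer free e.
bound: if |A ∩ O v| < N1 then c_v ≥ 1, so γ β^(x v) ≤ Om ≤ 1/2 (all terms ≥ 0), β^(x v) ≤ 2 m N1 < β^(X+1)
(hypothesis hX), so x v ≤ X.
step: e is claimed, A' = insert e A, all rows have |A' ∩ O v| < N1. We know Om A' F x ≤ 1/2. For a position
(A', F', x') and free g ∈ O v (g is in exactly one row v) let p g = ∑ P ∈ PP, Disjoint P F', g ∈ P of (1/(1+f1))^|P \ A'|
and sg g = f1 p g - γ β^(x' v). Then
 (i) Om (insert g A') F' x' = Om A' F' x' + sg g (as |A' ∩ O v| < N1, c_v drops by exactly 1);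
 (ii) if Forcer claims g as a control claim (F'' = insert g F', x'' = x' with x'' v = x' v + 1):
   Om A' F'' x'' ≤ Om A' F' x' - p g + γ N1 β^(x' v) (β - 1) = Om A' F' x' - sg g / f1;
 (iii) sg of the other elements does not increase by such a claim.
Greedy: as long as there were fewer than f1 control claims and some free g has sg g > 0, claim the free g with
maximal sg. Let B be the set of the control claims (x' v = x v + |B ∩ O v|). By (ii) Om A' (F ∪ B) x' ≤ Om A' F x ≤ 1/2.
Let e' be free at the end. If sg e' ≤ 0 then Om (insert e' A') (F ∪ B) x' ≤ Om A' (F ∪ B) x' ≤ 1/2 by (i). Otherwise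
there were exactly f1 claims, each with sg ≥ sg e' (final) by maximality and (iii), so
Om A' (F ∪ B) x' ≤ Om A' F x - f1 * (sg e' / f1), and (i) gives Om (insert e' A') .. ≤ Om A' F x ≤ 1/2.
(As an induction: for every j ≤ f1 there is B with |B| ≤ j such that for all free e' ∉ B:
Om A' (F ∪ B) x' + (j / f1) * max (sg e') 0 ≤ Om A' F x, and Om A' (F ∪ B) x' ≤ Om A' F x. Step: if no free g has
sg g > 0 keep B, otherwise add the maximal g: Om drops by sg g / f1 ≥ sg e'(new) / f1 and sg decreases.)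
last claim: P ∈ PP, P ⊆ A, Disjoint A F: then Disjoint P F, the term of P is 1, so Om ≥ 1 > 1/2.
-/

namespace AF

open Finset

variable {V E : Type} [Fintype V] [DecidableEq V] [DecidableEq E]

private noncomputable def rPh (lm : ℝ) (PP : Finset (Finset E)) (A F : Finset E) : ℝ :=
  ∑ P ∈ PP, if Disjoint P F then lm ^ (P \ A).card else 0

private noncomputable def rpg (lm : ℝ) (PP : Finset (Finset E)) (A F : Finset E) (g : E) : ℝ :=
  ∑ P ∈ PP, if Disjoint P F then (if g ∈ P then lm ^ (P \ A).card else 0) else 0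

private noncomputable def rRw (p : RP V E) (γ β : ℝ) (A : Finset E) (x : V → ℕ) : ℝ :=
  ∑ v, γ * (((p.N1 - (A ∩ p.O v).card : ℕ) : ℝ) * β ^ (x v))

private theorem rPh_insertA {lm f1 : ℝ} (hl : lm * (1 + f1) = 1) (PP : Finset (Finset E))
    (A F : Finset E) (g : E) (hg : g ∉ A) :
    rPh lm PP (insert g A) F = rPh lm PP A F + f1 * rpg lm PP A F g := by
  unfold rPh rpg
  rw [Finset.mul_sum, ← Finset.sum_add_distrib]
  refine Finset.sum_congr rfl fun P _ => ?_
  by_cases h1 : Disjoint P F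
  · rw [if_pos h1, if_pos h1, if_pos h1]
    by_cases h2 : g ∈ P
    · rw [if_pos h2]
      have h3 : (P \ A).card = (P \ insert g A).card + 1 := by
        rw [Finset.sdiff_insert, Finset.card_erase_of_mem (Finset.mem_sdiff.2 ⟨h2, hg⟩)]
        have := Finset.card_pos.2 ⟨g, Finset.mem_sdiff.2 ⟨h2, hg⟩⟩
        omega
      rw [h3, pow_succ]
      linear_combination (-(lm ^ (P \ insert g A).card)) * hl
    · rw [if_neg h2, Finset.sdiff_insert,
        Finset.erase_eq_of_notMem (fun h => h2 (Finset.mem_sdiff.1 h).1)]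
      ring
  · rw [if_neg h1, if_neg h1, if_neg h1]; ring

private theorem rPh_insertF (lm : ℝ) (PP : Finset (Finset E)) (A F : Finset E) (g : E) :
    rPh lm PP A (insert g F) = rPh lm PP A F - rpg lm PP A F g := by
  unfold rPh rpg
  rw [← Finset.sum_sub_distrib]
  refine Finset.sum_congr rfl fun P _ => ?_
  by_cases h1 : Disjoint P F
  · by_cases h2 : g ∈ P
    · have h3 : ¬ Disjoint P (insert g F) := by
        rw [Finset.disjoint_insert_right]; exact fun h => h.1 h2
      rw [if_neg h3, if_pos h1, if_pos h1, if_pos h2]; ring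
    · have h3 : Disjoint P (insert g F) := by
        rw [Finset.disjoint_insert_right]; exact ⟨h2, h1⟩
      rw [if_pos h3, if_pos h1, if_pos h1, if_neg h2]; ring
  · have h3 : ¬ Disjoint P (insert g F) := by
      rw [Finset.disjoint_insert_right]; exact fun h => h1 h.2
    rw [if_neg h3, if_neg h1, if_neg h1]; ring

private theorem rPh_anti {lm : ℝ} (hl : 0 ≤ lm) (PP : Finset (Finset E)) (A : Finset E)
    {F F' : Finset E} (h : F ⊆ F') : rPh lm PP A F' ≤ rPh lm PP A F := by
  unfold rPh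
  refine Finset.sum_le_sum fun P _ => ?_
  by_cases h1 : Disjoint P F'
  · rw [if_pos h1, if_pos (h1.mono_right h)]
  · rw [if_neg h1]
    split_ifs
    · positivity
    · exact le_rfl

private theorem rpg_anti {lm : ℝ} (hl : 0 ≤ lm) (PP : Finset (Finset E)) (A : Finset E)
    {F F' : Finset E} (h : F ⊆ F') (g : E) : rpg lm PP A F' g ≤ rpg lm PP A F g := by
  unfold rpg
  refine Finset.sum_le_sum fun P _ => ?_
  by_cases h1 : Disjoint P F'
  · rw [if_pos h1, if_pos (h1.mono_right h)]
  · rw [if_neg h1]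
    split_ifs
    · positivity
    · exact le_rfl
    · exact le_rfl

private theorem rRw_insertA (p : RP V E) (hp : p.Valid) (γ β : ℝ) (A : Finset E) (x : V → ℕ)
    (g : E) (hg : g ∉ A) (v : V) (hv : g ∈ p.O v) (hN : (A ∩ p.O v).card < p.N1) :
    rRw p γ β (insert g A) x = rRw p γ β A x - γ * β ^ (x v) := by
  unfold rRw
  rw [← Finset.add_sum_erase _ _ (Finset.mem_univ v),
    ← Finset.add_sum_erase Finset.univ _ (Finset.mem_univ v)]
  have h1 : ∑ u ∈ Finset.univ.erase v,
      γ * (((p.N1 - (insert g A ∩ p.O u).card : ℕ) : ℝ) * β ^ (x u)) =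
      ∑ u ∈ Finset.univ.erase v, γ * (((p.N1 - (A ∩ p.O u).card : ℕ) : ℝ) * β ^ (x u)) := by
    refine Finset.sum_congr rfl fun u hu => ?_
    have huv : u ≠ v := Finset.ne_of_mem_erase hu
    have hgu : g ∉ p.O u := fun h => Finset.disjoint_left.1 (hp.dis u v huv) h hv
    rw [Finset.insert_inter_of_notMem hgu]
  have h2 : (insert g A ∩ p.O v).card = (A ∩ p.O v).card + 1 := by
    rw [Finset.insert_inter_of_mem hv, Finset.card_insert_of_notMem]
    exact fun h => hg (Finset.mem_inter.1 h).1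
  have h3 : ((p.N1 - (A ∩ p.O v).card : ℕ) : ℝ) =
      ((p.N1 - (insert g A ∩ p.O v).card : ℕ) : ℝ) + 1 := by
    have : p.N1 - (A ∩ p.O v).card = (p.N1 - (insert g A ∩ p.O v).card) + 1 := by omega
    rw [this]; push_cast; rfl
  rw [h1, h3]
  ring

omit [DecidableEq V] in
private theorem rRw_nonneg (p : RP V E) {γ β : ℝ} (hγ : 0 ≤ γ) (hβ : 0 ≤ β) (A : Finset E)
    (x : V → ℕ) : 0 ≤ rRw p γ β A x := by
  unfold rRw
  exact Finset.sum_nonneg fun v _ => by positivity

private theorem rPh_nonneg {lm : ℝ} (hl : 0 ≤ lm) (PP : Finset (Finset E)) (A F : Finset E) :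
    0 ≤ rPh lm PP A F := by
  unfold rPh
  refine Finset.sum_nonneg fun P _ => ?_
  split_ifs
  · positivity
  · exact le_rfl

private theorem rRw_upd (p : RP V E) {γ β : ℝ} (hγ : 0 ≤ γ) (hβ : 0 < β)
    {f1 : ℝ} (hf : 0 < f1) (hβ1 : (β - 1) * (p.N1 * f1) = 1) (hN : 0 < p.N1)
    (A : Finset E) (x x' : V → ℕ) (v : V) (hx : ∀ u, x' u = x u + if u = v then 1 else 0) :
    rRw p γ β A x' ≤ rRw p γ β A x + γ * β ^ (x v) / f1 := by
  unfold rRw
  rw [← Finset.add_sum_erase _ _ (Finset.mem_univ v),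
    ← Finset.add_sum_erase Finset.univ _ (Finset.mem_univ v)]
  have h1 : ∑ u ∈ Finset.univ.erase v,
      γ * (((p.N1 - (A ∩ p.O u).card : ℕ) : ℝ) * β ^ (x' u)) =
      ∑ u ∈ Finset.univ.erase v, γ * (((p.N1 - (A ∩ p.O u).card : ℕ) : ℝ) * β ^ (x u)) := by
    refine Finset.sum_congr rfl fun u hu => ?_
    rw [hx u, if_neg (Finset.ne_of_mem_erase hu), Nat.add_zero]
  rw [h1, hx v, if_pos rfl, pow_succ]
  have hc0 : (0 : ℝ) ≤ ((p.N1 - (A ∩ p.O v).card : ℕ) : ℝ) := Nat.cast_nonneg _
  have hc1 : ((p.N1 - (A ∩ p.O v).card : ℕ) : ℝ) ≤ p.N1 := by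
    exact_mod_cast Nat.sub_le _ _
  have hN0 : (0 : ℝ) < p.N1 := by exact_mod_cast hN
  have hb : 0 < β ^ (x v) := by positivity
  generalize ((p.N1 - (A ∩ p.O v).card : ℕ) : ℝ) = c at hc0 hc1 ⊢
  have hb1 : β - 1 = 1 / (p.N1 * f1) := by
    rw [eq_div_iff (by positivity)]; exact hβ1
  have h2 : c * (β - 1) ≤ 1 / f1 := by
    rw [hb1, mul_one_div, div_le_div_iff₀ (by positivity) hf]
    nlinarith
  have h3 : γ * (c * (β ^ (x v) * β)) = γ * (c * β ^ (x v)) + γ * β ^ (x v) * (c * (β - 1)) := by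
    ring
  have h4 : γ * β ^ (x v) * (c * (β - 1)) ≤ γ * β ^ (x v) * (1 / f1) :=
    mul_le_mul_of_nonneg_left h2 (by positivity)
  rw [h3]
  have h5 : γ * β ^ (x v) * (1 / f1) = γ * β ^ (x v) / f1 := by ring
  rw [h5] at h4
  linarith

theorem ctrl (p : RP V E) (hp : p.Valid) (hV : 1 ≤ Fintype.card V) (hf1 : 1 ≤ p.f1)
    (PP : Finset (Finset E))
    (hw : ∑ P ∈ PP, (1 / (1 + (p.f1 : ℝ))) ^ P.card ≤ 1 / (4 * (1 + (p.f1 : ℝ))))
    (hX : (2 * Fintype.card V * p.N1 : ℝ) < (1 + 1 / ((p.N1 : ℝ) * p.f1)) ^ (p.X + 1)) :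
    ∃ C, CtlOK p C ∧ ∀ A F x, C A F x → Disjoint A F → ∀ P ∈ PP, ¬ P ⊆ A := by
  have hN : 0 < p.N1 := by have := hp.hN; omega
  have hN0 : (0 : ℝ) < p.N1 := by exact_mod_cast hN
  have hf0 : (0 : ℝ) < p.f1 := by exact_mod_cast hf1
  have hf1' : (1 : ℝ) ≤ p.f1 := by exact_mod_cast hf1
  have hm0 : (0 : ℝ) < (Fintype.card V : ℝ) := by exact_mod_cast hV
  obtain ⟨lm, hlm⟩ : ∃ lm : ℝ, lm = 1 / (1 + (p.f1 : ℝ)) := ⟨_, rfl⟩
  obtain ⟨γ, hγ⟩ : ∃ γ : ℝ, γ = 1 / (4 * Fintype.card V * p.N1) := ⟨_, rfl⟩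
  obtain ⟨β, hβ⟩ : ∃ β : ℝ, β = 1 + 1 / ((p.N1 : ℝ) * p.f1) := ⟨_, rfl⟩
  have hlm0 : 0 < lm := by rw [hlm]; positivity
  have hlm1 : lm * (1 + (p.f1 : ℝ)) = 1 := by rw [hlm]; field_simp
  have hγ0 : 0 < γ := by rw [hγ]; positivity
  have hβ0 : 1 < β := by
    rw [hβ]
    have : 0 < 1 / ((p.N1 : ℝ) * p.f1) := by positivity
    linarith
  have hβp : 0 < β := by linarith
  have hβ1 : (β - 1) * (p.N1 * p.f1) = 1 := by rw [hβ]; field_simp; ring
  rw [← hlm] at hw
  rw [← hβ] at hX
  obtain ⟨Om, hOm⟩ : ∃ Om : Finset E → Finset E → (V → ℕ) → ℝ,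
      ∀ A F x, Om A F x = rPh lm PP A F + rRw p γ β A x := ⟨_, fun _ _ _ => rfl⟩
  have hOmF : ∀ A F F' x, F ⊆ F' → Om A F' x ≤ Om A F x := by
    intro A F F' x h
    rw [hOm, hOm]
    have := rPh_anti hlm0.le PP A h
    linarith
  have hrow0 : ∀ A : Finset E, rRw p γ β A (fun _ => 0) ≤ 1 / 4 := by
    intro A
    unfold rRw
    have h1 : ∀ v ∈ (Finset.univ : Finset V),
        γ * (((p.N1 - (A ∩ p.O v).card : ℕ) : ℝ) * β ^ 0) ≤ γ * p.N1 := by
      intro v _
      rw [pow_zero, mul_one]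
      apply mul_le_mul_of_nonneg_left _ hγ0.le
      exact_mod_cast Nat.sub_le _ _
    refine (Finset.sum_le_sum h1).trans ?_
    rw [Finset.sum_const, Finset.card_univ, nsmul_eq_mul, hγ]
    apply le_of_eq
    field_simp
  refine ⟨fun A F x => Om A F x ≤ 1 / 2 ∧ ∀ e ∈ p.Y \ (A ∪ F), Om (insert e A) F x ≤ 1 / 2,
    ⟨?_, ?_, ?_, ?_⟩, ?_⟩
  · -- init
    have h0 : rPh lm PP ∅ ∅ ≤ 1 / (4 * (1 + (p.f1 : ℝ))) := by
      refine le_trans (le_of_eq ?_) hw
      unfold rPh
      refine Finset.sum_congr rfl fun P _ => ?_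
      rw [if_pos (Finset.disjoint_empty_right _), Finset.sdiff_empty]
    have h4 : 1 / (4 * (1 + (p.f1 : ℝ))) ≤ 1 / 8 := by
      apply one_div_le_one_div_of_le (by norm_num)
      linarith
    refine ⟨?_, ?_⟩
    · rw [hOm]
      have := hrow0 ∅
      linarith
    · intro e _
      have h1 := hrow0 (insert e ∅)
      rw [hOm]
      have h2 := rPh_insertA hlm1 PP ∅ ∅ e (Finset.notMem_empty e)
      have h3 : rpg lm PP ∅ ∅ e ≤ rPh lm PP ∅ ∅ := by
        unfold rpg rPh
        refine Finset.sum_le_sum fun P _ => ?_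
        rw [if_pos (Finset.disjoint_empty_right _), if_pos (Finset.disjoint_empty_right _)]
        split_ifs
        · exact le_rfl
        · positivity
      have h5 : rPh lm PP (insert e ∅) ∅ ≤ 1 / 4 := by
        rw [h2]
        have h6 : (1 + (p.f1 : ℝ)) * rPh lm PP ∅ ∅ ≤
            (1 + (p.f1 : ℝ)) * (1 / (4 * (1 + (p.f1 : ℝ)))) :=
          mul_le_mul_of_nonneg_left h0 (by positivity)
        have h7 : (1 + (p.f1 : ℝ)) * (1 / (4 * (1 + (p.f1 : ℝ)))) = 1 / 4 := by field_simp
        have h8 := mul_le_mul_of_nonneg_left h3 hf0.le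
        linarith
      linarith
  · -- step
    intro A F x e hC hAY hFY hAF he hrows
    obtain ⟨A', hA'⟩ : ∃ A', A' = insert e A := ⟨_, rfl⟩
    rw [← hA'] at hrows ⊢
    have hstart : Om A' F x ≤ 1 / 2 := by rw [hA']; exact hC.2 e he
    -- the row of an element
    have hrow : ∀ g ∈ p.Y, ∃ v, g ∈ p.O v := by
      intro g hg
      unfold RP.Y at hg
      rw [Finset.mem_biUnion] at hg
      obtain ⟨v, -, hv⟩ := hg
      exact ⟨v, hv⟩
    have : Nonempty V := Fintype.card_pos_iff.1 hV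
    choose! row hrowspec using hrow
    obtain ⟨xB, hxB⟩ : ∃ xB : Finset E → V → ℕ, ∀ B, xB B = fun v => x v + (B ∩ p.O v).card :=
      ⟨_, fun _ => rfl⟩
    obtain ⟨sg, hsg⟩ : ∃ sg : Finset E → E → ℝ, ∀ B g, sg B g =
        p.f1 * rpg lm PP A' (F ∪ B) g - γ * β ^ (xB B (row g)) := ⟨_, fun _ _ => rfl⟩
    have hind : ∀ j : ℕ, j ≤ p.f1 → ∃ B ⊆ p.Y \ (A' ∪ F), B.card ≤ j ∧
        Om A' (F ∪ B) (xB B) ≤ Om A' F x ∧
        ∀ g ∈ (p.Y \ (A' ∪ F)) \ B,
          Om A' (F ∪ B) (xB B) + (j : ℝ) / p.f1 * max (sg B g) 0 ≤ Om A' F x := by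
      intro j
      induction j with
      | zero =>
        intro _
        have h0 : xB ∅ = x := by
          rw [hxB]; funext v; simp
        refine ⟨∅, Finset.empty_subset _, by simp, ?_, ?_⟩
        · rw [Finset.union_empty, h0]
        · intro g _
          rw [Finset.union_empty, h0]
          simp
      | succ j ih =>
        intro hj
        obtain ⟨B, hBU, hBc, hB1, hB2⟩ := ih (by omega)
        by_cases hex : ∃ g ∈ (p.Y \ (A' ∪ F)) \ B, 0 < sg B g
        · obtain ⟨g0, hg0, hg0pos⟩ := hex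
          obtain ⟨g, hg, hgmax⟩ := Finset.exists_max_image ((p.Y \ (A' ∪ F)) \ B) (sg B) ⟨g0, hg0⟩
          have hgpos : 0 < sg B g := lt_of_lt_of_le hg0pos (hgmax g0 hg0)
          rw [Finset.mem_sdiff] at hg
          obtain ⟨hgU, hgB⟩ := hg
          have hgY : g ∈ p.Y := (Finset.mem_sdiff.1 hgU).1
          have hgO := hrowspec g hgY
          have hxB' : ∀ u, xB (insert g B) u = xB B u + if u = row g then 1 else 0 := by
            intro u
            rw [hxB, hxB]
            simp only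
            by_cases hu : u = row g
            · rw [if_pos hu, hu, Finset.insert_inter_of_mem hgO, Finset.card_insert_of_notMem
                (fun h => hgB (Finset.mem_inter.1 h).1)]
              omega
            · rw [if_neg hu, Finset.insert_inter_of_notMem]
              · rfl
              · exact fun h => Finset.disjoint_left.1 (hp.dis u (row g) hu) h hgO
          have hFB : F ∪ insert g B = insert g (F ∪ B) := Finset.union_insert _ _ _
          have hdrop : Om A' (F ∪ insert g B) (xB (insert g B)) ≤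
              Om A' (F ∪ B) (xB B) - sg B g / p.f1 := by
            rw [hOm, hOm, hFB, rPh_insertF, hsg]
            have h1 := rRw_upd p hγ0.le hβp hf0 hβ1 hN A' (xB B) (xB (insert g B)) (row g) hxB'
            have h2 : (p.f1 * rpg lm PP A' (F ∪ B) g - γ * β ^ (xB B (row g))) / p.f1 =
                rpg lm PP A' (F ∪ B) g - γ * β ^ (xB B (row g)) / p.f1 := by
              field_simp
            rw [h2]
            linarith
          have hsgle : ∀ e', sg (insert g B) e' ≤ sg B e' := by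
            intro e'
            rw [hsg, hsg, hFB]
            have h1 := rpg_anti hlm0.le PP A' (Finset.subset_insert g (F ∪ B)) e'
            have h2 : β ^ (xB B (row e')) ≤ β ^ (xB (insert g B) (row e')) := by
              apply pow_le_pow_right₀ hβ0.le
              rw [hxB']
              exact Nat.le_add_right _ _
            have h3 := mul_le_mul_of_nonneg_left h1 hf0.le
            have h4 := mul_le_mul_of_nonneg_left h2 hγ0.le
            linarith
          have hsgf : 0 < sg B g / p.f1 := by positivity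
          refine ⟨insert g B, ?_, ?_, ?_, ?_⟩
          · intro a ha
            rcases Finset.mem_insert.1 ha with rfl | ha
            · exact hgU
            · exact hBU ha
          · exact (Finset.card_insert_le _ _).trans (by omega)
          · linarith
          · intro e' he'
            rw [Finset.mem_sdiff, Finset.mem_insert, not_or] at he'
            have he'' : e' ∈ (p.Y \ (A' ∪ F)) \ B := Finset.mem_sdiff.2 ⟨he'.1, he'.2.2⟩
            have h1 := hgmax e' he''
            have h2 := hsgle e'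
            have h3 : max (sg (insert g B) e') 0 ≤ sg B g := max_le (h2.trans h1) hgpos.le
            have h4 := hB2 g (Finset.mem_sdiff.2 ⟨hgU, hgB⟩)
            rw [max_eq_left hgpos.le] at h4
            have h5 : ((j + 1 : ℕ) : ℝ) / p.f1 * max (sg (insert g B) e') 0 ≤
                ((j + 1 : ℕ) : ℝ) / p.f1 * sg B g :=
              mul_le_mul_of_nonneg_left h3 (by positivity)
            have h6 : ((j + 1 : ℕ) : ℝ) / p.f1 * sg B g =
                (j : ℝ) / p.f1 * sg B g + sg B g / p.f1 := by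
              push_cast; ring
            linarith
        · push Not at hex
          refine ⟨B, hBU, by omega, hB1, ?_⟩
          intro g hg
          rw [max_eq_right (hex g hg), mul_zero, add_zero]
          exact hB1
    obtain ⟨B, hBU, hBc, hB1, hB2⟩ := hind p.f1 le_rfl
    refine ⟨B, hBU, hBc, ?_, ?_⟩
    · have h1 : (fun v => x v + (B ∩ p.O v).card) = xB B := (hxB B).symm
      rw [h1]
      exact hB1.trans hstart
    · intro e' he'
      have h1 : (fun v => x v + (B ∩ p.O v).card) = xB B := (hxB B).symm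
      rw [h1]
      rw [Finset.mem_sdiff, Finset.mem_union, Finset.mem_union, not_or, not_or] at he'
      obtain ⟨heY, heA, heF, heB⟩ := he'
      have hmem : e' ∈ (p.Y \ (A' ∪ F)) \ B := by
        rw [Finset.mem_sdiff, Finset.mem_sdiff, Finset.mem_union, not_or]
        exact ⟨⟨heY, heA, heF⟩, heB⟩
      have h2 := hB2 e' hmem
      have h3 : ((p.f1 : ℕ) : ℝ) / p.f1 = 1 := div_self hf0.ne'
      rw [h3, one_mul] at h2
      have h4 : Om (insert e' A') (F ∪ B) (xB B) = Om A' (F ∪ B) (xB B) + sg B e' := by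
        rw [hOm, hOm, hsg, rPh_insertA hlm1 PP A' (F ∪ B) e' heA,
          rRw_insertA p hp γ β A' (xB B) e' heA (row e') (hrowspec e' heY) (hrows _)]
        ring
      rw [h4]
      have h5 := le_max_left (sg B e') 0
      linarith
  · -- mono
    intro A F x B hC hB
    refine ⟨(hOmF A F (F ∪ B) x Finset.subset_union_left).trans hC.1, ?_⟩
    intro e he
    refine (hOmF _ F (F ∪ B) x Finset.subset_union_left).trans (hC.2 e ?_)
    rw [Finset.mem_sdiff, Finset.mem_union] at he ⊢
    refine ⟨he.1, fun h => he.2 ?_⟩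
    rcases h with h | h
    · exact Or.inl h
    · exact Or.inr (Finset.mem_union_left _ h)
  · -- bound
    intro A F x v hC hv
    by_contra hlt
    push Not at hlt
    have h1 : γ * β ^ (x v) ≤ rRw p γ β A x := by
      unfold rRw
      have h2 : γ * (((p.N1 - (A ∩ p.O v).card : ℕ) : ℝ) * β ^ (x v)) ≤
          ∑ v, γ * (((p.N1 - (A ∩ p.O v).card : ℕ) : ℝ) * β ^ (x v)) :=
        Finset.single_le_sum (f := fun v =>
          γ * (((p.N1 - (A ∩ p.O v).card : ℕ) : ℝ) * β ^ (x v)))
          (fun u _ => by positivity) (Finset.mem_univ v)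
      refine le_trans ?_ h2
      apply mul_le_mul_of_nonneg_left _ hγ0.le
      have h3 : (1 : ℝ) ≤ ((p.N1 - (A ∩ p.O v).card : ℕ) : ℝ) := by
        have : 1 ≤ p.N1 - (A ∩ p.O v).card := by omega
        exact_mod_cast this
      have h4 : 0 < β ^ (x v) := by positivity
      nlinarith
    have h2 := hC.1
    rw [hOm] at h2
    have h3 := rPh_nonneg hlm0.le PP A F
    have h4 : γ * β ^ (x v) ≤ 1 / 2 := by linarith
    have h5 : β ^ (p.X + 1) ≤ β ^ (x v) := pow_le_pow_right₀ hβ0.le (by omega)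
    have h6 := mul_lt_mul_of_pos_left (hX.trans_le h5) hγ0
    have h7 : γ * (2 * Fintype.card V * p.N1) = 1 / 2 := by
      rw [hγ]; field_simp; norm_num
    linarith
  · -- last claim
    intro A F x hC hAF P hP hPA
    have h1 := hC.1
    rw [hOm] at h1
    have h2 := rRw_nonneg p hγ0.le hβp.le A x
    have h3 : (1 : ℝ) ≤ rPh lm PP A F := by
      unfold rPh
      have h4 := Finset.single_le_sum (f := fun P => if Disjoint P F then lm ^ (P \ A).card else 0)
        (fun Q _ => by
          split_ifs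
          · positivity
          · exact le_rfl) hP
      refine le_trans ?_ h4
      rw [if_pos (hAF.mono_left hPA), Finset.sdiff_eq_empty_iff_subset.2 hPA]
      simp
    linarith

end AF
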