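import Pool.Agent.Lib.MP_991c8b_co.Defs

/-!
# R2: choice of a collector (with change of level)

FACT (compb, needed again in R5): ROK with d ≤ K and o arbitrary gives s.comp ≤ Gl .. (s.lev + 1):
(f+1) comp ≤ (1+d) f + H M - H nact - ... ≤ (1+K) f + H Gl(lev) by bud and Mb, divide by f + 1
(Nat.le_div_iff_mul_le).
PROOF of rcol. If s.col ≠ none take s' = s. Let s.col = none, so s.Z = 0 (coln). There is an active row c
(a free element of Y lies in some row).
Case 1: lev = L. s' = {s with col := some c} (Z = 0): cola: act c, second part vacuous; za: the summand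
is if some c = some v then 0 else 0 = 0, same as before; coln vacuous; everything else unchanged.
Case 2: lev < L and there is an active c with l c = lev: s' = {s with col := some c}; the same.
Case 3: lev < L and all active v have l v ≠ lev, so l v = lev + 1 by la and l1. Let m = nact. New state
s' = {s with col := some c, lev := lev + 1, comp := 0, M := m}. za as before (Z = 0). cola: l c = lev + 1.
levb: lev + 1 ≤ L. la: l v = lev + 1 for active v. l1: l v ≤ lev + 1 ≤ lev + 2 for all v. l2: l v ≤ lev + 1 (old l1).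
l3: no v has lev + 1 < l v. bud: 0 + 0 + o + H m ≤ (1 + d) f + H m as o ≤ f. Mb: every active v has
lev < l v, so m ≤ #{v : lev < l v} ≤ comp ≤ Gl (lev + 1) by l3 and FACT.
-/

namespace AF

open Finset

variable {V E : Type} [Fintype V] [DecidableEq V] [DecidableEq E]

theorem compb (p : RP V E) (C : Finset E → Finset E → (V → ℕ) → Prop) (d o : ℕ) (A F : Finset E)
    (s : RSt V) (h : ROK p C d o A F s) (hd : d ≤ p.K) :
    s.comp ≤ Gl (Fintype.card V) p.f p.K p.H (s.lev + 1) := by
  show s.comp ≤ ((1 + p.K) * p.f + p.H * Gl (Fintype.card V) p.f p.K p.H s.lev) / (p.f + 1)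
  rw [Nat.le_div_iff_mul_le (by omega : 0 < p.f + 1)]
  have h1 := h.bud
  have h2 : p.H * s.M ≤ p.H * Gl (Fintype.card V) p.f p.K p.H s.lev :=
    Nat.mul_le_mul_left _ h.Mb
  have h3 : (1 + d) * p.f ≤ (1 + p.K) * p.f := Nat.mul_le_mul_right _ (by omega)
  have h4 : s.comp * (p.f + 1) = (p.f + 1) * s.comp := Nat.mul_comm _ _
  omega

theorem rcol (p : RP V E) (C : Finset E → Finset E → (V → ℕ) → Prop) (d o : ℕ) (A F : Finset E)
    (s : RSt V) (h : ROK p C d o A F s) (ho : o ≤ p.f) (hd : d ≤ p.K)
    (hfree : (p.Y \ (A ∪ F)).Nonempty) :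
    ∃ s', ROK p C d o A F s' ∧ s'.col ≠ none := by
  classical
  by_cases hcol : s.col = none
  swap
  · exact ⟨s, h, hcol⟩
  have hZ : s.Z = 0 := h.coln hcol
  have hact : ∃ c, act p A F c := by
    obtain ⟨g, hg⟩ := hfree
    rw [mem_sdiff] at hg
    obtain ⟨v, -, hv⟩ := mem_biUnion.1 hg.1
    exact ⟨v, g, mem_sdiff.2 ⟨hv, hg.2⟩⟩
  have hza : ∀ (c : V) v, act p A F v → s.z v = s.l v * (p.f + 1) +
      (if some c = some v then s.Z else 0) := by
    intro c v hv
    have h1 := h.za v hv
    rw [hZ, ite_self] at h1 ⊢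
    exact h1
  by_cases hc : ∃ c, act p A F c ∧ (s.lev < p.L → s.l c = s.lev)
  · obtain ⟨c, hc1, hc2⟩ := hc
    refine ⟨{ s with col := some c }, ⟨h.hA, h.hF, h.hAF, h.ctl, h.ub, h.lb, h.yb, h.zb, hza c,
      ?_, ?_, h.Zb, h.levb, h.la, h.l1, h.l2, h.l3, h.bud, h.Mb⟩, ?_⟩
    · intro c' hc'
      have h1 : c = c' := Option.some.inj hc'
      subst h1
      exact ⟨hc1, hc2⟩
    · intro h1
      exact absurd h1 (by simp)
    · simp
  · push Not at hc
    obtain ⟨c, hc1⟩ := hact
    obtain ⟨hlev, -⟩ := hc c hc1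
    have hla : ∀ v, act p A F v → s.lev + 1 ≤ s.l v := by
      intro v hv
      have h1 := h.la v hv
      have h2 := (hc v hv).2
      omega
    have hl1 := h.l1 hlev
    refine ⟨{ s with col := some c, lev := s.lev + 1, comp := 0, M := nact p A F },
      ⟨h.hA, h.hF, h.hAF, h.ctl, h.ub, h.lb, h.yb, h.zb, hza c, ?_, ?_, h.Zb, hlev, hla, ?_, ?_,
      ?_, ?_, ?_⟩, ?_⟩
    · intro c' hc'
      have h1 : c = c' := Option.some.inj hc'
      subst h1
      refine ⟨hc1, fun _ => ?_⟩
      have h1 := hla c hc1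
      have h2 := hl1 c
      show s.l c = s.lev + 1
      omega
    · intro h1
      exact absurd h1 (by simp)
    · intro _ v
      have h2 := hl1 v
      show s.l v ≤ s.lev + 1 + 1
      omega
    · intro v
      exact hl1 v
    · show (Finset.univ.filter (fun v => s.lev + 1 < s.l v)).card ≤ 0
      rw [Nat.le_zero, card_eq_zero, filter_eq_empty_iff]
      intro v _
      have h2 := hl1 v
      omega
    · show (p.f + 1) * 0 + s.Z + o + p.H * nact p A F ≤ (1 + d) * p.f + p.H * nact p A F
      have h2 : p.f ≤ (1 + d) * p.f := Nat.le_mul_of_pos_left _ (by omega)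
      rw [hZ]
      omega
    · show nact p A F ≤ Gl (Fintype.card V) p.f p.K p.H (s.lev + 1)
      refine le_trans ?_ (compb p C d o A F s h hd)
      refine le_trans (card_le_card ?_) h.l3
      intro v hv
      rw [mem_filter] at hv ⊢
      exact ⟨mem_univ v, hla v hv.2⟩
    · simp

end AF
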