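import Pool.Agent.Lib.MP_991c8b_co.R2

/-!
# R3: dumping

PROOF of rone. Let s.col = some c, c is active: choose g ∈ O c \ (A ∪ F), F' = insert g F. Rows are disjoint, so
F' ∩ O v = F ∩ O v for v ≠ c, and |F' ∩ O c| = |F ∩ O c| + 1. Active rows for (A, F') are active for (A, F);
nact' ≤ nact. C A F' x by hC.mono (F' = F ∪ {g}). In all cases z' = z with z' c = z c + 1.
 Case 1: Z < f and c is still active: s' = {s with z := z', Z := Z + 1}. za for c: l c (f+1) + Z + 1. za for v ≠ c active:
 col ≠ some v, unchanged. zb for c: l c (f+1) + Z + 1 ≤ (l c + 1)(f+1). bud: Z + 1 + o = Z + (o + 1).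
 Case 2: Z < f and c is not active any more: s' = {s with z := z', col := none, Z := 0}. za only for active v ≠ c;
 zb for c as before; bud gets smaller.
 Case 3: Z = f: completion: s' = {s with z := z', l := l with l' c = l c + 1, col := none, Z := 0, comp := comp + 1}.
 za for c (if active): z c + 1 = l c (f+1) + f + 1 = l' c (f+1) + 0. zb: fine. la: fine. l1: lev < L → l c = lev (cola), so
 l' c = lev + 1. l2: l' c ≤ lev + comp + 1. l3: {v : lev < l' v} ⊆ {v : lev < l v} ∪ {c}. bud:
 (f+1)(comp+1) + 0 + o = (f+1) comp + f + (o + 1).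
 ub, lb: both sides grow by one for the row c.
PROOF of rloop: induction on o. If o = 0 or nothing is free: B = ∅; decreasing o keeps ROK (only bud contains o).
Otherwise rcol, rone, and the induction hypothesis for (A, insert g F); B = insert g B'. Number:
min (o+1) (free) = 1 + min o (free - 1).
-/

namespace AF

open Finset

variable {V E : Type} [Fintype V] [DecidableEq V] [DecidableEq E]

theorem rone (p : RP V E) (hp : p.Valid) (C : Finset E → Finset E → (V → ℕ) → Prop)
    (hC : CtlOK p C) (d o : ℕ) (A F : Finset E) (s : RSt V) (h : ROK p C d (o + 1) A F s)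
    (hcol : s.col ≠ none) :
    ∃ g ∈ p.Y \ (A ∪ F), ∃ s', ROK p C d o A (insert g F) s' := by
  classical
  obtain ⟨c, hc⟩ := Option.ne_none_iff_exists'.1 hcol
  obtain ⟨hcact, hclev⟩ := h.cola c hc
  obtain ⟨g, hg⟩ := hcact
  obtain ⟨hgc, hgAF⟩ := mem_sdiff.1 hg
  have hgA : g ∉ A := fun h => hgAF (mem_union_left _ h)
  have hgF : g ∉ F := fun h => hgAF (mem_union_right _ h)
  have hgY : g ∈ p.Y := mem_biUnion.2 ⟨c, mem_univ c, hgc⟩
  have hcact : act p A F c := ⟨g, hg⟩
  refine ⟨g, mem_sdiff.2 ⟨hgY, hgAF⟩, ?_⟩
  have hF' : insert g F ⊆ p.Y := insert_subset hgY h.hF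
  have hAF' : Disjoint A (insert g F) := disjoint_insert_right.2 ⟨hgA, h.hAF⟩
  have hctl : C A (insert g F) s.x := by
    have h1 := hC.mono A F s.x {g} h.ctl (singleton_subset_iff.2 (mem_sdiff.2 ⟨hgY, hgAF⟩))
    rwa [union_comm, ← insert_eq] at h1
  have hact' : ∀ v, act p A (insert g F) v → act p A F v := by
    rintro v ⟨e, he⟩
    refine ⟨e, ?_⟩
    rw [mem_sdiff] at he ⊢
    refine ⟨he.1, fun h1 => he.2 ?_⟩
    rcases mem_union.1 h1 with h1 | h1
    · exact mem_union_left _ h1
    · exact mem_union_right _ (mem_insert_of_mem h1)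
  have hnact : nact p A (insert g F) ≤ nact p A F := by
    unfold nact
    refine card_le_card ?_
    intro v hv
    rw [mem_filter] at hv ⊢
    exact ⟨hv.1, hact' v hv.2⟩
  have hHn : p.H * nact p A (insert g F) ≤ p.H * nact p A F := Nat.mul_le_mul_left _ hnact
  have hcardc : (insert g F ∩ p.O c).card = (F ∩ p.O c).card + 1 := by
    rw [insert_inter_of_mem hgc, card_insert_of_notMem]
    exact fun h1 => hgF (mem_inter.1 h1).1
  have hcardv : ∀ v, v ≠ c → insert g F ∩ p.O v = F ∩ p.O v := by
    intro v hv
    rw [insert_inter_of_notMem]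
    intro h1
    exact (disjoint_left.1 (hp.dis c v (fun h => hv h.symm)) hgc) h1
  obtain ⟨z', hz'⟩ : ∃ z' : V → ℕ, z' = fun v => if v = c then s.z c + 1 else s.z v := ⟨_, rfl⟩
  have hzc : z' c = s.z c + 1 := by
    rw [hz']
    simp
  have hzv : ∀ v, v ≠ c → z' v = s.z v := by
    intro v hv
    rw [hz']
    simp [hv]
  have hub : ∀ v, (insert g F ∩ p.O v).card ≤ p.f * (A ∩ p.O v).card + s.x v + z' v := by
    intro v
    have h1 := h.ub v
    by_cases hv : v = c
    · subst hv
      rw [hcardc, hzc]
      omega
    · rw [hcardv v hv, hzv v hv]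
      exact h1
  have hlb : ∀ v, act p A (insert g F) v → p.f * (A ∩ p.O v).card + s.x v + z' v ≤
      (insert g F ∩ p.O v).card + p.f1 * (A ∩ p.O v).card := by
    intro v hv0
    have h1 := h.lb v (hact' v hv0)
    by_cases hv : v = c
    · subst hv
      rw [hcardc, hzc]
      omega
    · rw [hcardv v hv, hzv v hv]
      exact h1
  have hzac : s.z c = s.l c * (p.f + 1) + s.Z := by
    have h1 := h.za c hcact
    rw [hc, if_pos rfl] at h1
    exact h1
  have hzav : ∀ v, v ≠ c → act p A F v → s.z v = s.l v * (p.f + 1) := by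
    intro v hv hv0
    have h1 := h.za v hv0
    rw [hc, if_neg (fun h2 => hv (Option.some.inj h2).symm)] at h1
    exact h1
  have hZf := h.Zb
  have hbud := h.bud
  have hexp : ∀ k : ℕ, (k + 1) * (p.f + 1) = k * (p.f + 1) + (p.f + 1) := fun k => by ring
  by_cases hZ : s.Z < p.f
  · by_cases hc' : act p A (insert g F) c
    · refine ⟨{ s with z := z', Z := s.Z + 1 }, ⟨h.hA, hF', hAF', hctl, hub, hlb, h.yb, ?_, ?_, ?_,
        ?_, hZ, h.levb, fun v hv => h.la v (hact' v hv), h.l1, h.l2, h.l3, ?_, h.Mb⟩⟩
      · intro v
        show z' v ≤ (s.l v + 1) * (p.f + 1)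
        by_cases hv : v = c
        · subst hv
          rw [hzc, hzac, hexp]
          omega
        · rw [hzv v hv]
          exact h.zb v
      · intro v hv0
        show z' v = s.l v * (p.f + 1) + (if s.col = some v then s.Z + 1 else 0)
        by_cases hv : v = c
        · subst hv
          rw [hzc, hzac, hc, if_pos rfl]
          omega
        · rw [hzv v hv, hzav v hv (hact' v hv0), hc,
            if_neg (fun h2 => hv (Option.some.inj h2).symm)]
          rfl
      · intro c' hc1
        have h2 : c = c' := by
          have h3 : s.col = some c' := hc1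
          rw [hc] at h3
          exact Option.some.inj h3
        subst h2
        exact ⟨hc', hclev⟩
      · intro h1
        exact absurd h1 hcol
      · show (p.f + 1) * s.comp + (s.Z + 1) + o + p.H * nact p A (insert g F) ≤
          (1 + d) * p.f + p.H * s.M
        omega
    · refine ⟨{ s with z := z', col := none, Z := 0 }, ⟨h.hA, hF', hAF', hctl, hub, hlb, h.yb, ?_,
        ?_, ?_, fun _ => rfl, Nat.zero_le _, h.levb, fun v hv => h.la v (hact' v hv), h.l1, h.l2,
        h.l3, ?_, h.Mb⟩⟩
      · intro v
        show z' v ≤ (s.l v + 1) * (p.f + 1)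
        by_cases hv : v = c
        · subst hv
          rw [hzc, hzac, hexp]
          omega
        · rw [hzv v hv]
          exact h.zb v
      · intro v hv0
        show z' v = s.l v * (p.f + 1) + (if (none : Option V) = some v then 0 else 0)
        have hv : v ≠ c := by
          rintro rfl
          exact hc' hv0
        rw [hzv v hv, hzav v hv (hact' v hv0), ite_self]
        rfl
      · intro c' hc1
        exact absurd hc1 (by simp)
      · show (p.f + 1) * s.comp + 0 + o + p.H * nact p A (insert g F) ≤
          (1 + d) * p.f + p.H * s.M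
        omega
  · have hZe : s.Z = p.f := by omega
    obtain ⟨l', hl'⟩ : ∃ l' : V → ℕ, l' = fun v => if v = c then s.l c + 1 else s.l v := ⟨_, rfl⟩
    have hlc : l' c = s.l c + 1 := by
      rw [hl']
      simp
    have hlv : ∀ v, v ≠ c → l' v = s.l v := by
      intro v hv
      rw [hl']
      simp [hv]
    refine ⟨{ s with z := z', l := l', col := none, Z := 0, comp := s.comp + 1 }, ⟨h.hA, hF', hAF',
      hctl, hub, hlb, h.yb, ?_, ?_, ?_, fun _ => rfl, Nat.zero_le _, h.levb, ?_, ?_, ?_, ?_, ?_,
      h.Mb⟩⟩
    · intro v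
      show z' v ≤ (l' v + 1) * (p.f + 1)
      by_cases hv : v = c
      · subst hv
        rw [hzc, hzac, hlc, hexp, hexp]
        omega
      · rw [hzv v hv, hlv v hv]
        exact h.zb v
    · intro v hv0
      show z' v = l' v * (p.f + 1) + (if (none : Option V) = some v then 0 else 0)
      by_cases hv : v = c
      · subst hv
        rw [hzc, hzac, hlc, hexp, ite_self]
        omega
      · rw [hzv v hv, hlv v hv, hzav v hv (hact' v hv0), ite_self]
        rfl
    · intro c' hc1
      exact absurd hc1 (by simp)
    · intro v hv0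
      show s.lev ≤ l' v
      have h1 := h.la v (hact' v hv0)
      by_cases hv : v = c
      · subst hv
        rw [hlc]
        omega
      · rw [hlv v hv]
        exact h1
    · intro hlev v
      show l' v ≤ s.lev + 1
      have hlev' : s.lev < p.L := hlev
      by_cases hv : v = c
      · subst hv
        rw [hlc, hclev hlev']
      · rw [hlv v hv]
        exact h.l1 hlev' v
    · intro v
      show l' v ≤ s.lev + (s.comp + 1)
      have h1 := h.l2 v
      by_cases hv : v = c
      · subst hv
        rw [hlc]
        omega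
      · rw [hlv v hv]
        omega
    · show (Finset.univ.filter (fun v => s.lev < l' v)).card ≤ s.comp + 1
      have h1 : Finset.univ.filter (fun v => s.lev < l' v) ⊆
          insert c (Finset.univ.filter (fun v => s.lev < s.l v)) := by
        intro v hv
        by_cases hvc : v = c
        · rw [hvc]
          exact mem_insert_self _ _
        · refine mem_insert_of_mem ?_
          rw [mem_filter] at hv ⊢
          rw [hlv v hvc] at hv
          exact hv
      exact (card_le_card h1).trans ((card_insert_le _ _).trans (Nat.succ_le_succ h.l3))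
    · show (p.f + 1) * (s.comp + 1) + 0 + o + p.H * nact p A (insert g F) ≤
        (1 + d) * p.f + p.H * s.M
      rw [Nat.mul_succ]
      omega

theorem rloop (p : RP V E) (hp : p.Valid) (C : Finset E → Finset E → (V → ℕ) → Prop)
    (hC : CtlOK p C) (d o : ℕ) (A F : Finset E) (s : RSt V) (h : ROK p C d o A F s)
    (ho : o ≤ p.f) (hd : d ≤ p.K) :
    ∃ B ⊆ p.Y \ (A ∪ F), B.card = min o (p.Y \ (A ∪ F)).card ∧
      ∃ s', ROK p C d 0 A (F ∪ B) s' := by
  classical
  induction o generalizing F s with
  | zero =>
    refine ⟨∅, empty_subset _, by simp, s, ?_⟩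
    rw [union_empty]
    exact h
  | succ o ih =>
    by_cases hfree : (p.Y \ (A ∪ F)).Nonempty
    · obtain ⟨s1, h1, h2⟩ := rcol p C d (o + 1) A F s h ho hd hfree
      obtain ⟨g, hg, s2, h3⟩ := rone p hp C hC d o A F s1 h1 h2
      obtain ⟨B', hB', hcard, s3, h4⟩ := ih (insert g F) s2 h3 (by omega)
      have herase : p.Y \ (A ∪ insert g F) = (p.Y \ (A ∪ F)).erase g := by
        ext e
        simp only [mem_sdiff, mem_union, mem_insert, mem_erase]
        tauto
      have hgB : g ∉ B' := by
        intro hgB
        have := hB' hgB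
        rw [herase] at this
        exact (mem_erase.1 this).1 rfl
      have hpos : 0 < (p.Y \ (A ∪ F)).card := card_pos.2 hfree
      refine ⟨insert g B', ?_, ?_, s3, ?_⟩
      · refine insert_subset hg (hB'.trans ?_)
        rw [herase]
        exact erase_subset _ _
      · rw [card_insert_of_notMem hgB, hcard, herase, card_erase_of_mem hg]
        omega
      · have h5 : F ∪ insert g B' = insert g F ∪ B' := by
          ext e
          simp only [mem_union, mem_insert]
          tauto
        rw [h5]
        exact h4
    · rw [not_nonempty_iff_eq_empty] at hfree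
      refine ⟨∅, empty_subset _, by rw [hfree]; simp, s, ?_⟩
      rw [union_empty]
      refine ⟨h.hA, h.hF, h.hAF, h.ctl, h.ub, h.lb, h.yb, h.zb, h.za, h.cola, h.coln, h.Zb, h.levb,
        h.la, h.l1, h.l2, h.l3, ?_, h.Mb⟩
      have := h.bud
      omega

end AF
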