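import Pool.Agent.Lib.MP_991c8b_co.Defs

/-!
# T1: greedy hitting set

PROOF. Claim: for every j there is H ⊆ U, |H| ≤ j such that the number N_j of the S ∈ 𝓕 with S ∩ H = ∅ satisfies
N_j q^j ≤ |𝓕| (q-1)^j. Step: 𝓕' = {S ∈ 𝓕 : S ∩ H = ∅}; if 𝓕' = ∅ keep H. Otherwise ∑_(u ∈ U) #{S ∈ 𝓕' : u ∈ S} = ∑_(S ∈ 𝓕') |S| and
q ∑ |S| ≥ |𝓕'| |U|, so some u ∈ U (U ≠ ∅) has q #{S ∈ 𝓕' : u ∈ S} ≥ |𝓕'|; H' = insert u H; the new number is
N' ≤ N_j - N_j / q, q N' ≤ (q-1) N_j. For j = q m: (q-1)^(q m) 2^m ≤ q^(q m), because 2 (q-1)^q ≤ q^q (q ≥ 1: (1 - 1/q)^q ≤ exp(-1) ≤ 1/2).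
So N q^(qm) 2^m ≤ |𝓕| q^(qm), N 2^m ≤ |𝓕| < 2^m, N = 0.
-/

namespace AF

open Finset

theorem T1_step {E : Type} [DecidableEq E] (U : Finset E) (𝓕 : Finset (Finset E)) (q : ℕ)
    (hq : 1 ≤ q) (h1 : ∀ S ∈ 𝓕, S ⊆ U ∧ S.Nonempty ∧ U.card ≤ q * S.card) (hne : 𝓕.Nonempty) :
    ∃ u ∈ U, 𝓕.card ≤ q * (𝓕.filter (fun S => u ∈ S)).card := by
  by_contra hcon
  push Not at hcon
  obtain ⟨S0, hS0⟩ := hne
  have hU : U.Nonempty := by
    obtain ⟨x, hx⟩ := (h1 S0 hS0).2.1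
    exact ⟨x, (h1 S0 hS0).1 hx⟩
  have hdc : ∑ u ∈ U, (𝓕.filter (fun S => u ∈ S)).card = ∑ S ∈ 𝓕, S.card := by
    have h2 := Finset.sum_card_bipartiteAbove_eq_sum_card_bipartiteBelow (s := U) (t := 𝓕)
      (fun (u : E) (S : Finset E) => u ∈ S)
    unfold Finset.bipartiteAbove Finset.bipartiteBelow at h2
    rw [h2]
    refine Finset.sum_congr rfl fun S hS => ?_
    congr 1
    ext u
    rw [Finset.mem_filter]
    exact ⟨fun h => h.2, fun h => ⟨(h1 S hS).1 h, h⟩⟩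
  have h3 : ∑ u ∈ U, q * (𝓕.filter (fun S => u ∈ S)).card < ∑ _u ∈ U, 𝓕.card :=
    Finset.sum_lt_sum_of_nonempty hU fun u hu => hcon u hu
  rw [← Finset.mul_sum, hdc, Finset.sum_const, smul_eq_mul] at h3
  have h4 : ∑ _S ∈ 𝓕, U.card ≤ ∑ S ∈ 𝓕, q * S.card := Finset.sum_le_sum fun S hS => (h1 S hS).2.2
  rw [← Finset.mul_sum, Finset.sum_const, smul_eq_mul] at h4
  have h5 := mul_comm U.card 𝓕.card
  rw [h5] at h3
  omega

theorem T1_claim {E : Type} [DecidableEq E] (U : Finset E) (𝓕 : Finset (Finset E)) (q : ℕ)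
    (hq : 1 ≤ q) (h1 : ∀ S ∈ 𝓕, S ⊆ U ∧ S.Nonempty ∧ U.card ≤ q * S.card) (j : ℕ) :
    ∃ H ⊆ U, H.card ≤ j ∧ (𝓕.filter (fun S => ¬ (S ∩ H).Nonempty)).card * q ^ j ≤
      𝓕.card * (q - 1) ^ j := by
  induction j with
  | zero =>
    refine ⟨∅, Finset.empty_subset _, by simp, ?_⟩
    simp
  | succ j ih =>
    obtain ⟨H, hHU, hHj, hN⟩ := ih
    set 𝓖 := 𝓕.filter (fun S => ¬ (S ∩ H).Nonempty) with h𝓖
    by_cases hne : 𝓖.Nonempty
    · obtain ⟨u, huU, hu⟩ := T1_step U 𝓖 q hq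
        (fun S hS => h1 S (Finset.mem_filter.1 hS).1) hne
      refine ⟨insert u H, Finset.insert_subset huU hHU, (Finset.card_insert_le _ _).trans (by omega), ?_⟩
      have hle : (𝓕.filter (fun S => ¬ (S ∩ insert u H).Nonempty)).card +
          (𝓖.filter (fun S => u ∈ S)).card ≤ 𝓖.card := by
        rw [← Finset.card_union_of_disjoint]
        · refine Finset.card_le_card ?_
          intro S hS
          rcases Finset.mem_union.1 hS with h | h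
          · rw [Finset.mem_filter] at h
            rw [h𝓖, Finset.mem_filter]
            refine ⟨h.1, fun hn => h.2 ?_⟩
            obtain ⟨x, hx⟩ := hn
            rw [Finset.mem_inter] at hx
            exact ⟨x, Finset.mem_inter.2 ⟨hx.1, Finset.mem_insert_of_mem hx.2⟩⟩
          · exact (Finset.mem_filter.1 h).1
        · rw [Finset.disjoint_left]
          intro S hS hS'
          rw [Finset.mem_filter] at hS hS'
          exact hS.2 ⟨u, Finset.mem_inter.2 ⟨hS'.2, Finset.mem_insert_self _ _⟩⟩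
      generalize (𝓕.filter (fun S => ¬ (S ∩ insert u H).Nonempty)).card = N' at hle ⊢
      generalize (𝓖.filter (fun S => u ∈ S)).card = M at hle hu
      generalize 𝓖.card = N at *
      obtain ⟨q', rfl⟩ : ∃ q', q = q' + 1 := ⟨q - 1, by omega⟩
      rw [Nat.add_sub_cancel] at *
      have h5 : N' * (q' + 1) ≤ N * q' := by nlinarith
      calc N' * (q' + 1) ^ (j + 1) = (N' * (q' + 1)) * (q' + 1) ^ j := by ring
        _ ≤ (N * q') * (q' + 1) ^ j := Nat.mul_le_mul_right _ h5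
        _ = (N * (q' + 1) ^ j) * q' := by ring
        _ ≤ (𝓕.card * q' ^ j) * q' := Nat.mul_le_mul_right _ hN
        _ = 𝓕.card * q' ^ (j + 1) := by ring
    · refine ⟨H, hHU, by omega, ?_⟩
      rw [Finset.not_nonempty_iff_eq_empty] at hne
      rw [← h𝓖, hne]
      simp

theorem T1_bern (a n : ℕ) : a ^ (n + 1) + (n + 1) * a ^ n ≤ (a + 1) ^ (n + 1) := by
  induction n with
  | zero => simp
  | succ n ih =>
    have h1 := Nat.mul_le_mul_left (a + 1) ih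
    calc a ^ (n + 1 + 1) + (n + 1 + 1) * a ^ (n + 1) ≤
          a ^ (n + 1 + 1) + (n + 1 + 1) * a ^ (n + 1) + (n + 1) * a ^ n := Nat.le_add_right _ _
      _ = (a + 1) * (a ^ (n + 1) + (n + 1) * a ^ n) := by ring
      _ ≤ (a + 1) * (a + 1) ^ (n + 1) := h1
      _ = (a + 1) ^ (n + 1 + 1) := by ring

theorem T1_pow (q : ℕ) (hq : 1 ≤ q) : 2 * (q - 1) ^ q ≤ q ^ q := by
  obtain ⟨q', rfl⟩ : ∃ q', q = q' + 1 := ⟨q - 1, by omega⟩
  rw [Nat.add_sub_cancel]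
  have h := T1_bern q' q'
  have h2 : q' ^ (q' + 1) ≤ (q' + 1) * q' ^ q' := by
    rw [pow_succ, mul_comm]
    exact Nat.mul_le_mul_right _ (Nat.le_succ _)
  omega

theorem hitting {E : Type} [DecidableEq E] (U : Finset E) (𝓕 : Finset (Finset E)) (q m : ℕ)
    (hq : 1 ≤ q) (h1 : ∀ S ∈ 𝓕, S ⊆ U ∧ S.Nonempty ∧ U.card ≤ q * S.card)
    (hc : 𝓕.card < 2 ^ m) :
    ∃ H ⊆ U, H.card ≤ q * m ∧ ∀ S ∈ 𝓕, (S ∩ H).Nonempty := by
  obtain ⟨H, hHU, hHc, hN⟩ := T1_claim U 𝓕 q hq h1 (q * m)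
  refine ⟨H, hHU, hHc, ?_⟩
  have hpow : (q - 1) ^ (q * m) * 2 ^ m ≤ q ^ (q * m) := by
    rw [pow_mul, pow_mul, ← mul_pow]
    refine Nat.pow_le_pow_left ?_ m
    rw [mul_comm]
    exact T1_pow q hq
  have h2 : (𝓕.filter (fun S => ¬ (S ∩ H).Nonempty)).card = 0 := by
    by_contra hpos
    have hqpos : 0 < q ^ (q * m) := by positivity
    generalize (𝓕.filter (fun S => ¬ (S ∩ H).Nonempty)).card = N at *
    have h3 : N * q ^ (q * m) * 2 ^ m ≤ 𝓕.card * q ^ (q * m) := by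
      calc N * q ^ (q * m) * 2 ^ m ≤ 𝓕.card * (q - 1) ^ (q * m) * 2 ^ m := Nat.mul_le_mul_right _ hN
        _ = 𝓕.card * ((q - 1) ^ (q * m) * 2 ^ m) := by ring
        _ ≤ 𝓕.card * q ^ (q * m) := Nat.mul_le_mul_left _ hpow
    have h4 : N * 2 ^ m ≤ 𝓕.card := by
      have h5 : (N * 2 ^ m) * q ^ (q * m) ≤ 𝓕.card * q ^ (q * m) := by
        calc (N * 2 ^ m) * q ^ (q * m) = N * q ^ (q * m) * 2 ^ m := by ring
          _ ≤ _ := h3
      exact Nat.le_of_mul_le_mul_right h5 hqpos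
    have h6 : 2 ^ m ≤ N * 2 ^ m := Nat.le_mul_of_pos_left _ (Nat.pos_of_ne_zero hpos)
    omega
  intro S hS
  by_contra hcon
  have : S ∈ 𝓕.filter (fun S => ¬ (S ∩ H).Nonempty) := Finset.mem_filter.2 ⟨hS, hcon⟩
  rw [Finset.card_eq_zero.1 h2] at this
  exact absurd this (Finset.notMem_empty S)

end AF
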